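import Pool.Agent.H97.NW.ZD
import Pool.Agent.H4.AR.Shift

/-! # [H97 NW CVZ] Two representations of polynomials in two variables

`toB = (Bivariate.equivMvPolynomial ℤ).symm` maps `X 0` to `C X` and `X 1` to `X` (`equivMvPolynomial_symm_X_0`, `_X_1`, `_C`).
`toB_coeff`: linear in `f`; check on monomials (`MvPolynomial.induction_on'` or `monomial_eq`): `toB (monomial e a) = C (C a * X ^ e 0) * X ^ e 1`.
`toB_nat`, `toB_L2`, `ofB_deg`: from `toB_coeff`; `f.support` corresponds to the pairs of exponents (`Finset.sum_bij`), `natDegree_le_iff_coeff_eq_zero`, `MvPolynomial.degreeOf_le_iff`.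
`toB_Lam`, `toB_tr`: both sides are ring homomorphisms in `f` (`MvPolynomial.ringHom_ext`), check on constants, `X 0`, `X 1`. -/

namespace Pool.Agent.H97.NW

open Finset Polynomial Pool.Agent.H72.ES H4AR

/-- from two variables to the iterated polynomial ring -/
noncomputable def toB : MvPolynomial (Fin 2) ℤ ≃ₐ[ℤ] ℤ[X][X] := (Bivariate.equivMvPolynomial ℤ).symm

private theorem toB_C (a : ℤ) : toB (MvPolynomial.C a) = C (C a) :=
  Bivariate.equivMvPolynomial_symm_C a

private theorem toB_X0 : toB (MvPolynomial.X 0) = C X := Bivariate.equivMvPolynomial_symm_X_0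

private theorem toB_X1 : toB (MvPolynomial.X 1) = X := Bivariate.equivMvPolynomial_symm_X_1

private theorem cvz_eq (e : Fin 2 →₀ ℕ) (i j : ℕ) :
    e = Finsupp.single 0 i + Finsupp.single 1 j ↔ e 0 = i ∧ e 1 = j := by
  constructor
  · intro h
    rw [h]
    simp
  · rintro ⟨h0, h1⟩
    ext v
    fin_cases v
    · simp [h0]
    · simp [h1]

theorem toB_coeff (f : MvPolynomial (Fin 2) ℤ) (i j : ℕ) :
    ((toB f).coeff j).coeff i = f.coeff (Finsupp.single 0 i + Finsupp.single 1 j) := by
  classical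
  induction f using MvPolynomial.induction_on' with
  | monomial e a =>
    have h1 : toB (MvPolynomial.monomial e a) = C (C a * X ^ (e 0)) * X ^ (e 1) := by
      rw [MvPolynomial.monomial_eq, Finsupp.prod_fintype _ _ (fun _ => pow_zero _),
        Fin.prod_univ_two, map_mul, map_mul, map_pow, map_pow, toB_C, toB_X0, toB_X1, C_mul, C_pow]
      ring
    rw [h1, coeff_C_mul_X_pow, MvPolynomial.coeff_monomial]
    by_cases hj : j = e 1
    · rw [if_pos hj, coeff_C_mul_X_pow]
      by_cases hi : i = e 0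
      · rw [if_pos hi, if_pos ((cvz_eq e i j).2 ⟨hi.symm, hj.symm⟩)]
      · rw [if_neg hi, if_neg fun h => hi ((cvz_eq e i j).1 h).1.symm]
    · rw [if_neg hj, if_neg fun h => hj ((cvz_eq e i j).1 h).2.symm, coeff_zero]
  | add p q hp hq => rw [map_add, coeff_add, coeff_add, MvPolynomial.coeff_add, hp, hq]

private theorem toB_coeff' (f : MvPolynomial (Fin 2) ℤ) (e : Fin 2 →₀ ℕ) :
    ((toB f).coeff (e 1)).coeff (e 0) = f.coeff e := by
  rw [toB_coeff, ← (cvz_eq e (e 0) (e 1)).2 ⟨rfl, rfl⟩]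

theorem toB_L2 (f : MvPolynomial (Fin 2) ℤ) : L2 (toB f) = l1 f := by
  classical
  unfold L2 L1 l1
  rw [Finset.sum_sigma']
  refine Finset.sum_bij' (fun x _ => Finsupp.single 0 x.2 + Finsupp.single 1 x.1)
    (fun e _ => ⟨e 1, e 0⟩) ?_ ?_ ?_ ?_ ?_
  · rintro ⟨j, i⟩ h
    rw [Finset.mem_sigma, Polynomial.mem_support_iff, Polynomial.mem_support_iff, toB_coeff] at h
    exact MvPolynomial.mem_support_iff.2 h.2
  · intro e he
    rw [MvPolynomial.mem_support_iff, ← toB_coeff'] at he
    rw [Finset.mem_sigma, Polynomial.mem_support_iff, Polynomial.mem_support_iff]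
    refine ⟨fun h => he ?_, he⟩
    show ((toB f).coeff (e 1)).coeff (e 0) = 0
    rw [h, coeff_zero]
  · rintro ⟨j, i⟩ _
    simp
  · intro e _
    exact ((cvz_eq e (e 0) (e 1)).2 ⟨rfl, rfl⟩).symm
  · rintro ⟨j, i⟩ _
    rw [toB_coeff]

theorem toB_nat (f : MvPolynomial (Fin 2) ℤ) : (toB f).natDegree ≤ f.degreeOf 1 := by
  rw [natDegree_le_iff_coeff_eq_zero]
  intro N hN
  ext i
  rw [toB_coeff, coeff_zero]
  by_contra h
  have h1 := MvPolynomial.monomial_le_degreeOf 1 (MvPolynomial.mem_support_iff.2 h)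
  simp at h1
  omega

theorem ofB_deg {D : ℕ} (f : MvPolynomial (Fin 2) ℤ) (h1 : (toB f).natDegree ≤ D)
    (h2 : XD D (toB f)) (v : Fin 2) : f.degreeOf v ≤ D := by
  rw [MvPolynomial.degreeOf_le_iff]
  intro e he
  rw [MvPolynomial.mem_support_iff, ← toB_coeff'] at he
  fin_cases v
  · exact (le_natDegree_of_ne_zero he).trans (h2 _)
  · refine (le_natDegree_of_ne_zero fun h => he ?_).trans h1
    have h' : (toB f).coeff (e 1) = 0 := h
    rw [h', coeff_zero]

theorem toB_Lam (x y : ℤ) (f : MvPolynomial (Fin 2) ℤ) :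
    Lam x y (toB f) = MvPolynomial.eval ![x, y] f := by
  have hX0 : Lam x y (C X) = x := by simp [Lam]
  have hX1 : Lam x y X = y := by simp [Lam]
  induction f using MvPolynomial.induction_on with
  | C a =>
    rw [toB_C, MvPolynomial.eval_C]
    simp [Lam]
  | add p q hp hq => rw [map_add, map_add, map_add, hp, hq]
  | mul_X p v hp =>
    rw [map_mul, map_mul, map_mul, hp, MvPolynomial.eval_X]
    fin_cases v
    · show _ * Lam x y (toB (MvPolynomial.X 0)) = _
      rw [toB_X0, hX0]
      rfl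
    · show _ * Lam x y (toB (MvPolynomial.X 1)) = _
      rw [toB_X1, hX1]
      rfl

private theorem tr_CC (x y a : ℤ) : tr x y (C (C a)) = C (C a) := by
  unfold tr
  rw [RingHom.comp_apply, coe_mapRingHom, map_C]
  show taylor (C y) (C (taylor x (C a))) = _
  rw [taylor_C, taylor_C]

private theorem tr_CX (x y : ℤ) : tr x y (C X) = C X + C (C x) := by
  unfold tr
  rw [RingHom.comp_apply, coe_mapRingHom, map_C]
  show taylor (C y) (C (taylor x X)) = _
  rw [taylor_X, taylor_C, C_add]

private theorem tr_X' (x y : ℤ) : tr x y X = X + C (C y) := by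
  unfold tr
  rw [RingHom.comp_apply, coe_mapRingHom, map_X]
  show taylor (C y) X = _
  rw [taylor_X]

theorem toB_tr (x y : ℤ) (f : MvPolynomial (Fin 2) ℤ) : tr x y (toB f) = toB (sh ![x, y] f) := by
  induction f using MvPolynomial.induction_on with
  | C a => rw [toB_C, sh_C, toB_C, tr_CC]
  | add p q hp hq => rw [map_add, map_add, map_add, map_add, hp, hq]
  | mul_X p v hp =>
    rw [map_mul, map_mul, map_mul, map_mul, hp, sh_X, map_add, toB_C]
    fin_cases v
    · show _ * tr x y (toB (MvPolynomial.X 0)) = _ * (toB (MvPolynomial.X 0) + C (C x))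
      rw [toB_X0, tr_CX]
    · show _ * tr x y (toB (MvPolynomial.X 1)) = _ * (toB (MvPolynomial.X 1) + C (C y))
      rw [toB_X1, tr_X']

end Pool.Agent.H97.NW
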