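import Pool.Agent.H97.NW.CVZ

/-! # [H97 NW IRQ] Irreducible over the integers implies irreducible over the rationals

`p' = toB.symm p` is irreducible, hence prime (UFD), in `MvPolynomial (Fin 2) ℤ`. `MvPolynomial (Fin 2) ℚ` is the localization of `MvPolynomial (Fin 2) ℤ` at the nonzero integers (`MvPolynomial.isLocalization`), the prime ideal `(p')` contains no nonzero integer
(`1 ≤ p.natDegree`, degrees add), so its extension is prime (`IsLocalization.isPrime_of_isPrime_disjoint`) and is generated by `map p'`; so `map p'` is prime (`≠ 0`), hence irreducible.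
(Or directly: if `map p' = f * g`, clear denominators, `m p' = f' g'` in `ℤ[x,y]` with `m` a nonzero integer, and use that `p'` is prime and not associated to a constant.) -/

namespace Pool.Agent.H97.NW

open Finset Polynomial Pool.Agent.H72.ES H4AR

attribute [local instance] MvPolynomial.algebraMvPolynomial in
theorem irr_Q (p : ℤ[X][X]) (hp : Irreducible p) (hd : 1 ≤ p.natDegree) :
    Irreducible (MvPolynomial.map (Int.castRingHom ℚ) (toB.symm p)) := by
  have hp' : Irreducible (toB.symm p) := (MulEquiv.irreducible_iff toB.symm).2 hp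
  have hpr : Prime (toB.symm p) := hp'.prime
  have hI : (Ideal.span {toB.symm p}).IsPrime :=
    (Ideal.span_singleton_prime hpr.ne_zero).2 hpr
  have hloc := MvPolynomial.isLocalization (σ := Fin 2) (nonZeroDivisors ℤ) ℚ
  have hdis : Disjoint (((nonZeroDivisors ℤ).map (MvPolynomial.C (σ := Fin 2) : ℤ →+* _) :
      Submonoid (MvPolynomial (Fin 2) ℤ)) : Set (MvPolynomial (Fin 2) ℤ))
      (Ideal.span {toB.symm p} : Ideal (MvPolynomial (Fin 2) ℤ)) := by
    rw [Set.disjoint_left]
    rintro z ⟨c, hc, rfl⟩ hz
    have hc0 : c ≠ 0 := nonZeroDivisors.ne_zero hc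
    rw [SetLike.mem_coe, Ideal.mem_span_singleton] at hz
    obtain ⟨w, hw⟩ := hz
    have h1 := congrArg toB hw
    rw [map_mul, AlgEquiv.apply_symm_apply] at h1
    have h2 : toB (MvPolynomial.C c) = C (C c) := Bivariate.equivMvPolynomial_symm_C c
    have h3 : C (C c) = p * toB w := h2.symm.trans h1
    have h4 : p ∣ C (C c) := ⟨_, h3⟩
    have h5 := natDegree_le_of_dvd h4 (by
      intro h
      rw [C_eq_zero, C_eq_zero] at h
      exact hc0 h)
    rw [natDegree_C] at h5
    omega
  have h1 := IsLocalization.isPrime_of_isPrime_disjoint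
    ((nonZeroDivisors ℤ).map (MvPolynomial.C (σ := Fin 2) : ℤ →+* _)) (MvPolynomial (Fin 2) ℚ)
    (Ideal.span {toB.symm p}) hI hdis
  rw [Ideal.map_span, Set.image_singleton] at h1
  have h2 : algebraMap (MvPolynomial (Fin 2) ℤ) (MvPolynomial (Fin 2) ℚ) (toB.symm p) =
      MvPolynomial.map (Int.castRingHom ℚ) (toB.symm p) := rfl
  rw [h2] at h1
  have h3 : MvPolynomial.map (Int.castRingHom ℚ) (toB.symm p) ≠ 0 := by
    intro h
    refine hpr.ne_zero ?_
    refine MvPolynomial.map_injective (Int.castRingHom ℚ) (RingHom.injective_int _) ?_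
    rw [h, map_zero]
  exact ((Ideal.span_singleton_prime h3).1 h1).irreducible

end Pool.Agent.H97.NW
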