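import Pool.Agent.H97.NW.ZD

/-! # [H97 NW PGZ] A polynomial of small height through an integer point

`exists_P0`: `Int.Matrix.exists_ne_zero_int_vec_norm_le` (Siegel's lemma in Mathlib, `Mathlib/NumberTheory/SiegelsLemma.lean`) for the `1 × (A+1)²` matrix with entries `x^i y^j`, `0 ≤ i, j ≤ A`:
there is a nonzero integer vector `a` with `∑ a_ij x^i y^j = 0` and `|a_ij| ≤ ((A+1)² max |x^i y^j|)^(1/((A+1)²-1)) ≤ ((A+1)² |x|^A |y|^A)^(1/(A(A+2)))`. `P0 = ∑ C (C a_ij * X^i) * X^j`; `L2 P0 ≤ (A+1)² max |a_ij|`, so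
`log L2 P0 ≤ 2 log (A+1) + (2 log (A+1) + A (log|x| + log|y|)) / (A (A+2)) ≤ (log|x| + log|y|)/A + 4 log (A+1)`.
`exists_irr`: `Lam x y` is a ring homomorphism to the domain `ℤ`, and `P0` is a unit times a product of irreducibles (`UniqueFactorizationMonoid.exists_prime_factors` or `WfDvdMonoid.exists_factors`): one of them is
mapped to `0`. Degrees: `natDegree_le_of_dvd` for the outer degree; for the inner degree use `Bivariate.swap` (a ring isomorphism which exchanges the coefficients, `swap_monomial_monomial`, so that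
`XD D f ↔ (Bivariate.swap f).natDegree ≤ D`): `xd_of_dvd`. -/

namespace Pool.Agent.H97.NW

open Finset Polynomial Pool.Agent.H72.ES

theorem pgz_coeff_swap (f : ℤ[X][X]) (i j : ℕ) :
    ((Bivariate.swap f).coeff i).coeff j = (f.coeff j).coeff i := by
  induction f using Polynomial.induction_on' with
  | add p q hp hq => rw [map_add, coeff_add, coeff_add, coeff_add, coeff_add, hp, hq]
  | monomial n a =>
    induction a using Polynomial.induction_on' with
    | add p q hp hq =>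
      rw [map_add, map_add, coeff_add, coeff_add, coeff_add, coeff_add, hp, hq]
    | monomial k r =>
      rw [Bivariate.swap_monomial_monomial, coeff_monomial, coeff_monomial]
      by_cases h1 : k = i
      · by_cases h2 : n = j
        · rw [if_pos h1, if_pos h2, coeff_monomial, coeff_monomial, if_pos h1, if_pos h2]
        · rw [if_pos h1, if_neg h2, coeff_monomial, coeff_zero, if_neg h2]
      · by_cases h2 : n = j
        · rw [if_neg h1, if_pos h2, coeff_monomial, coeff_zero, if_neg h1]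
        · rw [if_neg h1, if_neg h2, coeff_zero, coeff_zero]

theorem xd_iff (D : ℕ) (f : ℤ[X][X]) : XD D f ↔ (Bivariate.swap f).natDegree ≤ D := by
  unfold XD
  rw [natDegree_le_iff_coeff_eq_zero]
  constructor
  · intro h N hN
    ext j
    rw [pgz_coeff_swap, coeff_eq_zero_of_natDegree_lt (lt_of_le_of_lt (h j) hN), coeff_zero]
  · intro h j
    rw [natDegree_le_iff_coeff_eq_zero]
    intro N hN
    rw [← pgz_coeff_swap, h N hN, coeff_zero]

theorem xd_of_dvd {D : ℕ} {f g : ℤ[X][X]} (hg : g ≠ 0) (h : f ∣ g) (hD : XD D g) : XD D f := by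
  rw [xd_iff] at hD ⊢
  refine (natDegree_le_of_dvd (map_dvd Bivariate.swap h) ?_).trans hD
  intro h0
  exact hg ((map_eq_zero_iff _ (AlgEquiv.injective _)).1 h0)

theorem pgz_Lam (x y : ℤ) (A : ℕ) (T : ℕ → ℕ → ℤ) :
    Lam x y (∑ j ∈ range (A + 1), monomial j (∑ i ∈ range (A + 1), monomial i (T i j))) =
      ∑ j ∈ range (A + 1), (∑ i ∈ range (A + 1), T i j * x ^ i) * y ^ j := by
  rw [map_sum]
  refine sum_congr rfl fun j _ => ?_
  unfold Lam
  rw [coe_eval₂RingHom, eval₂_monomial, coe_eval₂RingHom, eval₂_finsetSum]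
  congr 1
  refine sum_congr rfl fun i _ => ?_
  rw [eval₂_monomial]
  rfl

theorem pgz_coeff (A : ℕ) (T : ℕ → ℕ → ℤ) (hT : ∀ i j, A < i ∨ A < j → T i j = 0) (a b : ℕ) :
    ((∑ j ∈ range (A + 1), monomial j (∑ i ∈ range (A + 1), monomial i (T i j)) :
      ℤ[X][X]).coeff b).coeff a = T a b := by
  rw [finsetSum_coeff]
  simp only [coeff_monomial]
  rw [sum_ite_eq' (range (A + 1)) b]
  by_cases hb : b ∈ range (A + 1)
  · rw [if_pos hb, finsetSum_coeff]
    simp only [coeff_monomial]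
    rw [sum_ite_eq' (range (A + 1)) a]
    by_cases ha : a ∈ range (A + 1)
    · rw [if_pos ha]
    · rw [if_neg ha, hT a b (Or.inl (by rw [mem_range] at ha; omega))]
  · rw [if_neg hb, coeff_zero, hT a b (Or.inr (by rw [mem_range] at hb; omega))]

attribute [local instance] Matrix.seminormedAddCommGroup

theorem pgz_siegel (A : ℕ) (hA : 1 ≤ A) (x y : ℤ) (hx : 2 ≤ |x|) (hy : 2 ≤ |y|) :
    ∃ T : ℕ → ℕ → ℤ, (∀ i j, A < i ∨ A < j → T i j = 0) ∧ (∃ i j, T i j ≠ 0) ∧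
      ∑ j ∈ range (A + 1), (∑ i ∈ range (A + 1), T i j * x ^ i) * y ^ j = 0 ∧
      ∀ i j, |(T i j : ℝ)| ≤ (((A + 1 : ℝ) ^ 2) * (|(x : ℝ)| ^ A * |(y : ℝ)| ^ A)) ^
        ((1 : ℝ) / ((A + 1 : ℝ) ^ 2 - 1)) := by
  have hx1 : (1 : ℝ) ≤ |(x : ℝ)| := by
    have : ((2 : ℤ) : ℝ) ≤ ((|x| : ℤ) : ℝ) := by exact_mod_cast hx
    push_cast at this
    linarith
  have hy1 : (1 : ℝ) ≤ |(y : ℝ)| := by
    have : ((2 : ℤ) : ℝ) ≤ ((|y| : ℤ) : ℝ) := by exact_mod_cast hy
    push_cast at this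
    linarith
  let M : Matrix (Fin 1) (Fin (A + 1) × Fin (A + 1)) ℤ := fun _ s => x ^ (s.1 : ℕ) * y ^ (s.2 : ℕ)
  have hcard : Fintype.card (Fin (A + 1) × Fin (A + 1)) = (A + 1) ^ 2 := by
    rw [Fintype.card_prod, Fintype.card_fin, sq]
  obtain ⟨t, ht0, ht1, ht2⟩ := Int.Matrix.exists_ne_zero_int_vec_norm_le M
    (by rw [hcard, Fintype.card_fin]; nlinarith) (by rw [Fintype.card_fin]; exact Nat.one_pos)
  rw [hcard, Fintype.card_fin] at ht2
  have hW : (1 : ℝ) ≤ |(x : ℝ)| ^ A * |(y : ℝ)| ^ A := by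
    have h1 := one_le_pow₀ (n := A) hx1
    have h2 := one_le_pow₀ (n := A) hy1
    nlinarith
  have hM : ‖M‖ ≤ |(x : ℝ)| ^ A * |(y : ℝ)| ^ A := by
    rw [Matrix.norm_le_iff (by linarith)]
    intro i s
    show ‖x ^ (s.1 : ℕ) * y ^ (s.2 : ℕ)‖ ≤ _
    rw [Int.norm_eq_abs]
    push_cast
    rw [abs_mul, abs_pow, abs_pow]
    have h1 : |(x : ℝ)| ^ (s.1 : ℕ) ≤ |(x : ℝ)| ^ A :=
      pow_le_pow_right₀ hx1 (by have := s.1.2; omega)
    have h2 : |(y : ℝ)| ^ (s.2 : ℕ) ≤ |(y : ℝ)| ^ A :=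
      pow_le_pow_right₀ hy1 (by have := s.2.2; omega)
    exact mul_le_mul h1 h2 (by positivity) (by positivity)
  have hbase : (((A + 1) ^ 2 : ℕ) : ℝ) * max 1 ‖M‖ ≤
      ((A + 1 : ℝ) ^ 2) * (|(x : ℝ)| ^ A * |(y : ℝ)| ^ A) := by
    push_cast
    exact mul_le_mul_of_nonneg_left (max_le hW hM) (by positivity)
  have hexp : (0 : ℝ) ≤ (1 : ℝ) / ((A + 1 : ℝ) ^ 2 - 1) := by
    apply div_nonneg zero_le_one
    have : (0 : ℝ) ≤ (A : ℝ) := Nat.cast_nonneg _
    nlinarith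
  have hbd : ‖t‖ ≤ (((A + 1 : ℝ) ^ 2) * (|(x : ℝ)| ^ A * |(y : ℝ)| ^ A)) ^
        ((1 : ℝ) / ((A + 1 : ℝ) ^ 2 - 1)) := by
    refine ht2.trans ?_
    have h1 : ((1 : ℕ) : ℝ) / ((((A + 1) ^ 2 : ℕ) : ℝ) - ((1 : ℕ) : ℝ)) =
        (1 : ℝ) / ((A + 1 : ℝ) ^ 2 - 1) := by push_cast; ring
    rw [h1]
    exact Real.rpow_le_rpow (by positivity) hbase hexp
  let T : ℕ → ℕ → ℤ := fun i j =>
    if h : i < A + 1 ∧ j < A + 1 then t (⟨i, h.1⟩, ⟨j, h.2⟩) else 0
  have hTt : ∀ i j (hi : i < A + 1) (hj : j < A + 1), T i j = t (⟨i, hi⟩, ⟨j, hj⟩) := by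
    intro i j hi hj
    exact dif_pos ⟨hi, hj⟩
  refine ⟨T, ?_, ?_, ?_, ?_⟩
  · intro i j h
    exact dif_neg (by rintro ⟨h1, h2⟩; omega)
  · by_contra hcon
    push Not at hcon
    apply ht0
    funext s
    obtain ⟨⟨i, hi⟩, ⟨j, hj⟩⟩ := s
    rw [← hTt i j hi hj, hcon i j]
    rfl
  · have h1 := congrFun ht1 0
    have h2 : M.mulVec t 0 = ∑ s : Fin (A + 1) × Fin (A + 1), x ^ (s.1 : ℕ) * y ^ (s.2 : ℕ) * t s :=
      rfl
    rw [h2, Fintype.sum_prod_type_right] at h1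
    rw [← Fin.sum_univ_eq_sum_range (fun j => (∑ i ∈ range (A + 1), T i j * x ^ i) * y ^ j)]
    have h3 : ∀ j : Fin (A + 1), (∑ i ∈ range (A + 1), T i j * x ^ i) * y ^ (j : ℕ) =
        ∑ i : Fin (A + 1), x ^ (i : ℕ) * y ^ (j : ℕ) * t (i, j) := by
      intro j
      rw [← Fin.sum_univ_eq_sum_range (fun i => T i j * x ^ i), sum_mul]
      refine sum_congr rfl fun i _ => ?_
      rw [hTt i j i.2 j.2]
      ring
    rw [sum_congr rfl fun j _ => h3 j]
    exact h1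
  · intro i j
    by_cases h : i < A + 1 ∧ j < A + 1
    · rw [hTt i j h.1 h.2, ← Int.norm_eq_abs]
      exact (norm_le_pi_norm t _).trans hbd
    · have h1 : T i j = 0 := dif_neg h
      rw [h1, Int.cast_zero, abs_zero]
      positivity

theorem exists_P0 (A : ℕ) (hA : 1 ≤ A) (x y : ℤ) (hx : 2 ≤ |x|) (hy : 2 ≤ |y|) :
    ∃ P0 : ℤ[X][X], P0 ≠ 0 ∧ P0.natDegree ≤ A ∧ XD A P0 ∧ Lam x y P0 = 0 ∧
      Real.log (L2 P0) ≤ (Real.log |(x : ℝ)| + Real.log |(y : ℝ)|) / A + 4 * Real.log (A + 1) := by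
  obtain ⟨T, hT1, ⟨a, b, hab⟩, hT3, hT4⟩ := pgz_siegel A hA x y hx hy
  obtain ⟨P, hP⟩ : ∃ P : ℤ[X][X],
    P = ∑ j ∈ range (A + 1), monomial j (∑ i ∈ range (A + 1), monomial i (T i j)) := ⟨_, rfl⟩
  have hc : ∀ a b, (P.coeff b).coeff a = T a b := by
    intro a b
    rw [hP]
    exact pgz_coeff A T hT1 a b
  have hdeg : P.natDegree ≤ A := by
    rw [natDegree_le_iff_coeff_eq_zero]
    intro N hN
    ext i
    rw [hc, hT1 i N (Or.inr hN), coeff_zero]
  have hxd : XD A P := by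
    intro j
    rw [natDegree_le_iff_coeff_eq_zero]
    intro N hN
    rw [hc, hT1 N j (Or.inl hN)]
  have hx2 : (2 : ℝ) ≤ |(x : ℝ)| := by
    have : ((2 : ℤ) : ℝ) ≤ ((|x| : ℤ) : ℝ) := by exact_mod_cast hx
    push_cast at this
    linarith
  have hy2 : (2 : ℝ) ≤ |(y : ℝ)| := by
    have : ((2 : ℤ) : ℝ) ≤ ((|y| : ℤ) : ℝ) := by exact_mod_cast hy
    push_cast at this
    linarith
  refine ⟨P, ?_, hdeg, hxd, ?_, ?_⟩
  · intro h0
    apply hab
    rw [← hc, h0, coeff_zero, coeff_zero]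
  · rw [hP, pgz_Lam, hT3]
  · obtain ⟨B, hB⟩ : ∃ B : ℝ, B = (((A + 1 : ℝ) ^ 2) * (|(x : ℝ)| ^ A * |(y : ℝ)| ^ A)) ^
        ((1 : ℝ) / ((A + 1 : ℝ) ^ 2 - 1)) := ⟨_, rfl⟩
    rw [← hB] at hT4
    have hL2 : L2 P ≤ (A + 1 : ℝ) ^ 2 * B := by
      rw [L2_eq_LN, LN_eq_range subMul_L1.zero P hdeg]
      have h1 : ∀ j ∈ range (A + 1), L1 (P.coeff j) ≤ (A + 1 : ℝ) * B := by
        intro j _
        rw [L1_eq_LN, LN_eq_range subMul_intAbs.zero (P.coeff j) (hxd j)]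
        refine (sum_le_card_nsmul _ _ B fun i _ => ?_).trans ?_
        · show |(((P.coeff j).coeff i : ℤ) : ℝ)| ≤ B
          rw [hc]
          exact hT4 i j
        · rw [card_range, nsmul_eq_mul]
          push_cast
          exact le_rfl
      refine (sum_le_card_nsmul _ _ _ h1).trans ?_
      rw [card_range, nsmul_eq_mul]
      push_cast
      rw [sq, mul_assoc]
    have hA0 : (1 : ℝ) ≤ (A : ℝ) := by exact_mod_cast hA
    have hl0 : 0 ≤ Real.log (A + 1 : ℝ) := Real.log_nonneg (by linarith)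
    have hlx : 0 ≤ Real.log |(x : ℝ)| := Real.log_nonneg (by linarith)
    have hly : 0 ≤ Real.log |(y : ℝ)| := Real.log_nonneg (by linarith)
    have hB0 : 0 < B := by
      rw [hB]
      positivity
    rcases le_or_gt (L2 P) 0 with h0 | h0
    · have h1 : L2 P = 0 := le_antisymm h0 (L2_nonneg P)
      rw [h1, Real.log_zero]
      positivity
    · have h1 := Real.log_le_log h0 hL2
      rw [Real.log_mul (by positivity) hB0.ne', Real.log_pow] at h1
      have h2 : Real.log B = (1 : ℝ) / ((A + 1 : ℝ) ^ 2 - 1) *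
          (2 * Real.log (A + 1 : ℝ) + A * (Real.log |(x : ℝ)| + Real.log |(y : ℝ)|)) := by
        rw [hB, Real.log_rpow (by positivity), Real.log_mul (by positivity) (by positivity),
          Real.log_mul (by positivity) (by positivity), Real.log_pow, Real.log_pow, Real.log_pow]
        push_cast
        ring
      have h3 : Real.log B ≤ 2 * Real.log (A + 1 : ℝ) +
          (Real.log |(x : ℝ)| + Real.log |(y : ℝ)|) / A := by
        rw [h2]
        have h4 : (0 : ℝ) < (A + 1 : ℝ) ^ 2 - 1 := by nlinarith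
        rw [one_div, inv_mul_le_iff₀ h4, mul_add]
        have h5 : 2 * Real.log (A + 1 : ℝ) ≤ ((A + 1 : ℝ) ^ 2 - 1) * (2 * Real.log (A + 1 : ℝ)) := by
          have h6 : (1 : ℝ) ≤ (A + 1 : ℝ) ^ 2 - 1 := by nlinarith
          nlinarith
        have h7 : A * (Real.log |(x : ℝ)| + Real.log |(y : ℝ)|) ≤ ((A + 1 : ℝ) ^ 2 - 1) *
            ((Real.log |(x : ℝ)| + Real.log |(y : ℝ)|) / A) := by
          rw [mul_div_assoc', le_div_iff₀ (by linarith)]
          have h8 : 0 ≤ Real.log |(x : ℝ)| + Real.log |(y : ℝ)| := by linarith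
          nlinarith
        linarith
      push_cast at h1
      linarith

theorem exists_irr (x y : ℤ) (P0 : ℤ[X][X]) (h0 : P0 ≠ 0) (h : Lam x y P0 = 0) :
    ∃ p : ℤ[X][X], Irreducible p ∧ p ∣ P0 ∧ Lam x y p = 0 := by
  obtain ⟨f, hf1, u, hu⟩ := UniqueFactorizationMonoid.exists_prime_factors P0 h0
  have h1 : Lam x y f.prod = 0 := by
    have h2 : Lam x y f.prod * Lam x y (u : ℤ[X][X]) = 0 := by
      rw [← map_mul, hu, h]
    have h3 : IsUnit (Lam x y (u : ℤ[X][X])) := u.isUnit.map (Lam x y)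
    rcases mul_eq_zero.1 h2 with h4 | h4
    · exact h4
    · rw [h4] at h3
      exact absurd h3 not_isUnit_zero
  rw [map_multiset_prod, Multiset.prod_eq_zero_iff, Multiset.mem_map] at h1
  obtain ⟨p, hp, hp0⟩ := h1
  exact ⟨p, (hf1 p hp).irreducible, (Multiset.dvd_prod hp).trans ⟨_, hu.symm⟩, hp0⟩

end Pool.Agent.H97.NW
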