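import Pool.Agent.H52.AC.SGA

/-! # [H97 NW SIE] Siegel's lemma with an arbitrary ratio of equations and unknowns

`pigeon_gen`: as `pigeon` (`Pool/Agent/H52/AC/PIG.lean`, there `r = 3`; copy the proof). `Z = ⌈(3M)^r⌉₊`,
`(3M)^r ≤ Z ≤ (3M)^r + 1 ≤ (4M)^r` (`M ≥ 1`, `r ≥ 1`: `(4M)^r - (3M)^r ≥ M^r (4^r - 3^r) ≥ 1`). The number of
values of the family `j ↦ ⌊2 (L_j(B) - m_j)⌋₊` is at most `(2MZ+1)^R ≤ (3MZ)^R`, and
`((3MZ)^R)^r = ((3M)^r)^R Z^(rR) ≤ Z^((r+1)R) ≤ Z^(rU) = (Z^U)^r`, so `(3MZ)^R ≤ Z^U < (Z+1)^U`.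
`siegel_gen`: as `siegel_small` (`SGA.lean`), with `pigeon_gen` and `real_coord`. -/

namespace Pool.Agent.H97.NW

open Finset Pool.Agent.H52.AC

theorem pigeon_gen {ι κ : Type} [Fintype ι] [Fintype κ] (c : κ → ι → ℝ) {M : ℝ} (hM : 1 ≤ M)
    (hc : ∀ j, ∑ i, |c j i| ≤ M) {r : ℕ} (hr : 1 ≤ r)
    (h43 : (r + 1) * Fintype.card κ ≤ r * Fintype.card ι)
    (hι : 0 < Fintype.card ι) : ∃ A : ι → ℤ, A ≠ 0 ∧ (∀ i, |(A i : ℝ)| ≤ (4 * M) ^ r) ∧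
      ∀ j, |∑ i, c j i * (A i : ℝ)| < 1 / 2 := by
  classical
  obtain ⟨Z, hZ1, hZ2⟩ : ∃ Z : ℕ, (3 * M) ^ r ≤ (Z : ℝ) ∧ (Z : ℝ) ≤ (4 * M) ^ r := by
    refine ⟨⌈(3 * M) ^ r⌉₊, Nat.le_ceil _, ?_⟩
    have h1 : (⌈(3 * M) ^ r⌉₊ : ℝ) < (3 * M) ^ r + 1 := Nat.ceil_lt_add_one (by positivity)
    have h2 : (1 : ℝ) ≤ M ^ r := one_le_pow₀ hM
    have h3 : (3 : ℕ) ^ r + 1 ≤ 4 ^ r := Nat.pow_lt_pow_left (by norm_num) (by omega)
    have h3' : (3 : ℝ) ^ r + 1 ≤ 4 ^ r := by exact_mod_cast h3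
    rw [mul_pow] at h1 ⊢
    rw [mul_pow]
    nlinarith
  have hZ27 : (3 : ℝ) ≤ Z := by
    have h2 : 3 * M ≤ (3 * M) ^ r := le_self_pow₀ (by linarith) (by omega)
    linarith
  have hZpos : 0 < Z := by
    have : (0 : ℝ) < Z := by linarith
    exact_mod_cast this
  set m : κ → ℝ := fun j => ∑ i, min (c j i) 0 * (Z : ℝ) with hm
  have hterm : ∀ j i (b : ℕ), b ≤ Z → 0 ≤ c j i * (b : ℝ) - min (c j i) 0 * Z ∧
      c j i * (b : ℝ) - min (c j i) 0 * Z ≤ |c j i| * Z := by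
    intro j i b hb
    have hb' : (b : ℝ) ≤ Z := by exact_mod_cast hb
    have hb0 : (0 : ℝ) ≤ b := Nat.cast_nonneg b
    rcases le_total 0 (c j i) with h | h
    · rw [min_eq_right h, abs_of_nonneg h]
      constructor
      · nlinarith
      · nlinarith
    · rw [min_eq_left h, abs_of_nonpos h]
      constructor
      · nlinarith
      · nlinarith
  have hLm : ∀ j (B : ι → Fin (Z + 1)), 0 ≤ ∑ i, c j i * ((B i : ℕ) : ℝ) - m j ∧
      ∑ i, c j i * ((B i : ℕ) : ℝ) - m j ≤ M * Z := by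
    intro j B
    have hs : ∑ i, c j i * ((B i : ℕ) : ℝ) - m j =
        ∑ i, (c j i * ((B i : ℕ) : ℝ) - min (c j i) 0 * Z) := by
      rw [hm, ← Finset.sum_sub_distrib]
    rw [hs]
    constructor
    · exact Finset.sum_nonneg fun i _ => (hterm j i _ (Nat.lt_succ_iff.1 (B i).2)).1
    · refine (Finset.sum_le_sum fun i _ => (hterm j i _ (Nat.lt_succ_iff.1 (B i).2)).2).trans ?_
      rw [← Finset.sum_mul]
      exact mul_le_mul_of_nonneg_right (hc j) (Nat.cast_nonneg _)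
  set W : ℕ := ⌊2 * M * Z⌋₊ + 1 with hW
  have hfl : ∀ j (B : ι → Fin (Z + 1)), ⌊2 * (∑ i, c j i * ((B i : ℕ) : ℝ) - m j)⌋₊ < W := by
    intro j B
    rw [hW, Nat.lt_succ_iff]
    apply Nat.floor_le_floor
    linarith [(hLm j B).2]
  let Φ : (ι → Fin (Z + 1)) → (κ → Fin W) := fun B j =>
    ⟨⌊2 * (∑ i, c j i * ((B i : ℕ) : ℝ) - m j)⌋₊, hfl j B⟩
  have hWZ : W ^ r ≤ Z ^ (r + 1) := by
    have h1 : (W : ℝ) ≤ 3 * M * Z := by
      rw [hW]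
      push_cast
      have h2 : (⌊2 * M * Z⌋₊ : ℝ) ≤ 2 * M * Z := Nat.floor_le (by positivity)
      have h3 : (1 : ℝ) ≤ M * Z := by nlinarith
      nlinarith
    have h2 : (W : ℝ) ^ r ≤ (3 * M * Z) ^ r := pow_le_pow_left₀ (Nat.cast_nonneg _) h1 r
    have h3 : (3 * M * (Z : ℝ)) ^ r = (3 * M) ^ r * (Z : ℝ) ^ r := mul_pow _ _ _
    have h4 : (3 * M) ^ r * (Z : ℝ) ^ r ≤ (Z : ℝ) * (Z : ℝ) ^ r :=
      mul_le_mul_of_nonneg_right hZ1 (by positivity)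
    have h5 : (W : ℝ) ^ r ≤ (Z : ℝ) ^ (r + 1) := by
      calc (W : ℝ) ^ r ≤ (3 * M * Z) ^ r := h2
        _ = (3 * M) ^ r * (Z : ℝ) ^ r := h3
        _ ≤ (Z : ℝ) * (Z : ℝ) ^ r := h4
        _ = (Z : ℝ) ^ (r + 1) := by rw [pow_succ, mul_comm]
    exact_mod_cast h5
  have hcard : W ^ Fintype.card κ < (Z + 1) ^ Fintype.card ι := by
    have h1 : (W ^ Fintype.card κ) ^ r ≤ (Z ^ Fintype.card ι) ^ r := by
      calc (W ^ Fintype.card κ) ^ r = (W ^ r) ^ Fintype.card κ := by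
            rw [← pow_mul, ← pow_mul, mul_comm]
        _ ≤ (Z ^ (r + 1)) ^ Fintype.card κ := Nat.pow_le_pow_left hWZ _
        _ = Z ^ ((r + 1) * Fintype.card κ) := by rw [← pow_mul]
        _ ≤ Z ^ (r * Fintype.card ι) := Nat.pow_le_pow_right hZpos h43
        _ = (Z ^ Fintype.card ι) ^ r := by rw [← pow_mul, mul_comm]
    have h2 : W ^ Fintype.card κ ≤ Z ^ Fintype.card ι :=
      (Nat.pow_le_pow_iff_left (by omega)).1 h1
    exact h2.trans_lt (Nat.pow_lt_pow_left (Nat.lt_succ_self Z) hι.ne')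
  obtain ⟨B, B', hne, heq⟩ : ∃ B B' : ι → Fin (Z + 1), B ≠ B' ∧ Φ B = Φ B' := by
    apply Fintype.exists_ne_map_eq_of_card_lt
    rw [Fintype.card_fun, Fintype.card_fun, Fintype.card_fin, Fintype.card_fin]
    exact hcard
  refine ⟨fun i => ((B i : ℕ) : ℤ) - ((B' i : ℕ) : ℤ), ?_, ?_, ?_⟩
  · intro h0
    apply hne
    funext i
    have h1 : ((B i : ℕ) : ℤ) - ((B' i : ℕ) : ℤ) = 0 := congrFun h0 i
    apply Fin.ext
    omega
  · intro i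
    have h1 : ((B i : ℕ) : ℝ) ≤ Z := by
      have := Nat.lt_succ_iff.1 (B i).2
      exact_mod_cast this
    have h2 : ((B' i : ℕ) : ℝ) ≤ Z := by
      have := Nat.lt_succ_iff.1 (B' i).2
      exact_mod_cast this
    have h3 : (0 : ℝ) ≤ ((B i : ℕ) : ℝ) := Nat.cast_nonneg _
    have h4 : (0 : ℝ) ≤ ((B' i : ℕ) : ℝ) := Nat.cast_nonneg _
    push_cast
    rw [abs_le]
    constructor <;> linarith
  · intro j
    have h1 : ⌊2 * (∑ i, c j i * ((B i : ℕ) : ℝ) - m j)⌋₊ =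
        ⌊2 * (∑ i, c j i * ((B' i : ℕ) : ℝ) - m j)⌋₊ := by
      have := congrFun heq j
      exact congrArg Fin.val this
    have h2 : ∑ i, c j i * ((((B i : ℕ) : ℤ) - ((B' i : ℕ) : ℤ) : ℤ) : ℝ) =
        ∑ i, c j i * ((B i : ℕ) : ℝ) - ∑ i, c j i * ((B' i : ℕ) : ℝ) := by
      rw [← Finset.sum_sub_distrib]
      refine Finset.sum_congr rfl fun i _ => ?_
      push_cast
      ring
    rw [h2]
    have a1 := (hLm j B).1
    have a2 := (hLm j B').1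
    generalize ∑ i, c j i * ((B i : ℕ) : ℝ) = x at *
    generalize ∑ i, c j i * ((B' i : ℕ) : ℝ) = y at *
    have b1 := Nat.floor_le (mul_nonneg (by norm_num : (0 : ℝ) ≤ 2) a1)
    have b2 := Nat.lt_floor_add_one (2 * (x - m j))
    have b3 := Nat.floor_le (mul_nonneg (by norm_num : (0 : ℝ) ≤ 2) a2)
    have b4 := Nat.lt_floor_add_one (2 * (y - m j))
    rw [h1] at b1 b2
    rw [abs_lt]
    constructor <;> linarith

theorem siegel_gen {ι C P : Type} [Fintype ι] [Fintype C] [Fintype P] (V : C → P → ι → ℂ)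
    (cj : P → P) (hcj : ∀ p, cj (cj p) = p)
    (hconj : ∀ c p m, V c (cj p) m = (starRingEnd ℂ) (V c p m)) {M : ℝ} (hM : 1 ≤ M)
    (hV : ∀ c p, ∑ m, ‖V c p m‖ ≤ M) {r : ℕ} (hr : 1 ≤ r)
    (h43 : (r + 1) * (Fintype.card P * Fintype.card C) ≤ r * Fintype.card ι)
    (hι : 0 < Fintype.card ι) :
    ∃ A : ι → ℤ, A ≠ 0 ∧ (∀ m, |(A m : ℝ)| ≤ (4 * M) ^ r) ∧
      ∀ c p, ‖∑ m, (A m : ℂ) * V c p m‖ < 1 := by
  obtain ⟨cc, hcc, hmain⟩ := real_coord (Finset.univ : Finset P) cj hcj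
    (fun p _ => Finset.mem_univ _)
  obtain ⟨A, hA0, hA1, hA2⟩ := pigeon_gen (κ := C × P) (fun x m => cc x.2 (V x.1 x.2 m)) hM
    (fun x => (Finset.sum_le_sum fun m _ => hcc x.2 (V x.1 x.2 m)).trans (hV x.1 x.2)) hr
    (by
      rw [Fintype.card_prod, mul_comm (Fintype.card C)]
      exact h43) hι
  refine ⟨A, hA0, hA1, fun c p => ?_⟩
  refine hmain (fun p => ∑ m, (A m : ℂ) * V c p m) (fun p _ => ?_) (fun p _ => ?_) p
    (Finset.mem_univ p)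
  · show ∑ m, (A m : ℂ) * V c (cj p) m = (starRingEnd ℂ) (∑ m, (A m : ℂ) * V c p m)
    rw [map_sum]
    refine Finset.sum_congr rfl fun m _ => ?_
    rw [map_mul, hconj, map_intCast]
  · have h1 := hA2 (c, p)
    have h2 : cc p (∑ m, (A m : ℂ) * V c p m) = ∑ m, cc p (V c p m) * (A m : ℝ) := by
      rw [map_sum]
      refine Finset.sum_congr rfl fun m _ => ?_
      rw [← zsmul_eq_mul, map_zsmul, zsmul_eq_mul, mul_comm]
    show |cc p (∑ m, (A m : ℂ) * V c p m)| < 1 / 2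
    rw [h2]
    exact h1

end Pool.Agent.H97.NW
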