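import Pool.Agent.H8.AS.Defs
import Pool.Agent.H52.AC.Defs
import Pool.Agent.H34.AC.KapR
import Pool.Agent.H4.AR.Def

/-!
# MP_821da1_nt, NoWindows (helper97): basic definitions

`CrvB n d b F`: a curve in normal form (total degree `≤ d`, monic in `y`, irreducible), with Puiseux
data at infinity; all constants at most `b`; no field attached.
`Ptd n`: a curve in normal form of degree at most `n` with an integer point `(x,y)` on the branch `i`.
`ell P = log |x|`; `Thr P c`: `b^c ≤ |x|`.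
`Stb P PP`: the set `PP` of `m`-tuples of branches is stable under the simultaneous conjugation of the
coefficients and under separate rotations.
`Bm`: the coefficient of `∏ T_v^(k_v)` in the expansion of `∏ t_v^(D_v) G` at the tuple `p` of branches,
`G = ∑ A_μ ∏ x_v^(a_v) y_v^(b_v)`, `μ_v = (a_v, b_v)`, `a_v < N_v`, `b_v < d_v`. `Vm`: the sum over a cell.
`cells ℓ T`: the `K : Fin m → ℕ` with `∑ ℓ_v K_v < T`.
`psi P (a,b)`: the local series of `x^a y^b` at the integer point, in `ℤ[[t]]`, `x = x_P + κ² t`.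
`Lm`: the coefficient of `∏ t_v^(K_v)` of the local expansion of `G`.
`Df, Nf`: the degrees `D_v = ⌊Y / ℓ_v⌋`, `N_v = D_v + 1 - d_v`.
-/

namespace Pool.Agent.H97.NW

open Finset Polynomial Pool.Agent.H72.ES Pool.Agent.H87.SA2 Pool.Agent.H8.AW Pool.Agent.H52.AC

/-- A curve in normal form with its Puiseux data at infinity; all constants are at most `b`. -/
structure CrvB (n d b : ℕ) (F : ℕ → ℕ → ℤ) where
  d1 : 1 ≤ d
  dn : d ≤ n
  b2 : 2 ≤ b
  lead : F 0 d = 1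
  le : ∀ i j, |F i j| ≤ (b : ℤ)
  irr : Irreducible (FQ d F)
  pd : PData (fI d F) d
  e_le : pd.e ≤ d.factorial
  q_le : pd.q ≤ b
  R_le : pd.R ≤ b
  bez : ∃ (u v : ℤ[X][X]) (c : ℤ[X]), c ≠ 0 ∧ u * fI d F + v * derivative (fI d F) = C c ∧
    c.natDegree ≤ 2 * d * d ∧ ∀ i, |c.coeff i| ≤ (b : ℤ)

/-- A curve in normal form with an integer point on the branch `i`, `T` its parameter. -/
structure Ptd (n : ℕ) where
  d : ℕ
  b : ℕ
  F : ℕ → ℕ → ℤ
  C : CrvB n d b F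
  i : Fin d
  T : ℂ
  x : ℤ
  y : ℤ
  zero : ev d F x y = 0
  hT : ((C.pd.q : ℂ) * T) ^ C.pd.e * (x : ℂ) = 1
  hy : evz T (C.pd.x i) = (y : ℂ) / (x : ℂ)

/-- the logarithm of the first coordinate of the integer point -/
noncomputable def Ptd.ell {n : ℕ} (P : Ptd n) : ℝ := Real.log |(P.x : ℝ)|

/-- the integer point is above the threshold -/
def Ptd.Thr {n : ℕ} (P : Ptd n) (c : ℕ) : Prop := (P.b : ℝ) ^ c ≤ |(P.x : ℝ)|

variable {m n : ℕ}

/-- stability of a set of `m`-tuples of branches -/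
def Stb (P : Fin m → Ptd n) (PP : Finset (∀ v, Fin (P v).d)) : Prop :=
  (∀ σ : AA →+* ℂ, ∀ p ∈ PP, ∀ p' : ∀ v, Fin (P v).d,
    (∀ (v : Fin m) (k : ℕ) (a : AA), (a : ℂ) = PowerSeries.coeff k ((P v).C.pd.x (p v)) →
      σ a = PowerSeries.coeff k ((P v).C.pd.x (p' v))) → p' ∈ PP) ∧
  (∀ ζ : Fin m → ℂ, (∀ v, ζ v ^ (P v).C.pd.e = 1) → ∀ p ∈ PP, ∀ p' : ∀ v, Fin (P v).d,
    (∀ v, PowerSeries.rescale (ζ v) ((P v).C.pd.x (p v)) = (P v).C.pd.x (p' v)) → p' ∈ PP)

/-- the set of monomials -/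
abbrev Mo (P : Fin m → Ptd n) (N : Fin m → ℕ) : Type := ∀ v, Fin (N v) × Fin (P v).d

/-- the coefficient of `∏ T_v^(k_v)` of the function `A` at the tuple `p` of branches -/
noncomputable def Bm (P : Fin m → Ptd n) (D N : Fin m → ℕ) (A : Mo P N → ℤ)
    (p : ∀ v, Fin (P v).d) (k : Fin m → ℕ) : ℂ :=
  ∑ μ : Mo P N, (A μ : ℂ) * ∏ v, PowerSeries.coeff (k v)
    (uu (P v).C.pd.q (P v).C.pd.e ((P v).C.pd.x (p v)) (D v) (μ v).1 (μ v).2)

/-- the sum of the coefficients over the cell `K` -/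
noncomputable def Vm (P : Fin m → Ptd n) (D N : Fin m → ℕ) (A : Mo P N → ℤ)
    (p : ∀ v, Fin (P v).d) (K : Fin m → ℕ) : ℂ :=
  ∑ r : (∀ v, Fin (P v).C.pd.e), Bm P D N A p fun v => (P v).C.pd.e * K v + (r v : ℕ)

open Classical in
/-- the lattice points with `∑ ℓ_v K_v < T` -/
noncomputable def cells (ℓ : Fin m → ℝ) (T : ℝ) : Finset (Fin m → ℕ) :=
  (Fintype.piFinset fun v => range (⌊T / ℓ v⌋₊ + 1)).filter fun K => ∑ v, ℓ v * (K v : ℝ) < T

/-- the square of the derivative `F_y` at the integer point -/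
noncomputable def Ptd.kap (P : Ptd n) : ℤ := evy P.d P.F P.x P.y ^ 2

/-- the local series `Y`, `F(x + κ² t, Y) = 0` -/
noncomputable def Ptd.Y (P : Ptd n) : PowerSeries ℤ := (exists_local P.d P.F P.x P.y P.zero).choose

/-- the local series of `x^a y^b` -/
noncomputable def Ptd.psi (P : Ptd n) (s : ℕ × ℕ) : PowerSeries ℤ :=
  xs P.x P.kap ^ s.1 * P.Y ^ s.2

/-- the coefficient of `∏ t_v^(K_v)` of the local expansion of the function `A` -/
noncomputable def Lm (P : Fin m → Ptd n) (N : Fin m → ℕ) (A : Mo P N → ℤ) (K : Fin m → ℕ) : ℤ :=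
  ∑ μ : Mo P N, A μ * ∏ v, PowerSeries.coeff (K v) ((P v).psi ((μ v).1, (μ v).2))

/-- the degrees -/
noncomputable def Df (P : Fin m → Ptd n) (Y : ℝ) (v : Fin m) : ℕ := ⌊Y / (P v).ell⌋₊

/-- the number of powers of `x_v` -/
noncomputable def Nf (P : Fin m → Ptd n) (Y : ℝ) (v : Fin m) : ℕ := Df P Y v + 1 - (P v).d

end Pool.Agent.H97.NW
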