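import Pool.Agent.H34.AC.KapR
import Pool.Agent.H97.NW.Defs

/-! # [H97 NW RPD] Curves all of whose real points at infinity carry an `r`-th root of `β`

`INFN r β F`: for a number field `K` with a real embedding and `X, Y ∈ K((t))` with `F(X,Y) = 0`, either `X, Y ∈ K[[t]]` or `K` contains an `r`-th root of `β`.
`InfX r β d F`: the same for an array in normal form. `ThS r β pd`: the branches in `S` carry an `r`-th root of `β`, equivariantly; `S` contains the real branches.
`RPt r n β`: a pointed curve in normal form with these properties, the point lies on a branch in `S` with a real root. -/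

namespace Pool.Agent.H97.NW

open Finset Polynomial Pool.Agent.H72.ES Pool.Agent.H87.SA2 Pool.Agent.H8.AW Pool.Agent.H52.AC
  Pool.Agent.H34.AC

/-- every real point at infinity of `F = 0` carries an `r`-th root of `β` -/
def INFN (r : ℕ) (β : ℚ) (F : MvPolynomial (Fin 2) ℤ) : Prop :=
  ∀ (K : Type) [Field K] [NumberField K], Nonempty (K →+* ℝ) →
    ∀ (X Y : LaurentSeries K), vl F X Y = 0 →
      (X ∈ (HahnSeries.ofPowerSeries ℤ K).range ∧ Y ∈ (HahnSeries.ofPowerSeries ℤ K).range) ∨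
        ∃ θ : K, θ ^ r = (β : K)

/-- the same for a curve in normal form, which is monic in the second variable -/
def InfX (r : ℕ) (β : ℚ) (d : ℕ) (F : ℕ → ℕ → ℤ) : Prop :=
  ∀ (K : Type) [Field K] [NumberField K], Nonempty (K →+* ℝ) →
    ∀ (X Y : LaurentSeries K), ev d (cst (LaurentSeries K) F) X Y = 0 →
      X ∈ (HahnSeries.ofPowerSeries ℤ K).range ∨ ∃ θ : K, θ ^ r = (β : K)

/-- every branch in `S` carries an `r`-th root of `β` -/
structure ThS (r : ℕ) (β : ℚ) {f : ℤ[X][X]} {d : ℕ} (pd : PData f d) where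
  S : Finset (Fin d)
  th : Fin d → ℂ
  root : ∀ i, th i ^ r = (β : ℂ)
  real_mem : ∀ (i : Fin d) (ζ : ℂ), ζ ^ pd.e = 1 →
    PowerSeries.rescale ζ ((pd.x i).map (starRingEnd ℂ)) = pd.x i → i ∈ S
  gal : ∀ (σ : AA →+* ℂ), ∀ i ∈ S, ∀ j : Fin d,
    (∀ (m : ℕ) (a : AA), (a : ℂ) = PowerSeries.coeff m (pd.x i) →
      σ a = PowerSeries.coeff m (pd.x j)) →
    j ∈ S ∧ ∀ a : AA, (a : ℂ) = th i → σ a = th j
  rot : ∀ (ζ : ℂ), ∀ i ∈ S, ∀ j : Fin d, ζ ^ pd.e = 1 →
    PowerSeries.rescale ζ (pd.x i) = pd.x j → j ∈ S ∧ th j = th i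

/-- a radical pointed curve -/
structure RPt (r n : ℕ) (β : ℚ) where
  P : Ptd n
  h : ThS r β P.C.pd
  mem : P.i ∈ h.S
  real : (h.th P.i).im = 0
  inf : InfX r β P.d P.F

end Pool.Agent.H97.NW
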