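import Pool.Agent.H97.NW.Defs
import Pool.Agent.H8.AS.Pt

/-! # [H97 NW PTB] An integer point above the threshold lies on a branch

As `CrvS.exc` (`Pool/Agent/H8/AS/Pt.lean`) up to the existence of `T` and `i`; `C` is converted to `CrvA ℚ n d b F` (`d4 := h4`, `kp := kapQ C.pd`, as in `CrvS.toQ`,
`Pool/Agent/H8/AS/Fib.lean`) to use `CrvA.branch`; `evT` and `evz` are the same sum. -/

namespace Pool.Agent.H97.NW

open Finset Polynomial Pool.Agent.H72.ES Pool.Agent.H87.SA2 Pool.Agent.H8.AW Pool.Agent.H52.AC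

theorem CrvB.pt {n d b : ℕ} {F : ℕ → ℕ → ℤ} (C : CrvB n d b F) (h4 : 4 ≤ d) {c : ℕ}
    (hc : 4 * n.factorial ≤ c) {x y : ℤ} (hz : ev d F x y = 0)
    (hx : (b : ℝ) ^ c ≤ |(x : ℝ)|) : ∃ (i : Fin d) (T : ℂ), C.pd.R * ‖T‖ < 1 ∧
      ((C.pd.q : ℂ) * T) ^ C.pd.e * (x : ℂ) = 1 ∧ evz T (C.pd.x i) = (y : ℂ) / (x : ℂ) := by
  have hb2 : (2 : ℝ) ≤ b := by exact_mod_cast C.b2
  have hn1 : 1 ≤ n.factorial := Nat.factorial_pos n
  have hb1 : (b : ℝ) + 1 ≤ |(x : ℝ)| := by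
    calc (b : ℝ) + 1 ≤ (b : ℝ) ^ 2 := by nlinarith
      _ ≤ (b : ℝ) ^ c := pow_le_pow_right₀ (by linarith) (by omega)
      _ ≤ _ := hx
  have hx0 : x ≠ 0 := by
    rintro rfl
    rw [Int.cast_zero, abs_zero] at hb1
    linarith
  have hxC : (x : ℂ) ≠ 0 := by exact_mod_cast hx0
  have he : 0 < C.pd.e := C.pd.e_pos
  have hq0 : (C.pd.q : ℂ) ≠ 0 := by
    have := C.pd.q_pos
    exact_mod_cast (by omega : C.pd.q ≠ 0)
  obtain ⟨S, hS⟩ := IsAlgClosed.exists_pow_nat_eq (1 / (x : ℂ)) he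
  set T : ℂ := S / (C.pd.q : ℂ) with hTdef
  have hqT : (C.pd.q : ℂ) * T = S := by rw [hTdef]; field_simp
  have hTx : ((C.pd.q : ℂ) * T) ^ C.pd.e * (x : ℂ) = 1 := by
    rw [hqT, hS]
    field_simp
  have hSn : ‖S‖ < 1 / (b : ℝ) ^ 2 := by
    by_contra hcon
    push Not at hcon
    have hb0 : (0 : ℝ) < (b : ℝ) ^ 2 := by positivity
    have h1 : (1 / (b : ℝ) ^ 2) ^ C.pd.e ≤ ‖S‖ ^ C.pd.e :=
      pow_le_pow_left₀ (by positivity) hcon _
    rw [← norm_pow, hS, norm_div, norm_one, Complex.norm_intCast, one_div_pow] at h1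
    have hxp : (0 : ℝ) < |(x : ℝ)| := by linarith
    rw [one_div_le_one_div (by positivity) hxp, ← pow_mul] at h1
    have h2 : 2 * C.pd.e < c := by
      have h3 : C.pd.e ≤ n.factorial := C.e_le.trans (Nat.factorial_le C.dn)
      omega
    have h3 : (b : ℝ) ^ (2 * C.pd.e) < (b : ℝ) ^ c := pow_lt_pow_right₀ (by linarith) h2
    linarith
  have hTn : ‖T‖ ≤ ‖S‖ := by
    rw [hTdef, norm_div, Complex.norm_natCast]
    have h1 : (1 : ℝ) ≤ C.pd.q := by exact_mod_cast C.pd.q_pos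
    exact div_le_self (norm_nonneg _) h1
  have hT : C.pd.R * ‖T‖ < 1 := by
    have h1 : C.pd.R * ‖T‖ ≤ b * ‖S‖ :=
      mul_le_mul C.R_le hTn (norm_nonneg _) (by linarith)
    have h2 : (b : ℝ) * ‖S‖ < b * (1 / (b : ℝ) ^ 2) :=
      mul_lt_mul_of_pos_left hSn (by linarith)
    have h3 : (b : ℝ) * (1 / (b : ℝ) ^ 2) ≤ 1 := by
      have : (b : ℝ) ≠ 0 := by linarith
      rw [mul_one_div, div_le_one (by positivity)]
      nlinarith
    linarith
  obtain ⟨i, hi⟩ := (CrvA.branch (k := ℚ) (n := n) (b := b)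
    { d4 := h4
      dn := C.dn
      b2 := C.b2
      lead := C.lead
      le := C.le
      irr := C.irr
      pd := C.pd
      e_le := C.e_le
      q_le := C.q_le
      R_le := C.R_le
      kp := Pool.Agent.H8.AS.kapQ C.pd
      bez := C.bez } hz hx0 hT hTx)
  exact ⟨i, T, hT, hTx, hi⟩

end Pool.Agent.H97.NW
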