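import Pool.Agent.H34.AC.RedR
import Pool.Agent.H97.NW.Defs

/-! # [H97 NW REB] The reduction of an arbitrary irreducible curve to normal form

`redB`: the proof of `red_raw` (`Pool/Agent/H34/AC/RedR.lean`) without the part on `INFR` (there `exists_y` provides the monomial with `1 ≤ m 1`; here it is the hypothesis `hy`):
`F' = Ft (n+1) D a F`, `D = Dg (n+1) F`, the last statement is `Ft_ev`. `1 ≤ d` from `4 ≤ d`. -/

namespace Pool.Agent.H97.NW

open Finset Polynomial Pool.Agent.H72.ES Pool.Agent.H87.SA2 Pool.Agent.H8.AW Pool.Agent.H52.AC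
  Pool.Agent.H34.AC

theorem redB (n : ℕ) (hn3 : 3 ≤ n) (F : MvPolynomial (Fin 2) ℤ)
    (hirr : Irreducible (MvPolynomial.map (Int.castRingHom ℚ) F)) (hn : F.totalDegree ≤ n)
    (hy : ∃ m ∈ F.support, 1 ≤ m 1) (H : ℕ) (hH2 : 2 ≤ H) (hH : ∀ m, |F.coeff m| ≤ (H : ℤ)) :
    ∃ (d b : ℕ) (F' : ℕ → ℕ → ℤ) (a : ℤ), Nonempty (CrvB (n * (n + 1)) d b F') ∧ 4 ≤ d ∧
      b ≤ H ^ cR n ∧ a ≠ 0 ∧ |a| ≤ (H : ℤ) ∧
      ∀ (S : Type) [CommRing S] (x y : S),
        ev d (cst S F') (y + x ^ (n + 1)) ((a : S) * x) = (a : S) ^ (d - 1) * vl F x y := by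
  have hF0 : F ≠ 0 := by
    intro h
    rw [h, map_zero] at hirr
    exact not_irreducible_zero hirr
  have hM : n < n + 1 := Nat.lt_succ_self n
  have hM1 : 1 ≤ n + 1 := by omega
  have hH1 : 1 ≤ H := by omega
  obtain ⟨m, hm, hm1⟩ := hy
  obtain ⟨D, hD⟩ : ∃ D, D = Dg (n + 1) F := ⟨_, rfl⟩
  have hD4 : 4 ≤ D := by
    have h1 := le_Dg (n + 1) F m hm
    have h2 : (n + 1) * 1 ≤ (n + 1) * m 1 := Nat.mul_le_mul_left _ hm1
    omega
  have hDn : D ≤ n * (n + 1) := hD ▸ Dg_le hM1 hn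
  obtain ⟨a, ha0, haH, ha⟩ := Gt_lead hM hn hH hF0
  have hF'1 : Ft (n + 1) D a F 0 D = 1 := by
    unfold Ft
    rw [if_neg (lt_irrefl D), if_pos ⟨rfl, rfl⟩]
  obtain ⟨B, hB⟩ : ∃ B, B = 2 ^ n * H ^ NR n := ⟨_, rfl⟩
  have hB1 : 1 ≤ B := by
    rw [hB]
    exact Nat.mul_pos Nat.one_le_two_pow (Nat.one_le_pow _ _ hH1)
  have hle : ∀ i j, |Ft (n + 1) D a F i j| ≤ (B : ℤ) := by
    intro i j
    rw [hB]
    exact Ft_le hM hH1 haH hn hH hDn i j
  have hFirr : Irreducible (H8.AW.FQ D (Ft (n + 1) D a F)) := by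
    rw [hD]
    exact Ft_irr hM1 ha0 (by omega) ha hirr
  have hbd := fI_bd (d := D) hle
  obtain ⟨hmon, hdeg⟩ := fI_monic hF'1
  have hsq := fI_sqf hF'1 hFirr
  obtain ⟨b1, b2, c, hc0, hbez, hcdeg, hcle⟩ := Pool.Agent.H97.XC.disc_bd hmon hdeg (by omega) hbd hB1 hsq
  obtain ⟨pd, hpe, hpq, hpR, _⟩ :=
    Pool.Agent.H97.XC.exists_pdata_bd (H8.AW.fI D (Ft (n + 1) D a F)) hmon
      (s := Pool.Agent.H97.XC.sz D D) hdeg (by omega) hbd hB1 b1 b2 c hc0 hbez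
      (by unfold Pool.Agent.H97.XC.sz; gcongr)
  have hbR := bR_le hH2 (by omega : 1 ≤ D) hDn
  rw [← hB] at hbR
  have hCCb : Pool.Agent.H97.XC.CC D D B (Pool.Agent.H97.XC.sz D D) ≤ bR D B := by
    unfold bR
    omega
  have hhcb : Pool.Agent.H97.XC.hc D D B ≤ bR D B := by
    unfold bR
    omega
  have hBb : B ≤ bR D B := by
    unfold bR
    omega
  have h2b : 2 ≤ bR D B := by
    unfold bR
    omega
  refine ⟨D, bR D B, Ft (n + 1) D a F, a, ⟨?_⟩, hD4, hbR, ha0, haH, ?_⟩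
  · exact {
      d1 := by omega
      dn := hDn
      b2 := h2b
      lead := hF'1
      le := fun i j => (hle i j).trans (by exact_mod_cast hBb)
      irr := hFirr
      pd := pd
      e_le := hpe
      q_le := by
        have h1 : pd.q ≤ Pool.Agent.H97.XC.CC D D B (Pool.Agent.H97.XC.sz D D) := by
          exact_mod_cast hpq
        exact h1.trans hCCb
      R_le := hpR.trans (by exact_mod_cast hCCb)
      bez := ⟨b1, b2, c, hc0, hbez, hcdeg, fun i => (hcle i).trans (by exact_mod_cast hhcb)⟩ }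
  · intro S _ x y
    have h1 := Ft_ev hM1 (by omega) ha x y
    rw [← hD] at h1
    exact h1

end Pool.Agent.H97.NW
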