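import Pool.Agent.H97.NW.SCL

/-! # [H97 NW CBD] Growth of the coordinates on the covering

Let `V0 = B (1 + ‖u‖) ≥ 2`. `toP_root` (`V = V0`): `‖z1‖ ≤ ((np+1) V0)^(np+2) ≤ V0^k1`, `k1 = (np+2)^2` (`np + 1 ≤ 2^(np+1) ≤ V0^(np+1)`). `sc_root` for `z2` (`V = V0^k1`, `Lam u z1 X = z1`): `‖z2‖ ≤ ((n+1) V0^k1)^(n+2) ≤ V0^((n+1+k1)(n+2))`.
For `z3`: `|a^M| ≤ V0^np`, `Lam u z1 (C (C (a^M) * X) - X^M) = a^M u - z1^M`, norm `≤ V0^(np+1) + V0^(k1 np) ≤ V0^(np + 2 + k1 np)`; `sc_root` with `V = V0^(np+2+k1 np)`. `μ ≤ (np n n)^2 ≤ 2^((np n n)^2) ≤ V0^(..)`. Add (three terms: a factor `3 ≤ V0^2`). -/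

namespace Pool.Agent.H97.NW

open Finset Polynomial Pool.Agent.H72.ES

private theorem cbd_nat (k : ℕ) (V : ℝ) (hV : 2 ≤ V) : (k : ℝ) + 1 ≤ V ^ k := by
  have h1 : ((k + 1 : ℕ) : ℝ) ≤ ((2 ^ k : ℕ) : ℝ) := by exact_mod_cast Nat.lt_two_pow_self
  push_cast at h1
  exact h1.trans (pow_le_pow_left₀ (by norm_num) hV k)

/-- the bound of `sc_root` as a power of `V` -/
private theorem cbd_pow (d n k : ℕ) (hd : d ≤ n) (V : ℝ) (hV : 2 ≤ V) :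
    (((d : ℝ) + 1) * V ^ k) ^ (d + 2) ≤ V ^ ((n + k) * (n + 2)) := by
  have hV1 : 1 ≤ V := by linarith
  have h1 : (d : ℝ) + 1 ≤ V ^ n := by
    have h2 : (d : ℝ) ≤ n := by exact_mod_cast hd
    linarith [cbd_nat n V hV]
  calc (((d : ℝ) + 1) * V ^ k) ^ (d + 2) ≤ (V ^ n * V ^ k) ^ (d + 2) := by gcongr
    _ = V ^ ((n + k) * (d + 2)) := by rw [← pow_add, ← pow_mul]
    _ ≤ V ^ ((n + k) * (n + 2)) := by
      apply pow_le_pow_right₀ hV1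
      exact Nat.mul_le_mul_left _ (by omega)

private theorem cbd_cast (F : ℕ → ℕ → ℤ) (B : ℕ) (h : ∀ i j, |F i j| ≤ (B : ℤ)) (V : ℝ) (hV : (B : ℝ) ≤ V) (i j : ℕ) :
    |((F i j : ℤ) : ℝ)| ≤ V := by
  refine le_trans ?_ hV
  exact_mod_cast h i j

theorem cover_bd (n np : ℕ) : ∃ κ : ℕ, 1 ≤ κ ∧ ∀ (d0 d1 D M μ : ℕ) (F0 F1 Fp : ℕ → ℕ → ℤ)
    (a : ℤ) (B : ℕ), d0 ≤ n → d1 ≤ n → D ≤ np → M ≤ np → μ ≤ (np * n * n) ^ 2 → 2 ≤ B →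
    F0 0 d0 = 1 → F1 0 d1 = 1 → Fp 0 D = 1 → (∀ i j, |F0 i j| ≤ (B : ℤ)) →
    (∀ i j, |F1 i j| ≤ (B : ℤ)) → (∀ i j, |Fp i j| ≤ (B : ℤ)) → |a| ≤ (B : ℤ) →
    ∀ u z1 z2 z3 : ℂ, Lam u z1 (toP D Fp) = 0 → (sc d0 F0 a X).eval₂ (Lam u z1) z2 = 0 →
      (sc d1 F1 (a ^ M) (C (C (a ^ M) * X) - X ^ M)).eval₂ (Lam u z1) z3 = 0 →
      ‖z1 + (μ : ℂ) * z2 + (μ : ℂ) ^ 2 * z3‖ ≤ ((B : ℝ) * (1 + ‖u‖)) ^ κ := by
  obtain ⟨k1, hk1⟩ : ∃ k1, k1 = (np + 1) * (np + 2) := ⟨_, rfl⟩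
  obtain ⟨k2, hk2⟩ : ∃ k2, k2 = (n + k1) * (n + 2) := ⟨_, rfl⟩
  obtain ⟨k3, hk3⟩ : ∃ k3, k3 = np + 2 + k1 * np := ⟨_, rfl⟩
  obtain ⟨k4, hk4⟩ : ∃ k4, k4 = (n + k3) * (n + 2) := ⟨_, rfl⟩
  obtain ⟨m0, hm0⟩ : ∃ m0, m0 = (np * n * n) ^ 2 := ⟨_, rfl⟩
  refine ⟨k1 + k2 + k4 + 2 * m0 + 2, by omega, ?_⟩
  intro d0 d1 D M μ F0 F1 Fp a B hd0 hd1 hD hM hμ hB hl0 hl1 hlp hF0 hF1 hFp ha u z1 z2 z3 h1 h2 h3
  obtain ⟨V, hV⟩ : ∃ V : ℝ, V = (B : ℝ) * (1 + ‖u‖) := ⟨_, rfl⟩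
  have hBR : (2 : ℝ) ≤ B := by exact_mod_cast hB
  have hu0 : 0 ≤ ‖u‖ := norm_nonneg u
  have hBV : (B : ℝ) ≤ V := by rw [hV]; nlinarith
  have hV2 : 2 ≤ V := by linarith
  have hV1 : 1 ≤ V := by linarith
  have huV : ‖u‖ ≤ V := by rw [hV]; nlinarith
  have haV : |(a : ℝ)| ≤ V := by
    refine le_trans ?_ hBV
    exact_mod_cast ha
  have hk1p : 1 ≤ k1 := by rw [hk1]; exact Nat.one_le_iff_ne_zero.2 (by positivity)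
  have hpw : ∀ {k : ℕ}, 1 ≤ k → V ≤ V ^ k := fun {k} hk => le_self_pow₀ hV1 (by omega)
  rw [← hV]
  -- z1
  have e1 : ‖z1‖ ≤ V ^ k1 := by
    have h4 := toP_root hlp u z1 V hV1 (cbd_cast Fp B hFp V hBV) huV h1
    have h5 := cbd_pow D np 1 hD V hV2
    rw [pow_one] at h5
    rw [hk1]
    exact h4.trans h5
  -- z2
  have e2 : ‖z2‖ ≤ V ^ k2 := by
    have h4 := sc_root hl0 a X u z1 z2 (V ^ k1) (one_le_pow₀ hV1)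
      (cbd_cast F0 B hF0 _ (hBV.trans (hpw hk1p))) (haV.trans (hpw hk1p))
      (by simpa [Lam] using e1) h2
    rw [hk2]
    exact h4.trans (cbd_pow d0 n k1 hd0 V hV2)
  -- z3
  have haM : |((a ^ M : ℤ) : ℝ)| ≤ V ^ np := by
    push_cast
    rw [abs_pow]
    calc |(a : ℝ)| ^ M ≤ V ^ M := pow_le_pow_left₀ (abs_nonneg _) haV M
      _ ≤ V ^ np := pow_le_pow_right₀ hV1 hM
  have hk3p : 1 ≤ k3 := by omega
  have hs : ‖Lam u z1 (C (C (a ^ M) * X) - X ^ M)‖ ≤ V ^ k3 := by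
    have h4 : Lam u z1 (C (C (a ^ M) * X) - X ^ M) = ((a ^ M : ℤ) : ℂ) * u - z1 ^ M := by
      rw [map_sub]
      congr 1
      · show eval₂ (eval₂RingHom (Int.castRingHom ℂ) u) z1 (C (C (a ^ M) * X)) = _
        rw [eval₂_C]
        show eval₂ (Int.castRingHom ℂ) u (C (a ^ M) * X) = _
        rw [eval₂_mul, eval₂_C, eval₂_X]
        rfl
      · show eval₂ (eval₂RingHom (Int.castRingHom ℂ) u) z1 (X ^ M) = _
        rw [eval₂_X_pow]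
    rw [h4]
    refine (norm_sub_le _ _).trans ?_
    rw [norm_mul, norm_pow, Complex.norm_intCast]
    have h5 : |((a ^ M : ℤ) : ℝ)| * ‖u‖ ≤ V ^ (np + 1) := by
      rw [pow_succ]
      exact mul_le_mul haM huV hu0 (by positivity)
    have h6 : ‖z1‖ ^ M ≤ V ^ (k1 * np) := by
      calc ‖z1‖ ^ M ≤ (V ^ k1) ^ M := pow_le_pow_left₀ (norm_nonneg _) e1 M
        _ = V ^ (k1 * M) := by rw [← pow_mul]
        _ ≤ V ^ (k1 * np) := pow_le_pow_right₀ hV1 (Nat.mul_le_mul_left _ hM)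
    have h7 : V ^ (np + 1) ≤ V ^ (np + 1 + k1 * np) := pow_le_pow_right₀ hV1 (by omega)
    have h8 : V ^ (k1 * np) ≤ V ^ (np + 1 + k1 * np) := pow_le_pow_right₀ hV1 (by omega)
    have h9 : V ^ k3 = V ^ (np + 1 + k1 * np) * V := by
      rw [← pow_succ, hk3]
      congr 1
      omega
    have h10 : 0 ≤ V ^ (np + 1 + k1 * np) := by positivity
    rw [h9]
    nlinarith
  have e3 : ‖z3‖ ≤ V ^ k4 := by
    have h4 := sc_root hl1 (a ^ M) (C (C (a ^ M) * X) - X ^ M) u z1 z3 (V ^ k3) (one_le_pow₀ hV1)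
      (cbd_cast F1 B hF1 _ (hBV.trans (hpw hk3p)))
      (haM.trans (pow_le_pow_right₀ hV1 (by omega))) hs h3
    rw [hk4]
    exact h4.trans (cbd_pow d1 n k3 hd1 V hV2)
  -- μ
  have eμ : (μ : ℝ) ≤ V ^ m0 := by
    have h4 : (μ : ℝ) ≤ m0 := by
      rw [hm0]
      exact_mod_cast hμ
    linarith [cbd_nat m0 V hV2]
  have hμ0 : (0 : ℝ) ≤ μ := Nat.cast_nonneg μ
  obtain ⟨W, hW⟩ : ∃ W, W = V ^ (k1 + k2 + k4 + 2 * m0) := ⟨_, rfl⟩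
  have f1 : ‖z1‖ ≤ W := e1.trans (by rw [hW]; exact pow_le_pow_right₀ hV1 (by omega))
  have f2 : (μ : ℝ) * ‖z2‖ ≤ W := by
    calc (μ : ℝ) * ‖z2‖ ≤ V ^ m0 * V ^ k2 := mul_le_mul eμ e2 (norm_nonneg _) (by positivity)
      _ = V ^ (m0 + k2) := by rw [← pow_add]
      _ ≤ W := by rw [hW]; exact pow_le_pow_right₀ hV1 (by omega)
  have f3 : (μ : ℝ) ^ 2 * ‖z3‖ ≤ W := by
    calc (μ : ℝ) ^ 2 * ‖z3‖ ≤ (V ^ m0) ^ 2 * V ^ k4 := by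
          apply mul_le_mul (pow_le_pow_left₀ hμ0 eμ 2) e3 (norm_nonneg _) (by positivity)
      _ = V ^ (m0 * 2 + k4) := by rw [← pow_mul, ← pow_add]
      _ ≤ W := by rw [hW]; exact pow_le_pow_right₀ hV1 (by omega)
  have hW0 : 0 ≤ W := by rw [hW]; positivity
  calc ‖z1 + (μ : ℂ) * z2 + (μ : ℂ) ^ 2 * z3‖ ≤ ‖z1‖ + (μ : ℝ) * ‖z2‖ + (μ : ℝ) ^ 2 * ‖z3‖ := by
        refine (norm_add_le _ _).trans ?_
        refine add_le_add ((norm_add_le _ _).trans ?_) ?_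
        · rw [norm_mul, Complex.norm_natCast]
        · rw [norm_mul, norm_pow, Complex.norm_natCast]
    _ ≤ 3 * W := by linarith
    _ ≤ V ^ 2 * W := by
        apply mul_le_mul_of_nonneg_right _ hW0
        nlinarith
    _ = V ^ (k1 + k2 + k4 + 2 * m0 + 2) := by rw [hW]; ring

end Pool.Agent.H97.NW
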