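import Pool.Agent.H97.NW.ZD

/-! # [H97 NW GRW] The height of a monic polynomial from the growth of its roots

`N = f.natDegree`, `f_j = f.coeff j ∈ ℤ[X]`. Let `u` be transcendental (the hypothesis on `u`): `f(u, ·)` is monic of degree `N` over `ℂ`, all its roots are `≤ ρ = (B (1+|u|))^κ`, `ρ ≥ 1`, so `|f_j(u)| ≤ choose N j * ρ^(N-j) ≤ 2^N (B(1+|u|))^(κ N)` (`coeff_eq_esymm_roots_of_card`,
or `Polynomial.coeff_le_of_roots_le` / `coeff_bdd_of_roots_le`). The transcendental numbers are dense in `ℂ` (the algebraic numbers are countable: `Algebraic.countable`; `Set.Countable.dense_compl`), both sides are continuous in `u`, so the inequality holds for all `u : ℂ`.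
Degree: if `natDegree f_j > κ N`, then `|f_j(u)|/|u|^(κ N)` is unbounded as `u → ∞` (`Polynomial.tendsto..`, `div_tendsto_atTop..`, or the leading coefficient `c ≠ 0`: `|f_j(u)| ≥ |c| |u|^m / 2` for large `|u|`), while the bound is `2^N (2B)^(κ N) |u|^(κ N)` for `|u| ≥ 1`.
Coefficients: `|f_j(u)| ≤ 2^N (2 B)^(κ N)` for `|u| = 1`; the coefficient of index `i` is `(1/m) ∑_(ζ^m = 1) ζ^(-i) f_j(ζ)` for `m > natDegree f_j` (or Cauchy's estimate), so it is `≤ 2^N (2B)^(κ N) ≤ (4 B)^(κ N)` (`κ ≥ 1`). -/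

namespace Pool.Agent.H97.NW

open Finset Polynomial Pool.Agent.H72.ES

private theorem grw_iter (p : ℂ[X]) (n : ℕ) : iteratedDeriv n (fun z => p.eval z) = fun z => (derivative^[n] p).eval z := by
  induction n with
  | zero => rw [iteratedDeriv_zero]; rfl
  | succ n ih =>
    rw [iteratedDeriv_succ, ih, Function.iterate_succ_apply']
    funext z
    exact Polynomial.deriv _

/-- Cauchy's estimate -/
private theorem grw_cauchy (p : ℂ[X]) (R M : ℝ) (hR : 0 < R) (h : ∀ z : ℂ, ‖z‖ = R → ‖p.eval z‖ ≤ M) (i : ℕ) :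
    ‖p.coeff i‖ * R ^ i ≤ M := by
  have h1 : ‖iteratedDeriv i (fun z => p.eval z) 0‖ ≤ i.factorial * M / R ^ i := by
    apply Complex.norm_iteratedDeriv_le_of_forall_mem_sphere_norm_le i hR
    · exact p.differentiable.diffContOnCl
    · intro z hz
      apply h
      simpa using hz
  have h2 : iteratedDeriv i (fun z => p.eval z) 0 = (i.factorial : ℂ) * p.coeff i := by
    rw [grw_iter]
    show (derivative^[i] p).eval 0 = _
    rw [← coeff_zero_eq_eval_zero, coeff_iterate_derivative, zero_add, Nat.descFactorial_self, nsmul_eq_mul]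
  rw [h2, norm_mul, Complex.norm_natCast] at h1
  have h3 : (0 : ℝ) < i.factorial := by exact_mod_cast Nat.factorial_pos i
  rw [le_div_iff₀ (by positivity)] at h1
  have h4 : (i.factorial : ℝ) * (‖p.coeff i‖ * R ^ i) ≤ i.factorial * M := by
    linarith
  exact le_of_mul_le_mul_left h4 h3

/-- the bound for the values of the coefficients at all points -/
private theorem grw_val (f : ℤ[X][X]) (hf : f.Monic) (B : ℝ) (hB : 1 ≤ B) (κ : ℕ)
    (h : ∀ u w : ℂ, (∀ q : ℤ[X], q ≠ 0 → q.eval₂ (Int.castRingHom ℂ) u ≠ 0) → Lam u w f = 0 →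
      ‖w‖ ≤ (B * (1 + ‖u‖)) ^ κ) (j : ℕ) (u : ℂ) :
    ‖(f.coeff j).eval₂ (Int.castRingHom ℂ) u‖ ≤ 2 ^ f.natDegree * (B * (1 + ‖u‖)) ^ (κ * f.natDegree) := by
  have key : ∀ u : ℂ, (∀ q : ℤ[X], q ≠ 0 → q.eval₂ (Int.castRingHom ℂ) u ≠ 0) →
      ‖(f.coeff j).eval₂ (Int.castRingHom ℂ) u‖ ≤ 2 ^ f.natDegree * (B * (1 + ‖u‖)) ^ (κ * f.natDegree) := by
    intro u hu
    obtain ⟨φ, hφ⟩ : ∃ φ : ℤ[X] →+* ℂ, φ = eval₂RingHom (Int.castRingHom ℂ) u := ⟨_, rfl⟩
    have hg : (f.map φ).Monic := hf.map φ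
    have hdeg : (f.map φ).natDegree = f.natDegree := hf.natDegree_map φ
    have h1 : 1 ≤ (B * (1 + ‖u‖)) ^ κ := by
      apply one_le_pow₀
      have : 0 ≤ ‖u‖ := norm_nonneg u
      nlinarith
    have h2 := coeff_bdd_of_roots_le (B := (B * (1 + ‖u‖)) ^ κ) (d := f.natDegree) (RingHom.id ℂ) (p := f.map φ) hg
      (IsAlgClosed.splits _) (le_of_eq hdeg) (by
        intro w hw
        rw [Polynomial.map_id] at hw
        apply h u w hu
        have h3 := isRoot_of_mem_roots hw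
        show eval₂ (eval₂RingHom (Int.castRingHom ℂ) u) w f = 0
        rw [← hφ, eval₂_eq_eval_map]
        exact h3) j
    rw [Polynomial.map_id, coeff_map, max_eq_left h1] at h2
    have h3 : φ (f.coeff j) = (f.coeff j).eval₂ (Int.castRingHom ℂ) u := by rw [hφ]; rfl
    rw [h3] at h2
    refine h2.trans ?_
    rw [← pow_mul, mul_comm]
    apply mul_le_mul_of_nonneg_right _ (by positivity)
    have h4 : f.natDegree.choose (f.natDegree / 2) ≤ 2 ^ f.natDegree := Nat.choose_le_two_pow _ _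
    exact_mod_cast h4
  have hcount : {x : ℂ | IsAlgebraic ℤ x}.Countable := Algebraic.countable ℤ ℂ
  have hdense : Dense {x : ℂ | IsAlgebraic ℤ x}ᶜ := hcount.dense_compl ℝ
  have hclosed : IsClosed {u : ℂ | ‖(f.coeff j).eval₂ (Int.castRingHom ℂ) u‖ ≤
      2 ^ f.natDegree * (B * (1 + ‖u‖)) ^ (κ * f.natDegree)} := by
    apply isClosed_le
    · have h5 : (fun u : ℂ => (f.coeff j).eval₂ (Int.castRingHom ℂ) u) = fun u => ((f.coeff j).map (Int.castRingHom ℂ)).eval u := by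
        funext u
        rw [eval₂_eq_eval_map]
      exact (by rw [h5]; exact ((f.coeff j).map (Int.castRingHom ℂ)).continuous : Continuous
        (fun u : ℂ => (f.coeff j).eval₂ (Int.castRingHom ℂ) u)).norm
    · fun_prop
  have hsub : {x : ℂ | IsAlgebraic ℤ x}ᶜ ⊆ {u : ℂ | ‖(f.coeff j).eval₂ (Int.castRingHom ℂ) u‖ ≤
      2 ^ f.natDegree * (B * (1 + ‖u‖)) ^ (κ * f.natDegree)} := by
    intro x hx
    apply key
    intro q hq h0
    apply hx
    exact ⟨q, hq, h0⟩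
  have := hclosed.closure_subset_iff.2 hsub
  rw [hdense.closure_eq] at this
  exact this (Set.mem_univ u)

theorem grow (f : ℤ[X][X]) (hf : f.Monic) (B : ℝ) (hB : 1 ≤ B) (κ : ℕ) (hκ : 1 ≤ κ)
    (h : ∀ u w : ℂ, (∀ q : ℤ[X], q ≠ 0 → q.eval₂ (Int.castRingHom ℂ) u ≠ 0) → Lam u w f = 0 →
      ‖w‖ ≤ (B * (1 + ‖u‖)) ^ κ) (j : ℕ) :
    (f.coeff j).natDegree ≤ κ * f.natDegree ∧
      ∀ i, |(((f.coeff j).coeff i : ℤ) : ℝ)| ≤ (4 * B) ^ (κ * f.natDegree) := by
  obtain ⟨N, hN⟩ : ∃ N, N = f.natDegree := ⟨_, rfl⟩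
  rw [← hN]
  obtain ⟨p, hp⟩ : ∃ p : ℂ[X], p = (f.coeff j).map (Int.castRingHom ℂ) := ⟨_, rfl⟩
  have hcoef : ∀ i, ‖p.coeff i‖ = |(((f.coeff j).coeff i : ℤ) : ℝ)| := by
    intro i
    rw [hp, coeff_map]
    exact Complex.norm_intCast _
  have hval : ∀ (R : ℝ), 1 ≤ R → ∀ i, ‖p.coeff i‖ * R ^ i ≤ 2 ^ N * (B * (1 + R)) ^ (κ * N) := by
    intro R hR i
    apply grw_cauchy p R _ (by linarith)
    intro z hz
    have h1 := grw_val f hf B hB κ h j z
    rw [eval₂_eq_eval_map, ← hp, hz, ← hN] at h1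
    exact h1
  constructor
  · by_contra hcon
    push Not at hcon
    obtain ⟨m, hm⟩ : ∃ m, m = (f.coeff j).natDegree := ⟨_, rfl⟩
    rw [← hm] at hcon
    have hlead : 1 ≤ ‖p.coeff m‖ := by
      rw [hcoef, hm]
      have h0 : (f.coeff j).coeff (f.coeff j).natDegree ≠ 0 := by
        intro h0
        have h1 : f.coeff j = 0 := leadingCoeff_eq_zero.1 h0
        rw [h1, natDegree_zero] at hm
        omega
      exact_mod_cast Int.one_le_abs h0
    obtain ⟨C0, hC0⟩ : ∃ C0 : ℝ, C0 = 2 ^ N * (2 * B) ^ (κ * N) := ⟨_, rfl⟩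
    have hC1 : 0 < C0 := by rw [hC0]; positivity
    have h1 := hval (C0 + 1) (by linarith) m
    obtain ⟨r, hr⟩ : ∃ r, m = κ * N + 1 + r := ⟨m - (κ * N + 1), by omega⟩
    have hR : (1 : ℝ) ≤ C0 + 1 := by linarith
    have h2 : (B * (1 + (C0 + 1))) ^ (κ * N) ≤ (2 * B) ^ (κ * N) * (C0 + 1) ^ (κ * N) := by
      rw [← mul_pow]
      apply pow_le_pow_left₀ (by positivity)
      nlinarith
    have h3 : (C0 + 1) ^ (κ * N) * (C0 + 1) ≤ ‖p.coeff m‖ * (C0 + 1) ^ m := by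
      have h4 : (C0 + 1) ^ (κ * N) * (C0 + 1) ≤ (C0 + 1) ^ m := by
        rw [← pow_succ]
        exact pow_le_pow_right₀ hR (by omega)
      have h5 : (0 : ℝ) ≤ (C0 + 1) ^ m := by positivity
      nlinarith
    have h4 : 2 ^ N * (B * (1 + (C0 + 1))) ^ (κ * N) ≤ C0 * (C0 + 1) ^ (κ * N) := by
      rw [hC0]
      rw [hC0] at h2
      calc _ ≤ 2 ^ N * ((2 * B) ^ (κ * N) * (2 ^ N * (2 * B) ^ (κ * N) + 1) ^ (κ * N)) :=
            mul_le_mul_of_nonneg_left h2 (by positivity)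
        _ = _ := by ring
    have h5 : (0 : ℝ) < (C0 + 1) ^ (κ * N) := by positivity
    nlinarith
  · intro i
    rw [← hcoef]
    have h1 := hval 1 le_rfl i
    rw [one_pow, mul_one] at h1
    refine h1.trans ?_
    have h2 : (4 * B) ^ (κ * N) = 2 ^ (κ * N) * (B * (1 + 1)) ^ (κ * N) := by
      rw [← mul_pow]
      congr 1
      ring
    rw [h2]
    apply mul_le_mul_of_nonneg_right _ (by positivity)
    apply pow_le_pow_right₀ (by norm_num)
    exact Nat.le_mul_of_pos_left _ (by omega)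

end Pool.Agent.H97.NW
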