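import Pool.Agent.H97.NW.ZD

/-! # [H97 NW SCL] Scaled equations

`sc d F A s`: the polynomial `A^d F(s/A, y/A)` in `y`, with `s ∈ ℤ[u][z]`.
`sc_monic`, `sc_deg`: the coefficient of `y^d` is `F 0 d * A^0 = 1` (only `i = 0`), the others have smaller degree (`i + j ≤ d`).
`sc_eval`: `eval₂` of the double sum. `sc_int`: `∑ F i j A^(d-i-j) (A x)^i (A y)^j = A^d ev d F x y`. `sc_field`: the same, divided by `A^d ≠ 0`.
`sc_root`: `y^d = -∑_(j < d) (∑_(i ≤ d-j) F i j A^(d-i-j) σ^i) y^j`, `|coefficients| ≤ (d+1) V V^d`; if `‖y‖ ≥ 1` then `‖y‖^d ≤ d (d+1) V^(d+1) ‖y‖^(d-1)`; so `‖y‖ ≤ max 1 ((d+1)^2 V^(d+1)) ≤ ((d+1) V)^(d+2)`.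
`toP_root`: the same for `ev d F u z = 0` (this is `A = 1`, `σ = u`), `Lam_toP`. `toP_monic`: `toP d F` is monic of degree `d` for `F 0 d = 1`, `1 ≤ d` or `d = 0`. -/

namespace Pool.Agent.H97.NW

open Finset Polynomial Pool.Agent.H72.ES

/-- the polynomial `A^d F(s/A, y/A)` -/
noncomputable def sc (d : ℕ) (F : ℕ → ℕ → ℤ) (A : ℤ) (s : ℤ[X][X]) : ℤ[X][X][X] :=
  ∑ i ∈ range (d + 1), ∑ j ∈ range (d + 1 - i),
    C (C (C (F i j * A ^ (d - i - j))) * s ^ i) * X ^ j

variable {d : ℕ} {F : ℕ → ℕ → ℤ}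

private theorem scl_monic {R : Type*} [CommRing R] [Nontrivial R] (d : ℕ) (a : ℕ → ℕ → R) (h : a 0 d = 1) :
    (∑ i ∈ range (d + 1), ∑ j ∈ range (d + 1 - i), C (a i j) * X ^ j : R[X]).Monic ∧
      (∑ i ∈ range (d + 1), ∑ j ∈ range (d + 1 - i), C (a i j) * X ^ j : R[X]).natDegree = d := by
  obtain ⟨g, hg⟩ : ∃ g : R[X], g = ∑ i ∈ range (d + 1), ∑ j ∈ range (d + 1 - i), C (a i j) * X ^ j := ⟨_, rfl⟩
  rw [← hg]
  have h1 : g.natDegree ≤ d := by
    rw [hg]
    apply natDegree_sum_le_of_forall_le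
    intro i _
    apply natDegree_sum_le_of_forall_le
    intro j hj
    have hj' := mem_range.1 hj
    exact (natDegree_C_mul_X_pow_le _ _).trans (by omega)
  have h2 : g.coeff d = 1 := by
    rw [hg, finsetSum_coeff, sum_eq_single 0]
    · rw [finsetSum_coeff, sum_eq_single d]
      · rw [coeff_C_mul, coeff_X_pow, if_pos rfl, mul_one, h]
      · intro j _ hj
        rw [coeff_C_mul, coeff_X_pow, if_neg (fun hh => hj hh.symm), mul_zero]
      · intro hd
        exact absurd (mem_range.2 (by omega)) hd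
    · intro i _ hi
      rw [finsetSum_coeff]
      apply sum_eq_zero
      intro j hj
      have hj' := mem_range.1 hj
      rw [coeff_C_mul, coeff_X_pow, if_neg (by omega), mul_zero]
    · intro h0
      exact absurd (mem_range.2 (by omega)) h0
  exact ⟨monic_of_natDegree_le_of_coeff_eq_one d h1 h2,
    natDegree_eq_of_le_of_coeff_ne_zero h1 (by rw [h2]; exact one_ne_zero)⟩

theorem sc_monic (hlead : F 0 d = 1) (A : ℤ) (s : ℤ[X][X]) :
    (sc d F A s).Monic ∧ (sc d F A s).natDegree = d := by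
  unfold sc
  apply scl_monic d (fun i j => C (C (F i j * A ^ (d - i - j))) * s ^ i)
  rw [hlead, Nat.sub_zero, Nat.sub_self, pow_zero, pow_zero, mul_one, mul_one, map_one, map_one]

theorem toP_monic (hlead : F 0 d = 1) : (toP d F).Monic ∧ (toP d F).natDegree = d := by
  unfold toP
  apply scl_monic d (fun i j => C (F i j) * X ^ i)
  rw [hlead, pow_zero, mul_one, map_one]

private theorem scl_C {S : Type} [CommRing S] (n : ℤ) (u z : S) : Lam u z (C (C n)) = (n : S) := by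
  show eval₂ (eval₂RingHom (Int.castRingHom S) u) z (C (C n)) = _
  rw [eval₂_C]
  show eval₂ (Int.castRingHom S) u (C n) = _
  rw [eval₂_C]
  rfl

theorem sc_eval {S : Type} [CommRing S] (A : ℤ) (s : ℤ[X][X]) (u z y : S) :
    (sc d F A s).eval₂ (Lam u z) y =
      ∑ i ∈ range (d + 1), ∑ j ∈ range (d + 1 - i),
        (F i j : S) * (A : S) ^ (d - i - j) * Lam u z s ^ i * y ^ j := by
  unfold sc
  rw [eval₂_finsetSum]
  apply sum_congr rfl
  intro i _
  rw [eval₂_finsetSum]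
  apply sum_congr rfl
  intro j _
  rw [eval₂_mul, eval₂_C, eval₂_X_pow, map_mul, map_pow]
  have h1 : Lam u z (C (C (F i j * A ^ (d - i - j)))) = (F i j : S) * (A : S) ^ (d - i - j) := by
    rw [scl_C]
    push_cast
    rfl
  rw [h1]

theorem sc_int {S : Type} [CommRing S] (A : ℤ) (s : ℤ[X][X]) (u z x y : S)
    (h : Lam u z s = (A : S) * x) :
    (sc d F A s).eval₂ (Lam u z) ((A : S) * y) = (A : S) ^ d * ev d (cst S F) x y := by
  rw [sc_eval, h]
  unfold ev cst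
  rw [mul_sum]
  apply sum_congr rfl
  intro i hi
  rw [mul_sum]
  apply sum_congr rfl
  intro j hj
  have hi' := mem_range.1 hi
  have hj' := mem_range.1 hj
  have h1 : (A : S) ^ d = (A : S) ^ (d - i - j) * (A : S) ^ i * (A : S) ^ j := by
    rw [← pow_add, ← pow_add]
    congr 1
    omega
  rw [h1, mul_pow, mul_pow]
  ring

theorem sc_field {L : Type} [Field L] (A : ℤ) (hA : (A : L) ≠ 0) (s : ℤ[X][X]) (u z y : L)
    (h : (sc d F A s).eval₂ (Lam u z) y = 0) :
    ev d (cst L F) (Lam u z s / A) (y / A) = 0 := by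
  have h1 := sc_int (d := d) (F := F) A s u z (Lam u z s / A) (y / A) (by field_simp)
  rw [show (A : L) * (y / A) = y by field_simp, h] at h1
  rcases mul_eq_zero.1 h1.symm with h2 | h2
  · exact absurd h2 (pow_ne_zero _ hA)
  · exact h2

theorem sc_root (hlead : F 0 d = 1) (A : ℤ) (s : ℤ[X][X]) (u z y : ℂ) (V : ℝ) (hV : 1 ≤ V)
    (hF : ∀ i j, |((F i j : ℤ) : ℝ)| ≤ V) (hA : |(A : ℝ)| ≤ V) (hs : ‖Lam u z s‖ ≤ V)
    (h : (sc d F A s).eval₂ (Lam u z) y = 0) : ‖y‖ ≤ ((d + 1) * V) ^ (d + 2) := by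
  have hd0 : (0 : ℝ) ≤ d := Nat.cast_nonneg d
  have hdV : 1 ≤ ((d : ℝ) + 1) * V := by nlinarith
  rcases le_or_gt ‖y‖ 1 with hy | hy
  · exact hy.trans (one_le_pow₀ hdV)
  rw [sc_eval] at h
  -- the terms
  obtain ⟨t, ht⟩ : ∃ t : ℕ → ℕ → ℂ, ∀ i j, t i j = if i = 0 ∧ j = d then 0 else
      (F i j : ℂ) * (A : ℂ) ^ (d - i - j) * Lam u z s ^ i * y ^ j := ⟨_, fun i j => rfl⟩
  have h1 : ∑ i ∈ range (d + 1), ∑ j ∈ range (d + 1 - i), t i j = - y ^ d := by
    have h2 : ∀ i j, (F i j : ℂ) * (A : ℂ) ^ (d - i - j) * Lam u z s ^ i * y ^ j =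
        t i j + if i = 0 ∧ j = d then y ^ d else 0 := by
      intro i j
      rw [ht]
      by_cases hij : i = 0 ∧ j = d
      · rw [if_pos hij, if_pos hij, hij.1, hij.2, hlead, Nat.sub_zero, Nat.sub_self]
        simp
      · rw [if_neg hij, if_neg hij, add_zero]
    have h3 : ∑ i ∈ range (d + 1), ∑ j ∈ range (d + 1 - i), (if i = 0 ∧ j = d then y ^ d else 0) = y ^ d := by
      rw [sum_eq_single 0]
      · rw [sum_eq_single d]
        · rw [if_pos ⟨rfl, rfl⟩]
        · intro j _ hj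
          rw [if_neg (fun hh => hj hh.2)]
        · intro hd
          exact absurd (mem_range.2 (by omega)) hd
      · intro i _ hi
        apply sum_eq_zero
        intro j _
        rw [if_neg (fun hh => hi hh.1)]
      · intro h0
        exact absurd (mem_range.2 (by omega)) h0
    rw [sum_congr rfl (fun i _ => sum_congr rfl (fun j _ => h2 i j))] at h
    rw [sum_congr rfl (fun i _ => sum_add_distrib), sum_add_distrib, h3] at h
    exact eq_neg_of_add_eq_zero_left h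
  have hy0 : 0 < ‖y‖ := by linarith
  -- d = 0 is impossible
  rcases Nat.eq_zero_or_pos d with hd | hd
  · exfalso
    subst hd
    have h2 : t 0 0 = 0 := by rw [ht, if_pos ⟨rfl, rfl⟩]
    simp [h2] at h1
  have hb : ∀ i ∈ range (d + 1), ∀ j ∈ range (d + 1 - i), ‖t i j‖ ≤ V ^ (d + 1) * ‖y‖ ^ (d - 1) := by
    intro i hi j hj
    have hi' := mem_range.1 hi
    have hj' := mem_range.1 hj
    rw [ht]
    split_ifs with hij
    · rw [norm_zero]
      positivity
    · have hjd : j ≤ d - 1 := by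
        by_contra hcon
        apply hij
        omega
      rw [norm_mul, norm_mul, norm_mul, norm_pow, norm_pow, norm_pow]
      have e1 : ‖(F i j : ℂ)‖ ≤ V := by
        rw [Complex.norm_intCast]
        exact hF i j
      have e2 : ‖(A : ℂ)‖ ≤ V := by
        rw [Complex.norm_intCast]
        exact hA
      calc ‖(F i j : ℂ)‖ * ‖(A : ℂ)‖ ^ (d - i - j) * ‖Lam u z s‖ ^ i * ‖y‖ ^ j
          ≤ V * V ^ (d - i - j) * V ^ i * ‖y‖ ^ (d - 1) := by
            have e3 : ‖y‖ ^ j ≤ ‖y‖ ^ (d - 1) := pow_le_pow_right₀ hy.le hjd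
            gcongr
        _ = V ^ (1 + (d - i - j) + i) * ‖y‖ ^ (d - 1) := by
            rw [pow_add, pow_add, pow_one]
        _ ≤ V ^ (d + 1) * ‖y‖ ^ (d - 1) := by
            apply mul_le_mul_of_nonneg_right _ (by positivity)
            exact pow_le_pow_right₀ hV (by omega)
  have h2 : ‖y‖ ^ d ≤ ((d : ℝ) + 1) * (((d : ℝ) + 1) * (V ^ (d + 1) * ‖y‖ ^ (d - 1))) := by
    calc ‖y‖ ^ d = ‖∑ i ∈ range (d + 1), ∑ j ∈ range (d + 1 - i), t i j‖ := by rw [h1, norm_neg, norm_pow]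
      _ ≤ ∑ i ∈ range (d + 1), ‖∑ j ∈ range (d + 1 - i), t i j‖ := norm_sum_le _ _
      _ ≤ ∑ i ∈ range (d + 1), (((d : ℝ) + 1) * (V ^ (d + 1) * ‖y‖ ^ (d - 1))) := by
          apply sum_le_sum
          intro i hi
          refine (norm_sum_le _ _).trans ((sum_le_sum (hb i hi)).trans ?_)
          rw [sum_const, card_range, nsmul_eq_mul]
          apply mul_le_mul_of_nonneg_right _ (by positivity)
          have : (((d + 1 - i : ℕ)) : ℝ) ≤ ((d + 1 : ℕ) : ℝ) := by exact_mod_cast Nat.sub_le _ _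
          push_cast at this
          linarith
      _ = _ := by
          rw [sum_const, card_range, nsmul_eq_mul]
          push_cast
          ring
  have h3 : ‖y‖ ^ d = ‖y‖ * ‖y‖ ^ (d - 1) := by
    rw [← pow_succ']
    congr 1
    omega
  have hp : 0 < ‖y‖ ^ (d - 1) := by positivity
  have h4 : ‖y‖ ≤ ((d : ℝ) + 1) ^ 2 * V ^ (d + 1) := by
    have h5 : ‖y‖ * ‖y‖ ^ (d - 1) ≤ (((d : ℝ) + 1) ^ 2 * V ^ (d + 1)) * ‖y‖ ^ (d - 1) := by
      rw [← h3]
      refine h2.trans (le_of_eq ?_)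
      ring
    exact le_of_mul_le_mul_right h5 hp
  refine h4.trans ?_
  rw [mul_pow]
  have h5 : ((d : ℝ) + 1) ^ 2 ≤ ((d : ℝ) + 1) ^ (d + 2) := pow_le_pow_right₀ (by linarith) (by omega)
  have h6 : V ^ (d + 1) ≤ V ^ (d + 2) := pow_le_pow_right₀ hV (by omega)
  exact mul_le_mul h5 h6 (by positivity) (by positivity)

theorem toP_root (hlead : F 0 d = 1) (u z : ℂ) (V : ℝ) (hV : 1 ≤ V)
    (hF : ∀ i j, |((F i j : ℤ) : ℝ)| ≤ V) (hu : ‖u‖ ≤ V) (h : Lam u z (toP d F) = 0) :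
    ‖z‖ ≤ ((d + 1) * V) ^ (d + 2) := by
  have h1 : Lam u z (C X) = u := by simp [Lam]
  refine sc_root hlead 1 (C X) u z z V hV hF (by simpa using hV) (by rw [h1]; exact hu) ?_
  have h2 := sc_int (d := d) (F := F) 1 (C X) u z u z (by rw [h1]; push_cast; ring)
  push_cast at h2
  rw [one_mul, one_pow, one_mul] at h2
  rw [h2, ← Lam_toP]
  exact h

end Pool.Agent.H97.NW
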