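import Pool.Agent.H97.NW.RPD
import Pool.Agent.H97.NW.SCL
import Pool.Agent.H97.NW.CVZ

/-! # [H97 NW INO] The real points at infinity of the plane model carry `k_ω`

`lam_vl`: both sides are ring homomorphisms in `f` (`MvPolynomial.ringHom_ext`).
`infr_cover`: let `K` be a number field with a real embedding, `vl (toB.symm f) U W = 0`, so `Lam U W f = 0`. If `U` is in the range (`∈ K[[t]]`): `W` is integral over `K[[t]]` (`f` monic, `Lam U W f = f.eval₂ .. W`), and `K[[t]]` is integrally closed in its fraction field `K((t))`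
(`IsFractionRing (PowerSeries K) (LaurentSeries K)`, `IsIntegrallyClosed.isIntegral_iff`), so `W` is in the range: first alternative. Otherwise `U` has a pole, and `q(U) ≠ 0` for `q ≠ 0` (`natDegree q = m ≥ 1`: the order of `q(U)` is `m` times that of `U`, negative; or: if `q(U) = 0` then `U`
is algebraic over `K`, integral over `K ⊆ K[[t]]`, so in the range). `hlift` (`L = LaurentSeries K`): `Z1, Z2, Z3`. Put `X0 = Z1/a`, `X1 = U - X0^M`: by `hrel` (`x = X0`, `y = X1`; `Lam_toP`) `vl p X0 X1 = 0`. If `X0` or `X1` is in the range, both are (`hnm`), and so is `U = X1 + X0^M`, contradiction.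
`sc_field`: `ev d0 F0 X0 (Z2/a) = 0` (`Lam U Z1 X = Z1`) and `ev d1 F1 X1 (Z3/a^M) = 0` (`(a^M U - Z1^M)/a^M = X1`). `h0`, `h1`: `θ0^r = β`, `θ1^r = ω β` in `K`; `θ0 ≠ 0`, `(θ1/θ0)^r = ω`, so `AdjoinRoot.lift` (`algebraMap ℚ K`) is a ring homomorphism to `K`: second alternative. -/

namespace Pool.Agent.H97.NW

open Finset Polynomial Pool.Agent.H72.ES Pool.Agent.H34.AC H4AR

theorem lam_vl {S : Type} [CommRing S] (f : MvPolynomial (Fin 2) ℤ) (u w : S) :
    Lam u w (toB f) = vl f u w := by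
  have hX0 : Lam u w (C X) = u := by simp [Lam]
  have hX1 : Lam u w X = w := by simp [Lam]
  unfold vl
  induction f using MvPolynomial.induction_on with
  | C a =>
    have h : toB (MvPolynomial.C a) = C (C a) := Bivariate.equivMvPolynomial_symm_C a
    rw [h, MvPolynomial.eval₂_C]
    simp [Lam]
  | add p q hp hq => rw [map_add, map_add, MvPolynomial.eval₂_add, hp, hq]
  | mul_X p v hp =>
    rw [map_mul, map_mul, MvPolynomial.eval₂_mul, hp, MvPolynomial.eval₂_X]
    fin_cases v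
    · show _ * Lam u w (toB (MvPolynomial.X 0)) = _
      have h : toB (MvPolynomial.X 0) = C X := Bivariate.equivMvPolynomial_symm_X_0
      rw [h, hX0]
      rfl
    · show _ * Lam u w (toB (MvPolynomial.X 1)) = _
      have h : toB (MvPolynomial.X 1) = X := Bivariate.equivMvPolynomial_symm_X_1
      rw [h, hX1]
      rfl

theorem ino_Lam_CC {S : Type} [CommRing S] (u z : S) (c : ℤ) (M : ℕ) :
    Lam u z (C (C c * X) - X ^ M : ℤ[X][X]) = (c : S) * u - z ^ M := by
  have h1 : Lam u z (C (C c * X) : ℤ[X][X]) = (c : S) * u := by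
    show eval₂ (eval₂RingHom (Int.castRingHom S) u) z (C (C c * X)) = _
    rw [eval₂_C]
    show eval₂ (Int.castRingHom S) u (C c * X) = _
    rw [eval₂_mul, eval₂_C, eval₂_X]
    rfl
  have h2 : Lam u z (X : ℤ[X][X]) = z := by
    show eval₂ (eval₂RingHom (Int.castRingHom S) u) z X = _
    rw [eval₂_X]
  rw [map_sub, map_pow, h1, h2]

private theorem int_range {K : Type} [Field K] {W : LaurentSeries K}
    (h : IsIntegral (PowerSeries K) W) : W ∈ (HahnSeries.ofPowerSeries ℤ K).range := by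
  obtain ⟨y, hy⟩ := IsIntegrallyClosed.isIntegral_iff.1 h
  exact ⟨y, hy⟩

private theorem W_range {K : Type} [Field K] {f : ℤ[X][X]} (hf : f.Monic) {U W : LaurentSeries K}
    (hU : U ∈ (HahnSeries.ofPowerSeries ℤ K).range) (h : Lam U W f = 0) :
    W ∈ (HahnSeries.ofPowerSeries ℤ K).range := by
  obtain ⟨u, rfl⟩ := hU
  refine int_range ⟨f.map (eval₂RingHom (Int.castRingHom (PowerSeries K)) u), hf.map _, ?_⟩
  rw [eval₂_map]
  have h1 : (algebraMap (PowerSeries K) (LaurentSeries K)).comp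
      (eval₂RingHom (Int.castRingHom (PowerSeries K)) u)
      = eval₂RingHom (Int.castRingHom (LaurentSeries K)) (HahnSeries.ofPowerSeries ℤ K u) := by
    refine Polynomial.ringHom_ext (fun a => ?_) ?_
    · simp
    · simp [LaurentSeries.coe_algebraMap]
  rw [h1]
  exact h

private theorem U_range {K : Type} [Field K] [CharZero K] {U : LaurentSeries K} {q : ℤ[X]}
    (hq : q ≠ 0) (h : q.eval₂ (Int.castRingHom (LaurentSeries K)) U = 0) :
    U ∈ (HahnSeries.ofPowerSeries ℤ K).range := by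
  have hc : (q.leadingCoeff : K) ≠ 0 := by
    rw [Int.cast_ne_zero]
    exact leadingCoeff_ne_zero.2 hq
  have hb : PowerSeries.C ((q.leadingCoeff : K)⁻¹) *
      Int.castRingHom (PowerSeries K) q.leadingCoeff = 1 := by
    have h1 : Int.castRingHom (PowerSeries K) q.leadingCoeff
        = PowerSeries.C (q.leadingCoeff : K) := by
      rw [map_intCast]
      rfl
    rw [h1, ← map_mul, inv_mul_cancel₀ hc, map_one]
  have hl : (q.map (Int.castRingHom (PowerSeries K))).leadingCoeff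
      = Int.castRingHom (PowerSeries K) q.leadingCoeff :=
    leadingCoeff_map_of_leadingCoeff_ne_zero _ (right_ne_zero_of_mul (by
      rw [hb]
      exact one_ne_zero))
  refine int_range ⟨C (PowerSeries.C ((q.leadingCoeff : K)⁻¹)) *
    q.map (Int.castRingHom (PowerSeries K)), ?_, ?_⟩
  · refine monic_C_mul_of_mul_leadingCoeff_eq_one ?_
    rw [hl]
    exact hb
  · rw [eval₂_mul, eval₂_map]
    have h1 : (algebraMap (PowerSeries K) (LaurentSeries K)).comp
        (Int.castRingHom (PowerSeries K)) = Int.castRingHom (LaurentSeries K) :=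
      RingHom.ext_int _ _
    rw [h1, h, mul_zero]

theorem infr_cover (r : ℕ) (hr : 1 ≤ r) (β ω : ℚ) (hβ : β ≠ 0)
    [Fact (Irreducible (X ^ r - C ω : ℚ[X]))] {d0 d1 : ℕ} {F0 F1 : ℕ → ℕ → ℤ}
    (h0 : InfX r β d0 F0) (h1 : InfX r (ω * β) d1 F1) (p : MvPolynomial (Fin 2) ℤ)
    (hnm : ∀ (K : Type) [Field K] [CharZero K] (X Y : LaurentSeries K), vl p X Y = 0 →
      (X ∈ (HahnSeries.ofPowerSeries ℤ K).range ↔ Y ∈ (HahnSeries.ofPowerSeries ℤ K).range))
    {D M : ℕ} {Fp : ℕ → ℕ → ℤ} {a : ℤ} (ha : a ≠ 0)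
    (hrel : ∀ (S : Type) [CommRing S] (x y : S),
      ev D (cst S Fp) (y + x ^ M) ((a : S) * x) = (a : S) ^ (D - 1) * vl p x y)
    (f : ℤ[X][X]) (hf : f.Monic)
    (hlift : ∀ (L : Type) [Field L] [CharZero L] (U W : L),
      (∀ q : ℤ[X], q ≠ 0 → q.eval₂ (Int.castRingHom L) U ≠ 0) → Lam U W f = 0 →
      ∃ Z1 Z2 Z3 : L, Lam U Z1 (toP D Fp) = 0 ∧ (sc d0 F0 a X).eval₂ (Lam U Z1) Z2 = 0 ∧
        (sc d1 F1 (a ^ M) (C (C (a ^ M) * X) - X ^ M)).eval₂ (Lam U Z1) Z3 = 0) :
    INFR (AdjoinRoot (X ^ r - C ω : ℚ[X])) (toB.symm f) := by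
  intro K _ _ hreal U W hvl
  have hLam : Lam U W f = 0 := by
    rw [← lam_vl, AlgEquiv.apply_symm_apply] at hvl
    exact hvl
  by_cases hU : U ∈ (HahnSeries.ofPowerSeries ℤ K).range
  · exact Or.inl ⟨hU, W_range hf hU hLam⟩
  right
  have hch : CharZero (LaurentSeries K) :=
    charZero_of_injective_ringHom (f := (HahnSeries.C : K →+* LaurentSeries K))
      HahnSeries.C_injective
  obtain ⟨Z1, Z2, Z3, g1, g2, g3⟩ := hlift (LaurentSeries K) U W
    (fun q hq h => hU (U_range hq h)) hLam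
  have haL : (a : LaurentSeries K) ≠ 0 := Int.cast_ne_zero.2 ha
  set X0 : LaurentSeries K := Z1 / a with hX0
  set X1 : LaurentSeries K := U - X0 ^ M with hX1
  have hU' : U = X1 + X0 ^ M := by rw [hX1]; ring
  have hZ : (a : LaurentSeries K) * X0 = Z1 := by
    rw [hX0]
    field_simp
  have hvp : vl p X0 X1 = 0 := by
    have h2 := hrel (LaurentSeries K) X0 X1
    rw [← hU', hZ, ← Lam_toP, g1] at h2
    have h3 := mul_eq_zero.1 h2.symm
    exact h3.resolve_left (pow_ne_zero _ haL)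
  have hiff := hnm K X0 X1 hvp
  have hX0n : X0 ∉ (HahnSeries.ofPowerSeries ℤ K).range := by
    intro h2
    apply hU
    rw [hU']
    exact add_mem (hiff.1 h2) (pow_mem h2 M)
  have hX1n : X1 ∉ (HahnSeries.ofPowerSeries ℤ K).range := fun h2 => hX0n (hiff.2 h2)
  have k0 := sc_field a haL X U Z1 Z2 g2
  have e0 : Lam U Z1 (X : ℤ[X][X]) = Z1 := by simp [Lam]
  rw [e0] at k0
  have haM : ((a ^ M : ℤ) : LaurentSeries K) ≠ 0 := by
    rw [Int.cast_pow]
    exact pow_ne_zero _ haL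
  have k1 := sc_field (a ^ M) haM (C (C (a ^ M) * X) - X ^ M) U Z1 Z3 g3
  have e1 : Lam U Z1 (C (C (a ^ M) * X) - X ^ M : ℤ[X][X]) = (a : LaurentSeries K) ^ M * U - Z1 ^ M := by
    rw [ino_Lam_CC, Int.cast_pow]
  have e2 : Lam U Z1 (C (C (a ^ M) * X) - X ^ M : ℤ[X][X]) / ((a ^ M : ℤ) : LaurentSeries K) = X1 := by
    rw [e1, Int.cast_pow, hX1, hX0, div_pow]
    field_simp
  rw [e2] at k1
  obtain ⟨θ0, hθ0⟩ := (h0 K hreal X0 (Z2 / a) k0).resolve_left hX0n
  obtain ⟨θ1, hθ1⟩ := (h1 K hreal X1 _ k1).resolve_left hX1n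
  have hβK : (β : K) ≠ 0 := Rat.cast_ne_zero.2 hβ
  have hθ : (θ1 / θ0) ^ r = (ω : K) := by
    rw [div_pow, hθ0, hθ1, Rat.cast_mul]
    field_simp
  refine ⟨AdjoinRoot.lift (algebraMap ℚ K) (θ1 / θ0) ?_⟩
  rw [eval₂_sub, eval₂_X_pow, eval₂_C, hθ, eq_ratCast, sub_self]

end Pool.Agent.H97.NW
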