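import Pool.Agent.H97.NW.THS
import Pool.Agent.H97.NW.REB
import Pool.Agent.H97.NW.PTB
import Pool.Agent.H8.AF.Fin

/-! # [H97 NW RDX] From an arbitrary curve to a radical pointed curve

`k = AdjoinRoot (X^r - C β)` (number field of degree `r ≥ 2`), `hinf` gives `INFR k F` (`infn_iff`), `exists_y k` (`Pool/Agent/H34/AC/RedR.lean`) the monomial with `1 ≤ m 1`, `redB`: `d, b, F', a, C` (`N = n (n+1)`). Put `u = y + x^(n+1)`. As in `all_curves` (`Pool/Agent/H8/AF/Fin.lean`): `b^c ≤ |u|`, since otherwise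
`size_up` (`V = b^c ≥ b^(2N+1)`, `cA_ge`) gives `max ≤ b^(c (2n+3)) ≤ H^(cR n c (2n+3))`. Again `size_up` with `V = |u|`: `max ≤ |u|^(2n+3)`. `CrvB.pt` (`4 N! ≤ cA N ≤ c`): `i, T`. `P : Ptd N` with `x := u`, `y := a x`.
`ThS`: `inf_inf1K` (`Pool/Agent/H34/AC/Inf1.lean`, with the relation from `redB`, `M = n + 1`) gives `INF1R k (fI d F')`, then `exists_ThS`. `mem`, `real`: `th_real` (`b + 1 ≤ b^2 ≤ b^c ≤ |u|`).
`inf`: let `ev d F' X Y = 0` over `K((t))`; put `x' = Y / a`, `y' = X - x'^(n+1)`; the relation gives `a^(d-1) vl F x' y' = 0`, so `vl F x' y' = 0`; `hinf`: either both lie in the range, then `X = y' + x'^(n+1)` does, or there is `θ`. -/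

namespace Pool.Agent.H97.NW

open Finset Polynomial Pool.Agent.H72.ES Pool.Agent.H87.SA2 Pool.Agent.H8.AW Pool.Agent.H52.AC
  Pool.Agent.H34.AC

private theorem vl_map {S T : Type*} [CommRing S] [CommRing T] (f : S →+* T)
    (F : MvPolynomial (Fin 2) ℤ) (x y : S) : f (vl F x y) = vl F (f x) (f y) := by
  unfold vl
  rw [MvPolynomial.eval₂_comp_left]
  congr 1
  · exact Subsingleton.elim _ _
  · funext i
    fin_cases i <;> rfl

theorem redX (r n : ℕ) (hr : 2 ≤ r) (hn : 3 ≤ n) (c : ℕ) (hc : cA (n * (n + 1)) ≤ c) (β : ℚ)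
    (hβ : β ≠ 0) (hβi : Irreducible (X ^ r - C β : ℚ[X])) (F : MvPolynomial (Fin 2) ℤ)
    (hirr : Irreducible (MvPolynomial.map (Int.castRingHom ℚ) F)) (hdeg : F.totalDegree ≤ n)
    (hinf : INFN r β F) (H : ℕ) (hH2 : 2 ≤ H) (hH : ∀ m, |F.coeff m| ≤ (H : ℤ)) (x y : ℤ)
    (h0 : vl F x y = 0) (hbig : H ^ (cR n * c * (2 * n + 3)) < max x.natAbs y.natAbs) :
    ∃ Q : RPt r (n * (n + 1)) β, Q.P.Thr c ∧
      ((max x.natAbs y.natAbs : ℕ) : ℝ) ≤ |(Q.P.x : ℝ)| ^ (2 * n + 3) := by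
  have hfact : Fact (Irreducible (X ^ r - C β : ℚ[X])) := ⟨hβi⟩
  have hg0 : (X ^ r - C β : ℚ[X]) ≠ 0 := hβi.ne_zero
  have hNF : NumberField (AdjoinRoot (X ^ r - C β : ℚ[X])) :=
    { to_charZero := charZero_of_injective_algebraMap (algebraMap ℚ _).injective
      to_finiteDimensional := (AdjoinRoot.powerBasis hg0).finite }
  have hfin : 2 ≤ Module.finrank ℚ (AdjoinRoot (X ^ r - C β : ℚ[X])) := by
    rw [(AdjoinRoot.powerBasis hg0).finrank, AdjoinRoot.powerBasis_dim hg0,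
      natDegree_X_pow_sub_C]
    exact hr
  have hINFR := (infn_iff r β F).mp hinf
  obtain ⟨m0, hm0, hm1⟩ := exists_y (AdjoinRoot (X ^ r - C β : ℚ[X])) hfin hINFR h0
  obtain ⟨d, b, F', a, ⟨Cc⟩, h4, hb, ha0, -, hev⟩ :=
    redB n hn F hirr hdeg ⟨m0, hm0, hm1⟩ H hH2 hH
  obtain ⟨m, hm⟩ : ∃ m, m = max x.natAbs y.natAbs := ⟨_, rfl⟩
  rw [← hm] at hbig ⊢
  have hN1 : 1 ≤ n * (n + 1) := Nat.mul_pos (by omega) (by omega)
  obtain ⟨hcA1, hcA2⟩ := H8.AF.cA_ge hN1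
  have hb2 : 2 ≤ b := Cc.b2
  have hevZ : ev d F' (y + x ^ (n + 1)) (a * x) = 0 := by
    have h := hev ℤ x y
    have hc' : cst ℤ F' = F' := by
      funext i j
      simp [cst]
    rw [hc', h0, mul_zero] at h
    simpa using h
  have hHm : b ^ (c * (2 * n + 3)) < m := by
    calc b ^ (c * (2 * n + 3)) ≤ (H ^ cR n) ^ (c * (2 * n + 3)) :=
          Nat.pow_le_pow_left hb _
      _ = H ^ (cR n * c * (2 * n + 3)) := by rw [← pow_mul, mul_assoc]
      _ < m := hbig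
  have hkey : ∀ V : ℤ, (b : ℤ) ^ (2 * (n * (n + 1)) + 1) ≤ V → |y + x ^ (n + 1)| ≤ V →
      (m : ℤ) ≤ V ^ (2 * n + 3) := by
    intro V hV hu
    obtain ⟨h1, h2⟩ := H8.AF.size_up (by omega) Cc.dn hb2 Cc.lead Cc.le ha0 hV hu hevZ
    rw [hm]
    rw [Int.abs_eq_natAbs] at h1 h2
    push_cast
    rw [Int.abs_eq_natAbs, Int.abs_eq_natAbs]
    exact max_le h1 h2
  have hbc : (b : ℤ) ^ (2 * (n * (n + 1)) + 1) ≤ (b : ℤ) ^ c :=
    pow_le_pow_right₀ (by exact_mod_cast (by omega : 1 ≤ b)) (hcA1.trans hc)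
  have hu : (b : ℤ) ^ c ≤ |y + x ^ (n + 1)| := by
    by_contra hcon
    push Not at hcon
    have h1 := hkey _ hbc hcon.le
    rw [← pow_mul] at h1
    have h2 : m ≤ b ^ (c * (2 * n + 3)) := by exact_mod_cast h1
    omega
  have hup : (m : ℤ) ≤ |y + x ^ (n + 1)| ^ (2 * n + 3) := hkey _ (hbc.trans hu) le_rfl
  have huR : (b : ℝ) ^ c ≤ |((y + x ^ (n + 1) : ℤ) : ℝ)| := by
    have : ((b : ℤ) ^ c : ℤ) ≤ |y + x ^ (n + 1)| := hu
    exact_mod_cast this
  obtain ⟨i, T, hT, hTx, hi⟩ := Cc.pt h4 (hcA2.trans hc) hevZ huR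
  -- the roots attached to the branches
  have hinf1 : INF1R (AdjoinRoot (X ^ r - C β : ℚ[X])) (H8.AW.fI d F') := by
    intro K _ _ hK r' e x' hr' he hx'
    exact inf_inf1K (AdjoinRoot (X ^ r - C β : ℚ[X])) K (fun X Y hXY => hINFR K hK X Y hXY)
      (n + 1) d F' a ha0 hev r' e x' hr' he hx'
  obtain ⟨h⟩ := exists_ThS r (by omega) β Cc.pd hinf1
  have hb1 : (b : ℝ) + 1 ≤ |((y + x ^ (n + 1) : ℤ) : ℝ)| := by
    have hb2R : (2 : ℝ) ≤ b := by exact_mod_cast hb2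
    have hN2 : 2 ≤ c := by omega
    calc (b : ℝ) + 1 ≤ (b : ℝ) ^ 2 := by nlinarith
      _ ≤ (b : ℝ) ^ c := pow_le_pow_right₀ (by linarith) hN2
      _ ≤ _ := huR
  obtain ⟨hmem, hreal⟩ := th_real (by omega) Cc h4 h hb1 hT hTx hi
  refine ⟨⟨⟨d, b, F', Cc, i, T, y + x ^ (n + 1), a * x, hevZ, hTx, hi⟩, h, hmem, hreal, ?_⟩,
    huR, ?_⟩
  · -- InfX
    intro K _ _ hK X' Y' hXY
    obtain ⟨ι, hι⟩ : ∃ ι : PowerSeries K →+* LaurentSeries K, ι = HahnSeries.ofPowerSeries ℤ K :=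
      ⟨_, rfl⟩
    have haK : (a : K) ≠ 0 := by exact_mod_cast ha0
    have haL : (a : LaurentSeries K) ≠ 0 := by
      have h1 : (a : LaurentSeries K) = algebraMap K (LaurentSeries K) (a : K) := by
        rw [map_intCast]
      rw [h1]
      intro h2
      exact haK ((algebraMap K (LaurentSeries K)).injective (by rw [h2, map_zero]))
    set x1 : LaurentSeries K := Y' / (a : LaurentSeries K) with hx1
    set y1 : LaurentSeries K := X' - x1 ^ (n + 1) with hy1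
    have h1 := hev (LaurentSeries K) x1 y1
    have h2 : y1 + x1 ^ (n + 1) = X' := by rw [hy1]; ring
    have h3 : (a : LaurentSeries K) * x1 = Y' := by rw [hx1]; field_simp
    rw [h2, h3, hXY] at h1
    have h4' : vl F x1 y1 = 0 := by
      rcases mul_eq_zero.mp h1.symm with h5 | h5
      · exact absurd h5 (pow_ne_zero _ haL)
      · exact h5
    rcases hinf K hK x1 y1 h4' with ⟨hx, hy⟩ | h5
    · left
      rw [← h2]
      exact add_mem hy (pow_mem hx _)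
    · exact Or.inr h5
  · have : ((m : ℤ) : ℝ) ≤ ((|y + x ^ (n + 1)| ^ (2 * n + 3) : ℤ) : ℝ) := by exact_mod_cast hup
    push_cast at this ⊢
    exact this

end Pool.Agent.H97.NW
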