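import Pool.Agent.H97.NW.Defs

/-! # [H97 NW NMX] Points at infinity where the second coordinate is finite

Write `c_j(u) = ∑_(i ≤ d-j) F i j u^i` (so `F(u,z) = ∑ c_j(u) z^j`, `c_d = 1`, `ev` is the value), `e, q, x_j` from `C.pd`. `C.pd.split` says (coefficients of `fI`): in `ℂ[[T]]`, with `t = (q T)^e`,
`∑_j (∑_i F i j t^(d-i-j)) w^j = ∏ (w - x_j)`.
`reg_branch`: suppose that for every `j` some coefficient of index `< e` of `x_j` is not zero, i.e. the order of `x_j` is `≤ e - 1`. CLAIM: `natDegree c_j < natDegree c_0` for `1 ≤ j ≤ d`. Proof: `x_j` divides `T^(e-1)` in `ℂ[[T]]`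
(a power series is a unit times a power of `T`), so `t = (q T)^e = x_j T h_j`. Put `w = t z` with a polynomial variable `z`: `∑_j t^d c_j(1/t) z^j = ∏ (t z - x_j) = (∏ (- x_j)) ∏ (1 - T h_j z)`, where `t^d c_j(1/t) = ∑_i F i j t^(d-i) =: C_j` (`i ≤ d - j`).
So `C_0 = ∏ (-x_j) ≠ 0` and `C_j = C_0 * (T * s_j)` for `j ≥ 1`: the order of `C_j` in `T` is larger than the order of `C_0`; the order of `C_j` is `e (d - natDegree c_j)` if `c_j ≠ 0`. So `natDegree c_j < natDegree c_0` if `c_j ≠ 0`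
(for `j ≥ 1`); in particular (`c_d = 1`) `1 ≤ m := natDegree c_0`, and the claim holds for `c_j = 0` too.
Now `U` has a pole of order `ρ ≥ 1` (`U ∉` range of `ofPowerSeries`: `HahnSeries` order `< 0`), `Z` has order `≥ 0`. `c_0(U)` has order exactly `- m ρ`, and `c_j(U) Z^j`, `j ≥ 1`, has order `≥ - (m - 1) ρ > - m ρ`
(`LaurentSeries` valuation or `HahnSeries.order`, `addVal`; or multiply by `U^(-m)`: `U^(-1)` lies in `t K[[t]]`, and reduce modulo `t`: `F(U,Z) U^(-m)` has constant coefficient = leading coefficient of `c_0`, `≠ 0` in `K`). So `F(U,Z) ≠ 0`, contradiction.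
`reg_all`: every `x_j = T^e x'_j`. The coefficient of `w^(d-k)` in `∏ (w - x_j)` is divisible by `T^(e k)`; it is `∑_(i ≤ k) F i (d-k) (q T)^(e (k - i))`, so `F i (d-k) = 0` for `1 ≤ i ≤ k`
(`q ≠ 0`; compare the coefficient of `T^(e (k-i))`). -/

namespace Pool.Agent.H97.NW

open Finset Polynomial Pool.Agent.H72.ES Pool.Agent.H87.SA2 Pool.Agent.H8.AW Pool.Agent.H52.AC

variable {n d b : ℕ} {F : ℕ → ℕ → ℤ}

private noncomputable def nmx_t (e q : ℕ) : PowerSeries ℂ :=
  (PowerSeries.C (q : ℂ) * PowerSeries.X) ^ e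

private theorem nmx_t_pow (e q k : ℕ) :
    nmx_t e q ^ k = PowerSeries.C ((q : ℂ) ^ (e * k)) * PowerSeries.X ^ (e * k) := by
  unfold nmx_t
  rw [← pow_mul, mul_pow, ← map_pow]

private noncomputable def nmx_S (d e q : ℕ) (F : ℕ → ℕ → ℤ) (j : ℕ) : PowerSeries ℂ :=
  ∑ i ∈ range (d + 1 - j), PowerSeries.C ((F i j : ℤ) : ℂ) * nmx_t e q ^ (d - i)

private theorem nmx_coeff (d e q : ℕ) (F : ℕ → ℕ → ℤ) (j l : ℕ) :
    PowerSeries.coeff l (nmx_S d e q F j) = ∑ i ∈ range (d + 1 - j),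
      if l = e * (d - i) then ((F i j : ℤ) : ℂ) * (q : ℂ) ^ (e * (d - i)) else 0 := by
  unfold nmx_S
  rw [map_sum]
  refine sum_congr rfl fun i _ => ?_
  rw [nmx_t_pow, ← mul_assoc, ← map_mul, PowerSeries.coeff_C_mul_X_pow]

private theorem nmx_coeff_eq {d e : ℕ} (q : ℕ) (F : ℕ → ℕ → ℤ) (he : 1 ≤ e) (i j : ℕ)
    (hij : i + j ≤ d) : PowerSeries.coeff (e * (d - i)) (nmx_S d e q F j) =
      ((F i j : ℤ) : ℂ) * (q : ℂ) ^ (e * (d - i)) := by
  rw [nmx_coeff, Finset.sum_eq_single i]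
  · rw [if_pos rfl]
  · intro i' hi' hne
    rw [if_neg]
    intro h
    have h1 := Nat.eq_of_mul_eq_mul_left he h
    have h2 := mem_range.1 hi'
    omega
  · intro h
    exact absurd (mem_range.2 (by omega)) h

private theorem nmx_fI (d : ℕ) (F : ℕ → ℕ → ℤ) (j : ℕ) (hj : j ≤ d) :
    (fI d F).coeff j = ∑ i ∈ range (d + 1 - j), Polynomial.C (F i j) * Polynomial.X ^ (d - i - j) := by
  unfold fI
  rw [Polynomial.finsetSum_coeff]
  simp only [Polynomial.coeff_C_mul_X_pow]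
  rw [Finset.sum_ite_eq (range (d + 1)) j, if_pos (mem_range.2 (by omega))]

private theorem nmx_split (C0 : CrvB n d b F) (j : ℕ) (hj : j ≤ d) :
    nmx_S d C0.pd.e C0.pd.q F j = (∏ i, (Polynomial.C (nmx_t C0.pd.e C0.pd.q) * Polynomial.X -
      Polynomial.C (C0.pd.x i))).coeff j := by
  have h := congrArg (fun p => (p.comp (Polynomial.C (nmx_t C0.pd.e C0.pd.q) * Polynomial.X)).coeff j)
    C0.pd.split
  rw [Polynomial.prod_comp, Polynomial.comp_C_mul_X_coeff, Polynomial.coeff_map, nmx_fI d F j hj] at h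
  simp only [Polynomial.sub_comp, Polynomial.X_comp, Polynomial.C_comp] at h
  rw [← h, map_sum, Finset.sum_mul]
  unfold nmx_S
  refine Finset.sum_congr rfl fun i hi => ?_
  have hi' := mem_range.1 hi
  rw [map_mul, map_pow, mul_assoc]
  have h1 : tq C0.pd.e C0.pd.q (Polynomial.C (F i j)) = PowerSeries.C ((F i j : ℤ) : ℂ) := by
    unfold tq
    rw [Polynomial.coe_eval₂RingHom, Polynomial.eval₂_C]
    simp
  have h2 : tq C0.pd.e C0.pd.q Polynomial.X = nmx_t C0.pd.e C0.pd.q := by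
    unfold tq nmx_t
    rw [Polynomial.coe_eval₂RingHom, Polynomial.eval₂_X]
  rw [h1, h2, ← pow_add]
  congr 2
  omega

private theorem nmx_dvd (e : ℕ) (x : PowerSeries ℂ) (h : ∃ k < e, PowerSeries.coeff k x ≠ 0) :
    ∃ g, x * g = PowerSeries.X ^ (e - 1) := by
  classical
  obtain ⟨k0, hk0e, hk0⟩ := h
  have hex : ∃ k, PowerSeries.coeff k x ≠ 0 := ⟨k0, hk0⟩
  obtain ⟨a, ha, hmin⟩ : ∃ a, PowerSeries.coeff a x ≠ 0 ∧ ∀ k < a, PowerSeries.coeff k x = 0 :=
    ⟨Nat.find hex, Nat.find_spec hex, fun k hk => not_not.1 (Nat.find_min hex hk)⟩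
  have hak : a ≤ k0 := by
    by_contra hlt
    push Not at hlt
    exact hk0 (hmin k0 hlt)
  obtain ⟨v, hv⟩ := PowerSeries.X_pow_dvd_iff.2 hmin
  have hv0 : PowerSeries.constantCoeff v ≠ 0 := by
    intro h0
    apply ha
    rw [hv, PowerSeries.coeff_X_pow_mul', if_pos (le_refl _), Nat.sub_self,
      PowerSeries.coeff_zero_eq_constantCoeff]
    exact h0
  have hu : IsUnit v := PowerSeries.isUnit_iff_constantCoeff.2 (isUnit_iff_ne_zero.2 hv0)
  obtain ⟨w, hw⟩ := hu.exists_right_inv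
  refine ⟨w * PowerSeries.X ^ (e - 1 - a), ?_⟩
  have h1 : (PowerSeries.X : PowerSeries ℂ) ^ (e - 1) = PowerSeries.X ^ a * PowerSeries.X ^ (e - 1 - a) := by
    rw [← pow_add]
    congr 1
    omega
  rw [h1, hv]
  calc PowerSeries.X ^ a * v * (w * PowerSeries.X ^ (e - 1 - a)) =
      (v * w) * (PowerSeries.X ^ a * PowerSeries.X ^ (e - 1 - a)) := by ring
    _ = _ := by rw [hw, one_mul]

/-- the leading coefficient in x is constant -/
private theorem nmx_lead (C0 : CrvB n d b F)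
    (hno : ∀ j, ∃ k < C0.pd.e, PowerSeries.coeff k (C0.pd.x j) ≠ 0) :
    ∃ m : ℕ, m ≤ d ∧ 1 ≤ m ∧ F m 0 ≠ 0 ∧ (∀ i j, m < i → i + j ≤ d → F i j = 0) ∧
      ∀ j, 1 ≤ j → m + j ≤ d → F m j = 0 := by
  classical
  have he := C0.pd.e_pos
  have hq := C0.pd.q_pos
  have hd := C0.d1
  obtain ⟨e, hee⟩ : ∃ e, e = C0.pd.e := ⟨_, rfl⟩
  obtain ⟨q, hqq⟩ : ∃ q, q = C0.pd.q := ⟨_, rfl⟩
  obtain ⟨x, hxx⟩ : ∃ x, x = C0.pd.x := ⟨_, rfl⟩
  have hsplit := nmx_split C0
  rw [← hee, ← hqq, ← hxx] at hsplit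
  rw [← hee, ← hxx] at hno
  rw [← hee] at he
  rw [← hqq] at hq
  choose g hg using fun j => nmx_dvd e (x j) (hno j)
  have ht : ∀ j, x j * (PowerSeries.C ((q : ℂ) ^ e) * g j * PowerSeries.X) = nmx_t e q := by
    intro j
    have h1 := nmx_t_pow e q 1
    rw [pow_one, mul_one] at h1
    have h2 : (PowerSeries.X : PowerSeries ℂ) ^ e = PowerSeries.X ^ (e - 1) * PowerSeries.X := by
      rw [← pow_succ]
      congr 1
      omega
    rw [h1, h2, ← hg j]
    ring
  obtain ⟨Q, hQ⟩ : ∃ Q : Polynomial (PowerSeries ℂ), Q = ∏ j : Fin d,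
    (Polynomial.C (PowerSeries.C ((q : ℂ) ^ e) * g j * PowerSeries.X) * Polynomial.X - 1) := ⟨_, rfl⟩
  have hprod : ∏ j, (Polynomial.C (nmx_t e q) * Polynomial.X - Polynomial.C (x j)) =
      Polynomial.C (∏ j, x j) * Q := by
    rw [hQ, map_prod, ← Finset.prod_mul_distrib]
    refine Finset.prod_congr rfl fun j _ => ?_
    rw [← ht j, map_mul]
    ring
  have hQ0 : ∀ j, PowerSeries.constantCoeff (Q.coeff j) = if j = 0 then (-1 : ℂ) ^ d else 0 := by
    intro j
    have h1 : PowerSeries.constantCoeff (Q.coeff j) =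
        (Q.map (PowerSeries.constantCoeff (R := ℂ))).coeff j := by
      rw [Polynomial.coeff_map]
    have h2 : Q.map (PowerSeries.constantCoeff (R := ℂ)) = Polynomial.C ((-1 : ℂ) ^ d) := by
      rw [hQ, Polynomial.map_prod]
      have h3 : ∀ j ∈ (univ : Finset (Fin d)), Polynomial.map (PowerSeries.constantCoeff (R := ℂ))
          (Polynomial.C (PowerSeries.C ((q : ℂ) ^ e) * g j * PowerSeries.X) * Polynomial.X - 1) =
          (-1 : Polynomial ℂ) := by
        intro j _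
        simp
      rw [Finset.prod_congr rfl h3, Finset.prod_const, Finset.card_univ, Fintype.card_fin]
      simp
    rw [h1, h2, Polynomial.coeff_C]
  obtain ⟨G, hG⟩ : ∃ G : PowerSeries ℂ, G = ∏ j, g j := ⟨_, rfl⟩
  obtain ⟨p, hp⟩ : ∃ p : PowerSeries ℂ, p = ∏ j, x j := ⟨_, rfl⟩
  have hpG : p * G = PowerSeries.X ^ ((e - 1) * d) := by
    rw [hp, hG, ← Finset.prod_mul_distrib, Finset.prod_congr rfl (fun j _ => hg j), Finset.prod_const,
      Finset.card_univ, Fintype.card_fin, ← pow_mul]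
  have hp0 : p ≠ 0 := by
    rintro h0
    rw [h0, zero_mul] at hpG
    exact pow_ne_zero _ PowerSeries.X_ne_zero hpG.symm
  have hex : ∃ k, PowerSeries.coeff k p ≠ 0 := by
    by_contra hall
    push Not at hall
    exact hp0 (PowerSeries.ext fun k => by rw [hall k, map_zero])
  obtain ⟨D, hD, hmin⟩ : ∃ a, PowerSeries.coeff a p ≠ 0 ∧ ∀ k < a, PowerSeries.coeff k p = 0 :=
    ⟨Nat.find hex, Nat.find_spec hex, fun k hk => not_not.1 (Nat.find_min hex hk)⟩
  have hdvd := PowerSeries.X_pow_dvd_iff.2 hmin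
  have hDle : D ≤ (e - 1) * d := by
    by_contra hlt
    push Not at hlt
    have h1 : (PowerSeries.X : PowerSeries ℂ) ^ D ∣ PowerSeries.X ^ ((e - 1) * d) := by
      rw [← hpG]
      exact dvd_mul_of_dvd_left hdvd _
    have h2 := PowerSeries.X_pow_dvd_iff.1 h1 _ hlt
    rw [PowerSeries.coeff_X_pow_self] at h2
    exact one_ne_zero h2
  obtain ⟨v, hv⟩ := hdvd
  have hv0 : PowerSeries.constantCoeff v ≠ 0 := by
    intro h0
    apply hD
    rw [hv, PowerSeries.coeff_X_pow_mul', if_pos (le_refl _), Nat.sub_self,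
      PowerSeries.coeff_zero_eq_constantCoeff]
    exact h0
  have hS : ∀ j ≤ d, nmx_S d e q F j = PowerSeries.X ^ D * (v * Q.coeff j) := by
    intro j hj
    rw [hsplit j hj, hprod, ← hp, Polynomial.coeff_C_mul, hv, mul_assoc]
  have hlow : ∀ j ≤ d, ∀ k < D, PowerSeries.coeff k (nmx_S d e q F j) = 0 := by
    intro j hj k hk
    rw [hS j hj, PowerSeries.coeff_X_pow_mul', if_neg (by omega)]
  have hDD : ∀ j ≤ d, PowerSeries.coeff D (nmx_S d e q F j) =
      PowerSeries.constantCoeff v * (if j = 0 then (-1 : ℂ) ^ d else 0) := by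
    intro j hj
    rw [hS j hj, PowerSeries.coeff_X_pow_mul', if_pos (le_refl _), Nat.sub_self,
      PowerSeries.coeff_zero_eq_constantCoeff, map_mul, hQ0]
  have h0 : PowerSeries.coeff D (nmx_S d e q F 0) ≠ 0 := by
    rw [hDD 0 (Nat.zero_le _), if_pos rfl]
    exact mul_ne_zero hv0 (pow_ne_zero _ (by norm_num))
  rw [nmx_coeff] at h0
  obtain ⟨m, hm, hm0⟩ := Finset.exists_ne_zero_of_sum_ne_zero h0
  have hmd : m ≤ d := by
    have := mem_range.1 hm
    omega
  have hDm : D = e * (d - m) := by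
    by_contra h
    rw [if_neg h] at hm0
    exact hm0 rfl
  rw [if_pos hDm] at hm0
  have hqC : (q : ℂ) ≠ 0 := by
    have : 0 < q := hq
    exact_mod_cast this.ne'
  refine ⟨m, hmd, ?_, ?_, ?_, ?_⟩
  · by_contra hlt
    have hm00 : m = 0 := by omega
    rw [hm00, Nat.sub_zero] at hDm
    have h1 : (e - 1) * d < e * d := Nat.mul_lt_mul_of_pos_right (by omega) (by omega)
    omega
  · intro h
    apply hm0
    rw [h, Int.cast_zero, zero_mul]
  · intro i j hi hij
    have h1 : e * (d - i) < D := by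
      rw [hDm]
      exact Nat.mul_lt_mul_of_pos_left (by omega) (by omega)
    have h2 := hlow j (by omega) _ h1
    rw [nmx_coeff_eq q F he i j hij] at h2
    rcases mul_eq_zero.1 h2 with h3 | h3
    · exact_mod_cast h3
    · exact absurd h3 (pow_ne_zero _ hqC)
  · intro j hj hij
    have h2 := hDD j (by omega)
    rw [if_neg (by omega), mul_zero, hDm, nmx_coeff_eq q F he m j hij] at h2
    rcases mul_eq_zero.1 h2 with h3 | h3
    · exact_mod_cast h3
    · exact absurd h3 (pow_ne_zero _ hqC)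

/-- the inverse of a Laurent series with a pole -/
private theorem nmx_inv (K : Type) [Field K] (U : LaurentSeries K)
    (hU : U ∉ (HahnSeries.ofPowerSeries ℤ K).range) :
    ∃ u : PowerSeries K, U * HahnSeries.ofPowerSeries ℤ K u = 1 ∧ PowerSeries.constantCoeff u = 0 := by
  have hU0 : U ≠ 0 := by
    rintro rfl
    exact hU ⟨0, map_zero _⟩
  obtain ⟨P, hP⟩ : ∃ P : PowerSeries K, P = U.powerSeriesPart := ⟨_, rfl⟩
  have h1 : HahnSeries.single U.order 1 * HahnSeries.ofPowerSeries ℤ K P = U := by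
    rw [hP]
    exact LaurentSeries.single_order_mul_powerSeriesPart U
  have h2 : HahnSeries.ofPowerSeries ℤ K P = HahnSeries.single (-U.order) 1 * U := by
    rw [hP]
    exact LaurentSeries.ofPowerSeries_powerSeriesPart U
  have hneg : U.order < 0 := by
    by_contra hge
    push Not at hge
    apply hU
    refine ⟨PowerSeries.X ^ U.order.toNat * P, ?_⟩
    rw [map_mul, HahnSeries.ofPowerSeries_X_pow, Int.toNat_of_nonneg hge]
    exact h1
  obtain ⟨N, hN⟩ : ∃ N : ℕ, N = (-U.order).toNat := ⟨_, rfl⟩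
  have hN1 : 1 ≤ N := by omega
  have hNo : ((N : ℕ) : ℤ) = -U.order := by
    rw [hN]
    exact Int.toNat_of_nonneg (by omega)
  have hP0 : PowerSeries.constantCoeff P ≠ 0 := by
    rw [← PowerSeries.coeff_zero_eq_constantCoeff_apply, hP, LaurentSeries.powerSeriesPart_coeff]
    intro h
    simp only [Nat.cast_zero, add_zero] at h
    exact hU0 (HahnSeries.coeff_order_eq_zero.1 h)
  have hu : IsUnit P := PowerSeries.isUnit_iff_constantCoeff.2 (isUnit_iff_ne_zero.2 hP0)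
  obtain ⟨w, hw⟩ := hu.exists_right_inv
  refine ⟨PowerSeries.X ^ N * w, ?_, ?_⟩
  · rw [map_mul, HahnSeries.ofPowerSeries_X_pow, hNo]
    calc U * (HahnSeries.single (-U.order) 1 * HahnSeries.ofPowerSeries ℤ K w) =
        (HahnSeries.single (-U.order) 1 * U) * HahnSeries.ofPowerSeries ℤ K w := by ring
      _ = 1 := by rw [← h2, ← map_mul, hw, map_one]
  · rw [map_mul, map_pow, PowerSeries.constantCoeff_X, zero_pow (by omega), zero_mul]

private theorem nmx_fin (m : ℕ) (hmd : m ≤ d) (hm0 : F m 0 ≠ 0)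
    (hi : ∀ i j, m < i → i + j ≤ d → F i j = 0) (hj : ∀ j, 1 ≤ j → m + j ≤ d → F m j = 0)
    (K : Type) [Field K] [CharZero K] (u z : PowerSeries K) (hu : u ≠ 0)
    (hu0 : PowerSeries.constantCoeff u = 0)
    (h : ∑ i ∈ range (d + 1), ∑ j ∈ range (d + 1 - i), ((F i j : ℤ) : PowerSeries K) * u ^ (d - i) * z ^ j
      = 0) : False := by
  classical
  rw [Finset.sum_sigma'] at h
  have hmem : (⟨m, 0⟩ : (_ : ℕ) × ℕ) ∈ (range (d + 1)).sigma (fun i => range (d + 1 - i)) := by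
    rw [Finset.mem_sigma, mem_range, mem_range]
    dsimp only
    omega
  rw [← Finset.add_sum_erase _ _ hmem] at h
  dsimp only at h
  have hdvd : u ^ (d - m + 1) ∣ ∑ x ∈ ((range (d + 1)).sigma (fun i => range (d + 1 - i))).erase ⟨m, 0⟩,
      ((F x.1 x.2 : ℤ) : PowerSeries K) * u ^ (d - x.1) * z ^ x.2 := by
    refine Finset.dvd_sum ?_
    rintro ⟨i, j⟩ hx
    rw [Finset.mem_erase, Finset.mem_sigma, mem_range, mem_range] at hx
    dsimp only at hx ⊢
    obtain ⟨hne, hid, hjd⟩ := hx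
    rcases lt_trichotomy i m with h1 | h1 | h1
    · refine Dvd.dvd.mul_right (Dvd.dvd.mul_left (pow_dvd_pow _ (by omega)) _) _
    · subst h1
      have hj1 : 1 ≤ j := by
        by_contra hlt
        have : j = 0 := by omega
        exact hne (by rw [this])
      rw [hj j hj1 (by omega)]
      simp
    · rw [hi i j h1 (by omega)]
      simp
  obtain ⟨G, hG⟩ := hdvd
  rw [hG, pow_zero, mul_one, pow_succ] at h
  have h2 : u ^ (d - m) * (((F m 0 : ℤ) : PowerSeries K) + u * G) = 0 := by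
    rw [← h]
    ring
  rcases mul_eq_zero.1 h2 with h3 | h3
  · exact pow_ne_zero _ hu h3
  · have h4 := congrArg (PowerSeries.constantCoeff (R := K)) h3
    rw [map_add, map_mul, hu0, zero_mul, add_zero, map_zero, map_intCast] at h4
    exact hm0 (by exact_mod_cast h4)

theorem reg_branch (C : CrvB n d b F) (K : Type) [Field K] [CharZero K] (U Z : LaurentSeries K)
    (h : ev d (cst (LaurentSeries K) F) U Z = 0)
    (hU : U ∉ (HahnSeries.ofPowerSeries ℤ K).range)
    (hZ : Z ∈ (HahnSeries.ofPowerSeries ℤ K).range) :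
    ∃ j, ∀ k < C.pd.e, PowerSeries.coeff k (C.pd.x j) = 0 := by
  by_contra hno
  push Not at hno
  obtain ⟨m, hmd, hm1, hm0, hmi, hmj⟩ := nmx_lead C hno
  obtain ⟨u, hUu, hu0⟩ := nmx_inv K U hU
  obtain ⟨z, rfl⟩ := hZ
  have hu : u ≠ 0 := by
    rintro rfl
    rw [map_zero, mul_zero] at hUu
    exact zero_ne_one hUu
  refine nmx_fin m hmd hm0 hmi hmj K u z hu hu0 ?_
  apply HahnSeries.ofPowerSeries_injective (Γ := ℤ)
  rw [map_zero, map_sum]
  have h1 : ev d (cst (LaurentSeries K) F) U (HahnSeries.ofPowerSeries ℤ K z) *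
      HahnSeries.ofPowerSeries ℤ K u ^ d = 0 := by rw [h, zero_mul]
  rw [← h1]
  unfold ev cst
  rw [Finset.sum_mul]
  refine Finset.sum_congr rfl fun i hi => ?_
  rw [map_sum, Finset.sum_mul]
  refine Finset.sum_congr rfl fun j hj => ?_
  have hi' := mem_range.1 hi
  rw [map_mul, map_mul, map_pow, map_pow, map_intCast]
  have h2 : HahnSeries.ofPowerSeries ℤ K u ^ d =
      HahnSeries.ofPowerSeries ℤ K u ^ i * HahnSeries.ofPowerSeries ℤ K u ^ (d - i) := by
    rw [← pow_add]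
    congr 1
    omega
  have h3 : U ^ i * HahnSeries.ofPowerSeries ℤ K u ^ i = 1 := by rw [← mul_pow, hUu, one_pow]
  rw [h2]
  calc ((F i j : ℤ) : LaurentSeries K) * HahnSeries.ofPowerSeries ℤ K u ^ (d - i) *
      HahnSeries.ofPowerSeries ℤ K z ^ j = ((F i j : ℤ) : LaurentSeries K) * 1 *
      HahnSeries.ofPowerSeries ℤ K u ^ (d - i) * HahnSeries.ofPowerSeries ℤ K z ^ j := by ring
    _ = _ := by
      rw [← h3]
      ring

theorem reg_all (C : CrvB n d b F) (h : ∀ j, ∀ k < C.pd.e, PowerSeries.coeff k (C.pd.x j) = 0)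
    (i j : ℕ) (hi : 1 ≤ i) (hij : i + j ≤ d) : F i j = 0 := by
  have he := C.pd.e_pos
  have hq := C.pd.q_pos
  have hqC : (C.pd.q : ℂ) ≠ 0 := by
    have : 0 < C.pd.q := hq
    exact_mod_cast this.ne'
  have hex : ∀ l, ∃ y, C.pd.x l = PowerSeries.X ^ C.pd.e * y := fun l =>
    PowerSeries.X_pow_dvd_iff.2 (h l)
  choose y hy using hex
  have ht : nmx_t C.pd.e C.pd.q = PowerSeries.C ((C.pd.q : ℂ) ^ C.pd.e) * PowerSeries.X ^ C.pd.e := by
    have h1 := nmx_t_pow C.pd.e C.pd.q 1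
    rwa [pow_one, mul_one] at h1
  have hx : ∀ l, C.pd.x l = nmx_t C.pd.e C.pd.q *
      (PowerSeries.C (((C.pd.q : ℂ) ^ C.pd.e)⁻¹) * y l) := by
    intro l
    rw [ht, hy l]
    have h2 : PowerSeries.C ((C.pd.q : ℂ) ^ C.pd.e) * PowerSeries.C (((C.pd.q : ℂ) ^ C.pd.e)⁻¹) =
        (1 : PowerSeries ℂ) := by
      rw [← map_mul, mul_inv_cancel₀ (pow_ne_zero _ hqC), map_one]
    calc PowerSeries.X ^ C.pd.e * y l = (1 : PowerSeries ℂ) * (PowerSeries.X ^ C.pd.e * y l) := by
          rw [one_mul]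
      _ = _ := by
        rw [← h2]
        ring
  have hsp := nmx_split C j (by omega)
  have hprod : ∏ l, (Polynomial.C (nmx_t C.pd.e C.pd.q) * Polynomial.X - Polynomial.C (C.pd.x l)) =
      Polynomial.C (nmx_t C.pd.e C.pd.q ^ d) * ∏ l, (Polynomial.X -
        Polynomial.C (PowerSeries.C (((C.pd.q : ℂ) ^ C.pd.e)⁻¹) * y l)) := by
    have h3 : Polynomial.C (nmx_t C.pd.e C.pd.q ^ d) =
        ∏ _l : Fin d, Polynomial.C (nmx_t C.pd.e C.pd.q) := by
      rw [Finset.prod_const, Finset.card_univ, Fintype.card_fin, map_pow]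
    rw [h3, ← Finset.prod_mul_distrib]
    refine Finset.prod_congr rfl fun l _ => ?_
    rw [mul_sub, ← map_mul, ← hx l]
  rw [hprod, Polynomial.coeff_C_mul, nmx_t_pow, mul_comm (PowerSeries.C _), mul_assoc] at hsp
  have h4 := nmx_coeff_eq C.pd.q F he i j hij
  rw [hsp, PowerSeries.coeff_X_pow_mul', if_neg] at h4
  · rcases mul_eq_zero.1 h4.symm with h5 | h5
    · exact_mod_cast h5
    · exact absurd h5 (pow_ne_zero _ hqC)
  · rw [not_le]
    exact Nat.mul_lt_mul_of_pos_left (by omega) (by omega)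

end Pool.Agent.H97.NW
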