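import Pool.Agent.H97.NW.FAR

/-! # [H97 NW RUN] Runge: the branches at infinity of a pointed curve above the threshold are conjugate

`run`: `far_m` with `m = 1`, `γ = 1/n`, `P = fun _ => P0`, `PP` = the set of `p : ∀ v : Fin 1, Fin d` with `Q (p 0)`; there are no `i < j` in `Fin 1`, so the last condition holds trivially
and the count must fail: `(1 + 1/n) card > d`; `card ≤ d`, so if `card ≤ d - 1` then `(1 + 1/n)(d - 1) ≤ d` (`d ≤ n`), contradiction; hence `card = d` and `Q` holds everywhere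
(`Fintype.card_pi`, or the bijection with `univ.filter Q`).
`run_iff`: if `Q (P0.i)` apply `run` to `Q`, otherwise to `fun j => ¬ Q j`. -/

namespace Pool.Agent.H97.NW

open Finset Polynomial Pool.Agent.H72.ES Pool.Agent.H87.SA2 Pool.Agent.H8.AW Pool.Agent.H52.AC

theorem run (n : ℕ) (hn : 4 ≤ n) : ∃ c : ℕ, cA n ≤ c ∧ ∀ (P : Ptd n), P.Thr c →
    ∀ Q : Fin P.d → Prop,
      (∀ σ : AA →+* ℂ, ∀ j j', (∀ (k : ℕ) (a : AA), (a : ℂ) = PowerSeries.coeff k (P.C.pd.x j) →
        σ a = PowerSeries.coeff k (P.C.pd.x j')) → Q j → Q j') →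
      (∀ ζ : ℂ, ζ ^ P.C.pd.e = 1 → ∀ j j', PowerSeries.rescale ζ (P.C.pd.x j) = P.C.pd.x j' →
        Q j → Q j') → Q P.i → ∀ j, Q j := by
  classical
  have hn0 : (0 : ℝ) < n := by
    have : 0 < n := by omega
    exact_mod_cast this
  obtain ⟨R, c, hR, hc, h⟩ := far_m 1 n le_rfl hn (1 / n) (by positivity)
  refine ⟨c, hc, fun P hP Q hQ1 hQ2 hQi => ?_⟩
  set PP : Finset (∀ v : Fin 1, Fin P.d) := univ.filter fun p => Q (p 0) with hPP
  have hStb : Stb (fun _ : Fin 1 => P) PP := by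
    refine ⟨fun σ p hp p' hpp => ?_, fun ζ hζ p hp p' hpp => ?_⟩
    · rw [hPP, mem_filter] at hp ⊢
      exact ⟨mem_univ _, hQ1 σ (p 0) (p' 0) (fun k a ha => hpp 0 k a ha) hp.2⟩
    · rw [hPP, mem_filter] at hp ⊢
      exact ⟨mem_univ _, hQ2 (ζ 0) (hζ 0) (p 0) (p' 0) (hpp 0) hp.2⟩
  have hmem : (fun _ : Fin 1 => P.i) ∈ PP := by
    rw [hPP, mem_filter]
    exact ⟨mem_univ _, hQi⟩
  have hcard : PP.card = (univ.filter Q).card := by
    refine card_nbij' (fun p => p 0) (fun j _ => j) ?_ ?_ ?_ ?_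
    · intro p hp
      simp only [hPP, coe_filter, mem_univ, true_and, Set.mem_ofPred_eq] at hp ⊢
      exact hp
    · intro j hj
      simp only [hPP, coe_filter, mem_univ, true_and, Set.mem_ofPred_eq] at hj ⊢
      exact hj
    · intro p _
      funext v
      rw [Subsingleton.elim v 0]
    · intro j _
      rfl
  have hnot : ¬ (1 + 1 / (n : ℝ)) * (((1 : ℕ) : ℝ) ^ 1 * PP.card) ≤
      ((1 : ℕ).factorial : ℝ) * ∏ v : Fin 1, (P.d : ℝ) := by
    intro hle
    refine h (fun _ => P) PP hStb hmem hle (fun _ => hP) fun i j hij => ?_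
    exact absurd hij (by rw [Subsingleton.elim i j]; exact lt_irrefl _)
  have hle : (univ.filter Q).card ≤ P.d := by
    have := card_filter_le (univ : Finset (Fin P.d)) Q
    rwa [card_univ, Fintype.card_fin] at this
  have hdn : (P.d : ℝ) ≤ n := by exact_mod_cast P.C.dn
  have heq : (univ.filter Q).card = P.d := by
    by_contra hne
    apply hnot
    have h1 : (univ.filter Q).card + 1 ≤ P.d := by omega
    have h2 : ((univ.filter Q).card : ℝ) + 1 ≤ P.d := by exact_mod_cast h1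
    rw [hcard]
    simp only [Nat.cast_one, one_mul, Nat.factorial_one, univ_unique, prod_const,
      card_singleton, pow_one]
    have h3 : (1 / (n : ℝ)) * ((univ.filter Q).card : ℝ) ≤ 1 := by
      rw [one_div, inv_mul_le_iff₀ hn0, mul_one]
      linarith
    nlinarith
  intro j
  have h4 : univ.filter Q = (univ : Finset (Fin P.d)) := by
    apply eq_univ_of_card
    rw [heq, Fintype.card_fin]
  have h5 : j ∈ univ.filter Q := by
    rw [h4]
    exact mem_univ _
  exact (mem_filter.1 h5).2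

theorem run_iff (n : ℕ) (hn : 4 ≤ n) : ∃ c : ℕ, cA n ≤ c ∧ ∀ (P : Ptd n), P.Thr c →
    ∀ Q : Fin P.d → Prop,
      (∀ σ : AA →+* ℂ, ∀ j j', (∀ (k : ℕ) (a : AA), (a : ℂ) = PowerSeries.coeff k (P.C.pd.x j) →
        σ a = PowerSeries.coeff k (P.C.pd.x j')) → (Q j ↔ Q j')) →
      (∀ ζ : ℂ, ζ ^ P.C.pd.e = 1 → ∀ j j', PowerSeries.rescale ζ (P.C.pd.x j) = P.C.pd.x j' →
        (Q j ↔ Q j')) → (∀ j, Q j) ∨ (∀ j, ¬ Q j) := by
  obtain ⟨c, hc, h⟩ := run n hn
  refine ⟨c, hc, fun P hP Q hQ1 hQ2 => ?_⟩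
  by_cases hi : Q P.i
  · left
    exact h P hP Q (fun σ j j' hj => (hQ1 σ j j' hj).1) (fun ζ hζ j j' hj => (hQ2 ζ hζ j j' hj).1) hi
  · right
    exact h P hP (fun j => ¬ Q j) (fun σ j j' hj => not_imp_not.2 (hQ1 σ j j' hj).2)
      (fun ζ hζ j j' hj => not_imp_not.2 (hQ2 ζ hζ j j' hj).2) hi

end Pool.Agent.H97.NW
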