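import Pool.Agent.H97.NW.REB
import Pool.Agent.H97.NW.PTB
import Pool.Agent.H97.NW.NMX
import Pool.Agent.H97.NW.RUN
import Pool.Agent.H8.AF.Red

/-! # [H97 NW NMP] On a curve with a large integer point no place has exactly one finite coordinate

`nomix1`: let `N = n (n+1)`, `c'` at least the constant of `run_iff N`, `2 N + 1`, `4 N!`; `c = cR n * c' * (2 n + 3) + 1`. `redB` for `p`: `C`, `b ≤ H^(cR n)`. Put `u = y + x^(n+1)`, `z = a x`: `ev d F' u z = 0` (`S = ℤ`). If `|u| < b^c'` then `size_up`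
(`Pool/Agent/H8/AF/Red.lean`, `V = b^c'`) gives `|x| ≤ b^(c' (2n+3)) < H^c`, contradiction; so `b^c' ≤ |u|`. `CrvB.pt` gives `i, T`; `P : Ptd N` with `d, b, F', C, i, T, x := u, y := z`. `run_iff` for
`Q j = ∀ k < e, coeff k (x j) = 0`: the first condition: `σ a = 0 ↔ a = 0` for `a : AA` (the coefficients are algebraic: `coeff_mem` of `Pool/Agent/H52/AC/PRM.lean`), the second: `coeff k (rescale ζ w) = ζ^k coeff k w`, `ζ ≠ 0`. So all or none.
Let `X` be in the range and `Y` not: `U = Y + X^(n+1)` is not in the range, `Z = a X` is, `ev d F' U Z = 0`: `reg_branch`, so `Q` holds for all `j`, `reg_all`: `F' i j = 0` for `i ≥ 1`. Then for all `s, t : ℚ`: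
`a^(d-1) vl p s t = ev d F' (t + s^(n+1)) (a s) = ∑_j F' 0 j (a s)^j` does not depend on `t`: `vl p s t = vl p s 0`, so (`MvPolynomial.funext` over `ℚ`) `p` has no monomial with `1 ≤ m 1`: compare `p` with
`MvPolynomial.aeval ![X 0, 0] p`. Contradiction.
`nomix`: `nomix1` for `p` and for `MvPolynomial.rename (Equiv.swap 0 1) p` (irreducible, `totalDegree` and coefficients the same, `vl` with the arguments exchanged). -/

namespace Pool.Agent.H97.NW

open Finset Polynomial Pool.Agent.H72.ES Pool.Agent.H87.SA2 Pool.Agent.H8.AW Pool.Agent.H52.AC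
  Pool.Agent.H34.AC

theorem vl_eval (p : MvPolynomial (Fin 2) ℤ) (x : Fin 2 → ℚ) :
    MvPolynomial.eval x (MvPolynomial.map (Int.castRingHom ℚ) p) = vl p (x 0) (x 1) := by
  rw [MvPolynomial.eval_map, vl]
  congr 1
  funext i
  fin_cases i <;> rfl

theorem vl_indep (p : MvPolynomial (Fin 2) ℤ) (h : ∀ s t : ℚ, vl p s t = vl p s 0) :
    ∀ m ∈ p.support, m 1 = 0 := by
  intro m hm
  by_contra hm1
  set pQ := MvPolynomial.map (Int.castRingHom ℚ) p with hpQ
  set q := MvPolynomial.bind₁ (![MvPolynomial.X 0, 0] : Fin 2 → MvPolynomial (Fin 2) ℚ) pQ with hq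
  have h1 : pQ = q := by
    refine MvPolynomial.funext fun x => ?_
    have h2 : MvPolynomial.eval x q = MvPolynomial.eval ![x 0, 0] pQ := by
      have h3 := MvPolynomial.eval₂Hom_bind₁ (RingHom.id ℚ) x
        (![MvPolynomial.X 0, 0] : Fin 2 → MvPolynomial (Fin 2) ℚ) pQ
      have h4 : (MvPolynomial.eval₂Hom (RingHom.id ℚ) x) q = MvPolynomial.eval x q := rfl
      rw [← h4, hq, h3]
      have h5 : (fun i => (MvPolynomial.eval₂Hom (RingHom.id ℚ) x)
          ((![MvPolynomial.X 0, 0] : Fin 2 → MvPolynomial (Fin 2) ℚ) i)) = ![x 0, 0] := by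
        funext i
        fin_cases i <;> simp
      rw [h5]
      rfl
    rw [h2, hpQ, vl_eval, vl_eval]
    exact h _ _
  have h2 : (1 : Fin 2) ∈ pQ.vars := by
    rw [MvPolynomial.mem_vars_iff_mem_support]
    refine ⟨m, ?_, ?_⟩
    · rw [MvPolynomial.mem_support_iff, hpQ, MvPolynomial.coeff_map]
      rw [MvPolynomial.mem_support_iff] at hm
      simpa using hm
    · rw [Finsupp.mem_support_iff]
      exact hm1
  rw [h1, hq] at h2
  have h3 := MvPolynomial.vars_bind₁ (![MvPolynomial.X 0, 0] : Fin 2 → MvPolynomial (Fin 2) ℚ) pQ h2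
  rw [Finset.mem_biUnion] at h3
  obtain ⟨i, _, hi⟩ := h3
  fin_cases i
  · simp [MvPolynomial.vars_X] at hi
  · simp at hi

theorem nomix1 (n : ℕ) (hn : 3 ≤ n) : ∃ c : ℕ, ∀ (p : MvPolynomial (Fin 2) ℤ),
    Irreducible (MvPolynomial.map (Int.castRingHom ℚ) p) → p.totalDegree ≤ n →
    (∀ v : Fin 2, ∃ m ∈ p.support, 1 ≤ m v) → ∀ H : ℕ, 2 ≤ H →
    (∀ m, |p.coeff m| ≤ (H : ℤ)) → ∀ x y : ℤ, vl p x y = 0 → (H : ℝ) ^ c ≤ |(x : ℝ)| →
    (H : ℝ) ^ c ≤ |(y : ℝ)| → ∀ (K : Type) [Field K] [CharZero K] (X Y : LaurentSeries K),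
      vl p X Y = 0 → X ∈ (HahnSeries.ofPowerSeries ℤ K).range →
      Y ∈ (HahnSeries.ofPowerSeries ℤ K).range := by
  have hN4 : 4 ≤ n * (n + 1) := by nlinarith
  obtain ⟨c0, hc0, hrun⟩ := run_iff (n * (n + 1)) hN4
  set c' := c0 + (2 * (n * (n + 1)) + 1) + 4 * (n * (n + 1)).factorial with hc'
  refine ⟨cR n * c' * (2 * n + 3) + 1, ?_⟩
  intro p hirr hdeg hvar H hH2 hH x y hxy hx hy K _ _ X Y hXY hX
  by_contra hY
  obtain ⟨d, b, F', a, ⟨C⟩, hd4, hbH, ha0, haH, hev⟩ := redB n hn p hirr hdeg (hvar 1) H hH2 hH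
  have hz : ev d F' (y + x ^ (n + 1)) (a * x) = 0 := by
    have h1 := hev ℤ x y
    rw [hxy, mul_zero] at h1
    have h2 : cst ℤ F' = F' := by
      funext i j
      simp [cst]
    rw [h2, Int.cast_id] at h1
    exact h1
  have hb2 := C.b2
  have hbR : (1 : ℝ) ≤ b := by exact_mod_cast (by omega : 1 ≤ b)
  have hu : (b : ℝ) ^ c' ≤ |((y + x ^ (n + 1) : ℤ) : ℝ)| := by
    by_contra hcon
    rw [not_le] at hcon
    have h1 : |y + x ^ (n + 1)| ≤ (b : ℤ) ^ c' := by
      have h2 : ((|y + x ^ (n + 1)| : ℤ) : ℝ) < (((b : ℤ) ^ c' : ℤ) : ℝ) := by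
        push_cast
        push_cast at hcon
        exact hcon
      have h3 : |y + x ^ (n + 1)| < (b : ℤ) ^ c' := by exact_mod_cast h2
      exact h3.le
    have h2 := (Pool.Agent.H8.AF.size_up (N := n * (n + 1)) C.d1 C.dn hb2 C.lead C.le ha0
      (pow_le_pow_right₀ (by exact_mod_cast (by omega : 1 ≤ b)) (by omega)) h1 hz).1
    have h3 : (|(x : ℝ)|) ≤ ((b : ℝ) ^ c') ^ (2 * n + 3) := by exact_mod_cast h2
    have h4 : ((b : ℝ) ^ c') ^ (2 * n + 3) ≤ (H : ℝ) ^ (cR n * c' * (2 * n + 3)) := by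
      have h5 : (b : ℝ) ≤ (H : ℝ) ^ cR n := by exact_mod_cast hbH
      calc ((b : ℝ) ^ c') ^ (2 * n + 3) ≤ (((H : ℝ) ^ cR n) ^ c') ^ (2 * n + 3) := by gcongr
        _ = _ := by rw [← pow_mul, ← pow_mul, mul_assoc]
    have hHR : (2 : ℝ) ≤ H := by exact_mod_cast hH2
    have h5 : (H : ℝ) ^ (cR n * c' * (2 * n + 3)) < (H : ℝ) ^ (cR n * c' * (2 * n + 3) + 1) := by
      apply pow_lt_pow_right₀ (by linarith)
      omega
    linarith
  obtain ⟨i, T, _, hT, hyT⟩ := C.pt hd4 (c := c') (by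
    have := Nat.factorial_le C.dn
    omega) hz hu
  set P : Ptd (n * (n + 1)) := ⟨d, b, F', C, i, T, y + x ^ (n + 1), a * x, hz, hT, hyT⟩ with hP
  have hThr : P.Thr c0 := by
    unfold Ptd.Thr
    exact le_trans (pow_le_pow_right₀ hbR (by omega)) hu
  have hQ := hrun P hThr (fun j => ∀ k < C.pd.e, PowerSeries.coeff k (C.pd.x j) = 0) (by
    intro σ j j' h
    have key : ∀ k, PowerSeries.coeff k (C.pd.x j) = 0 ↔ PowerSeries.coeff k (C.pd.x j') = 0 := by
      intro k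
      have h1 := h k ⟨PowerSeries.coeff k (C.pd.x j), coeff_mem C.pd j k⟩ rfl
      change σ _ = PowerSeries.coeff k (C.pd.x j') at h1
      rw [← h1]
      have h2 : (⟨PowerSeries.coeff k (C.pd.x j), coeff_mem C.pd j k⟩ : AA) = 0 ↔
          PowerSeries.coeff k (C.pd.x j) = 0 :=
        ⟨fun h => congrArg Subtype.val h, fun h => Subtype.ext h⟩
      exact h2.symm.trans (map_eq_zero σ).symm
    exact forall_congr' fun k => imp_congr_right fun _ => key k) (by
    intro ζ hζ j j' h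
    change PowerSeries.rescale ζ (C.pd.x j) = C.pd.x j' at h
    have hζ0 : ζ ≠ 0 := by
      rintro rfl
      have he : C.pd.e ≠ 0 := by
        have := C.pd.e_pos
        omega
      change (0 : ℂ) ^ C.pd.e = 1 at hζ
      rw [zero_pow he] at hζ
      exact zero_ne_one hζ
    refine forall_congr' fun k => imp_congr_right fun _ => ?_
    rw [← h, PowerSeries.coeff_rescale]
    constructor
    · intro h2
      rw [h2, mul_zero]
    · intro h2
      rcases mul_eq_zero.mp h2 with h3 | h3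
      · exact absurd h3 (pow_ne_zero _ hζ0)
      · exact h3)
  set RR := (HahnSeries.ofPowerSeries ℤ K).range with hRR
  have hXn : X ^ (n + 1) ∈ RR := pow_mem hX _
  have hU : Y + X ^ (n + 1) ∉ RR := by
    intro h1
    apply hY
    have h2 := sub_mem h1 hXn
    rwa [add_sub_cancel_right] at h2
  have hZ : (a : LaurentSeries K) * X ∈ RR := mul_mem (intCast_mem _ a) hX
  have hev0 : ev d (cst (LaurentSeries K) F') (Y + X ^ (n + 1)) ((a : LaurentSeries K) * X) = 0 := by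
    rw [hev, hXY, mul_zero]
  obtain ⟨j, hj⟩ := reg_branch C K _ _ hev0 hU hZ
  rcases hQ with hQ | hQ
  swap
  · exact hQ j hj
  have hF0 : ∀ i j, 1 ≤ i → i + j ≤ d → F' i j = 0 := fun i j hi hij => reg_all C hQ i j hi hij
  have hev1 : ∀ u z : ℚ, ev d (cst ℚ F') u z = ∑ j ∈ range (d + 1), (F' 0 j : ℚ) * z ^ j := by
    intro u z
    unfold ev
    rw [Finset.sum_range_succ']
    have h1 : ∑ i ∈ range d, ∑ j ∈ range (d + 1 - (i + 1)), cst ℚ F' (i + 1) j * u ^ (i + 1) * z ^ j = 0 := by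
      refine Finset.sum_eq_zero fun i hi => Finset.sum_eq_zero fun j hj => ?_
      rw [Finset.mem_range] at hi hj
      unfold cst
      rw [hF0 (i + 1) j (by omega) (by omega)]
      simp
    rw [h1, zero_add, Nat.sub_zero]
    refine Finset.sum_congr rfl fun j _ => ?_
    simp [cst]
  have hind : ∀ s t : ℚ, vl p s t = vl p s 0 := by
    intro s t
    have h1 := hev ℚ s t
    have h2 := hev ℚ s 0
    rw [hev1] at h1 h2
    have h3 : (a : ℚ) ^ (d - 1) ≠ 0 := pow_ne_zero _ (by exact_mod_cast ha0)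
    exact mul_left_cancel₀ h3 (h1.symm.trans h2)
  obtain ⟨m, hm, hm1⟩ := hvar 1
  have := vl_indep p hind m hm
  omega

theorem nomix (n : ℕ) (hn : 3 ≤ n) : ∃ c : ℕ, ∀ (p : MvPolynomial (Fin 2) ℤ),
    Irreducible (MvPolynomial.map (Int.castRingHom ℚ) p) → p.totalDegree ≤ n →
    (∀ v : Fin 2, ∃ m ∈ p.support, 1 ≤ m v) → ∀ H : ℕ, 2 ≤ H →
    (∀ m, |p.coeff m| ≤ (H : ℤ)) → ∀ x y : ℤ, vl p x y = 0 → (H : ℝ) ^ c ≤ |(x : ℝ)| →
    (H : ℝ) ^ c ≤ |(y : ℝ)| → ∀ (K : Type) [Field K] [CharZero K] (X Y : LaurentSeries K),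
      vl p X Y = 0 → (X ∈ (HahnSeries.ofPowerSeries ℤ K).range ↔
        Y ∈ (HahnSeries.ofPowerSeries ℤ K).range) := by
  obtain ⟨c, hc⟩ := nomix1 n hn
  refine ⟨c, ?_⟩
  intro p hirr hdeg hvar H hH2 hH x y hxy hx hy K _ _ X Y hXY
  refine ⟨hc p hirr hdeg hvar H hH2 hH x y hxy hx hy K X Y hXY, ?_⟩
  set e : Fin 2 ≃ Fin 2 := Equiv.swap 0 1 with he
  set q := MvPolynomial.rename e p with hq
  have hvl : ∀ (S : Type) [CommRing S] (s t : S), vl q s t = vl p t s := by
    intro S _ s t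
    unfold vl
    rw [hq, MvPolynomial.eval₂_rename]
    congr 1
    funext i
    fin_cases i
    · simp [he]
    · simp [he]
  have hirr' : Irreducible (MvPolynomial.map (Int.castRingHom ℚ) q) := by
    rw [hq, MvPolynomial.map_rename]
    exact (MulEquiv.irreducible_iff (MvPolynomial.renameEquiv ℚ e)).mpr hirr
  have hdeg' : q.totalDegree ≤ n := by
    rw [hq]
    exact (MvPolynomial.totalDegree_rename_le _ _).trans hdeg
  have hcoef : ∀ m : Fin 2 →₀ ℕ, q.coeff (m.mapDomain e) = p.coeff m := fun m =>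
    MvPolynomial.coeff_rename_mapDomain e e.injective p m
  have hsurj : ∀ m : Fin 2 →₀ ℕ, ∃ m', m = Finsupp.mapDomain e m' := by
    intro m
    refine ⟨m.mapDomain e.symm, ?_⟩
    rw [← Finsupp.mapDomain_comp]
    simp
  have hvar' : ∀ v : Fin 2, ∃ m ∈ q.support, 1 ≤ m v := by
    intro v
    obtain ⟨m, hm, hm1⟩ := hvar (e.symm v)
    refine ⟨m.mapDomain e, ?_, ?_⟩
    · rw [MvPolynomial.mem_support_iff, hcoef]
      exact MvPolynomial.mem_support_iff.mp hm
    · rw [Finsupp.mapDomain_equiv_apply]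
      exact hm1
  have hH' : ∀ m, |q.coeff m| ≤ (H : ℤ) := by
    intro m
    obtain ⟨m', rfl⟩ := hsurj m
    rw [hcoef]
    exact hH m'
  exact hc q hirr' hdeg' hvar' H hH2 hH' y x (by rw [hvl]; exact hxy) hy hx K Y X (by rw [hvl]; exact hXY)

end Pool.Agent.H97.NW
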