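import Mathlib

/-! # [H97 NW INTP] Interpolation at `0, ..., A` and the Mahler measure of a factor

`interp_bd`: `f` of degree `≤ A` is determined by its values at `0..A`: let `V = Matrix.vandermonde (fun i : Fin (A+1) => (i : ℝ))`, `det V ≠ 0`
(`Matrix.det_vandermonde_ne_zero_iff`), `V *ᵥ coeffs = values` (`eval_eq_sum_range'`), `coeffs = V⁻¹ *ᵥ values`; take
`C = 1 + ∑_(i,j) |V⁻¹ i j|`.
`mahler_factor`: with `M q` the Mahler measure of `q.map (Int.castRingHom ℂ)`: `M (q^m * h) = M q ^ m * M h` (`mahlerMeasure_mul`, induction), `1 ≤ M h` for `h ≠ 0`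
(`one_le_mahlerMeasure_of_one_le_norm_leadingCoeff`, the leading coefficient is a nonzero integer), `M (q^m h) ≤ ∑ |coeff|` (`mahlerMeasure_le_sum_norm_coeff`), and
`|coeff_i q| ≤ choose (natDegree q) i * M q ≤ 2^A * M q` (`norm_coeff_le_choose_mul_mahlerMeasure`). -/

namespace Pool.Agent.H97.NW

open Finset Polynomial

theorem interp_bd (A : ℕ) : ∃ C : ℝ, 1 ≤ C ∧ ∀ (f : ℝ[X]) (B : ℝ), f.natDegree ≤ A →
    (∀ i ≤ A, |f.eval (i : ℝ)| ≤ B) → ∀ j, |f.coeff j| ≤ C * B := by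
  obtain ⟨V, hV⟩ : ∃ V : Matrix (Fin (A + 1)) (Fin (A + 1)) ℝ,
    V = Matrix.vandermonde (fun i : Fin (A + 1) => ((i : ℕ) : ℝ)) := ⟨_, rfl⟩
  have hdet : V.det ≠ 0 := by
    rw [hV, Matrix.det_vandermonde_ne_zero_iff]
    intro a b hab
    have h : ((a : ℕ) : ℝ) = ((b : ℕ) : ℝ) := hab
    exact Fin.ext (by exact_mod_cast h)
  have hunit : IsUnit V.det := isUnit_iff_ne_zero.2 hdet
  refine ⟨1 + ∑ i, ∑ j, |V⁻¹ i j|, ?_, ?_⟩
  · have h : 0 ≤ ∑ i, ∑ j, |V⁻¹ i j| := sum_nonneg fun i _ => sum_nonneg fun j _ => abs_nonneg _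
    linarith
  intro f B hf hB j
  have hB0 : 0 ≤ B := (abs_nonneg _).trans (hB 0 (Nat.zero_le _))
  have hC0 : 0 ≤ 1 + ∑ i, ∑ j, |V⁻¹ i j| := by
    have h : 0 ≤ ∑ i, ∑ j, |V⁻¹ i j| := sum_nonneg fun i _ => sum_nonneg fun j _ => abs_nonneg _
    linarith
  by_cases hj : j ≤ A
  · have h1 : V.mulVec (fun k : Fin (A + 1) => f.coeff k) =
        fun i : Fin (A + 1) => f.eval ((i : ℕ) : ℝ) := by
      funext i
      rw [eval_eq_sum_range' (n := A + 1) (by omega), ← Fin.sum_univ_eq_sum_range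
        (fun k => f.coeff k * ((i : ℕ) : ℝ) ^ k) (A + 1)]
      have h0 : V.mulVec (fun k : Fin (A + 1) => f.coeff k) i =
          ∑ k : Fin (A + 1), V i k * f.coeff k := rfl
      rw [h0]
      refine sum_congr rfl fun k _ => ?_
      have h00 : V i k = ((i : ℕ) : ℝ) ^ (k : ℕ) := by
        rw [hV]
        exact Matrix.vandermonde_apply _ _ _
      rw [h00, mul_comm]
    have h2 : (fun k : Fin (A + 1) => f.coeff k) =
        V⁻¹.mulVec (fun i : Fin (A + 1) => f.eval ((i : ℕ) : ℝ)) := by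
      rw [← h1, Matrix.mulVec_mulVec, Matrix.nonsing_inv_mul V hunit, Matrix.one_mulVec]
    have h3 := congrFun h2 (⟨j, by omega⟩ : Fin (A + 1))
    have h4 : f.coeff j = ∑ i : Fin (A + 1), V⁻¹ ⟨j, by omega⟩ i * f.eval ((i : ℕ) : ℝ) := h3
    rw [h4]
    refine (abs_sum_le_sum_abs _ _).trans ?_
    have h5 : ∀ i : Fin (A + 1), |V⁻¹ ⟨j, by omega⟩ i * f.eval ((i : ℕ) : ℝ)| ≤
        |V⁻¹ ⟨j, by omega⟩ i| * B := by
      intro i
      rw [abs_mul]
      exact mul_le_mul_of_nonneg_left (hB i (by have := i.2; omega)) (abs_nonneg _)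
    refine (sum_le_sum fun i _ => h5 i).trans ?_
    rw [← sum_mul]
    refine mul_le_mul_of_nonneg_right ?_ hB0
    have h6 : ∑ i : Fin (A + 1), |V⁻¹ ⟨j, by omega⟩ i| ≤ ∑ i, ∑ j, |V⁻¹ i j| :=
      single_le_sum (f := fun i' : Fin (A + 1) => ∑ i : Fin (A + 1), |V⁻¹ i' i|)
        (fun i' _ => sum_nonneg fun i _ => abs_nonneg _) (mem_univ (⟨j, by omega⟩ : Fin (A + 1)))
    linarith
  · rw [coeff_eq_zero_of_natDegree_lt (by omega), abs_zero]
    exact mul_nonneg hC0 hB0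

private theorem mahler_pow (q : ℂ[X]) (m : ℕ) :
    (q ^ m).mahlerMeasure = q.mahlerMeasure ^ m := by
  induction m with
  | zero => simp
  | succ m ih => rw [pow_succ, mahlerMeasure_mul, ih, pow_succ]

theorem mahler_factor (A m : ℕ) (q g : ℤ[X]) (hq : q.natDegree ≤ A) (hg : g ≠ 0) (h : q ^ m ∣ g)
    (i : ℕ) : |((q.coeff i : ℤ) : ℝ)| ^ m ≤
      (2 : ℝ) ^ (A * m) * ∑ j ∈ g.support, |((g.coeff j : ℤ) : ℝ)| := by
  obtain ⟨w, hw⟩ := h
  obtain ⟨φ, hφ⟩ : ∃ φ : ℤ →+* ℂ, φ = Int.castRingHom ℂ := ⟨_, rfl⟩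
  have hinj : Function.Injective φ := by
    rw [hφ]
    exact RingHom.injective_int _
  have hnorm : ∀ a : ℤ, ‖φ a‖ = |(a : ℝ)| := by
    intro a
    rw [hφ, eq_intCast, Complex.norm_intCast]
  have hw0 : w ≠ 0 := by
    rintro rfl
    exact hg (by rw [hw, mul_zero])
  have hMw : 1 ≤ (w.map φ).mahlerMeasure := by
    refine one_le_mahlerMeasure_of_one_le_norm_leadingCoeff ?_
    rw [leadingCoeff_map_of_injective hinj, hnorm]
    have h1 : w.leadingCoeff ≠ 0 := leadingCoeff_ne_zero.2 hw0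
    have h2 : 1 ≤ |w.leadingCoeff| := Int.one_le_abs h1
    exact_mod_cast h2
  have hMg : (g.map φ).mahlerMeasure = (q.map φ).mahlerMeasure ^ m * (w.map φ).mahlerMeasure := by
    rw [hw, Polynomial.map_mul, Polynomial.map_pow, mahlerMeasure_mul, mahler_pow]
  have hMq : 0 ≤ (q.map φ).mahlerMeasure := mahlerMeasure_nonneg _
  have h1 : (q.map φ).mahlerMeasure ^ m ≤ (g.map φ).mahlerMeasure := by
    rw [hMg]
    exact le_mul_of_one_le_right (pow_nonneg hMq _) hMw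
  have h2 : (g.map φ).mahlerMeasure ≤ ∑ j ∈ g.support, |((g.coeff j : ℤ) : ℝ)| := by
    refine (mahlerMeasure_le_sum_norm_coeff _).trans (le_of_eq ?_)
    rw [Polynomial.sum_def, support_map_of_injective _ hinj]
    refine sum_congr rfl fun j _ => ?_
    rw [coeff_map, hnorm]
  have h3 : |((q.coeff i : ℤ) : ℝ)| ≤ (2 : ℝ) ^ A * (q.map φ).mahlerMeasure := by
    have h4 := norm_coeff_le_choose_mul_mahlerMeasure i (q.map φ)
    rw [coeff_map, hnorm] at h4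
    refine h4.trans (mul_le_mul_of_nonneg_right ?_ hMq)
    rw [natDegree_map_eq_of_injective hinj]
    have h5 : q.natDegree.choose i ≤ 2 ^ A :=
      (Nat.choose_le_two_pow _ _).trans (Nat.pow_le_pow_right (by norm_num) hq)
    exact_mod_cast h5
  calc |((q.coeff i : ℤ) : ℝ)| ^ m ≤ ((2 : ℝ) ^ A * (q.map φ).mahlerMeasure) ^ m :=
        pow_le_pow_left₀ (abs_nonneg _) h3 m
    _ = (2 : ℝ) ^ (A * m) * (q.map φ).mahlerMeasure ^ m := by rw [mul_pow, pow_mul]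
    _ ≤ _ := mul_le_mul_of_nonneg_left (h1.trans h2) (by positivity)

end Pool.Agent.H97.NW
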