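import Pool.Agent.H97.NW.ZD
import Pool.Agent.H97.NW.INTP

/-! # [H97 NW FCT] The height of an irreducible factor of high multiplicity

`C` depends on `A` only. If `p` is divisible by `X - C (C i)` (outer variable) for some `0 ≤ i ≤ A`, then `p = ± (X - C (C i))` (irreducible; `Associated`, units of `ℤ[X][X]` are `± 1`) and
`L2 p ≤ 1 + A`; as `L2 W ≥ 1` (`W ≠ 0`) the claim holds for `C ≥ log (1 + A)`. Otherwise let `0 ≤ i ≤ A`, `q = p.eval (C i) ≠ 0` (`dvd_iff_isRoot`), a polynomial in `ℤ[X]` of degree `≤ A`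
(`XD A p`). `taylor (C i) p` has constant coefficient `q`, and `(taylor (C i) p)^m ∣ taylor (C i) W ≠ 0`. Let `a = natTrailingDegree (taylor (C i) W)`, `g = coeff a ≠ 0`. Trailing coefficients are multiplicative
(`trailingCoeff_mul`; `trailingCoeff` of `(taylor (C i) p)^m` is `q^m`), so `q^m ∣ g`. Size: `g = (hasseDeriv a W).eval (C i) = ∑_j choose j a * i^(j-a) * W.coeff j` (`taylor_coeff`, `eval_eq_sum_range'`), so
`L1 g ≤ 2^D (A+1)^D L2 W` (`D = W.natDegree`). By `mahler_factor`: every coefficient `s` of `q` has `|s|^m ≤ 2^(A m) (2(A+1))^D L2 W =: Q^m`, with real `Q = (..)^(1/m) ≥ 1`.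
For fixed inner index `s` the polynomial `f_s(Y) = ∑_j (p.coeff j).coeff s Y^j` has `f_s(i) = (p.eval (C i)).coeff s`, so by `interp_bd` (`B = Q`) all `|(p.coeff j).coeff s| ≤ C_A Q`, and
`L2 p ≤ (A+1)^2 C_A Q`. Take logarithms and multiply by `m`. -/

namespace Pool.Agent.H97.NW

open Finset Polynomial Pool.Agent.H72.ES

theorem fct_L1_C (a : ℤ) : L1 (C a : ℤ[X]) = |(a : ℝ)| := by
  rw [L1_eq_LN, LN_C subMul_intAbs]

theorem fct_L2_C (a : ℤ[X]) : L2 (C a : ℤ[X][X]) = L1 a := by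
  rw [L2_eq_LN, LN_C subMul_L1]

theorem fct_one_le_L1 {p : ℤ[X]} (hp : p ≠ 0) : 1 ≤ L1 p := by
  refine le_trans ?_ (coeff_le_L1 p p.natDegree)
  have h : p.coeff p.natDegree ≠ 0 := by
    rw [coeff_natDegree]
    exact leadingCoeff_ne_zero.2 hp
  have := Int.one_le_abs h
  exact_mod_cast this

theorem fct_coeff_le_L2 (p : ℤ[X][X]) (j : ℕ) : L1 (p.coeff j) ≤ L2 p :=
  coeff_le_LN subMul_L1 p j

theorem fct_one_le_L2 {p : ℤ[X][X]} (hp : p ≠ 0) : 1 ≤ L2 p := by
  refine le_trans ?_ (fct_coeff_le_L2 p p.natDegree)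
  refine fct_one_le_L1 ?_
  rw [coeff_natDegree]
  exact leadingCoeff_ne_zero.2 hp

theorem fct_lin (i : ℕ) : L2 ((X : ℤ[X][X]) + C (C (i : ℤ))) ≤ 1 + i := by
  refine (L2_add_le _ _).trans ?_
  rw [fct_L2_C, fct_L1_C]
  have : L2 (X : ℤ[X][X]) ≤ 1 := LN_X_le subMul_L1
  simp only [Int.cast_natCast, Nat.abs_cast]
  linarith

theorem fct_L2_pow (p : ℤ[X][X]) (j : ℕ) : L2 (p ^ j) ≤ L2 p ^ j := subMul_L2.pow p j

theorem fct_taylor (W : ℤ[X][X]) (i A : ℕ) (hi : i ≤ A) :
    L2 (taylor (C (i : ℤ)) W) ≤ (1 + (A : ℝ)) ^ W.natDegree * L2 W := by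
  have h1 : taylor (C (i : ℤ)) W = ∑ j ∈ W.support, C (W.coeff j) * (X + C (C (i : ℤ))) ^ j := by
    rw [taylor_apply, Polynomial.comp, eval₂_eq_sum, Polynomial.sum]
  rw [h1]
  refine (L2_sum_le _ _).trans ?_
  have h2 : L2 W = ∑ j ∈ W.support, L1 (W.coeff j) := rfl
  rw [h2, mul_sum]
  refine sum_le_sum fun j hj => ?_
  refine (L2_mul_le _ _).trans ?_
  rw [fct_L2_C, mul_comm]
  refine mul_le_mul_of_nonneg_right ?_ (L1_nonneg _)
  refine (fct_L2_pow _ _).trans ?_
  have h3 : L2 ((X : ℤ[X][X]) + C (C (i : ℤ))) ≤ 1 + (A : ℝ) := by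
    refine (fct_lin i).trans ?_
    have : (i : ℝ) ≤ A := by exact_mod_cast hi
    linarith
  refine (pow_le_pow_left₀ (L2_nonneg _) h3 j).trans ?_
  refine pow_le_pow_right₀ ?_ (le_natDegree_of_mem_supp j hj)
  have : (0 : ℝ) ≤ A := Nat.cast_nonneg A
  linarith

/-- the case of a linear factor -/
theorem fct_case1 (A i : ℕ) (hi : i ≤ A) (p : ℤ[X][X]) (hp : Irreducible p)
    (h0 : p.eval (C (i : ℤ)) = 0) : L2 p ≤ 1 + A := by
  have h1 : X - C (C (i : ℤ)) ∣ p := dvd_iff_isRoot.2 h0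
  obtain ⟨u, hu⟩ := h1
  have h2 : IsUnit u := by
    rcases hp.isUnit_or_isUnit hu with h | h
    · exact absurd h (by
        intro h'
        have := natDegree_eq_zero_of_isUnit h'
        rw [natDegree_X_sub_C] at this
        omega)
    · exact h
  obtain ⟨a, ha, hau⟩ := isUnit_iff.1 h2
  obtain ⟨b, hb, hba⟩ := isUnit_iff.1 ha
  have h3 : L2 u = 1 := by
    rw [← hau, fct_L2_C, ← hba, fct_L1_C]
    rcases Int.isUnit_iff.1 hb with h | h <;> simp [h]
  have h4 : L2 ((X : ℤ[X][X]) - C (C (i : ℤ))) ≤ 1 + A := by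
    rw [sub_eq_add_neg]
    refine (L2_add_le _ _).trans ?_
    rw [L2_neg, fct_L2_C, fct_L1_C]
    have : L2 (X : ℤ[X][X]) ≤ 1 := LN_X_le subMul_L1
    have h5 : (i : ℝ) ≤ A := by exact_mod_cast hi
    simp only [Int.cast_natCast, Nat.abs_cast]
    linarith
  rw [hu]
  refine (L2_mul_le _ _).trans ?_
  rw [h3, mul_one]
  exact h4

theorem fct_eval_natDegree (A i : ℕ) (p : ℤ[X][X]) (hX : XD A p) :
    (p.eval (C (i : ℤ))).natDegree ≤ A := by
  rw [eval_eq_sum_range]
  refine natDegree_sum_le_of_forall_le _ _ fun j _ => ?_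
  rw [← C_pow]
  exact (natDegree_mul_C_le _ _).trans (hX j)

/-- the coefficients of the values -/
theorem fct_value (A i m : ℕ) (hi : i ≤ A) (p W : ℤ[X][X]) (hX : XD A p) (hW : W ≠ 0)
    (hd : p ^ m ∣ W) (h0 : p.eval (C (i : ℤ)) ≠ 0) (s : ℕ) :
    |(((p.eval (C (i : ℤ))).coeff s : ℤ) : ℝ)| ^ m ≤
      (2 : ℝ) ^ (A * m) * ((1 + (A : ℝ)) ^ W.natDegree * L2 W) := by
  set r : ℤ[X] := C (i : ℤ) with hr
  obtain ⟨V, hV⟩ := hd
  have hP : (taylor r p).coeff 0 = p.eval r := taylor_coeff_zero r p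
  have h1 : taylor r W = (taylor r p) ^ m * taylor r V := by
    rw [hV, taylor_mul]
    congr 1
    exact map_pow (taylorAlgHom r) p m
  have hW' : taylor r W ≠ 0 := by
    intro h
    exact hW ((taylor_injective r) (by rw [h, map_zero]))
  have h2 : ((taylor r p) ^ m).coeff 0 = (p.eval r) ^ m := by
    rw [coeff_zero_eq_eval_zero, eval_pow, ← coeff_zero_eq_eval_zero, hP]
  have h3 : ((taylor r p) ^ m).trailingCoeff = (p.eval r) ^ m := by
    have h4 : ((taylor r p) ^ m).natTrailingDegree = 0 := by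
      rw [natTrailingDegree_eq_zero]
      right
      rw [h2]
      exact pow_ne_zero m h0
    rw [trailingCoeff, h4, h2]
  have h5 : (p.eval r) ^ m ∣ (taylor r W).trailingCoeff := by
    rw [h1, trailingCoeff_mul, h3]
    exact dvd_mul_right _ _
  have h6 : (taylor r W).trailingCoeff ≠ 0 := by
    rw [Ne, trailingCoeff_eq_zero]
    exact hW'
  refine (mahler_factor A m _ _ (fct_eval_natDegree A i p hX) h6 h5 s).trans ?_
  refine mul_le_mul_of_nonneg_left ?_ (by positivity)
  refine le_trans ?_ (fct_taylor W i A hi)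
  exact fct_coeff_le_L2 (taylor r W) _

theorem fct (A : ℕ) : ∃ C : ℝ, 1 ≤ C ∧ ∀ (p W : ℤ[X][X]) (m : ℕ), Irreducible p →
    p.natDegree ≤ A → XD A p → W ≠ 0 → p ^ m ∣ W →
    m * Real.log (L2 p) ≤ m * C + W.natDegree * C + Real.log (L2 W) := by
  obtain ⟨CA, hCA, hint⟩ := interp_bd A
  have hA0 : (0 : ℝ) ≤ A := Nat.cast_nonneg A
  have hl1 : 0 ≤ Real.log (1 + (A : ℝ)) := Real.log_nonneg (by linarith)
  have hl2 : 0 ≤ Real.log (((A : ℝ) + 1) ^ 2 * CA) := by
    refine Real.log_nonneg ?_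
    have : (1 : ℝ) ≤ ((A : ℝ) + 1) ^ 2 := one_le_pow₀ (by linarith)
    nlinarith
  have hl3 : 0 ≤ (A : ℝ) * Real.log 2 := mul_nonneg hA0 (Real.log_nonneg (by norm_num))
  refine ⟨1 + Real.log (1 + (A : ℝ)) + Real.log (((A : ℝ) + 1) ^ 2 * CA) + A * Real.log 2,
    by linarith, ?_⟩
  intro p W m hp hpA hX hW hd
  have hL2W : 1 ≤ L2 W := fct_one_le_L2 hW
  have hlW : 0 ≤ Real.log (L2 W) := Real.log_nonneg hL2W
  have hL2p : 1 ≤ L2 p := fct_one_le_L2 hp.ne_zero
  have hm0 : (0 : ℝ) ≤ m := Nat.cast_nonneg m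
  have hD0 : (0 : ℝ) ≤ W.natDegree := Nat.cast_nonneg _
  by_cases hex : ∃ i ≤ A, p.eval (C (i : ℤ)) = 0
  · obtain ⟨i, hi, h0⟩ := hex
    have h1 := fct_case1 A i hi p hp h0
    have h2 : Real.log (L2 p) ≤ Real.log (1 + (A : ℝ)) :=
      Real.log_le_log (by linarith) h1
    have h3 : (m : ℝ) * Real.log (L2 p) ≤ m * (1 + Real.log (1 + (A : ℝ)) +
        Real.log (((A : ℝ) + 1) ^ 2 * CA) + A * Real.log 2) :=
      mul_le_mul_of_nonneg_left (by linarith) hm0
    have h4 : 0 ≤ (W.natDegree : ℝ) * (1 + Real.log (1 + (A : ℝ)) +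
        Real.log (((A : ℝ) + 1) ^ 2 * CA) + A * Real.log 2) := mul_nonneg hD0 (by linarith)
    linarith
  · push Not at hex
    rcases Nat.eq_zero_or_pos m with hm | hm
    · subst hm
      have h4 : 0 ≤ (W.natDegree : ℝ) * (1 + Real.log (1 + (A : ℝ)) +
        Real.log (((A : ℝ) + 1) ^ 2 * CA) + A * Real.log 2) := mul_nonneg hD0 (by linarith)
      simp only [Nat.cast_zero, zero_mul, zero_add]
      linarith
    · have hmR : (0 : ℝ) < m := by exact_mod_cast hm
      set R : ℝ := (2 : ℝ) ^ (A * m) * ((1 + (A : ℝ)) ^ W.natDegree * L2 W) with hR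
      have hR1 : 1 ≤ R := by
        have e1 : (1 : ℝ) ≤ (2 : ℝ) ^ (A * m) := one_le_pow₀ (by norm_num)
        have e2 : (1 : ℝ) ≤ (1 + (A : ℝ)) ^ W.natDegree := one_le_pow₀ (by linarith)
        have e3 : (1 : ℝ) ≤ (1 + (A : ℝ)) ^ W.natDegree * L2 W := by nlinarith
        nlinarith
      set Q : ℝ := R ^ ((1 : ℝ) / m) with hQ
      have hQ0 : 0 ≤ Q := Real.rpow_nonneg (by linarith) _
      have hQm : Q ^ m = R := by
        rw [hQ, ← Real.rpow_natCast, ← Real.rpow_mul (by linarith)]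
        rw [one_div, inv_mul_cancel₀ (ne_of_gt hmR), Real.rpow_one]
      have hQpos : 0 < Q := Real.rpow_pos_of_pos (by linarith) _
      have hval : ∀ i ≤ A, ∀ s, |(((p.eval (C (i : ℤ))).coeff s : ℤ) : ℝ)| ≤ Q := by
        intro i hi s
        have h1 := fct_value A i m hi p W hX hW hd (hex i hi) s
        rw [← hR, ← hQm] at h1
        exact le_of_pow_le_pow_left₀ (by omega) hQ0 h1
      have hco : ∀ j s, |(((p.coeff j).coeff s : ℤ) : ℝ)| ≤ CA * Q := by
        intro j s
        by_cases hj : A < j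
        · rw [coeff_eq_zero_of_natDegree_lt (lt_of_le_of_lt hpA hj)]
          simp only [coeff_zero, Int.cast_zero, abs_zero]
          positivity
        · push Not at hj
          set f : ℝ[X] := ∑ k ∈ range (A + 1), C (((p.coeff k).coeff s : ℤ) : ℝ) * X ^ k with hf
          have hfd : f.natDegree ≤ A := by
            rw [hf]
            refine natDegree_sum_le_of_forall_le _ _ fun k hk => ?_
            rw [mem_range] at hk
            refine (natDegree_C_mul_X_pow_le _ _).trans (by omega)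
          have hfc : f.coeff j = (((p.coeff j).coeff s : ℤ) : ℝ) := by
            rw [hf, finsetSum_coeff]
            rw [sum_eq_single j]
            · simp
            · intro b _ hb
              rw [coeff_C_mul_X_pow, if_neg (Ne.symm hb)]
            · intro h
              exact absurd (mem_range.2 (by omega)) h
          rw [← hfc]
          refine hint f Q hfd (fun i hi => ?_) j
          have he : f.eval (i : ℝ) = (((p.eval (C (i : ℤ))).coeff s : ℤ) : ℝ) := by
            rw [eval_eq_sum_range' (lt_of_le_of_lt hpA (Nat.lt_succ_self A)), hf,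
              eval_finsetSum, finsetSum_coeff, Int.cast_sum]
            refine sum_congr rfl fun k _ => ?_
            rw [← C_pow, coeff_mul_C]
            simp
          rw [he]
          exact hval i hi s
      have hL1j : ∀ j, L1 (p.coeff j) ≤ ((A : ℝ) + 1) * (CA * Q) := by
        intro j
        rw [L1_eq_LN, LN_eq_range (by simp) (p.coeff j) (hX j)]
        refine (sum_le_sum fun s _ => hco j s).trans ?_
        simp
      have hL2 : L2 p ≤ ((A : ℝ) + 1) ^ 2 * CA * Q := by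
        rw [L2_eq_LN, LN_eq_range (by rw [L1_eq_LN]; exact LN_zero) p hpA]
        refine (sum_le_sum fun j _ => hL1j j).trans ?_
        simp only [sum_const, card_range, nsmul_eq_mul, Nat.cast_add, Nat.cast_one]
        apply le_of_eq
        ring
      have hlog : Real.log (L2 p) ≤ Real.log (((A : ℝ) + 1) ^ 2 * CA) + Real.log Q := by
        refine (Real.log_le_log (by linarith) hL2).trans ?_
        rw [Real.log_mul (by positivity) (ne_of_gt hQpos)]
      have hlogQ : m * Real.log Q = Real.log R := by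
        rw [← hQm, Real.log_pow]
      have hlogR : Real.log R = A * m * Real.log 2 + W.natDegree * Real.log (1 + (A : ℝ)) +
          Real.log (L2 W) := by
        rw [hR, Real.log_mul (by positivity) (by positivity), Real.log_mul (by positivity)
          (by positivity), Real.log_pow, Real.log_pow]
        push_cast
        ring
      have h8 : (m : ℝ) * Real.log (L2 p) ≤ m * (Real.log (((A : ℝ) + 1) ^ 2 * CA) +
          Real.log Q) := mul_le_mul_of_nonneg_left hlog hm0
      rw [mul_add, hlogQ, hlogR] at h8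
      have h9 : 0 ≤ (m : ℝ) * (1 + Real.log (1 + (A : ℝ))) := mul_nonneg hm0 (by linarith)
      have h10 : 0 ≤ (W.natDegree : ℝ) * (1 + Real.log (((A : ℝ) + 1) ^ 2 * CA) +
        A * Real.log 2) := mul_nonneg hD0 (by linarith)
      nlinarith

end Pool.Agent.H97.NW
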