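import Pool.Agent.H97.NW.IRQ
import Pool.Agent.H97.NW.FCT
import Pool.Agent.H97.NW.PGZ
import Pool.Agent.H34.AC.Defs

/-! # [H97 NW SPI] A special pair lies on an irreducible curve of small height

`c' = c + 2`, `C` from `fct A`, `E = ⌈exp (C (1 + A))⌉₊ + 2`, `c0` with `2 c' ≤ c0` and `E^(2 c') ≤ 2^c0`. Let `g` be as in `Spc`, `G = toB g ≠ 0`, `Lam x y G = 0` (`toB_Lam`), `natDegree G ≤ A`, `XD A G` (from `toB_coeff` and `degreeOf g ≤ A`). `exists_irr`: `p0 ∣ G`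
irreducible, `Lam x y p0 = 0`, `natDegree p0 ≤ A`, `XD A p0` (`xd_of_dvd`); `fct` with `W = G`, `m = 1`: `log L2 p0 ≤ C + A C + log L2 G`, so `L2 p0 ≤ E l1 g`. `l1 g = h` is a natural number `≥ 1` (sum of `natAbs`), `H = E h ≥ 2`, `H^(2 c') = E^(2c') h^(2c') ≤ 2^c0 |x| ≤ |x|^2`, so
`H^c' ≤ |x|`, the same for `y`. `p = toB.symm p0`: `|coeff| ≤ l1 p = L2 p0 ≤ H`; `totalDegree p ≤ degreeOf 0 + degreeOf 1 ≤ 2 A` (`ofB_deg`); `vl p x y = MvPolynomial.eval ![x, y] p = 0`.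
Both variables occur: if no monomial has `1 ≤ m 1` then `natDegree p0 = 0`, `p0 = C q`, `q` irreducible in `ℤ[X]`, `q.eval x = 0`, `q = ± (X - C x)`, `|x| ≤ L2 p0 ≤ H < H^c' ≤ |x|`, contradiction; if no monomial has `1 ≤ m 0` the same with `Bivariate.swap`
(or: `p0` has constant coefficients, `X - C (C y) ∣ p0`). In particular `1 ≤ natDegree p0`, so `irr_Q`. -/

namespace Pool.Agent.H97.NW

open Finset Polynomial Pool.Agent.H72.ES Pool.Agent.H34.AC H4AR

/-- the second variable does not occur -/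
private theorem spi_one (x y : ℤ) (p0 : ℤ[X][X]) (hp : Irreducible p0) (h0 : p0.natDegree = 0)
    (hL : Lam x y p0 = 0) : |(p0.coeff 0).coeff 0| = |x| := by
  obtain ⟨q, hq⟩ := natDegree_eq_zero.1 h0
  have h1 : q.eval x = 0 := by
    rw [← hq] at hL
    have h2 : Lam x y (C q) = q.eval x := by
      unfold Lam
      rw [coe_eval₂RingHom, eval₂_C, coe_eval₂RingHom, eval₂_eq_eval_map]
      have : Int.castRingHom ℤ = RingHom.id ℤ := Subsingleton.elim _ _
      rw [this, Polynomial.map_id]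
    rw [← h2, hL]
  obtain ⟨r, hr⟩ := dvd_iff_isRoot.2 h1
  have h3 : p0 = C (X - C x) * C r := by rw [← hq, hr, C_mul]
  have h4 : IsUnit r := by
    rcases hp.isUnit_or_isUnit h3 with h | h
    · exact absurd (isUnit_C.1 h) (not_isUnit_X_sub_C x)
    · exact isUnit_C.1 h
  obtain ⟨b, hb, hbr⟩ := Polynomial.isUnit_iff.1 h4
  rw [← hq, coeff_C_zero, hr, ← hbr, coeff_mul_C, coeff_sub, coeff_X_zero, coeff_C_zero]
  rcases Int.isUnit_iff.1 hb with h | h <;> simp [h]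

private theorem spi_Lam (x y : ℤ) (p : ℤ[X][X]) : Lam x y p = (p.eval (C y)).eval x := by
  have h3 : Lam x y = (evalRingHom x).comp (evalRingHom (C y)) := by
    refine Polynomial.ringHom_ext' ?_ ?_
    · refine Polynomial.ringHom_ext' (Subsingleton.elim _ _) ?_
      simp [Lam]
    · simp [Lam]
  rw [h3]
  rfl

/-- the first variable does not occur -/
private theorem spi_zero (x y : ℤ) (p0 : ℤ[X][X]) (hp : Irreducible p0)
    (h0 : ∀ j, (p0.coeff j).natDegree = 0)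
    (hL : Lam x y p0 = 0) : |(p0.coeff 0).coeff 0| = |y| := by
  have h1 : (p0.eval (C y)).natDegree = 0 := by
    refine Nat.le_zero.1 ?_
    rw [eval_eq_sum_range]
    refine natDegree_sum_le_of_forall_le _ _ fun j _ => ?_
    rw [← C_pow]
    exact (natDegree_mul_C_le _ _).trans (le_of_eq (h0 j))
  have h2 : Lam x y p0 = (p0.eval (C y)).eval x := spi_Lam x y p0
  obtain ⟨a, ha⟩ := natDegree_eq_zero.1 h1
  have h3 : p0.eval (C y) = 0 := by
    rw [hL, ← ha, eval_C] at h2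
    rw [← ha, ← h2, C_0]
  obtain ⟨u, hu⟩ := dvd_iff_isRoot.2 h3
  have h4 : IsUnit u := by
    rcases hp.isUnit_or_isUnit hu with h | h
    · exact absurd h (not_isUnit_X_sub_C _)
    · exact h
  obtain ⟨a, ha, hau⟩ := Polynomial.isUnit_iff.1 h4
  obtain ⟨b, hb, hba⟩ := Polynomial.isUnit_iff.1 ha
  rw [hu, ← hau, ← hba, coeff_mul_C, coeff_sub, coeff_X_zero, coeff_C_zero, zero_sub, coeff_mul_C,
    coeff_neg, coeff_C_zero]
  rcases Int.isUnit_iff.1 hb with h | h <;> simp [h]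

private theorem spi_l1 {m : ℕ} (g : MvPolynomial (Fin m) ℤ) (hg : g ≠ 0) :
    ∃ h : ℕ, 1 ≤ h ∧ l1 g = (h : ℝ) := by
  refine ⟨∑ e ∈ g.support, (MvPolynomial.coeff e g).natAbs, ?_, ?_⟩
  · obtain ⟨e, he⟩ := MvPolynomial.support_nonempty.2 hg
    have h1 : 1 ≤ (MvPolynomial.coeff e g).natAbs :=
      Int.natAbs_pos.2 (MvPolynomial.mem_support_iff.1 he)
    exact h1.trans (single_le_sum (f := fun e => (MvPolynomial.coeff e g).natAbs)
      (fun _ _ => Nat.zero_le _) he)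
  · unfold l1
    rw [Nat.cast_sum]
    refine sum_congr rfl fun e _ => ?_
    rw [Nat.cast_natAbs, Int.cast_abs]

private theorem spi_pow {E h c c0 : ℕ} {z : ℝ} (hz : 0 ≤ z) (hh : 1 ≤ h) (hc : 2 * c ≤ c0)
    (hE : E ^ (2 * c) ≤ 2 ^ c0) (h2 : (2 : ℝ) ^ c0 ≤ z) (h1 : (h : ℝ) ^ c0 ≤ z) :
    (((E * h : ℕ) : ℝ)) ^ c ≤ z := by
  have e1 : ((E : ℝ)) ^ (2 * c) ≤ 2 ^ c0 := by exact_mod_cast hE
  have e2 : (h : ℝ) ^ (2 * c) ≤ (h : ℝ) ^ c0 :=
    pow_le_pow_right₀ (by exact_mod_cast hh) hc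
  have e3 : ((((E * h : ℕ) : ℝ)) ^ c) ^ 2 ≤ z ^ 2 := by
    rw [← pow_mul, mul_comm c 2, Nat.cast_mul, mul_pow, sq z]
    exact mul_le_mul (e1.trans h2) (e2.trans h1) (by positivity) hz
  exact le_of_pow_le_pow_left₀ two_ne_zero hz e3

theorem spc_irr (A c : ℕ) : ∃ c0 : ℕ, ∀ x y : ℤ, Spc A c0 x y → (2 : ℤ) ^ c0 ≤ |x| →
    (2 : ℤ) ^ c0 ≤ |y| → ∃ (p : MvPolynomial (Fin 2) ℤ) (H : ℕ),
      Irreducible (MvPolynomial.map (Int.castRingHom ℚ) p) ∧ p.totalDegree ≤ 2 * A ∧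
      (∀ v : Fin 2, ∃ m ∈ p.support, 1 ≤ m v) ∧ 2 ≤ H ∧ (∀ m, |p.coeff m| ≤ (H : ℤ)) ∧
      vl p x y = 0 ∧ (H : ℝ) ^ c ≤ |(x : ℝ)| ∧ (H : ℝ) ^ c ≤ |(y : ℝ)| := by
  obtain ⟨K, hK1, hK⟩ := fct A
  set E : ℕ := ⌈Real.exp (K + A * K)⌉₊ + 2 with hEdef
  refine ⟨2 * (c + 2) + E ^ (2 * (c + 2)), ?_⟩
  intro x y hS hx hy
  set c0 : ℕ := 2 * (c + 2) + E ^ (2 * (c + 2)) with hc0
  have hcc : 2 * (c + 2) ≤ c0 := Nat.le_add_right _ _
  have hEE : E ^ (2 * (c + 2)) ≤ 2 ^ c0 := by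
    refine (Nat.lt_two_pow_self).le.trans ?_
    exact Nat.pow_le_pow_right (by norm_num) (Nat.le_add_left _ _)
  obtain ⟨g, hg0, hgA, hge, hgx, hgy⟩ := hS
  obtain ⟨h, hh1, hh⟩ := spi_l1 g hg0
  have hG0 : toB g ≠ 0 := by
    intro h'
    exact hg0 ((map_eq_zero_iff _ (AlgEquiv.injective _)).1 h')
  have hGX : XD A (toB g) := by
    intro j
    rw [natDegree_le_iff_coeff_eq_zero]
    intro N hN
    rw [toB_coeff]
    by_contra h'
    have h1 := MvPolynomial.monomial_le_degreeOf 0 (MvPolynomial.mem_support_iff.2 h')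
    have h2 := hgA 0
    simp at h1
    omega
  have hGn : (toB g).natDegree ≤ A := (toB_nat g).trans (hgA 1)
  obtain ⟨p0, hp0, hdvd, hL⟩ := exists_irr x y (toB g) hG0 (by rw [toB_Lam, hge])
  have hpn : p0.natDegree ≤ A := (natDegree_le_of_dvd hdvd hG0).trans hGn
  have hpX : XD A p0 := xd_of_dvd hG0 hdvd hGX
  have hf := hK p0 (toB g) 1 hp0 hpn hpX hG0 (by rw [pow_one]; exact hdvd)
  have hL2p : 1 ≤ L2 p0 := fct_one_le_L2 hp0.ne_zero
  have hhR : (1 : ℝ) ≤ h := by exact_mod_cast hh1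
  have hL2 : L2 p0 ≤ ((E * h : ℕ) : ℝ) := by
    rw [toB_L2, hh] at hf
    have h1 : Real.log (L2 p0) ≤ Real.log (Real.exp (K + A * K) * h) := by
      rw [Real.log_mul (Real.exp_pos _).ne' (by linarith), Real.log_exp]
      have h2 : ((toB g).natDegree : ℝ) * K ≤ A * K :=
        mul_le_mul_of_nonneg_right (by exact_mod_cast hGn) (by linarith)
      rw [Nat.cast_one, one_mul, one_mul] at hf
      linarith
    have h3 := (Real.log_le_log_iff (by linarith) (by positivity)).1 h1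
    refine h3.trans ?_
    rw [Nat.cast_mul]
    refine mul_le_mul_of_nonneg_right ?_ (by linarith)
    rw [hEdef, Nat.cast_add]
    have := Nat.le_ceil (Real.exp (K + A * K))
    push_cast
    linarith
  set p : MvPolynomial (Fin 2) ℤ := toB.symm p0 with hpdef
  have hpB : toB p = p0 := AlgEquiv.apply_symm_apply _ _
  set H : ℕ := E * h with hH
  have hE2 : 2 ≤ E := Nat.le_add_left _ _
  have hH2 : 2 ≤ H := by
    calc 2 = 2 * 1 := rfl
      _ ≤ E * h := Nat.mul_le_mul hE2 hh1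
  have hco : ∀ m, |p.coeff m| ≤ (H : ℤ) := by
    intro m
    by_cases hm : m ∈ p.support
    · have h1 : |((p.coeff m : ℤ) : ℝ)| ≤ l1 p :=
        single_le_sum (f := fun e => |((MvPolynomial.coeff e p : ℤ) : ℝ)|)
          (fun _ _ => abs_nonneg _) hm
      rw [← toB_L2, hpB] at h1
      have h2 : ((|p.coeff m| : ℤ) : ℝ) ≤ ((H : ℤ) : ℝ) := by
        rw [Int.cast_abs, Int.cast_natCast]
        exact h1.trans hL2
      exact_mod_cast h2
    · rw [MvPolynomial.notMem_support_iff.1 hm, abs_zero]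
      exact Int.natCast_nonneg _
  have hdeg : ∀ v, p.degreeOf v ≤ A := fun v =>
    ofB_deg p (by rw [hpB]; exact hpn) (by rw [hpB]; exact hpX) v
  have hHx : (H : ℝ) ^ (c + 2) ≤ |(x : ℝ)| := by
    refine spi_pow (abs_nonneg _) hh1 hcc hEE ?_ ?_
    · have h1 : (((2 : ℤ) ^ c0 : ℤ) : ℝ) ≤ ((|x| : ℤ) : ℝ) := by exact_mod_cast hx
      rw [Int.cast_abs] at h1
      push_cast at h1
      exact h1
    · rw [← hh]
      exact hgx
  have hHy : (H : ℝ) ^ (c + 2) ≤ |(y : ℝ)| := by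
    refine spi_pow (abs_nonneg _) hh1 hcc hEE ?_ ?_
    · have h1 : (((2 : ℤ) ^ c0 : ℤ) : ℝ) ≤ ((|y| : ℤ) : ℝ) := by exact_mod_cast hy
      rw [Int.cast_abs] at h1
      push_cast at h1
      exact h1
    · rw [← hh]
      exact hgy
  have hHR : (2 : ℝ) ≤ H := by exact_mod_cast hH2
  have hHlt : (H : ℝ) < (H : ℝ) ^ (c + 2) := by
    calc (H : ℝ) = (H : ℝ) ^ 1 := (pow_one _).symm
      _ < (H : ℝ) ^ (c + 2) := pow_lt_pow_right₀ (by linarith) (by omega)
  have hc00 : |((p0.coeff 0).coeff 0 : ℤ)| ≤ (H : ℤ) := by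
    rw [← hpB, toB_coeff]
    exact hco _
  have hone : ∃ m ∈ p.support, 1 ≤ m 1 := by
    by_contra hcon
    push Not at hcon
    have h1 : p.degreeOf 1 ≤ 0 := by
      rw [MvPolynomial.degreeOf_le_iff]
      intro m hm
      have := hcon m hm
      omega
    have h2 : p0.natDegree = 0 := by
      have := toB_nat p
      rw [hpB] at this
      omega
    rw [spi_one x y p0 hp0 h2 hL] at hc00
    have h3 : ((|x| : ℤ) : ℝ) ≤ ((H : ℤ) : ℝ) := by exact_mod_cast hc00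
    rw [Int.cast_abs, Int.cast_natCast] at h3
    linarith
  have hzero : ∃ m ∈ p.support, 1 ≤ m 0 := by
    by_contra hcon
    push Not at hcon
    have h2 : ∀ j, (p0.coeff j).natDegree = 0 := by
      intro j
      refine Nat.le_zero.1 ?_
      rw [natDegree_le_iff_coeff_eq_zero]
      intro N hN
      rw [← hpB, toB_coeff]
      by_contra h'
      have h3 := hcon _ (MvPolynomial.mem_support_iff.2 h')
      simp at h3
      omega
    rw [spi_zero x y p0 hp0 h2 hL] at hc00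
    have h3 : ((|y| : ℤ) : ℝ) ≤ ((H : ℤ) : ℝ) := by exact_mod_cast hc00
    rw [Int.cast_abs, Int.cast_natCast] at h3
    linarith
  have hnd : 1 ≤ p0.natDegree := by
    obtain ⟨m, hm, hm1⟩ := hone
    rw [MvPolynomial.mem_support_iff] at hm
    have h1 : p.coeff (Finsupp.single 0 (m 0) + Finsupp.single 1 (m 1)) ≠ 0 := by
      have h2 : Finsupp.single 0 (m 0) + Finsupp.single 1 (m 1) = m := by
        ext v
        fin_cases v <;> simp
      rw [h2]
      exact hm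
    rw [← toB_coeff, hpB] at h1
    have h2 : p0.coeff (m 1) ≠ 0 := by
      intro h'
      rw [h', coeff_zero] at h1
      exact h1 rfl
    exact hm1.trans (le_natDegree_of_ne_zero h2)
  have hpow : (H : ℝ) ^ c ≤ (H : ℝ) ^ (c + 2) := pow_le_pow_right₀ (by linarith) (by omega)
  refine ⟨p, H, irr_Q p0 hp0 hnd, ?_, ?_, hH2, hco, ?_, hpow.trans hHx, hpow.trans hHy⟩
  · unfold MvPolynomial.totalDegree
    refine Finset.sup_le fun m hm => ?_
    rw [Finsupp.sum_fintype _ _ (fun _ => rfl), Fin.sum_univ_two]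
    have h1 := (MvPolynomial.monomial_le_degreeOf 0 hm).trans (hdeg 0)
    have h2 := (MvPolynomial.monomial_le_degreeOf 1 hm).trans (hdeg 1)
    omega
  · intro v
    fin_cases v
    · exact hzero
    · exact hone
  · unfold vl
    have h1 : Int.castRingHom ℤ = RingHom.id ℤ := Subsingleton.elim _ _
    rw [h1]
    change MvPolynomial.eval ![x, y] p = 0
    rw [← toB_Lam, hpB, hL]

end Pool.Agent.H97.NW
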