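import Pool.Agent.H97.NW.PTF
import Pool.Agent.H52.AC.INJ

/-! # [H97 NW LIP] The local series of the monomials are linearly independent

`linearIndependent_iff`: let `w : ℕ × Fin d →₀ ℤ` with `∑ w_s psi s = 0`. The polynomial `p = ∑_s C (C w_s * X^(s.1)) * X^(s.2)` in
`ℤ[X][X]` has `natDegree < d` and `Lam (xs x κ) Y p = ∑ w_s psi s = 0` (`Lam` is a ring homomorphism: `eval₂`). By `inj_irr`
(`Pool/Agent/H52/AC/INJ.lean`; `P.C.d1`, `P.C.lead`, `P.C.irr`, `kap_facts`, and `Y_spec` with `Lam_toP`) `p = 0`, so all `w_s = 0`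
(coefficients of `p`). -/

namespace Pool.Agent.H97.NW

open Finset Polynomial Pool.Agent.H72.ES Pool.Agent.H87.SA2 Pool.Agent.H8.AW Pool.Agent.H52.AC

theorem psi_indep {n : ℕ} (hn : 4 ≤ n) (P : Ptd n) (hP : P.Thr (cA n)) :
    LinearIndependent ℤ (fun s : ℕ × Fin P.d => P.psi (s.1, (s.2 : ℕ))) := by
  classical
  rw [linearIndependent_iff]
  intro w hw
  set p : ℤ[X][X] := w.sum fun s c => C (C c * X ^ s.1) * X ^ (s.2 : ℕ) with hp
  have hκ : P.kap ≠ 0 := (P.kap_facts hn hP).1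
  have hY : Lam (xs P.x P.kap) P.Y (toP P.d P.F) = 0 := by
    rw [Lam_toP]
    exact P.Y_spec.2
  have hd1 : 1 ≤ P.d := P.C.d1
  have hdeg : p.natDegree < P.d := by
    have h1 : p.natDegree ≤ P.d - 1 := by
      rw [hp, Finsupp.sum]
      refine natDegree_sum_le_of_forall_le _ _ fun s _ => ?_
      refine (natDegree_C_mul_X_pow_le _ _).trans ?_
      have := s.2.isLt
      omega
    omega
  have hval : Lam (xs P.x P.kap) P.Y p = 0 := by
    rw [← hw, Finsupp.linearCombination_apply, hp, Finsupp.sum, Finsupp.sum, map_sum]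
    refine sum_congr rfl fun s _ => ?_
    simp only [Lam, coe_eval₂RingHom, eval₂_mul, eval₂_C, eval₂_pow, eval₂_X, Ptd.psi, zsmul_eq_mul]
    rw [eq_intCast]
    ring
  have hp0 : p = 0 := by
    by_contra hne
    exact inj_irr hd1 P.C.lead P.C.irr hκ hY hne hdeg hval
  ext s
  have h1 : (p.coeff (s.2 : ℕ)).coeff s.1 = w s := by
    rw [hp, Finsupp.sum, finsetSum_coeff, finsetSum_coeff]
    have h2 : ∀ t ∈ w.support, ((C (C (w t) * X ^ t.1) * X ^ (t.2 : ℕ) : ℤ[X][X]).coeff (s.2 : ℕ)).coeff s.1 =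
        if s = t then w t else 0 := by
      intro t _
      rw [coeff_C_mul_X_pow]
      by_cases h3 : (s.2 : ℕ) = (t.2 : ℕ)
      · rw [if_pos h3, coeff_C_mul_X_pow]
        by_cases h4 : s.1 = t.1
        · rw [if_pos h4, if_pos (Prod.ext h4 (Fin.ext h3))]
        · rw [if_neg h4, if_neg (fun h => h4 (congrArg Prod.fst h))]
      · rw [if_neg h3, if_neg (fun h => h3 (congrArg (fun z => (z.2 : ℕ)) h)), coeff_zero]
    rw [sum_congr rfl h2, sum_ite_eq]
    split_ifs with h3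
    · rfl
    · exact (Finsupp.notMem_support_iff.mp h3).symm
  rw [← h1, hp0]
  simp

end Pool.Agent.H97.NW
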