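import Pool.Agent.H97.NW.BOX

/-! # [H97 NW TEN] Products of linearly independent series in separate variables

Show by induction on `m`, for all `I`, `ψ`: if `w : (∀ v, I v) →₀ ℤ` satisfies
`w.sum (fun μ a => a * ∏ v, coeff (K v) (ψ v (μ v))) = 0` for all `K : Fin m → ℕ`, then `w = 0`. `m = 0`: the product is empty and
`(∀ v : Fin 0, I v)` has one element. Step: use `Fin.consEquiv` (`(∀ v : Fin (m+1), I v) ≃ I 0 × (∀ v, I v.succ)`, `Fin.prod_univ_succ`);
for fixed `K'` the relation for all `K_0` says that the series `∑_i (∑_(μ') w(i,μ') ∏ coeff (K' v) (ψ v.succ (μ' v))) • ψ 0 i` vanishes, so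
by the linear independence of `ψ 0` the inner sum vanishes for each `i`; by the induction hypothesis `w(i, ·) = 0`.
Then `linearIndependent_iff`: the coefficient at `K` of `∑ w_μ • box (..)` is the sum above (`coeff_box`). -/

namespace Pool.Agent.H97.NW

open Finset

private theorem ten_cons {m : ℕ} {I : Fin (m + 1) → Type} (s : ∀ v, Finset (I v)) (F : (∀ v, I v) → ℤ) :
    ∑ μ ∈ Fintype.piFinset s, F μ =
      ∑ i ∈ s 0, ∑ μ' ∈ Fintype.piFinset (fun v : Fin m => s v.succ), F (Fin.cons i μ') := by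
  rw [← Finset.sum_product']
  refine Finset.sum_nbij' (fun μ => (μ 0, fun v => μ v.succ)) (fun p => Fin.cons p.1 p.2) ?_ ?_ ?_ ?_ ?_
  · intro μ hμ
    rw [Fintype.mem_piFinset] at hμ
    rw [Finset.mem_product, Fintype.mem_piFinset]
    exact ⟨hμ 0, fun v => hμ v.succ⟩
  · intro p hp
    rw [Finset.mem_product, Fintype.mem_piFinset] at hp
    rw [Fintype.mem_piFinset]
    intro v
    refine Fin.cases ?_ (fun v => ?_) v
    · rw [Fin.cons_zero]
      exact hp.1
    · rw [Fin.cons_succ]
      exact hp.2 v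
  · intro μ _
    exact Fin.cons_self_tail μ
  · intro p _
    simp only [Fin.cons_zero, Fin.cons_succ]
  · intro μ _
    congr 1
    exact (Fin.cons_self_tail μ).symm

private theorem ten_main (m : ℕ) : ∀ (I : Fin m → Type) (ψ : ∀ v, I v → PowerSeries ℤ), (∀ v, LinearIndependent ℤ (ψ v)) →
    ∀ (s : ∀ v, Finset (I v)) (g : (∀ v, I v) → ℤ),
      (∀ K : Fin m → ℕ, ∑ μ ∈ Fintype.piFinset s, g μ * ∏ v, PowerSeries.coeff (K v) (ψ v (μ v)) = 0) →
      ∀ μ ∈ Fintype.piFinset s, g μ = 0 := by
  induction m with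
  | zero =>
    intro I ψ _ s g h μ hμ
    have h1 := h (fun _ => 0)
    have h2 : Fintype.piFinset s = {μ} := by
      rw [Finset.eq_singleton_iff_unique_mem]
      exact ⟨hμ, fun x _ => Subsingleton.elim x μ⟩
    rw [h2, Finset.sum_singleton] at h1
    simpa using h1
  | succ m ih =>
    intro I ψ hψ s g h μ hμ
    have key : ∀ i ∈ s 0, ∀ K' : Fin m → ℕ,
        ∑ μ' ∈ Fintype.piFinset (fun v : Fin m => s v.succ), g (Fin.cons i μ') *
          ∏ v, PowerSeries.coeff (K' v) (ψ v.succ (μ' v)) = 0 := by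
      intro i hi K'
      refine linearIndependent_iff'.1 (hψ 0) (s 0) (fun i => ∑ μ' ∈ Fintype.piFinset (fun v : Fin m => s v.succ), g (Fin.cons i μ') *
          ∏ v, PowerSeries.coeff (K' v) (ψ v.succ (μ' v))) ?_ i hi
      ext k
      rw [map_sum, map_zero]
      have h1 := h (Fin.cons k K')
      rw [ten_cons] at h1
      rw [← h1]
      refine Finset.sum_congr rfl fun i _ => ?_
      rw [map_zsmul, smul_eq_mul, Finset.sum_mul]
      refine Finset.sum_congr rfl fun μ' _ => ?_
      rw [Fin.prod_univ_succ]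
      simp only [Fin.cons_zero, Fin.cons_succ]
      ring
    rw [Fintype.mem_piFinset] at hμ
    have h2 := ih (fun v => I v.succ) (fun v => ψ v.succ) (fun v => hψ v.succ) (fun v => s v.succ) (fun μ' => g (Fin.cons (μ 0) μ'))
      (key (μ 0) (hμ 0)) (fun v => μ v.succ) (by
        rw [Fintype.mem_piFinset]
        exact fun v => hμ v.succ)
    have h3 : (Fin.cons (μ 0) (fun v => μ v.succ) : ∀ v, I v) = μ := Fin.cons_self_tail μ
    simp only [h3] at h2
    exact h2

theorem tens (m : ℕ) (I : Fin m → Type) (ψ : ∀ v, I v → PowerSeries ℤ)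
    (hψ : ∀ v, LinearIndependent ℤ (ψ v)) :
    LinearIndependent ℤ (fun μ : (∀ v, I v) => box fun v => ψ v (μ v)) := by
  classical
  rw [linearIndependent_iff']
  intro s g hg μ hμ
  have h1 := ten_main m I ψ hψ (fun v => s.image (fun μ => μ v)) (fun μ => if μ ∈ s then g μ else 0) (by
    intro K
    have h2 : s ⊆ Fintype.piFinset (fun v => s.image (fun μ => μ v)) := by
      intro μ hμ
      rw [Fintype.mem_piFinset]
      exact fun v => Finset.mem_image_of_mem _ hμ
    rw [← Finset.sum_subset h2]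
    · have h3 := congrArg (MvPowerSeries.coeff (Finsupp.equivFunOnFinite.symm K)) hg
      rw [map_sum, map_zero] at h3
      rw [← h3]
      refine Finset.sum_congr rfl fun μ hμ => ?_
      rw [if_pos hμ, map_zsmul, coeff_box, smul_eq_mul]
      rfl
    · intro μ _ hμ
      rw [if_neg hμ, zero_mul]) μ (by
    rw [Fintype.mem_piFinset]
    exact fun v => Finset.mem_image_of_mem _ hμ)
  simp only [if_pos hμ] at h1
  exact h1

end Pool.Agent.H97.NW
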