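import Pool.Agent.H97.NW.Defs

/-! # [H97 NW CNT] Counting lattice points in a simplex

`mem_cells`: `K` with `∑ ℓ_v K_v < T` has `ℓ_v K_v < T`, `K_v < T / ℓ_v`, so `K_v ≤ ⌊T/ℓ_v⌋₊`.
`cells_card`, induction on `m`. `m = 0`: at most one point, `cells.card ≤ 1`. Step: by
`Fin.consEquiv`/`Fin.cons` the cells of `ℓ = (ℓ_0, ℓ')` and `T` are the pairs `(j, K')` with `ℓ_0 j < T` and
`K'` a cell of `ℓ'` and `T - ℓ_0 j > 0`. Let `S' = ∑ ℓ'`, `f x = (x + S')^m`. Then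
`card * m! ∏ ℓ' ≤ ∑_(j : ℓ_0 j < T) f(T - ℓ_0 j)` and, for `x ≥ 0`, `(m+1) ℓ_0 f(x) ≤
(x + ℓ_0 + S')^(m+1) - (x + S')^(m+1)` (`one_add_mul_le_pow` or the geometric sum), so
`(m+1) ℓ_0 ∑_j f(T - ℓ_0 j) ≤ ∑_j [(T - ℓ_0 (j-1) + S')^(m+1) - (T - ℓ_0 j + S')^(m+1)] ≤
(T + ℓ_0 + S')^(m+1)` (telescoping over `j = 0, ..., J`, all terms are non negative). -/

namespace Pool.Agent.H97.NW

open Finset

variable {m : ℕ}

theorem mem_cells {ℓ : Fin m → ℝ} (hℓ : ∀ v, 0 < ℓ v) {T : ℝ} {K : Fin m → ℕ} :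
    K ∈ cells ℓ T ↔ ∑ v, ℓ v * (K v : ℝ) < T := by
  unfold cells
  rw [mem_filter, Fintype.mem_piFinset]
  constructor
  · exact fun h => h.2
  · intro h
    refine ⟨fun v => ?_, h⟩
    rw [mem_range, Nat.lt_succ_iff]
    apply Nat.le_floor
    rw [le_div_iff₀ (hℓ v), mul_comm]
    have h1 := Finset.single_le_sum (f := fun v => ℓ v * (K v : ℝ)) (fun v _ => mul_nonneg (hℓ v).le (Nat.cast_nonneg _))
      (Finset.mem_univ v)
    exact (h1.trans h.le)

private theorem cnt_bern (x l : ℝ) (hx : 0 ≤ x) (hl : 0 ≤ l) (n : ℕ) :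
    x ^ (n + 1) + ((n : ℝ) + 1) * l * x ^ n ≤ (x + l) ^ (n + 1) := by
  induction n with
  | zero => simp
  | succ n ih =>
    have h1 : 0 ≤ x + l := by linarith
    have h2 := mul_le_mul_of_nonneg_left ih h1
    have h3 : 0 ≤ ((n : ℝ) + 1) * l * x ^ n * l := by positivity
    calc x ^ (n + 1 + 1) + (((n + 1 : ℕ) : ℝ) + 1) * l * x ^ (n + 1)
        = (x + l) * (x ^ (n + 1) + ((n : ℝ) + 1) * l * x ^ n) - ((n : ℝ) + 1) * l * x ^ n * l := by
          push_cast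
          ring
      _ ≤ (x + l) * (x + l) ^ (n + 1) := by linarith
      _ = (x + l) ^ (n + 1 + 1) := by ring

theorem cells_card (m : ℕ) (ℓ : Fin m → ℝ) (hℓ : ∀ v, 0 < ℓ v) (T : ℝ) (hT : 0 ≤ T) :
    ((cells ℓ T).card : ℝ) * ((m.factorial : ℝ) * ∏ v, ℓ v) ≤ (T + ∑ v, ℓ v) ^ m := by
  classical
  induction m generalizing T with
  | zero =>
    have h1 : (cells ℓ T).card ≤ 1 := Finset.card_le_one_of_subsingleton _
    have h2 : ((cells ℓ T).card : ℝ) ≤ 1 := by exact_mod_cast h1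
    simpa using h2
  | succ m ih =>
    obtain ⟨ℓ', hℓ'⟩ : ∃ ℓ' : Fin m → ℝ, ℓ' = fun v => ℓ v.succ := ⟨_, rfl⟩
    obtain ⟨l0, hl0⟩ : ∃ l0, l0 = ℓ 0 := ⟨_, rfl⟩
    have hl0p : 0 < l0 := by
      rw [hl0]
      exact hℓ 0
    have hℓp : ∀ v, 0 < ℓ' v := by
      intro v
      rw [hℓ']
      exact hℓ _
    obtain ⟨S, hS⟩ : ∃ S, S = ∑ v, ℓ' v := ⟨_, rfl⟩
    have hS0 : 0 ≤ S := by
      rw [hS]
      exact Finset.sum_nonneg fun v _ => (hℓp v).le
    obtain ⟨J, hJ⟩ : ∃ J, J = ⌊T / l0⌋₊ := ⟨_, rfl⟩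
    have hjT : ∀ j ∈ range (J + 1), l0 * (j : ℝ) ≤ T := by
      intro j hj
      rw [mem_range, Nat.lt_succ_iff, hJ] at hj
      have h1 : (j : ℝ) ≤ T / l0 := (Nat.le_floor_iff (by positivity)).1 hj
      rw [le_div_iff₀ hl0p] at h1
      linarith
    have hcov : cells ℓ T ⊆ (range (J + 1)).biUnion fun j => (cells ℓ' (T - l0 * j)).image (fun K' : Fin m → ℕ => (Fin.cons j K' : Fin (m + 1) → ℕ)) := by
      intro K hK
      rw [mem_cells hℓ, Fin.sum_univ_succ] at hK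
      rw [mem_biUnion]
      have h0 : 0 ≤ ∑ v : Fin m, ℓ v.succ * (K v.succ : ℝ) :=
        Finset.sum_nonneg fun v _ => mul_nonneg (hℓ _).le (Nat.cast_nonneg _)
      refine ⟨K 0, ?_, ?_⟩
      · rw [mem_range, Nat.lt_succ_iff, hJ]
        apply Nat.le_floor
        rw [le_div_iff₀ hl0p, hl0]
        linarith
      · rw [mem_image]
        refine ⟨fun v => K v.succ, ?_, ?_⟩
        · rw [mem_cells hℓp, hℓ', hl0]
          simp only
          linarith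
        · exact Fin.cons_self_tail K
    have hcard : ((cells ℓ T).card : ℝ) ≤ ∑ j ∈ range (J + 1), ((cells ℓ' (T - l0 * j)).card : ℝ) := by
      have h1 := (Finset.card_le_card hcov).trans Finset.card_biUnion_le
      have h2 : ∑ j ∈ range (J + 1), ((cells ℓ' (T - l0 * j)).image (fun K' : Fin m → ℕ => (Fin.cons j K' : Fin (m + 1) → ℕ))).card ≤
          ∑ j ∈ range (J + 1), (cells ℓ' (T - l0 * j)).card := Finset.sum_le_sum fun j _ => Finset.card_image_le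
      exact_mod_cast h1.trans h2
    have hP : 0 ≤ (m.factorial : ℝ) * ∏ v, ℓ' v := by
      have : 0 ≤ ∏ v, ℓ' v := Finset.prod_nonneg fun v _ => (hℓp v).le
      positivity
    have h1 : ((cells ℓ T).card : ℝ) * ((m.factorial : ℝ) * ∏ v, ℓ' v) ≤ ∑ j ∈ range (J + 1), (T - l0 * j + S) ^ m := by
      refine (mul_le_mul_of_nonneg_right hcard hP).trans ?_
      rw [Finset.sum_mul]
      apply Finset.sum_le_sum
      intro j hj
      rw [hS]
      exact ih ℓ' hℓp (T - l0 * j) (by linarith [hjT j hj])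
    have h2 : ∀ j ∈ range (J + 1), ((m : ℝ) + 1) * l0 * (T - l0 * j + S) ^ m ≤
        (T + l0 + S - l0 * j) ^ (m + 1) - (T + l0 + S - l0 * ((j + 1 : ℕ) : ℝ)) ^ (m + 1) := by
      intro j hj
      have h3 := cnt_bern (T - l0 * j + S) l0 (by linarith [hjT j hj]) hl0p.le m
      have e1 : T - l0 * j + S + l0 = T + l0 + S - l0 * j := by ring
      have e2 : T + l0 + S - l0 * ((j + 1 : ℕ) : ℝ) = T - l0 * j + S := by
        push_cast
        ring
      rw [e1] at h3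
      rw [e2]
      linarith
    have h3 := Finset.sum_le_sum h2
    rw [← Finset.mul_sum, Finset.sum_range_sub' (fun j : ℕ => (T + l0 + S - l0 * (j : ℝ)) ^ (m + 1))] at h3
    have h4 : 0 ≤ (T + l0 + S - l0 * ((J + 1 : ℕ) : ℝ)) ^ (m + 1) := by
      apply pow_nonneg
      have h5 := hjT J (mem_range.2 (Nat.lt_succ_self J))
      push_cast
      nlinarith
    rw [Fin.prod_univ_succ, Fin.sum_univ_succ, Nat.factorial_succ, ← hl0]
    have e1 : ∏ v : Fin m, ℓ v.succ = ∏ v, ℓ' v := by rw [hℓ']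
    have e2 : ∑ v : Fin m, ℓ v.succ = S := by rw [hS, hℓ']
    rw [e1, e2]
    have e3 : ((cells ℓ T).card : ℝ) * ((((m + 1) * m.factorial : ℕ) : ℝ) * (l0 * ∏ v, ℓ' v)) =
        ((m : ℝ) + 1) * l0 * (((cells ℓ T).card : ℝ) * ((m.factorial : ℝ) * ∏ v, ℓ' v)) := by
      push_cast
      ring
    rw [e3]
    have h5 := mul_le_mul_of_nonneg_left h1 (show 0 ≤ ((m : ℝ) + 1) * l0 by positivity)
    have e4 : T + l0 + S - l0 * ((0 : ℕ) : ℝ) = T + (l0 + S) := by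
      push_cast
      ring
    rw [e4] at h3
    linarith

end Pool.Agent.H97.NW
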