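import Pool.Agent.H97.NW.Defs
import Pool.Agent.H52.AC.UR

/-! # [H97 NW ROT] Rotations of the branches and the Fourier argument in `m` variables

`Vm_rot`: coefficientwise `coeff k (uu q e (rescale ζ w) D a b) = ζ^k coeff k (uu q e w D a b)` (`uu_rot` of
`Pool/Agent/H52/AC/UR.lean`), and `ζ_v^(e_v K_v + r_v) = ζ_v^(r_v)`.
`fourier_m`: induction on `m`. `m = 0`: the sum has one term, `c r`. Step: `(∀ v : Fin (m+1), Fin (e v))` is
`Fin (e 0) × (∀ v : Fin m, Fin (e v.succ))` (`Fin.consEquiv` / `Fin.insertNthEquiv`, `Fin.prod_univ_succ`); for fixed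
`ζ'` the function `r0 ↦ ∑_(r') (∏ ζ'^(r')) c (cons r0 r')` vanishes by `fourier_one_UR` (`UR.lean`), then use the
induction hypothesis for each `r0`. (Or: `MvPolynomial` of degree `< e_v` in each variable vanishing on the grid of
roots of unity.) -/

namespace Pool.Agent.H97.NW

open Finset Polynomial Pool.Agent.H72.ES Pool.Agent.H87.SA2 Pool.Agent.H8.AW Pool.Agent.H52.AC

variable {m n : ℕ}

theorem Vm_rot (P : Fin m → Ptd n) (D N : Fin m → ℕ) (A : Mo P N → ℤ) {ζ : Fin m → ℂ}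
    (hζ : ∀ v, ζ v ^ (P v).C.pd.e = 1) (p p' : ∀ v, Fin (P v).d)
    (h : ∀ v, PowerSeries.rescale (ζ v) ((P v).C.pd.x (p v)) = (P v).C.pd.x (p' v))
    (K : Fin m → ℕ) : Vm P D N A p' K =
      ∑ r : (∀ v, Fin (P v).C.pd.e), (∏ v, ζ v ^ (r v : ℕ)) *
        Bm P D N A p fun v => (P v).C.pd.e * K v + (r v : ℕ) := by
  unfold Vm
  refine Finset.sum_congr rfl fun r _ => ?_
  unfold Bm
  rw [Finset.mul_sum]
  refine Finset.sum_congr rfl fun μ _ => ?_
  have h1 : ∀ v, PowerSeries.coeff ((P v).C.pd.e * K v + (r v : ℕ))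
      (uu (P v).C.pd.q (P v).C.pd.e ((P v).C.pd.x (p' v)) (D v) (μ v).1 (μ v).2) =
      ζ v ^ (r v : ℕ) * PowerSeries.coeff ((P v).C.pd.e * K v + (r v : ℕ))
      (uu (P v).C.pd.q (P v).C.pd.e ((P v).C.pd.x (p v)) (D v) (μ v).1 (μ v).2) := by
    intro v
    rw [← h v, uu_rot (hζ v), pow_add, pow_mul, hζ v, one_pow, one_mul]
  rw [Finset.prod_congr rfl fun v _ => h1 v, Finset.prod_mul_distrib]
  ring

theorem fourier_m (m : ℕ) (e : Fin m → ℕ) (he : ∀ v, 1 ≤ e v) (c : (∀ v, Fin (e v)) → ℂ)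
    (h : ∀ ζ : Fin m → ℂ, (∀ v, ζ v ^ e v = 1) →
      ∑ r : (∀ v, Fin (e v)), (∏ v, ζ v ^ (r v : ℕ)) * c r = 0) : ∀ r, c r = 0 := by
  induction m with
  | zero =>
    intro r
    have h1 := h (fun _ => 1) (fun v => by simp)
    rw [Fintype.sum_eq_single r (fun x hx => absurd (Subsingleton.elim x r) hx)] at h1
    simpa using h1
  | succ m ih =>
    have key : ∀ r0 : Fin (e 0), ∀ ζ' : Fin m → ℂ, (∀ v, ζ' v ^ e v.succ = 1) →
        ∑ r' : (∀ v : Fin m, Fin (e v.succ)), (∏ v, ζ' v ^ (r' v : ℕ)) * c (Fin.cons r0 r') = 0 := by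
      intro r0 ζ' hζ'
      obtain ⟨cc, hcc⟩ : ∃ cc : ℕ → ℂ, cc = fun r => if h : r < e 0 then
        ∑ r' : (∀ v : Fin m, Fin (e v.succ)), (∏ v, ζ' v ^ (r' v : ℕ)) * c (Fin.cons ⟨r, h⟩ r') else 0 := ⟨_, rfl⟩
      have h1 := fourier_one_UR (he 0) cc (by
        intro ζ hζ
        have h2 := h (Fin.cons ζ ζ') (by
          intro v
          refine Fin.cases ?_ (fun v => ?_) v
          · rw [Fin.cons_zero]
            exact hζ
          · rw [Fin.cons_succ]
            exact hζ' v)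
        rw [← h2, ← Equiv.sum_comp (Fin.consEquiv (fun v => Fin (e v))), Fintype.sum_prod_type, Finset.sum_range]
        refine Finset.sum_congr rfl fun r _ => ?_
        rw [hcc]
        simp only [r.isLt, dif_pos, Finset.mul_sum]
        refine Finset.sum_congr rfl fun r' _ => ?_
        have h3 : (Fin.consEquiv (fun v => Fin (e v))) (r, r') = Fin.cons r r' := rfl
        rw [h3, Fin.prod_univ_succ]
        simp only [Fin.cons_zero, Fin.cons_succ, Fin.eta]
        ring) r0 r0.isLt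
      rw [hcc] at h1
      simp only [r0.isLt, dif_pos, Fin.eta] at h1
      exact h1
    intro r
    have h2 := ih (fun v => e v.succ) (fun v => he v.succ) (fun r' => c (Fin.cons (r 0) r')) (key (r 0)) (fun v => r v.succ)
    have h3 : (Fin.cons (r 0) (fun v => r v.succ) : ∀ v, Fin (e v)) = r := Fin.cons_self_tail r
    simp only [h3] at h2
    exact h2

end Pool.Agent.H97.NW
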