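import Pool.Agent.H97.NW.EQV
import Pool.Agent.H97.NW.ROT
import Pool.Agent.H52.AC.LIO

/-! # [H97 NW CEL] Small cell sums vanish, with all coefficients in the cell

As `cell_zero` (`Pool/Agent/H52/AC/CEL.lean`). (1) `liou_zero` for the family `p ↦ Vm P D N A p K`, `p ∈ PP`
(subtype): integrality `Vm_int`; for `σ` take the permutations `π_v` of `perm_gal (P v).C.pd σ`; `π p ∈ PP` by
`hst.1`, and `Vm_gal` is the equivariance. So `Vm = 0` on `PP`. (2) For `ζ` with `ζ_v^(e_v) = 1` take the permutations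
of `perm_rot`; `ρ p ∈ PP` by `hst.2`, so `0 = Vm (ρ p) K` = the sum of `Vm_rot`; `fourier_m`. -/

namespace Pool.Agent.H97.NW

open Finset Polynomial Pool.Agent.H72.ES Pool.Agent.H87.SA2 Pool.Agent.H8.AW Pool.Agent.H52.AC

variable {m n : ℕ}

theorem cell_zero_m (P : Fin m → Ptd n) (PP : Finset (∀ v, Fin (P v).d)) (hst : Stb P PP)
    (D N : Fin m → ℕ) (A : Mo P N → ℤ) (K : Fin m → ℕ)
    (h : ∀ p ∈ PP, ‖Vm P D N A p K‖ < 1) :
    ∀ p ∈ PP, ∀ r : (∀ v, Fin (P v).C.pd.e),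
      Bm P D N A p (fun v => (P v).C.pd.e * K v + (r v : ℕ)) = 0 := by
  classical
  have hz : ∀ p : {p // p ∈ PP}, Vm P D N A p.1 K = 0 := by
    refine liou_zero (fun p : {p // p ∈ PP} => Vm P D N A p.1 K) ?_ ?_ ?_
    · intro p
      exact Vm_int P D N A p.1 K
    · intro σ p
      choose π hπ using fun v : Fin m => perm_gal (P v).C.pd σ
      have hmem : (fun v => π v (p.1 v)) ∈ PP :=
        hst.1 σ p.1 p.2 (fun v => π v (p.1 v)) fun v k a ha => hπ v (p.1 v) k a ha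
      exact ⟨⟨fun v => π v (p.1 v), hmem⟩, fun a ha =>
        Vm_gal P D N A σ p.1 (fun v => π v (p.1 v))
          (fun v k b hb => hπ v (p.1 v) k b hb) K a ha⟩
    · intro p
      exact h p.1 p.2
  intro p hp
  refine fourier_m m (fun v => (P v).C.pd.e) (fun v => (P v).C.pd.e_pos)
    (fun r => Bm P D N A p (fun v => (P v).C.pd.e * K v + (r v : ℕ))) ?_
  intro ζ hζ
  choose ρ hρ using fun v : Fin m => perm_rot (P v).C.pd (hζ v)
  have hmem : (fun v => ρ v (p v)) ∈ PP :=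
    hst.2 ζ hζ p hp (fun v => ρ v (p v)) fun v => hρ v (p v)
  have h0 := hz ⟨fun v => ρ v (p v), hmem⟩
  rw [Vm_rot P D N A hζ p (fun v => ρ v (p v)) (fun v => hρ v (p v)) K] at h0
  exact h0

end Pool.Agent.H97.NW
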