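import Pool.Agent.H97.NW.PTF

/-! # [H97 NW LOC] Cauchy's estimate for the local coefficients, complex coefficients

`loc_c`: the proof of `loc_bound` (`Pool/Agent/H52/AC/LOC.lean`) up to and including `hji` (the integral series `Y`, mapped to `ℂ`, is
`serf (x Z_i)`) does not involve the array `c`; only the last part changes: with `h s = ∑_(t ∈ S) c t * (x(s)^(t.1) * (x(s) Z_i(s))^(t.2))`,
`∑_(t ∈ S) c t * (coeff K (psi t) : ℂ) = coeff K (serf h)` (`ser` is a ring homomorphism, `serf_add`, `serf_mul`, `serf_const`; or write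
`h` as an element of `An`), and `serf_le` with the bound `hM` at `T = g s`, `ξ = x1 + κ s`.
Here `κ = P.kap`, `hY0, hY` = `P.Y_spec`, the hypotheses on `P` are `P.facts` (the file's private lemmas `loc_point`, `loc_series` have to be
copied).
`loc_m`: iterate over the variables. For a subset `s` of `Fin m` (induction, `Finset.induction_on`) prove: for all `K` and all `T, ξ`
as in `hM` (for `v ∉ s`): `‖∑_μ A μ (∏_(v ∈ s) coeff (K v) (psi_v μ_v)) (∏_(v ∉ s) val_v(T_v, ξ_v; μ_v))‖ ∏_(v ∈ s) ρ_v^(K_v) ≤ M`. Step: insert `w`;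
for fixed `T_v, ξ_v`, `v ∉ insert w s`, put `c t = ∑_(μ : μ_w = t) A μ (∏_(v ∈ s) ..) (∏_(v ∉ insert w s) ..)` for
`t ∈ S = image of Fin (N w) × Fin d_w`, and apply `loc_c` with `M / ∏_(v ∈ s) ρ_v^(K_v)` (`Finset.sum_fiberwise`). -/

namespace Pool.Agent.H97.NW

open Finset Polynomial Pool.Agent.H72.ES Pool.Agent.H87.SA2 Pool.Agent.H8.AW Pool.Agent.H52.AC

variable {m n : ℕ}

/-- evaluation at a point -/
private noncomputable def loc_es (s : ℂ) : An →+* ℂ := (Pi.evalRingHom (fun _ : ℂ => ℂ) s).comp An.subtype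

private theorem loc_es_apply (s : ℂ) (g : An) : loc_es s g = g.1 s := rfl

/-- the polynomial identity at a point -/
private theorem loc_point {n : ℕ} {F : ℕ → ℕ → ℤ} (pd : PData (fI n F) n) {T x : ℂ}
    (hT : pd.R * ‖T‖ < 1) (hTx : ((pd.q : ℂ) * T) ^ pd.e * x = 1) :
    ev n (cst ℂ[X] F) (C x) X = ∏ j, (X - C (x * evz T (pd.x j))) := by
  refine Polynomial.funext fun W => ?_
  have h1 : (ev n (cst ℂ[X] F) (C x) X).eval W = ev n (cst ℂ F) x W := by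
    have h2 := ev_map (Polynomial.evalRingHom W) n (cst ℂ[X] F) (C x) X
    rw [cst_map] at h2
    simp only [Polynomial.coe_evalRingHom, Polynomial.eval_C, Polynomial.eval_X] at h2
    exact h2
  rw [h1, ev_eq_evt n (cst ℂ F) x W _ hTx, ← fI_eval, split_at pd hT]
  rw [Polynomial.eval_prod, Polynomial.eval_prod]
  have h3 : x ^ n = ∏ _j : Fin n, x := by
    rw [Finset.prod_const, Finset.card_univ, Fintype.card_fin]
  rw [h3, ← Finset.prod_mul_distrib]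
  refine Finset.prod_congr rfl fun j _ => ?_
  rw [Polynomial.eval_sub, Polynomial.eval_X, Polynomial.eval_C, Polynomial.eval_sub,
    Polynomial.eval_X, Polynomial.eval_C, mul_sub, ← mul_assoc, mul_comm x (_ ^ _), hTx, one_mul]

/-- the polynomial identity for the Taylor series -/
private theorem loc_series {n : ℕ} {F : ℕ → ℕ → ℤ} (xA : An) (WA : Fin n → An)
    {r : ℝ} (hr : 0 < r)
    (h : ∀ s ∈ Metric.ball (0 : ℂ) r, ev n (cst ℂ[X] F) (C (xA.1 s)) X =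
      ∏ j, (X - C ((WA j).1 s))) :
    ev n (cst (PowerSeries ℂ)[X] F) (C (serf xA.1)) X = ∏ j, (X - C (serf (WA j).1)) := by
  have h1 : ev n (cst (PowerSeries ℂ)[X] F) (C (serf xA.1)) X =
      (ev n (cst An[X] F) (C xA) X).map ser := by
    have h2 := ev_map (Polynomial.mapRingHom ser) n (cst An[X] F) (C xA) X
    rw [cst_map] at h2
    simp only [Polynomial.coe_mapRingHom, Polynomial.map_C, Polynomial.map_X, ser_apply] at h2
    exact h2.symm
  have h2 : ∏ j, (X - C (serf (WA j).1)) = (∏ j, (X - C (WA j)) : An[X]).map ser := by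
    rw [Polynomial.map_prod]
    refine Finset.prod_congr rfl fun j _ => ?_
    rw [Polynomial.map_sub, Polynomial.map_X, Polynomial.map_C, ser_apply]
  rw [h1, h2]
  ext1 k
  rw [Polynomial.coeff_map, Polynomial.coeff_map, ser_apply, ser_apply]
  refine serf_congr ?_
  filter_upwards [Metric.ball_mem_nhds (0 : ℂ) hr] with s hs
  have h3 := h s hs
  have h4 : (ev n (cst An[X] F) (C xA) X).map (loc_es s) =
      ev n (cst ℂ[X] F) (C (xA.1 s)) X := by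
    have h5 := ev_map (Polynomial.mapRingHom (loc_es s)) n (cst An[X] F) (C xA) X
    rw [cst_map] at h5
    simp only [Polynomial.coe_mapRingHom, Polynomial.map_C, Polynomial.map_X, loc_es_apply] at h5
    exact h5
  have h5 : (∏ j, (X - C (WA j)) : An[X]).map (loc_es s) = ∏ j, (X - C ((WA j).1 s)) := by
    rw [Polynomial.map_prod]
    refine Finset.prod_congr rfl fun j _ => ?_
    rw [Polynomial.map_sub, Polynomial.map_X, Polynomial.map_C, loc_es_apply]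
  rw [← h4, ← h5] at h3
  have h6 := congrArg (fun f => Polynomial.coeff f k) h3
  simp only [Polynomial.coeff_map, loc_es_apply] at h6
  exact h6

private theorem loc_cA {n : ℕ} {F : ℕ → ℕ → ℤ} (pd : PData (fI n F) n) {x1 y1 κ : ℤ}
    (hx1 : x1 ≠ 0) (hκ : κ ≠ 0) {Y : PowerSeries ℤ} (hY0 : PowerSeries.constantCoeff Y = y1)
    (hY : ev n (cst (PowerSeries ℤ) F) (xs x1 κ) Y = 0) {T1 : ℂ} {i : Fin n}
    (hT1 : ((pd.q : ℂ) * T1) ^ pd.e * (x1 : ℂ) = 1)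
    (hi : evz T1 (pd.x i) = (y1 : ℂ) / (x1 : ℂ))
    (huniq : ∀ j, evz T1 (pd.x j) = (y1 : ℂ) / (x1 : ℂ) → j = i)
    (hbig : 4 * (2 * pd.R) ^ pd.e ≤ |(x1 : ℝ)|) (S : Finset (ℕ × ℕ)) (c : ℕ × ℕ → ℂ) {M ρ : ℝ}
    (hρ : 0 < ρ) (hρx : |(κ : ℝ)| * ρ ≤ |(x1 : ℝ)| / 2)
    (hM : ∀ T ξ : ℂ, ((pd.q : ℂ) * T) ^ pd.e * ξ = 1 → ‖ξ - x1‖ ≤ |(x1 : ℝ)| / 2 →
      ‖∑ t ∈ S, c t * (ξ ^ t.1 * (ξ * evz T (pd.x i)) ^ t.2)‖ ≤ M) (K : ℕ) :
    ‖∑ t ∈ S, c t * ((PowerSeries.coeff K (xs x1 κ ^ t.1 * Y ^ t.2) : ℤ) : ℂ)‖ * ρ ^ K ≤ M := by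
  classical
  have he := pd.e_pos
  have hq1 : (1 : ℝ) ≤ pd.q := by exact_mod_cast pd.q_pos
  have hR2 := pd.R_ge
  have hR0 : 0 < pd.R := by linarith
  have hxp : 0 < |(x1 : ℝ)| := abs_pos.2 (by exact_mod_cast hx1)
  have hκp : 0 < |(κ : ℝ)| := abs_pos.2 (by exact_mod_cast hκ)
  have hnx : ‖(x1 : ℂ)‖ = |(x1 : ℝ)| := Complex.norm_intCast x1
  have hnκ : ‖(κ : ℂ)‖ = |(κ : ℝ)| := Complex.norm_intCast κ
  obtain ⟨r, hr⟩ : ∃ r : ℝ, |(κ : ℝ)| * r = 3 / 4 * |(x1 : ℝ)| :=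
    ⟨3 / 4 * |(x1 : ℝ)| / |(κ : ℝ)|, by field_simp⟩
  have hρr : ρ < r := by
    have : |(κ : ℝ)| * ρ < |(κ : ℝ)| * r := by
      rw [hr]
      linarith
    exact lt_of_mul_lt_mul_left this hκp.le
  have hr0 : 0 < r := hρ.trans hρr
  obtain ⟨g, hgd, hg0, hgs⟩ := exists_Ts (q := (pd.q : ℂ)) (x1 := (x1 : ℂ)) (κ := (κ : ℂ)) he hT1
    (r := r) (by rw [hnκ, hnx, hr]; linarith)
  have hxs : ∀ s ∈ Metric.ball (0 : ℂ) r, |(x1 : ℝ)| / 4 ≤ ‖(x1 : ℂ) + κ * s‖ := by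
    intro s hs
    rw [mem_ball_zero_iff] at hs
    have h1 : ‖(κ : ℂ) * s‖ ≤ 3 / 4 * |(x1 : ℝ)| := by
      rw [norm_mul, hnκ, ← hr]
      exact mul_le_mul_of_nonneg_left hs.le hκp.le
    have h2 : ‖(x1 : ℂ)‖ ≤ ‖(x1 : ℂ) + κ * s‖ + ‖(κ : ℂ) * s‖ := by
      have h3 := norm_sub_le ((x1 : ℂ) + κ * s) (κ * s)
      rwa [add_sub_cancel_right] at h3
    rw [hnx] at h2
    linarith
  have hRg : ∀ s ∈ Metric.ball (0 : ℂ) r, pd.R * ‖g s‖ ≤ 1 / 2 := by
    intro s hs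
    have h1 := hxs s hs
    have h2 : (‖(pd.q : ℂ) * g s‖) ^ pd.e * ‖(x1 : ℂ) + κ * s‖ = 1 := by
      rw [← norm_pow, ← norm_mul, hgs s hs, norm_one]
    have h3 : ‖g s‖ ≤ ‖(pd.q : ℂ) * g s‖ := by
      rw [norm_mul, Complex.norm_natCast]
      exact le_mul_of_one_le_left (norm_nonneg _) hq1
    have h4 : (2 * pd.R * ‖g s‖) ^ pd.e ≤ 1 := by
      have h5 : ‖g s‖ ^ pd.e ≤ ‖(pd.q : ℂ) * g s‖ ^ pd.e := pow_le_pow_left₀ (norm_nonneg _) h3 _
      have h6 : (0 : ℝ) ≤ ‖(pd.q : ℂ) * g s‖ ^ pd.e := by positivity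
      have h7 : (0 : ℝ) ≤ (2 * pd.R) ^ pd.e := by positivity
      calc (2 * pd.R * ‖g s‖) ^ pd.e = (2 * pd.R) ^ pd.e * ‖g s‖ ^ pd.e := mul_pow _ _ _
        _ ≤ (2 * pd.R) ^ pd.e * ‖(pd.q : ℂ) * g s‖ ^ pd.e := mul_le_mul_of_nonneg_left h5 h7
        _ ≤ (|(x1 : ℝ)| / 4) * ‖(pd.q : ℂ) * g s‖ ^ pd.e :=
          mul_le_mul_of_nonneg_right (by linarith) h6
        _ ≤ ‖(x1 : ℂ) + κ * s‖ * ‖(pd.q : ℂ) * g s‖ ^ pd.e := mul_le_mul_of_nonneg_right h1 h6
        _ = 1 := by rw [mul_comm]; exact h2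
    have h5 : 2 * pd.R * ‖g s‖ ≤ 1 := by
      by_contra hcon
      push Not at hcon
      exact absurd (one_lt_pow₀ hcon (by omega)) (not_lt.2 h4)
    linarith
  have hZd : ∀ j, DifferentiableOn ℂ (fun s => evz (g s) (pd.x j)) (Metric.ball 0 r) := by
    intro j
    have hGr : Gr (2 / (3 * pd.R)) (pd.x j) := by
      refine gr_of_le (R := pd.R) (C := pd.R) hR0.le (by positivity) ?_ ?_
      · have : pd.R * (2 / (3 * pd.R)) = 2 / 3 := by field_simp
        rw [this]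
        norm_num
      · intro m
        rw [← pow_succ']
        exact pd.growth j m
    refine (evz_diff hGr).comp hgd ?_
    intro s hs
    rw [mem_ball_zero_iff]
    have h1 := hRg s hs
    rw [lt_div_iff₀ (by positivity)]
    linarith
  have hnhds : Metric.ball (0 : ℂ) r ∈ nhds (0 : ℂ) := Metric.ball_mem_nhds 0 hr0
  have hxd : DifferentiableOn ℂ (fun s : ℂ => (x1 : ℂ) + κ * s) (Metric.ball 0 r) := by
    fun_prop
  have hWd : ∀ j, DifferentiableOn ℂ (fun s : ℂ => ((x1 : ℂ) + κ * s) * evz (g s) (pd.x j))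
      (Metric.ball 0 r) := fun j => hxd.mul (hZd j)
  let xA : An := ⟨fun s => (x1 : ℂ) + κ * s, hxd.analyticAt hnhds⟩
  let WA : Fin n → An := fun j => ⟨fun s => ((x1 : ℂ) + κ * s) * evz (g s) (pd.x j),
    (hWd j).analyticAt hnhds⟩
  have hid := loc_series (n := n) (F := F) xA WA hr0 (fun s hs => loc_point pd
    (lt_of_le_of_lt (hRg s hs) (by norm_num)) (hgs s hs))
  -- the integral series
  let ψ : PowerSeries ℤ →+* PowerSeries ℂ := PowerSeries.map (Int.castRingHom ℂ)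
  have hψx : ψ (xs x1 κ) = serf xA.1 := by
    show ψ (xs x1 κ) = serf (fun s => (x1 : ℂ) + κ * s)
    rw [serf_affine, xs, map_add, map_mul]
    show PowerSeries.map (Int.castRingHom ℂ) _ + PowerSeries.map (Int.castRingHom ℂ) _ *
      PowerSeries.map (Int.castRingHom ℂ) _ = _
    rw [PowerSeries.map_C, PowerSeries.map_C, PowerSeries.map_X]
    rfl
  have hψY : ev n (cst (PowerSeries ℂ) F) (serf xA.1) (ψ Y) = 0 := by
    have h1 := ev_map ψ n (cst (PowerSeries ℤ) F) (xs x1 κ) Y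
    rw [hY, map_zero, cst_map, hψx] at h1
    exact h1.symm
  have hroot : ∏ j, (ψ Y - serf (WA j).1) = 0 := by
    have h1 := congrArg (Polynomial.eval (ψ Y)) hid
    rw [Polynomial.eval_prod] at h1
    have h2 : (ev n (cst (PowerSeries ℂ)[X] F) (C (serf xA.1)) X).eval (ψ Y) =
        ev n (cst (PowerSeries ℂ) F) (serf xA.1) (ψ Y) := by
      have h3 := ev_map (Polynomial.evalRingHom (ψ Y)) n (cst (PowerSeries ℂ)[X] F)
        (C (serf xA.1)) X
      rw [cst_map] at h3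
      simp only [Polynomial.coe_evalRingHom, Polynomial.eval_C, Polynomial.eval_X] at h3
      exact h3
    rw [h2, hψY] at h1
    rw [h1]
    refine Finset.prod_congr rfl fun j _ => ?_
    rw [Polynomial.eval_sub, Polynomial.eval_X, Polynomial.eval_C]
  obtain ⟨j, -, hj⟩ := Finset.prod_eq_zero_iff.1 hroot
  have hjY : ψ Y = serf (WA j).1 := sub_eq_zero.1 hj
  have hji : j = i := by
    apply huniq
    have h1 := congrArg PowerSeries.constantCoeff hjY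
    rw [serf_zero] at h1
    have h2 : PowerSeries.constantCoeff (ψ Y) = (y1 : ℂ) := by
      rw [← hY0, ← PowerSeries.coeff_zero_eq_constantCoeff_apply,
        ← PowerSeries.coeff_zero_eq_constantCoeff_apply]
      show PowerSeries.coeff 0 (PowerSeries.map (Int.castRingHom ℂ) Y) = _
      rw [PowerSeries.coeff_map]
      rfl
    rw [h2] at h1
    have h3 : (WA j).1 0 = (x1 : ℂ) * evz T1 (pd.x j) := by
      show ((x1 : ℂ) + κ * 0) * evz (g 0) (pd.x j) = _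
      rw [mul_zero, add_zero, hg0]
    rw [h3] at h1
    rw [h1]
    field_simp
  rw [hji] at hjY
  -- the composed function
  have hcA : ∀ z : ℂ, (fun _ : ℂ => z) ∈ An := fun z => analyticAt_const
  let hA : An := ∑ t ∈ S, (⟨fun _ => c t, hcA (c t)⟩ : An) * (xA ^ t.1 * (WA i) ^ t.2)
  have hAs : ∀ s : ℂ, hA.1 s = ∑ t ∈ S, c t * (((x1 : ℂ) + κ * s) ^ t.1 *
      (((x1 : ℂ) + κ * s) * evz (g s) (pd.x i)) ^ t.2) := by
    intro s
    have h1 : loc_es s hA = ∑ t ∈ S, loc_es s (⟨fun _ => c t, hcA (c t)⟩ : An) *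
        (loc_es s xA ^ t.1 * loc_es s (WA i) ^ t.2) := by
      simp only [hA, map_sum, map_mul, map_pow]
    exact h1
  have hser : ∑ t ∈ S, c t * ((PowerSeries.coeff K (xs x1 κ ^ t.1 * Y ^ t.2) : ℤ) : ℂ) =
      PowerSeries.coeff K (serf hA.1) := by
    rw [← ser_apply]
    simp only [hA, map_sum, map_mul, map_pow]
    refine Finset.sum_congr rfl fun t _ => ?_
    have h1 : ser (⟨fun _ => c t, hcA (c t)⟩ : An) = PowerSeries.C (c t) := serf_const (c t)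
    have h2 : ser xA ^ t.1 * ser (WA i) ^ t.2 = ψ (xs x1 κ ^ t.1 * Y ^ t.2) := by
      rw [map_mul, map_pow, map_pow, hψx, hjY, ser_apply, ser_apply]
    rw [h1, h2, PowerSeries.coeff_C_mul]
    congr 1
  rw [hser]
  refine serf_le hρ hρr ?_ ?_ K
  · have h1 : hA.1 = fun s => ∑ t ∈ S, c t * (((x1 : ℂ) + κ * s) ^ t.1 *
      (((x1 : ℂ) + κ * s) * evz (g s) (pd.x i)) ^ t.2) := funext hAs
    rw [h1]
    refine DifferentiableOn.fun_sum fun t _ => ?_
    exact (differentiableOn_const _).mul ((hxd.pow t.1).mul ((hWd i).pow t.2))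
  · intro s hs
    have hsb : s ∈ Metric.ball (0 : ℂ) r := by
      rw [mem_ball_zero_iff, hs]
      exact hρr
    rw [hAs]
    exact hM (g s) ((x1 : ℂ) + κ * s) (hgs s hsb) (by
      rw [add_sub_cancel_left, norm_mul, hnκ, hs]
      exact hρx)

theorem loc_c (hn : 4 ≤ n) (P : Ptd n) (hP : P.Thr (cA n)) (S : Finset (ℕ × ℕ)) (c : ℕ × ℕ → ℂ)
    {M ρ : ℝ} (hρ : 0 < ρ) (hρx : |(P.kap : ℝ)| * ρ ≤ |(P.x : ℝ)| / 2)
    (hM : ∀ T ξ : ℂ, ((P.C.pd.q : ℂ) * T) ^ P.C.pd.e * ξ = 1 → ‖ξ - P.x‖ ≤ |(P.x : ℝ)| / 2 →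
      ‖∑ t ∈ S, c t * (ξ ^ t.1 * (ξ * evz T (P.C.pd.x P.i)) ^ t.2)‖ ≤ M) (K : ℕ) :
    ‖∑ t ∈ S, c t * ((PowerSeries.coeff K (P.psi t) : ℤ) : ℂ)‖ * ρ ^ K ≤ M := by
  obtain ⟨-, -, -, hbig, hx1, huniq⟩ := P.facts hn hP
  obtain ⟨hκ, -⟩ := P.kap_facts hn hP
  obtain ⟨hY0, hY⟩ := P.Y_spec
  exact loc_cA P.C.pd hx1 hκ hY0 hY P.hT P.hy huniq hbig S c hρ hρx hM K

private theorem loc_fib {α β : Type*} [Fintype α] [DecidableEq β] (key : α → β) (a : α → ℂ)
    (f : β → ℂ) : ∑ t ∈ Finset.univ.image key, (∑ μ, if key μ = t then a μ else 0) * f t =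
      ∑ μ, a μ * f (key μ) := by
  simp_rw [Finset.sum_mul, ite_mul, zero_mul]
  rw [Finset.sum_comm]
  refine Finset.sum_congr rfl fun μ _ => ?_
  rw [Finset.sum_ite_eq, if_pos (Finset.mem_image_of_mem key (Finset.mem_univ μ))]

/-- the mixed expression: local coefficients at the places of `s`, values elsewhere -/
private noncomputable def loc_E (P : Fin m → Ptd n) (N : Fin m → ℕ) (A : Mo P N → ℤ)
    (K : Fin m → ℕ) (s : Finset (Fin m)) (T ξ : Fin m → ℂ) : ℂ :=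
  ∑ μ : Mo P N, (A μ : ℂ) * ∏ v, if v ∈ s then
    ((PowerSeries.coeff (K v) ((P v).psi ((μ v).1, (μ v).2)) : ℤ) : ℂ) else
    (ξ v ^ ((μ v).1 : ℕ) * (ξ v * evz (T v) ((P v).C.pd.x (P v).i)) ^ ((μ v).2 : ℕ))

private theorem loc_step (hn : 4 ≤ n) (P : Fin m → Ptd n) (hP : ∀ v, (P v).Thr (cA n))
    (N : Fin m → ℕ) (A : Mo P N → ℤ) {M : ℝ} (ρ : Fin m → ℝ) (hρ : ∀ v, 0 < ρ v)
    (hρx : ∀ v, |((P v).kap : ℝ)| * ρ v ≤ |((P v).x : ℝ)| / 2) (K : Fin m → ℕ)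
    (s : Finset (Fin m)) (w : Fin m) (hw : w ∉ s)
    (ih : ∀ T ξ : Fin m → ℂ,
      (∀ v, v ∉ s → ((((P v).C.pd.q : ℕ) : ℂ) * T v) ^ (P v).C.pd.e * ξ v = 1) →
      (∀ v, v ∉ s → ‖ξ v - (P v).x‖ ≤ |((P v).x : ℝ)| / 2) →
      ‖loc_E P N A K s T ξ‖ * ∏ v ∈ s, ρ v ^ K v ≤ M) (T ξ : Fin m → ℂ)
    (h1 : ∀ v, v ∉ insert w s → ((((P v).C.pd.q : ℕ) : ℂ) * T v) ^ (P v).C.pd.e * ξ v = 1)
    (h2 : ∀ v, v ∉ insert w s → ‖ξ v - (P v).x‖ ≤ |((P v).x : ℝ)| / 2) :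
    ‖loc_E P N A K (insert w s) T ξ‖ * ∏ v ∈ insert w s, ρ v ^ K v ≤ M := by
  classical
  let key : Mo P N → ℕ × ℕ := fun μ => (((μ w).1 : ℕ), ((μ w).2 : ℕ))
  let a : Mo P N → ℂ := fun μ => (A μ : ℂ) * ∏ v ∈ Finset.univ.erase w, if v ∈ s then
    ((PowerSeries.coeff (K v) ((P v).psi ((μ v).1, (μ v).2)) : ℤ) : ℂ) else
    (ξ v ^ ((μ v).1 : ℕ) * (ξ v * evz (T v) ((P v).C.pd.x (P v).i)) ^ ((μ v).2 : ℕ))
  have hpos : 0 < ∏ v ∈ s, ρ v ^ K v := Finset.prod_pos fun v _ => pow_pos (hρ v) _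
  have hA : loc_E P N A K (insert w s) T ξ = ∑ μ, a μ *
      ((PowerSeries.coeff (K w) ((P w).psi (key μ)) : ℤ) : ℂ) := by
    unfold loc_E
    refine Finset.sum_congr rfl fun μ _ => ?_
    rw [← Finset.mul_prod_erase Finset.univ _ (Finset.mem_univ w),
      if_pos (Finset.mem_insert_self w s)]
    simp only [a, key]
    rw [mul_comm ((PowerSeries.coeff (K w) _ : ℤ) : ℂ), ← mul_assoc]
    congr 2
    refine Finset.prod_congr rfl fun v hv => ?_
    have hvw : v ≠ w := Finset.ne_of_mem_erase hv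
    simp only [Finset.mem_insert, hvw, false_or]
  have hB : ∀ T' ξ' : ℂ, loc_E P N A K s (Function.update T w T') (Function.update ξ w ξ') =
      ∑ μ, a μ * (ξ' ^ (key μ).1 * (ξ' * evz T' ((P w).C.pd.x (P w).i)) ^ (key μ).2) := by
    intro T' ξ'
    unfold loc_E
    refine Finset.sum_congr rfl fun μ _ => ?_
    rw [← Finset.mul_prod_erase Finset.univ _ (Finset.mem_univ w), if_neg hw]
    simp only [a, key, Function.update_self]
    rw [mul_comm (ξ' ^ _ * _), ← mul_assoc]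
    congr 2
    refine Finset.prod_congr rfl fun v hv => ?_
    have hvw : v ≠ w := Finset.ne_of_mem_erase hv
    rw [Function.update_of_ne hvw, Function.update_of_ne hvw]
  rw [hA, Finset.prod_insert hw]
  rw [← loc_fib key a (fun t => ((PowerSeries.coeff (K w) ((P w).psi t) : ℤ) : ℂ))]
  have h3 := loc_c hn (P w) (hP w) (Finset.univ.image key)
    (fun t => ∑ μ, if key μ = t then a μ else 0) (M := M / ∏ v ∈ s, ρ v ^ K v) (hρ w) (hρx w)
    (fun T' ξ' hT' hξ' => by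
      rw [loc_fib key a (fun t => ξ' ^ t.1 * (ξ' * evz T' ((P w).C.pd.x (P w).i)) ^ t.2), ← hB,
        le_div_iff₀ hpos]
      refine ih _ _ (fun v hv => ?_) (fun v hv => ?_)
      · rcases eq_or_ne v w with rfl | hvw
        · rw [Function.update_self, Function.update_self]
          exact hT'
        · rw [Function.update_of_ne hvw, Function.update_of_ne hvw]
          exact h1 v (by simp [hvw, hv])
      · rcases eq_or_ne v w with rfl | hvw
        · rw [Function.update_self]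
          exact hξ'
        · rw [Function.update_of_ne hvw]
          exact h2 v (by simp [hvw, hv])) (K w)
  rw [le_div_iff₀ hpos, mul_assoc] at h3
  exact h3

theorem loc_m (hn : 4 ≤ n) (P : Fin m → Ptd n) (hP : ∀ v, (P v).Thr (cA n)) (N : Fin m → ℕ)
    (A : Mo P N → ℤ) {M : ℝ} (ρ : Fin m → ℝ) (hρ : ∀ v, 0 < ρ v)
    (hρx : ∀ v, |((P v).kap : ℝ)| * ρ v ≤ |((P v).x : ℝ)| / 2)
    (hM : ∀ T ξ : Fin m → ℂ,
      (∀ v, ((((P v).C.pd.q : ℕ) : ℂ) * T v) ^ (P v).C.pd.e * ξ v = 1) →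
      (∀ v, ‖ξ v - (P v).x‖ ≤ |((P v).x : ℝ)| / 2) →
      ‖∑ μ : Mo P N, (A μ : ℂ) * ∏ v, (ξ v ^ ((μ v).1 : ℕ) *
        (ξ v * evz (T v) ((P v).C.pd.x (P v).i)) ^ ((μ v).2 : ℕ))‖ ≤ M) (K : Fin m → ℕ) :
    |((Lm P N A K : ℤ) : ℝ)| * ∏ v, ρ v ^ K v ≤ M := by
  classical
  have key : ∀ s : Finset (Fin m), ∀ T ξ : Fin m → ℂ,
      (∀ v, v ∉ s → ((((P v).C.pd.q : ℕ) : ℂ) * T v) ^ (P v).C.pd.e * ξ v = 1) →
      (∀ v, v ∉ s → ‖ξ v - (P v).x‖ ≤ |((P v).x : ℝ)| / 2) →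
      ‖loc_E P N A K s T ξ‖ * ∏ v ∈ s, ρ v ^ K v ≤ M := by
    intro s
    induction s using Finset.induction_on with
    | empty =>
      intro T ξ h1 h2
      rw [Finset.prod_empty, mul_one]
      have h3 := hM T ξ (fun v => h1 v (Finset.notMem_empty v)) (fun v => h2 v (Finset.notMem_empty v))
      simpa only [loc_E, Finset.notMem_empty, if_false] using h3
    | insert w s hw ih =>
      intro T ξ h1 h2
      exact loc_step hn P hP N A ρ hρ hρx K s w hw ih T ξ h1 h2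
  have h1 := key Finset.univ 0 0 (fun v hv => absurd (Finset.mem_univ v) hv)
    (fun v hv => absurd (Finset.mem_univ v) hv)
  have h2 : loc_E P N A K Finset.univ 0 0 = ((Lm P N A K : ℤ) : ℂ) := by
    unfold loc_E Lm
    push_cast
    refine Finset.sum_congr rfl fun μ _ => ?_
    congr 1
    refine Finset.prod_congr rfl fun v _ => ?_
    rw [if_pos (Finset.mem_univ v)]
  rw [h2, Complex.norm_intCast] at h1
  exact h1

end Pool.Agent.H97.NW
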