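import Pool.Agent.H97.NW.PTF
import Pool.Agent.H4.AR.L1
import Pool.Agent.H72.ES.BivNorm

/-! # [H97 NW ZD] Definitions for the zero estimates

Bivariate polynomials `ℤ[X][X]` (inner variable `x`, outer variable `y`), `Lam x y` the evaluation,
`L1`, `L2` the sums of the absolute values of the coefficients (`Pool/Agent/H72/ES/Biv.lean`, `BivNorm.lean`).
`tr x y f = f(x + X, y + Y)`, `Van x y k f`: all terms of `f(x + X, y + Y)` of total degree `< k` vanish,
`XD D f`: the degree in the inner variable is at most `D`.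
`Spc A c0 x y`: the pair of integers is special: it lies on a curve of degree `≤ A` and small height. -/

namespace Pool.Agent.H97.NW

open Finset Polynomial Pool.Agent.H72.ES H4AR

/-- translation of both variables -/
noncomputable def tr (x y : ℤ) : ℤ[X][X] →+* ℤ[X][X] :=
  ((taylorAlgHom (C y : ℤ[X])) : ℤ[X][X] →+* ℤ[X][X]).comp
    (mapRingHom ((taylorAlgHom x : ℤ[X] →ₐ[ℤ] ℤ[X]) : ℤ[X] →+* ℤ[X]))

/-- order of vanishing at least `k` at `(x, y)` -/
def Van (x y : ℤ) (k : ℕ) (f : ℤ[X][X]) : Prop :=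
  ∀ i j, i + j < k → ((tr x y f).coeff j).coeff i = 0

/-- the degree in the inner variable is at most `D` -/
def XD (D : ℕ) (f : ℤ[X][X]) : Prop := ∀ j, (f.coeff j).natDegree ≤ D

/-- the pair of integers is special -/
def Spc (A c0 : ℕ) (x y : ℤ) : Prop :=
  ∃ g : MvPolynomial (Fin 2) ℤ, g ≠ 0 ∧ (∀ v, g.degreeOf v ≤ A) ∧
    MvPolynomial.eval ![x, y] g = 0 ∧ l1 g ^ c0 ≤ |(x : ℝ)| ∧ l1 g ^ c0 ≤ |(y : ℝ)|

theorem Spc.mono {A A' c0 : ℕ} {x y : ℤ} (h : A ≤ A') (hs : Spc A c0 x y) : Spc A' c0 x y := by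
  obtain ⟨g, h1, h2, h3⟩ := hs
  exact ⟨g, h1, fun v => (h2 v).trans h, h3⟩

end Pool.Agent.H97.NW
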