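import Mathlib

/-! # [H97 NW BOX] Products of power series in separate variables -/

namespace Pool.Agent.H97.NW

open Finset

variable {m : ℕ}

/-- the series `∏ f_v(t_v)` -/
noncomputable def box (f : Fin m → PowerSeries ℤ) : MvPowerSeries (Fin m) ℤ :=
  fun K => ∏ v, PowerSeries.coeff (K v) (f v)

theorem coeff_box (f : Fin m → PowerSeries ℤ) (K : Fin m →₀ ℕ) :
    MvPowerSeries.coeff K (box f) = ∏ v, PowerSeries.coeff (K v) (f v) := rfl

theorem box_mul (f g : Fin m → PowerSeries ℤ) : box f * box g = box (f * g) := by
  classical
  ext K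
  rw [MvPowerSeries.coeff_mul, coeff_box]
  simp only [coeff_box, Pi.mul_apply, PowerSeries.coeff_mul]
  rw [Finset.prod_univ_sum]
  simp only [← Finset.prod_mul_distrib]
  refine Finset.sum_bij' (fun p _ => fun v => (p.1 v, p.2 v))
    (fun q _ => (Finsupp.equivFunOnFinite.symm fun v => (q v).1,
      Finsupp.equivFunOnFinite.symm fun v => (q v).2)) ?_ ?_ ?_ ?_ ?_
  · intro p hp
    rw [Finset.HasAntidiagonal.mem_antidiagonal] at hp
    rw [Fintype.mem_piFinset]
    intro v
    rw [Finset.HasAntidiagonal.mem_antidiagonal]
    exact DFunLike.congr_fun hp v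
  · intro q hq
    rw [Fintype.mem_piFinset] at hq
    rw [Finset.HasAntidiagonal.mem_antidiagonal]
    ext v
    exact Finset.HasAntidiagonal.mem_antidiagonal.1 (hq v)
  · intro p _
    apply Prod.ext <;> ext v <;> rfl
  · intro q _
    funext v
    rfl
  · intro p _
    rfl

theorem box_one : box (1 : Fin m → PowerSeries ℤ) = 1 := by
  classical
  ext K
  rw [coeff_box, MvPowerSeries.coeff_one]
  simp only [Pi.one_apply, PowerSeries.coeff_one]
  split_ifs with h
  · rw [h]
    exact Finset.prod_eq_one fun v _ => by simp
  · have h1 : ∃ v, K v ≠ 0 := by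
      by_contra hc
      push Not at hc
      exact h (Finsupp.ext hc)
    obtain ⟨v, hv⟩ := h1
    exact Finset.prod_eq_zero (Finset.mem_univ v) (if_neg hv)

theorem box_update (g : Fin m → PowerSeries ℤ) (v : Fin m) (f : PowerSeries ℤ) (K : Fin m →₀ ℕ) :
    MvPowerSeries.coeff K (box (Function.update g v f)) =
      PowerSeries.coeff (K v) f * ∏ w ∈ Finset.univ.erase v, PowerSeries.coeff (K w) (g w) := by
  classical
  rw [coeff_box, ← Finset.mul_prod_erase Finset.univ _ (Finset.mem_univ v), Function.update_self]
  congr 1
  refine Finset.prod_congr rfl fun w hw => ?_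
  rw [Function.update_of_ne (Finset.ne_of_mem_erase hw)]

/-- a power series as a power series in the variable `t_v` -/
noncomputable def eps (v : Fin m) : PowerSeries ℤ →+* MvPowerSeries (Fin m) ℤ where
  toFun f := box (Function.update 1 v f)
  map_one' := by
    have : Function.update (1 : Fin m → PowerSeries ℤ) v 1 = 1 := by
      funext w
      by_cases h : w = v
      · rw [h, Function.update_self]; rfl
      · rw [Function.update_of_ne h]
    rw [this, box_one]
  map_mul' f g := by
    rw [box_mul]
    congr 1
    funext w
    by_cases h : w = v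
    · rw [h]
      simp
    · rw [Function.update_of_ne h, Pi.mul_apply, Function.update_of_ne h, Function.update_of_ne h]
      simp
  map_zero' := by
    ext K
    rw [box_update, map_zero, zero_mul, map_zero]
  map_add' f g := by
    ext K
    rw [map_add, box_update, box_update, box_update, map_add, add_mul]

theorem eps_apply (v : Fin m) (f : PowerSeries ℤ) : eps v f = box (Function.update 1 v f) := rfl

theorem prod_eps_finset (s : Finset (Fin m)) (f : Fin m → PowerSeries ℤ) :
    ∏ v ∈ s, eps v (f v) = box fun v => if v ∈ s then f v else 1 := by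
  classical
  induction s using Finset.induction_on with
  | empty =>
    rw [Finset.prod_empty, ← box_one]
    congr 1
  | insert a s ha ih =>
    rw [Finset.prod_insert ha, ih, eps_apply, box_mul]
    congr 1
    funext v
    rw [Pi.mul_apply]
    by_cases h : v = a
    · rw [h, Function.update_self, if_neg ha, mul_one, if_pos (Finset.mem_insert_self a s)]
    · rw [Function.update_of_ne h, Pi.one_apply, one_mul]
      by_cases hs : v ∈ s
      · rw [if_pos hs, if_pos (Finset.mem_insert_of_mem hs)]
      · rw [if_neg hs, if_neg]
        rw [Finset.mem_insert]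
        push Not
        exact ⟨h, hs⟩

theorem prod_eps (f : Fin m → PowerSeries ℤ) : ∏ v, eps v (f v) = box f := by
  rw [prod_eps_finset]
  congr 1
  funext v
  rw [if_pos (Finset.mem_univ v)]

end Pool.Agent.H97.NW
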