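import Pool.Agent.H97.NW.CMP
import Pool.Agent.H97.NW.BOX
import Pool.Agent.H97.NW.PTF
import Pool.Agent.H4.AR.L1Det

/-! # [H97 NW MAT] The matrix of multiplication by the auxiliary function

`MG_deg`: `degreeOf v` of a sum/product; `degreeOf v (X w) = 0` for `w ≠ v`; `Polynomial.aeval (X v) q` has `degreeOf v ≤ natDegree q`
and `degreeOf w = 0` for `w ≠ v`; `a < N v`, `natDegree ≤ n β ≤ n (n - 1)` (`cmp_pow_deg`, `β < d ≤ n`).
`MG_l1`: `l1` is submultiplicative (`l1_mul_le`, induction over the product), `l1 (C a) = |a|`, `l1 (X v ^ a) = 1` (`≤ 1`),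
`l1 (aeval (X v) q) ≤ L1 q`, `cmp_pow_L1` and `β ≤ n`; `l1_sum_le`; the number of `μ` is `∏ N v d_v`.
`MG_eig`: `phi (MG i j) = ∑_μ A μ ∏_v eps v (xs^(a) * (Polynomial.eval₂ .. (xs) (cmp^β i_v j_v)))`, `bet j = ∏_v eps v (Y^(j_v))`; the sum over `j`
of the product over `v` is the product over `v` of the sums over `j_v` (`Finset.prod_univ_sum`); in each factor `cmp_pow_eig` in `S = PowerSeries ℤ`
(`φ = eval₂RingHom (Int.castRingHom _) (xs x κ)`, `Y_spec`), transported by the ring homomorphism `eps v`: `∑_(j_v) .. = eps v (xs^a Y^β Y^(i_v))`.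
So the sum is `∑_μ A μ ∏_v eps v (psi (μ_v)) eps v (Y^(i_v)) = gl * bet i` (`prod_eps`).
`coeff_gl`: `coeff_box`. -/

namespace Pool.Agent.H97.NW

open Finset Polynomial Pool.Agent.H72.ES Pool.Agent.H87.SA2 Pool.Agent.H8.AW Pool.Agent.H52.AC H4AR

variable {m n : ℕ}

/-- the matrix of multiplication by the function `A` -/
noncomputable def MG (P : Fin m → Ptd n) (N : Fin m → ℕ) (A : Mo P N → ℤ) :
    Matrix (∀ v, Fin (P v).d) (∀ v, Fin (P v).d) (MvPolynomial (Fin m) ℤ) := fun i j =>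
  ∑ μ : Mo P N, MvPolynomial.C (A μ) * ∏ v, (MvPolynomial.X v ^ ((μ v).1 : ℕ) *
    Polynomial.aeval (MvPolynomial.X v : MvPolynomial (Fin m) ℤ)
      (((P v).cmp ^ ((μ v).2 : ℕ)) (i v) (j v)))

/-- the substitution `X_v ↦ x_v + κ_v t_v` -/
noncomputable def phi (P : Fin m → Ptd n) : MvPolynomial (Fin m) ℤ →+* MvPowerSeries (Fin m) ℤ :=
  MvPolynomial.eval₂Hom (Int.castRingHom _) fun v => eps v (xs (P v).x (P v).kap)

/-- the local series of the basis -/
noncomputable def bet (P : Fin m → Ptd n) (i : ∀ v, Fin (P v).d) : MvPowerSeries (Fin m) ℤ :=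
  ∏ v, eps v ((P v).Y ^ (i v : ℕ))

/-- the local expansion of the function `A` -/
noncomputable def gl (P : Fin m → Ptd n) (N : Fin m → ℕ) (A : Mo P N → ℤ) :
    MvPowerSeries (Fin m) ℤ :=
  ∑ μ : Mo P N, A μ • box fun v => (P v).psi ((μ v).1, (μ v).2)

theorem coeff_gl (P : Fin m → Ptd n) (N : Fin m → ℕ) (A : Mo P N → ℤ) (K : Fin m →₀ ℕ) :
    MvPowerSeries.coeff K (gl P N A) = Lm P N A K := by
  unfold gl Lm
  rw [map_sum]
  refine Finset.sum_congr rfl fun μ _ => ?_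
  rw [map_zsmul, coeff_box, smul_eq_mul]

/-- the degree of a polynomial in one variable -/
private theorem mat_deg_aeval (v w : Fin m) (q : ℤ[X]) :
    (Polynomial.aeval (MvPolynomial.X w : MvPolynomial (Fin m) ℤ) q).degreeOf v ≤
      if v = w then q.natDegree else 0 := by
  classical
  rw [Polynomial.aeval_eq_sum_range]
  refine (MvPolynomial.degreeOf_sum_le _ _ _).trans ?_
  refine Finset.sup_le fun i hi => ?_
  rw [mem_range] at hi
  have h1 : (q.coeff i • (MvPolynomial.X w : MvPolynomial (Fin m) ℤ) ^ i) =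
      MvPolynomial.C (q.coeff i) * MvPolynomial.X w ^ i := by
    rw [MvPolynomial.C_mul']
  rw [h1]
  refine (MvPolynomial.degreeOf_C_mul_le _ _ _).trans ?_
  refine (MvPolynomial.degreeOf_pow_le _ _ _).trans ?_
  rw [MvPolynomial.degreeOf_X]
  split_ifs
  · omega
  · omega

theorem MG_deg (P : Fin m → Ptd n) (N : Fin m → ℕ) (A : Mo P N → ℤ)
    (i j : ∀ v, Fin (P v).d) (v : Fin m) : (MG P N A i j).degreeOf v ≤ N v + n * n := by
  classical
  unfold MG
  refine (MvPolynomial.degreeOf_sum_le _ _ _).trans ?_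
  refine Finset.sup_le fun μ _ => ?_
  refine (MvPolynomial.degreeOf_C_mul_le _ _ _).trans ?_
  refine (MvPolynomial.degreeOf_prod_le _ _ _).trans ?_
  have h1 : ∀ w ∈ (Finset.univ : Finset (Fin m)), MvPolynomial.degreeOf v ((MvPolynomial.X w ^ ((μ w).1 : ℕ) *
      Polynomial.aeval (MvPolynomial.X w : MvPolynomial (Fin m) ℤ)
      (((P w).cmp ^ ((μ w).2 : ℕ)) (i w) (j w)))) ≤ if w = v then N v + n * n else 0 := by
    intro w _
    refine (MvPolynomial.degreeOf_mul_le _ _ _).trans ?_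
    have h2 := mat_deg_aeval v w (((P w).cmp ^ ((μ w).2 : ℕ)) (i w) (j w))
    have h3 : MvPolynomial.degreeOf v ((MvPolynomial.X w : MvPolynomial (Fin m) ℤ) ^ ((μ w).1 : ℕ)) ≤
        if v = w then ((μ w).1 : ℕ) else 0 := by
      refine (MvPolynomial.degreeOf_pow_le _ _ _).trans ?_
      rw [MvPolynomial.degreeOf_X]
      split_ifs
      · omega
      · omega
    by_cases hvw : v = w
    · subst hvw
      rw [if_pos rfl] at h2 h3 ⊢
      have h4 := cmp_pow_deg (P v) ((μ v).2 : ℕ) (i v) (j v)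
      have h5 : n * ((μ v).2 : ℕ) ≤ n * n := by
        apply Nat.mul_le_mul_left
        have := (μ v).2.isLt
        have := (P v).C.dn
        omega
      have h6 := (μ v).1.isLt
      omega
    · rw [if_neg hvw] at h2 h3
      rw [if_neg (fun h => hvw h.symm)]
      omega
  refine (Finset.sum_le_sum h1).trans ?_
  rw [Finset.sum_ite_eq' Finset.univ v]
  simp

private theorem mat_l1_C (a : ℤ) : l1 (MvPolynomial.C a : MvPolynomial (Fin m) ℤ) ≤ |(a : ℝ)| := by
  classical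
  have h : (MvPolynomial.C a : MvPolynomial (Fin m) ℤ).support ⊆ {0} := by
    intro e he
    rw [MvPolynomial.mem_support_iff, MvPolynomial.coeff_C] at he
    rw [Finset.mem_singleton]
    by_contra h
    exact he (if_neg fun h' => h h'.symm)
  rw [l1_eq_sum _ {0} h, Finset.sum_singleton, MvPolynomial.coeff_C, if_pos rfl]

private theorem mat_l1_X (v : Fin m) : l1 (MvPolynomial.X v : MvPolynomial (Fin m) ℤ) ≤ 1 := by
  classical
  have h : (MvPolynomial.X v : MvPolynomial (Fin m) ℤ).support ⊆ {Finsupp.single v 1} := by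
    rw [MvPolynomial.support_X]
  rw [l1_eq_sum _ _ h, Finset.sum_singleton, MvPolynomial.coeff_X, if_pos rfl, Int.cast_one, abs_one]

private theorem mat_l1_Xpow (v : Fin m) (a : ℕ) :
    l1 ((MvPolynomial.X v : MvPolynomial (Fin m) ℤ) ^ a) ≤ 1 := by
  induction a with
  | zero => rw [pow_zero, l1_one]
  | succ a ih =>
    rw [pow_succ]
    refine (l1_mul_le _ _).trans ?_
    exact mul_le_one₀ ih (l1_nonneg _) (mat_l1_X v)

private theorem mat_l1_aeval (v : Fin m) (q : ℤ[X]) :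
    l1 (Polynomial.aeval (MvPolynomial.X v : MvPolynomial (Fin m) ℤ) q) ≤ L1 q := by
  classical
  have h0 : Polynomial.aeval (MvPolynomial.X v : MvPolynomial (Fin m) ℤ) q =
      ∑ i ∈ q.support, MvPolynomial.C (q.coeff i) * MvPolynomial.X v ^ i := by
    rw [Polynomial.aeval_def, Polynomial.eval₂_eq_sum, Polynomial.sum_def]
    rfl
  rw [h0]
  refine (l1_sum_le _ _).trans ?_
  unfold L1
  refine Finset.sum_le_sum fun i _ => ?_
  refine (l1_mul_le _ _).trans ?_
  calc l1 (MvPolynomial.C (q.coeff i) : MvPolynomial (Fin m) ℤ) *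
        l1 ((MvPolynomial.X v : MvPolynomial (Fin m) ℤ) ^ i)
      ≤ |((q.coeff i : ℤ) : ℝ)| * 1 :=
        mul_le_mul (mat_l1_C _) (mat_l1_Xpow v i) (l1_nonneg _) (abs_nonneg _)
    _ = |((q.coeff i : ℤ) : ℝ)| := mul_one _

theorem MG_l1 (P : Fin m → Ptd n) (N : Fin m → ℕ) (A : Mo P N → ℤ) {Z : ℝ}
    (hA : ∀ μ, |(A μ : ℝ)| ≤ Z) (i j : ∀ v, Fin (P v).d) :
    l1 (MG P N A i j) ≤ ((∏ v, (N v * (P v).d) : ℕ) : ℝ) * (Z *
      ∏ v, (((n + 1) ^ 2 * (P v).b : ℕ) : ℝ) ^ n) := by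
  classical
  have hbase : ∀ v, (1 : ℝ) ≤ (((n + 1) ^ 2 * (P v).b : ℕ) : ℝ) := by
    intro v
    have h1 := (P v).C.b2
    have h2 : 1 ≤ (n + 1) ^ 2 * (P v).b := by
      have : 0 < (n + 1) ^ 2 * (P v).b := by positivity
      omega
    exact_mod_cast h2
  have hterm : ∀ μ ∈ (Finset.univ : Finset (Mo P N)), l1 (MvPolynomial.C (A μ) * ∏ v, (MvPolynomial.X v ^ ((μ v).1 : ℕ) *
    Polynomial.aeval (MvPolynomial.X v : MvPolynomial (Fin m) ℤ)
      (((P v).cmp ^ ((μ v).2 : ℕ)) (i v) (j v)))) ≤ Z *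
      ∏ v, (((n + 1) ^ 2 * (P v).b : ℕ) : ℝ) ^ n := by
    intro μ _
    refine (l1_mul_le _ _).trans ?_
    refine mul_le_mul ((mat_l1_C _).trans (hA μ)) ?_ (l1_nonneg _) ((abs_nonneg _).trans (hA μ))
    refine (l1_prod_le _ _).trans ?_
    refine Finset.prod_le_prod (fun v _ => l1_nonneg _) fun v _ => ?_
    refine (l1_mul_le _ _).trans ?_
    have h1 := mat_l1_aeval v (((P v).cmp ^ ((μ v).2 : ℕ)) (i v) (j v))
    have h2 := cmp_pow_L1 (P v) ((μ v).2 : ℕ) (i v) (j v)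
    have h3 : (((n + 1) ^ 2 * (P v).b : ℕ) : ℝ) ^ ((μ v).2 : ℕ) ≤ (((n + 1) ^ 2 * (P v).b : ℕ) : ℝ) ^ n := by
      apply pow_le_pow_right₀ (hbase v)
      have := (μ v).2.isLt
      have := (P v).C.dn
      omega
    calc l1 ((MvPolynomial.X v : MvPolynomial (Fin m) ℤ) ^ ((μ v).1 : ℕ)) *
          l1 (Polynomial.aeval (MvPolynomial.X v : MvPolynomial (Fin m) ℤ)
            (((P v).cmp ^ ((μ v).2 : ℕ)) (i v) (j v)))
        ≤ 1 * (((n + 1) ^ 2 * (P v).b : ℕ) : ℝ) ^ n :=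
          mul_le_mul (mat_l1_Xpow v _) ((h1.trans h2).trans h3) (l1_nonneg _) zero_le_one
      _ = (((n + 1) ^ 2 * (P v).b : ℕ) : ℝ) ^ n := one_mul _
  unfold MG
  refine (l1_sum_le _ _).trans ?_
  refine (Finset.sum_le_sum hterm).trans ?_
  rw [Finset.sum_const, nsmul_eq_mul]
  apply le_of_eq
  congr 2
  rw [Finset.card_univ, Fintype.card_pi]
  refine Finset.prod_congr rfl fun v _ => ?_
  rw [Fintype.card_prod, Fintype.card_fin, Fintype.card_fin]

private theorem mat_phi_C (P : Fin m → Ptd n) (a : ℤ) : phi P (MvPolynomial.C a) = (a : MvPowerSeries (Fin m) ℤ) := by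
  unfold phi
  rw [MvPolynomial.coe_eval₂Hom, MvPolynomial.eval₂_C]
  simp

private theorem mat_phi_X (P : Fin m → Ptd n) (v : Fin m) :
    phi P (MvPolynomial.X v) = eps v (xs (P v).x (P v).kap) := by
  unfold phi
  rw [MvPolynomial.coe_eval₂Hom, MvPolynomial.eval₂_X]

private theorem mat_phi_aeval (P : Fin m → Ptd n) (v : Fin m) (q : ℤ[X]) :
    phi P (Polynomial.aeval (MvPolynomial.X v : MvPolynomial (Fin m) ℤ) q) =
      eps v (Polynomial.eval₂RingHom (Int.castRingHom (PowerSeries ℤ)) (xs (P v).x (P v).kap) q) := by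
  have h : (phi P).comp (Polynomial.aeval (MvPolynomial.X v : MvPolynomial (Fin m) ℤ)).toRingHom =
      (eps v).comp (Polynomial.eval₂RingHom (Int.castRingHom (PowerSeries ℤ)) (xs (P v).x (P v).kap)) := by
    apply Polynomial.ringHom_ext'
    · exact RingHom.ext_int _ _
    · simp only [RingHom.comp_apply, AlgHom.toRingHom_eq_coe, RingHom.coe_coe, Polynomial.aeval_X,
        Polynomial.coe_eval₂RingHom, Polynomial.eval₂_X]
      exact mat_phi_X P v
  exact RingHom.congr_fun h q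

theorem MG_eig (P : Fin m → Ptd n) (N : Fin m → ℕ) (A : Mo P N → ℤ) (i : ∀ v, Fin (P v).d) :
    ∑ j, phi P (MG P N A i j) * bet P j = gl P N A * bet P i := by
  classical
  set φ : ∀ v : Fin m, ℤ[X] →+* PowerSeries ℤ := fun v =>
    Polynomial.eval₂RingHom (Int.castRingHom (PowerSeries ℤ)) (xs (P v).x (P v).kap) with hφ
  have h1 : ∀ j, phi P (MG P N A i j) * bet P j = ∑ μ : Mo P N, (A μ : MvPowerSeries (Fin m) ℤ) *
      ∏ v, eps v (xs (P v).x (P v).kap ^ ((μ v).1 : ℕ) *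
        (φ v (((P v).cmp ^ ((μ v).2 : ℕ)) (i v) (j v)) * (P v).Y ^ (j v : ℕ))) := by
    intro j
    unfold MG bet
    rw [map_sum, Finset.sum_mul]
    refine Finset.sum_congr rfl fun μ _ => ?_
    rw [map_mul, mat_phi_C, map_prod, mul_assoc, ← Finset.prod_mul_distrib]
    congr 1
    refine Finset.prod_congr rfl fun v _ => ?_
    rw [map_mul, map_pow, mat_phi_X, mat_phi_aeval, map_mul, map_mul, map_pow, map_pow, mul_assoc]
  rw [Finset.sum_congr rfl fun j _ => h1 j, Finset.sum_comm]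
  have h2 : ∀ μ : Mo P N, ∑ j : (∀ v, Fin (P v).d), (A μ : MvPowerSeries (Fin m) ℤ) *
      ∏ v, eps v (xs (P v).x (P v).kap ^ ((μ v).1 : ℕ) *
        (φ v (((P v).cmp ^ ((μ v).2 : ℕ)) (i v) (j v)) * (P v).Y ^ (j v : ℕ))) =
      (A μ • box fun v => (P v).psi ((μ v).1, (μ v).2)) * bet P i := by
    intro μ
    rw [← Finset.mul_sum]
    have h3 := (Finset.prod_univ_sum (fun v => (Finset.univ : Finset (Fin (P v).d)))
      (fun v (jv : Fin (P v).d) => eps v (xs (P v).x (P v).kap ^ ((μ v).1 : ℕ) *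
        (φ v (((P v).cmp ^ ((μ v).2 : ℕ)) (i v) jv) * (P v).Y ^ (jv : ℕ))))).symm
    rw [Fintype.piFinset_univ] at h3
    rw [h3, zsmul_eq_mul, ← prod_eps, mul_assoc]
    unfold bet
    rw [← Finset.prod_mul_distrib]
    congr 1
    refine Finset.prod_congr rfl fun v _ => ?_
    rw [← map_sum, ← map_mul]
    congr 1
    rw [← Finset.mul_sum]
    have h4 : ev (P v).d (cst (PowerSeries ℤ) (P v).F) (φ v Polynomial.X) (P v).Y = 0 := by
      have : φ v Polynomial.X = xs (P v).x (P v).kap := by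
        simp only [hφ, Polynomial.coe_eval₂RingHom, Polynomial.eval₂_X]
      rw [this]
      exact (P v).Y_spec.2
    rw [cmp_pow_eig (P v) (φ v) (P v).Y h4 ((μ v).2 : ℕ) (i v)]
    unfold Ptd.psi
    rw [mul_assoc]
  rw [Finset.sum_congr rfl fun μ _ => h2 μ, ← Finset.sum_mul]
  rfl

end Pool.Agent.H97.NW
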