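import Pool.Agent.H97.NW.MAT
import Pool.Agent.H97.NW.TEN
import Pool.Agent.H97.NW.LIP
import Pool.Agent.H4.AR.Shift

/-! # [H97 NW NZD] The norm is not zero; its index

`bet_indep`: if `∑_i phi (w i) * bet i = 0` then `w = 0`. Expand `w i = ∑_e (w i).coeff e X^e` (finite): `phi (X^e) * bet i =
∏_v eps v (xs^(e_v) Y^(i_v)) = box fun v => psi (e_v, i_v)` (`prod_eps`, `Finset.prod_mul_distrib`), so a finite linear combination of the
family of `tens` with `I v = ℕ × Fin d_v`, `ψ v s = psi (s.1, s.2)` (`psi_indep`) vanishes; the map `(e, i) ↦ (v ↦ (e_v, i_v))` is injective.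
`gl_ne`: `gl` is a linear combination of the same family with coefficients `A μ` (reindex `μ ↦ (v ↦ ((μ v).1, (μ v).2))`), so `gl ≠ 0` if `A ≠ 0`.
`det_ne`: if `det = 0`, over the domain `MvPolynomial (Fin m) ℤ` there is `w ≠ 0` with `w ᵥ* MG = 0` (`Matrix.exists_vecMul_eq_zero_iff`), so
`0 = ∑_j (∑_i phi (w i) phi (MG i j)) bet j = ∑_i phi (w i) * gl * bet i = gl * ∑_i phi (w i) bet i` (`MG_eig`), and `MvPowerSeries` over `ℤ` has no
zero divisors.
`det_idx`: let `N = det`. `phi N * bet 0 = gl * h` for some `h`: with `M' = (MG).map phi`, `adjugate M' * M' = det M' • 1`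
(`Matrix.adjugate_mul`, `RingHom.map_det`); apply to the vector `bet` (`M'.mulVec bet = gl • bet`) and take the component `i = 0` (all `i_v = 0`,
`bet 0 = 1`; `(P v).C.d1`). So `coeff e (phi N) = ∑ coeff (e1) gl * coeff (e2) h` over `e1 + e2 = e`; `e1 ≤ e` has
`∑ ell e1 ≤ ∑ ell e < θ` (`0 ≤ ell`), so it vanishes by `coeff_gl`. Finally `coeff e (phi N) = ∏ κ_v^(e_v) * (sh x N).coeff e`: `phi = (X_v ↦ κ_v X_v) ∘
sh x` (ring homomorphisms on `MvPolynomial`, check on `X v`: `eps v (xs x κ) = C x + C κ * X v`), `κ_v ≠ 0`. -/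

namespace Pool.Agent.H97.NW

open Finset Polynomial Pool.Agent.H72.ES Pool.Agent.H87.SA2 Pool.Agent.H8.AW Pool.Agent.H52.AC H4AR

variable {m n : ℕ}

/-- the family of the local series of the monomials -/
private noncomputable def nzdPsi (P : Fin m → Ptd n) (μ : ∀ v, ℕ × Fin (P v).d) :
    MvPowerSeries (Fin m) ℤ := box fun v => (P v).psi ((μ v).1, ((μ v).2 : ℕ))

private theorem nzdPsi_indep (hn : 4 ≤ n) (P : Fin m → Ptd n) (hP : ∀ v, (P v).Thr (cA n)) :
    LinearIndependent ℤ (nzdPsi P) :=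
  tens m (fun v => ℕ × Fin (P v).d) (fun v s => (P v).psi (s.1, (s.2 : ℕ)))
    (fun v => psi_indep hn (P v) (hP v))

private theorem nzd_mul (P : Fin m → Ptd n) (i : ∀ v, Fin (P v).d) (f : MvPolynomial (Fin m) ℤ)
    (E : Finset (Fin m →₀ ℕ)) (hE : f.support ⊆ E) :
    phi P f * bet P i = ∑ e ∈ E, f.coeff e • nzdPsi P (fun v => (e v, i v)) := by
  classical
  have h1 : phi P f = ∑ e ∈ f.support, ((f.coeff e : ℤ) : MvPowerSeries (Fin m) ℤ) *
      ∏ v, eps v (xs (P v).x (P v).kap) ^ (e v) := by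
    unfold phi
    rw [MvPolynomial.coe_eval₂Hom, MvPolynomial.eval₂_eq']
    rfl
  rw [h1, Finset.sum_mul]
  have h2 : ∀ e : Fin m →₀ ℕ, ((f.coeff e : ℤ) : MvPowerSeries (Fin m) ℤ) *
      (∏ v, eps v (xs (P v).x (P v).kap) ^ (e v)) * bet P i =
      f.coeff e • nzdPsi P (fun v => (e v, i v)) := by
    intro e
    unfold nzdPsi bet
    rw [zsmul_eq_mul, ← prod_eps, mul_assoc, ← Finset.prod_mul_distrib]
    congr 1
    refine Finset.prod_congr rfl fun v _ => ?_
    unfold Ptd.psi
    simp only [map_mul, map_pow]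
  rw [Finset.sum_congr rfl fun e _ => h2 e]
  refine Finset.sum_subset hE fun e _ he => ?_
  rw [MvPolynomial.notMem_support_iff.1 he, zero_smul]

theorem bet_indep (hn : 4 ≤ n) (P : Fin m → Ptd n) (hP : ∀ v, (P v).Thr (cA n))
    (w : (∀ v, Fin (P v).d) → MvPolynomial (Fin m) ℤ) (h : ∑ i, phi P (w i) * bet P i = 0) :
    w = 0 := by
  classical
  set E : Finset (Fin m →₀ ℕ) := Finset.univ.biUnion fun i => (w i).support with hE
  have hsub : ∀ i, (w i).support ⊆ E := fun i =>
    Finset.subset_biUnion_of_mem (fun i => (w i).support) (Finset.mem_univ i)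
  have hJ : Function.Injective (fun (q : (∀ v, Fin (P v).d) × (Fin m →₀ ℕ)) =>
      (fun v => (q.2 v, q.1 v) : ∀ v, ℕ × Fin (P v).d)) := by
    rintro ⟨i, e⟩ ⟨i', e'⟩ hq
    have h1 : ∀ v, (e v, i v) = (e' v, i' v) := fun v => congrFun hq v
    apply Prod.ext
    · funext v
      exact (Prod.ext_iff.1 (h1 v)).2
    · ext v
      exact (Prod.ext_iff.1 (h1 v)).1
  have hli := (nzdPsi_indep hn P hP).comp _ hJ
  rw [linearIndependent_iff'] at hli
  have h2 := hli (Finset.univ ×ˢ E) (fun q => (w q.1).coeff q.2) (by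
    rw [Finset.sum_product]
    rw [← h]
    refine Finset.sum_congr rfl fun i _ => ?_
    rw [nzd_mul P i (w i) E (hsub i)]
    rfl)
  funext i
  rw [Pi.zero_apply]
  ext e
  rw [MvPolynomial.coeff_zero]
  by_cases he : e ∈ E
  · exact h2 (i, e) (Finset.mem_product.2 ⟨Finset.mem_univ i, he⟩)
  · exact MvPolynomial.notMem_support_iff.1 fun h' => he (hsub i h')

theorem gl_ne (hn : 4 ≤ n) (P : Fin m → Ptd n) (hP : ∀ v, (P v).Thr (cA n)) (N : Fin m → ℕ)
    (A : Mo P N → ℤ) (hA : A ≠ 0) : gl P N A ≠ 0 := by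
  classical
  intro h
  apply hA
  have hJ : Function.Injective (fun (μ : Mo P N) =>
      (fun v => (((μ v).1 : ℕ), (μ v).2) : ∀ v, ℕ × Fin (P v).d)) := by
    intro μ μ' hq
    funext v
    have h1 : (((μ v).1 : ℕ), (μ v).2) = (((μ' v).1 : ℕ), (μ' v).2) := congrFun hq v
    apply Prod.ext
    · exact Fin.ext (Prod.ext_iff.1 h1).1
    · exact (Prod.ext_iff.1 h1).2
  have hli := (nzdPsi_indep hn P hP).comp _ hJ
  rw [linearIndependent_iff'] at hli
  have h2 := hli Finset.univ A (by
    rw [← h]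
    rfl)
  funext μ
  exact h2 μ (Finset.mem_univ μ)

theorem det_ne (hn : 4 ≤ n) (P : Fin m → Ptd n) (hP : ∀ v, (P v).Thr (cA n)) (N : Fin m → ℕ)
    (A : Mo P N → ℤ) (hA : A ≠ 0) : (MG P N A).det ≠ 0 := by
  classical
  intro h
  obtain ⟨w, hw, hw0⟩ := Matrix.exists_vecMul_eq_zero_iff.2 h
  apply hw
  apply bet_indep hn P hP w
  have h1 : ∀ j, ∑ i, w i * MG P N A i j = 0 := by
    intro j
    have := congrFun hw0 j
    simpa [Matrix.vecMul, dotProduct] using this
  have h2 : gl P N A * ∑ i, phi P (w i) * bet P i = 0 := by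
    calc gl P N A * ∑ i, phi P (w i) * bet P i
        = ∑ i, phi P (w i) * (gl P N A * bet P i) := by
          rw [Finset.mul_sum]
          refine Finset.sum_congr rfl fun i _ => ?_
          ring
      _ = ∑ i, phi P (w i) * ∑ j, phi P (MG P N A i j) * bet P j := by
          refine Finset.sum_congr rfl fun i _ => ?_
          rw [MG_eig]
      _ = ∑ j, phi P (∑ i, w i * MG P N A i j) * bet P j := by
          simp only [Finset.mul_sum, map_sum, Finset.sum_mul, map_mul]
          rw [Finset.sum_comm]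
          refine Finset.sum_congr rfl fun i _ => Finset.sum_congr rfl fun j _ => ?_
          ring
      _ = 0 := by
          refine Finset.sum_eq_zero fun j _ => ?_
          rw [h1 j, map_zero, zero_mul]
  rcases mul_eq_zero.1 h2 with h3 | h3
  · exact absurd h3 (gl_ne hn P hP N A hA)
  · exact h3

private theorem nzd_sh (P : Fin m → Ptd n) (f : MvPolynomial (Fin m) ℤ) (e : Fin m →₀ ℕ) :
    MvPowerSeries.coeff e (phi P f) =
      (∏ v, (P v).kap ^ (e v)) * (sh (fun v => (P v).x) f).coeff e := by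
  classical
  set ρ : MvPolynomial (Fin m) ℤ →+* MvPowerSeries (Fin m) ℤ :=
    MvPolynomial.eval₂Hom (Int.castRingHom _) (fun v => eps v (PowerSeries.C (P v).kap * PowerSeries.X)) with hρ
  have h1 : phi P = ρ.comp (sh (fun v => (P v).x)).toRingHom := by
    apply MvPolynomial.ringHom_ext
    · intro a
      simp [phi, hρ, sh_C]
    · intro v
      simp only [RingHom.comp_apply, AlgHom.toRingHom_eq_coe, RingHom.coe_coe, sh_X, map_add]
      unfold phi
      rw [hρ, MvPolynomial.coe_eval₂Hom, MvPolynomial.coe_eval₂Hom, MvPolynomial.eval₂_X,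
        MvPolynomial.eval₂_X, MvPolynomial.eval₂_C]
      unfold xs
      rw [map_add, add_comm]
      congr 1
      have : (PowerSeries.C ((P v).x) : PowerSeries ℤ) = (((P v).x : ℤ) : PowerSeries ℤ) := by simp
      rw [this, map_intCast]
      simp
  have h2 : ∀ g : MvPolynomial (Fin m) ℤ, MvPowerSeries.coeff e (ρ g) =
      (∏ v, (P v).kap ^ (e v)) * g.coeff e := by
    intro g
    rw [hρ, MvPolynomial.coe_eval₂Hom, MvPolynomial.eval₂_eq', map_sum]
    have h3 : ∀ d ∈ g.support, MvPowerSeries.coeff e ((Int.castRingHom (MvPowerSeries (Fin m) ℤ)) (g.coeff d) *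
        ∏ v, eps v (PowerSeries.C (P v).kap * PowerSeries.X) ^ (d v)) =
        if e = d then (∏ v, (P v).kap ^ (e v)) * g.coeff e else 0 := by
      intro d _
      have h4 : ∏ v, eps v (PowerSeries.C (P v).kap * PowerSeries.X) ^ (d v) =
          box fun v => (PowerSeries.C (P v).kap * PowerSeries.X) ^ (d v) := by
        rw [← prod_eps]
        refine Finset.prod_congr rfl fun v _ => ?_
        rw [map_pow]
      rw [h4]
      have h5 : (Int.castRingHom (MvPowerSeries (Fin m) ℤ)) (g.coeff d) *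
          (box fun v => (PowerSeries.C (P v).kap * PowerSeries.X) ^ (d v)) =
          g.coeff d • (box fun v => (PowerSeries.C (P v).kap * PowerSeries.X) ^ (d v)) := by
        rw [zsmul_eq_mul]
        rfl
      rw [h5, map_zsmul, coeff_box, smul_eq_mul]
      have h6 : ∀ v, PowerSeries.coeff (e v) ((PowerSeries.C (P v).kap * PowerSeries.X) ^ (d v)) =
          if e v = d v then (P v).kap ^ (e v) else 0 := by
        intro v
        rw [mul_pow, ← map_pow, PowerSeries.coeff_C_mul, PowerSeries.coeff_X_pow]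
        split_ifs with h7
        · rw [h7, mul_one]
        · rw [mul_zero]
      rw [Finset.prod_congr rfl fun v _ => h6 v]
      by_cases hed : e = d
      · rw [if_pos hed, hed]
        simp only [if_true]
        ring
      · rw [if_neg hed]
        have h7 : ∃ v, e v ≠ d v := by
          by_contra hc
          push Not at hc
          exact hed (Finsupp.ext hc)
        obtain ⟨v, hv⟩ := h7
        rw [Finset.prod_eq_zero (Finset.mem_univ v) (if_neg hv), mul_zero]
    rw [Finset.sum_congr rfl h3, Finset.sum_ite_eq]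
    split_ifs with h4
    · rfl
    · rw [MvPolynomial.notMem_support_iff.1 h4, mul_zero]
  rw [h1]
  exact h2 _

theorem det_idx (hn : 4 ≤ n) (P : Fin m → Ptd n) (hP : ∀ v, (P v).Thr (cA n)) (N : Fin m → ℕ)
    (A : Mo P N → ℤ) {θ : ℝ} (hell : ∀ v, 0 ≤ (P v).ell)
    (h : ∀ K : Fin m → ℕ, ∑ v, (P v).ell * (K v : ℝ) < θ → Lm P N A K = 0) (e : Fin m →₀ ℕ)
    (he : ∑ v, (P v).ell * (e v : ℝ) < θ) :
    (sh (fun v => (P v).x) (MG P N A).det).coeff e = 0 := by
  classical
  set M' : Matrix (∀ v, Fin (P v).d) (∀ v, Fin (P v).d) (MvPowerSeries (Fin m) ℤ) :=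
    (MG P N A).map (phi P) with hM'
  have h1 : M'.mulVec (bet P) = gl P N A • bet P := by
    funext i
    have := MG_eig P N A i
    simpa [Matrix.mulVec, dotProduct, hM'] using this
  have h2 : M'.adjugate.mulVec (M'.mulVec (bet P)) = M'.det • bet P := by
    rw [Matrix.mulVec_mulVec, Matrix.adjugate_mul, Matrix.smul_mulVec, Matrix.one_mulVec]
  rw [h1, Matrix.mulVec_smul] at h2
  have h3 : M'.det = gl P N A * (M'.adjugate.mulVec (bet P)) (fun v => ⟨0, (P v).C.d1⟩) := by
    have h4 := congrFun h2 (fun v => ⟨0, (P v).C.d1⟩)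
    rw [Pi.smul_apply, Pi.smul_apply, smul_eq_mul, smul_eq_mul] at h4
    have h5 : bet P (fun v => ⟨0, (P v).C.d1⟩) = 1 := by
      unfold bet
      refine Finset.prod_eq_one fun v _ => ?_
      rw [pow_zero, map_one]
    rw [h5, mul_one] at h4
    exact h4.symm
  have h4 : phi P (MG P N A).det = M'.det := by
    rw [hM', RingHom.map_det]
    rfl
  have h5 : MvPowerSeries.coeff e (phi P (MG P N A).det) = 0 := by
    rw [h4, h3, MvPowerSeries.coeff_mul]
    refine Finset.sum_eq_zero fun q hq => ?_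
    rw [Finset.HasAntidiagonal.mem_antidiagonal] at hq
    rw [coeff_gl, h (fun v => q.1 v), zero_mul]
    refine lt_of_le_of_lt ?_ he
    refine Finset.sum_le_sum fun v _ => ?_
    apply mul_le_mul_of_nonneg_left _ (hell v)
    have : q.1 v ≤ e v := by
      rw [← hq, Finsupp.add_apply]
      omega
    exact_mod_cast this
  rw [nzd_sh] at h5
  rcases mul_eq_zero.1 h5 with h6 | h6
  · exfalso
    rw [Finset.prod_eq_zero_iff] at h6
    obtain ⟨v, _, hv⟩ := h6
    exact ((P v).kap_facts hn (hP v)).1 (eq_zero_of_pow_eq_zero hv)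
  · exact h6

end Pool.Agent.H97.NW
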