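import Mathlib

/-! # [H97 NW SYL] Divisibility of a resultant

`Polynomial.sylvester f g m n`: the entry in row `i` and column `Fin.castAdd n j₁` (`j₁ < m`) is `g.coeff (i - j₁)` for
`j₁ ≤ i ≤ j₁ + n`, else `0`; in column `Fin.natAdd m j₁` (`j₁ < n`) it is `f.coeff (i - j₁)` for `j₁ ≤ i ≤ j₁ + m`, else `0`.
`Matrix.det_apply'` (or `Matrix.det_apply`, transpose if convenient): it is enough that for every permutation `σ` of `Fin (m + n)` the product
`∏_i M i (σ i)` is divisible by `a ^ k` (`Finset.dvd_sum`). Let `i0` be the smallest row with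
`σ i0 ≠ Fin.castAdd n i0` (i.e. `(σ i0 : ℕ) ≠ i0`); it exists since otherwise `σ = 1` and `σ ⟨m, _⟩ = ⟨m, _⟩` is not of the form `castAdd` (`1 ≤ n`):
more precisely let `i0` be the smallest `i` such that `i ≥ m` or `(σ i : ℕ) ≠ i`; `i0 ≤ m < m + n`. For `i < i0` the entry is
`g.coeff 0`, divisible by `a`. If `k ≤ i0` the product of the first `k` rows is divisible by `a ^ k`. If `i0 < k`:
if `σ i0 = castAdd n j₁` with `j₁ < m`: if `i0 < m` then `j₁ ≠ i0`; `j₁ < i0` is impossible by injectivity (`σ j₁ = castAdd n j₁` already), so `i0 < j₁` and the entry is `0`; if `i0 = m` then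
`j₁ < m = i0`, impossible by injectivity. If `σ i0 = natAdd m j₁`: the entry is `0` if `i0 < j₁`, otherwise it is `0` or `f.coeff (i0 - j₁)` with `i0 - j₁ < k`,
divisible by `a ^ (k - (i0 - j₁))`, hence by `a ^ (k - i0)`. Together with the rows `i < i0`: `a ^ i0 * a ^ (k - i0) = a ^ k`
(`Finset.prod` over the subset `{i | i ≤ i0}` divides the whole product: `Finset.prod_dvd_prod_of_subset`). -/

namespace Pool.Agent.H97.NW

open Finset Polynomial

private theorem syl_A {R : Type} [CommRing R] (f g : R[X]) (m n : ℕ) (i j : Fin (m + n))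
    (h : (j : ℕ) < m) : sylvester f g m n i j =
      if (j : ℕ) ≤ i ∧ (i : ℕ) ≤ j + n then g.coeff (i - j) else 0 := by
  revert h
  refine Fin.addCases (fun j₁ => ?_) (fun j₁ => ?_) j
  · intro _
    simp only [sylvester, Matrix.of_apply, Fin.addCases_left, Set.mem_Icc, Fin.val_castAdd]
  · intro h
    rw [Fin.val_natAdd] at h
    omega

private theorem syl_B {R : Type} [CommRing R] (f g : R[X]) (m n : ℕ) (i j : Fin (m + n))
    (h : m ≤ (j : ℕ)) : sylvester f g m n i j =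
      if (j : ℕ) - m ≤ i ∧ (i : ℕ) ≤ (j - m) + m then f.coeff (i - (j - m)) else 0 := by
  revert h
  refine Fin.addCases (fun j₁ => ?_) (fun j₁ => ?_) j
  · intro h
    rw [Fin.val_castAdd] at h
    have := j₁.2
    omega
  · intro _
    simp only [sylvester, Matrix.of_apply, Fin.addCases_right, Set.mem_Icc, Fin.val_natAdd,
      Nat.add_sub_cancel_left]

private theorem syl_perm {R : Type} [CommRing R] (a : R) (f g : R[X]) (m n k : ℕ) (hn : 1 ≤ n)
    (hg : a ∣ g.coeff 0) (hf : ∀ j < k, a ^ (k - j) ∣ f.coeff j)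
    (σ : Equiv.Perm (Fin (m + n))) : a ^ k ∣ ∏ i, sylvester f g m n i (σ i) := by
  classical
  have hex : ∃ i : ℕ, ∃ h : i < m + n, m ≤ i ∨ (σ ⟨i, h⟩ : ℕ) ≠ i :=
    ⟨m, by omega, Or.inl le_rfl⟩
  obtain ⟨i0, hi0, hmin⟩ : ∃ i0 : ℕ, (∃ h : i0 < m + n, m ≤ i0 ∨ (σ ⟨i0, h⟩ : ℕ) ≠ i0) ∧
      ∀ i < i0, ¬ ∃ h : i < m + n, m ≤ i ∨ (σ ⟨i, h⟩ : ℕ) ≠ i :=
    ⟨Nat.find hex, Nat.find_spec hex, fun i hi => Nat.find_min hex hi⟩
  obtain ⟨hi1, hi2⟩ := hi0
  have hlt : ∀ i (h : i < m + n), i < i0 → i < m ∧ (σ ⟨i, h⟩ : ℕ) = i := by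
    intro i h hi
    have h1 := hmin i hi
    constructor
    · by_contra h2
      exact h1 ⟨h, Or.inl (not_lt.1 h2)⟩
    · by_contra h2
      exact h1 ⟨h, Or.inr h2⟩
  have hstep : ∀ r (h : r < m + n), ∏ i ∈ univ.filter (fun i : Fin (m + n) => (i : ℕ) < r + 1),
      sylvester f g m n i (σ i) = sylvester f g m n ⟨r, h⟩ (σ ⟨r, h⟩) *
        ∏ i ∈ univ.filter (fun i : Fin (m + n) => (i : ℕ) < r), sylvester f g m n i (σ i) := by
    intro r h
    have h1 : univ.filter (fun i : Fin (m + n) => (i : ℕ) < r + 1) =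
        insert (⟨r, h⟩ : Fin (m + n)) (univ.filter (fun i : Fin (m + n) => (i : ℕ) < r)) := by
      ext i
      rw [mem_filter, mem_insert, mem_filter, Fin.ext_iff]
      simp only [mem_univ, true_and]
      omega
    rw [h1, prod_insert]
    rw [mem_filter]
    rintro ⟨-, h2⟩
    exact lt_irrefl _ h2
  have hpow : ∀ r, r ≤ i0 → a ^ r ∣
      ∏ i ∈ univ.filter (fun i : Fin (m + n) => (i : ℕ) < r), sylvester f g m n i (σ i) := by
    intro r
    induction r with
    | zero =>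
      intro _
      rw [pow_zero]
      exact one_dvd _
    | succ r ih =>
      intro hr
      have hr1 : r < m + n := by omega
      rw [hstep r hr1, pow_succ']
      refine mul_dvd_mul ?_ (ih (by omega))
      obtain ⟨h1, h2⟩ := hlt r hr1 (by omega)
      rw [syl_A f g m n ⟨r, hr1⟩ (σ ⟨r, hr1⟩) (by rw [h2]; exact h1)]
      split_ifs with h3
      · rw [h2]
        show a ∣ g.coeff (r - r)
        rw [Nat.sub_self]
        exact hg
      · exact dvd_zero _
  have hall : ∀ r, (∏ i ∈ univ.filter (fun i : Fin (m + n) => (i : ℕ) < r),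
      sylvester f g m n i (σ i)) ∣ ∏ i, sylvester f g m n i (σ i) := fun r =>
    prod_dvd_prod_of_subset _ _ _ (filter_subset _ _)
  rcases le_or_gt k i0 with hk | hk
  · exact (pow_dvd_pow a hk).trans ((hpow i0 le_rfl).trans (hall i0))
  · refine dvd_trans ?_ (hall (i0 + 1))
    rw [hstep i0 hi1]
    have h1 : a ^ k = a ^ (k - i0) * a ^ i0 := by
      rw [← pow_add]
      congr 1
      omega
    rw [h1]
    refine mul_dvd_mul ?_ (hpow i0 le_rfl)
    rcases lt_or_ge ((σ ⟨i0, hi1⟩ : ℕ)) m with hj | hj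
    · rw [syl_A f g m n ⟨i0, hi1⟩ (σ ⟨i0, hi1⟩) hj, if_neg]
      · exact dvd_zero _
      · rintro ⟨h2, -⟩
        have h2' : (σ ⟨i0, hi1⟩ : ℕ) ≤ i0 := h2
        rcases Nat.lt_or_eq_of_le h2' with h3 | h3
        · obtain ⟨-, h4⟩ := hlt (σ ⟨i0, hi1⟩ : ℕ) (σ ⟨i0, hi1⟩).2 h3
          have h5 : σ (σ ⟨i0, hi1⟩) = σ ⟨i0, hi1⟩ := Fin.ext h4
          have h6 := σ.injective h5
          rw [h6] at h3
          exact lt_irrefl _ h3
        · rcases hi2 with h4 | h4
          · omega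
          · exact h4 h3
    · rw [syl_B f g m n ⟨i0, hi1⟩ (σ ⟨i0, hi1⟩) hj]
      split_ifs with h2
      · show a ^ (k - i0) ∣ f.coeff (i0 - ((σ ⟨i0, hi1⟩ : ℕ) - m))
        exact (pow_dvd_pow a (by omega)).trans (hf _ (by omega))
      · exact dvd_zero _

theorem dvd_resultant {R : Type} [CommRing R] (a : R) (f g : R[X]) (m n k : ℕ) (hn : 1 ≤ n)
    (hg : a ∣ g.coeff 0) (hf : ∀ j < k, a ^ (k - j) ∣ f.coeff j) : a ^ k ∣ resultant f g m n := by
  unfold resultant
  rw [← Matrix.det_transpose, Matrix.det_apply']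
  refine dvd_sum fun σ _ => ?_
  exact Dvd.dvd.mul_left (syl_perm a f g m n k hn hg hf σ) _

end Pool.Agent.H97.NW
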