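import Pool.Agent.H97.NW.ZD
import Pool.Agent.H97.NW.SYL

/-! # [H97 NW RSL] Size and order of a resultant with respect to the outer variable

`L1_resultant_le`: `resultant f g = (sylvester f g m n).det`, `m = f.natDegree`, `n = g.natDegree`; `L1` is submultiplicative and subadditive
(`L1_mul_le`, `L1_sum_le`, `L1_prod_le`, `L1_neg`), so by the Leibniz formula `L1 det ≤ ∑_σ ∏_j L1 (M (σ j) j) ≤ ∏_j ∑_i L1 (M i j)` (the sum over
permutations is at most the sum over all functions, `Finset.prod_univ_sum`, `Fintype.piFinset`; inject `Equiv.Perm` by coercion, the terms are `≥ 0`). The column sum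
is at most `L2 g` for the first `m` columns and at most `L2 f` for the others (the nonzero entries are distinct coefficients); `Fin.prod_univ_add`.
`van_resultant`: let `τ = taylorAlgHom x` (a ring homomorphism of `ℤ[X]`, injective, `natDegree` of the mapped polynomials unchanged:
`natDegree_map_eq_of_injective`). `taylor x (resultant f g) = resultant (f.map τ) (g.map τ)` (`resultant_map_map`) `= resultant (tr x y f) (tr x y g)`
(`resultant_taylor`). By `Van`, `X ^ (k - j)` divides `(tr x y f).coeff j` for `j < k` (`X_pow_dvd_iff`), and the constant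
coefficient of `(tr x y g).coeff 0` is `Lam x y g = 0`. By `dvd_resultant` with `a = X`: `X ^ k ∣ taylor x ρ`; apply `taylor (-x)`
(`taylor_taylor`, `taylor_mul`, `taylor_pow`, `taylor_X`).
`pow_le_L1`: `ρ = (X - C x) ^ k * h`, `h ≠ 0`; the trailing coefficient is multiplicative, that of `(X - C x)^k` is `(-x)^k` (`x ≠ 0`), so
`|x|^k ≤ |trailingCoeff ρ| ≤ L1 ρ` (`coeff_le_L1`). -/

namespace Pool.Agent.H97.NW

open Finset Polynomial Pool.Agent.H72.ES

private theorem rsl_sum_le (g : ℤ[X][X]) (T : Finset ℕ) :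
    ∑ t ∈ T, L1 (g.coeff t) ≤ L2 g := by
  classical
  have h1 : ∑ t ∈ T, L1 (g.coeff t) ≤ ∑ t ∈ T ∪ g.support, L1 (g.coeff t) :=
    sum_le_sum_of_subset_of_nonneg subset_union_left fun _ _ _ => L1_nonneg _
  refine h1.trans (le_of_eq ?_)
  unfold L2
  symm
  refine sum_subset subset_union_right fun t _ ht => ?_
  rw [notMem_support_iff.1 ht]
  exact subMul_L1.zero

private theorem rsl_col (g : ℤ[X][X]) (N j n : ℕ) :
    ∑ k : Fin N, L1 (if (k : ℕ) ∈ Set.Icc j (j + n) then g.coeff (k - j) else 0) ≤ L2 g := by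
  classical
  rw [Fin.sum_univ_eq_sum_range
    (fun k : ℕ => L1 (if k ∈ Set.Icc j (j + n) then g.coeff (k - j) else 0)) N]
  have h1 : ∀ k ∈ range N, L1 (if k ∈ Set.Icc j (j + n) then g.coeff (k - j) else 0) =
      if k ∈ Set.Icc j (j + n) then L1 (g.coeff (k - j)) else 0 := by
    intro k _
    split_ifs
    · rfl
    · exact subMul_L1.zero
  rw [sum_congr rfl h1, ← sum_filter]
  have h2 : ∑ k ∈ (range N).filter (fun k => k ∈ Set.Icc j (j + n)), L1 (g.coeff (k - j)) =
      ∑ t ∈ ((range N).filter (fun k => k ∈ Set.Icc j (j + n))).image (fun k => k - j),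
        L1 (g.coeff t) := by
    rw [sum_image]
    intro a ha b hb hab
    simp only [coe_filter, Set.mem_setOf_eq, Set.mem_Icc] at ha hb hab
    omega
  rw [h2]
  exact rsl_sum_le g _

private theorem rsl_prod_le {ι : Type} (s : Finset ι) (g : ι → ℤ[X]) :
    L1 (∏ i ∈ s, g i) ≤ ∏ i ∈ s, L1 (g i) := by
  classical
  induction s using Finset.induction_on with
  | empty =>
    rw [prod_empty, prod_empty, L1_one]
  | insert a s ha ih =>
    rw [prod_insert ha, prod_insert ha]
    exact (L1_mul_le _ _).trans (mul_le_mul_of_nonneg_left ih (L1_nonneg _))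

theorem L1_resultant_le (f g : ℤ[X][X]) :
    L1 (resultant f g) ≤ L2 g ^ f.natDegree * L2 f ^ g.natDegree := by
  classical
  obtain ⟨m, hm⟩ : ∃ m : ℕ, m = f.natDegree := ⟨_, rfl⟩
  obtain ⟨n, hn⟩ : ∃ n : ℕ, n = g.natDegree := ⟨_, rfl⟩
  rw [← hm, ← hn]
  obtain ⟨M, hM⟩ : ∃ M : Matrix (Fin (m + n)) (Fin (m + n)) ℤ[X], M = sylvester f g m n :=
    ⟨_, rfl⟩
  have h0 : resultant f g m n = M.det := by rw [hM]; rfl
  rw [h0, Matrix.det_apply]
  have h1 : L1 (∑ σ : Equiv.Perm (Fin (m + n)), Equiv.Perm.sign σ • ∏ i, M (σ i) i) ≤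
      ∑ σ : Equiv.Perm (Fin (m + n)), ∏ i, L1 (M (σ i) i) := by
    refine (L1_sum_le _ _).trans (sum_le_sum fun σ _ => ?_)
    have h2 : L1 (Equiv.Perm.sign σ • ∏ i, M (σ i) i) = L1 (∏ i, M (σ i) i) := by
      rcases Int.units_eq_one_or (Equiv.Perm.sign σ) with h3 | h3
      · rw [h3, one_smul]
      · rw [h3, Units.neg_smul, one_smul, L1_neg]
    rw [h2]
    exact rsl_prod_le _ _
  have h2 : ∑ σ : Equiv.Perm (Fin (m + n)), ∏ i, L1 (M (σ i) i) ≤
      ∑ s ∈ Fintype.piFinset (fun _ : Fin (m + n) => (univ : Finset (Fin (m + n)))),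
        ∏ i, L1 (M (s i) i) := by
    have h3 : ∑ σ : Equiv.Perm (Fin (m + n)), ∏ i, L1 (M (σ i) i) =
        ∑ s ∈ Finset.image (fun (σ : Equiv.Perm (Fin (m + n))) (i : Fin (m + n)) => σ i) univ,
          ∏ i, L1 (M (s i) i) := by
      rw [sum_image]
      intro a _ b _ hab
      exact Equiv.coe_fn_injective hab
    rw [h3]
    refine sum_le_sum_of_subset_of_nonneg ?_ fun s _ _ => prod_nonneg fun i _ => L1_nonneg _
    intro s _
    rw [Fintype.mem_piFinset]
    exact fun _ => mem_univ _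
  have h3 : ∑ s ∈ Fintype.piFinset (fun _ : Fin (m + n) => (univ : Finset (Fin (m + n)))),
        ∏ i, L1 (M (s i) i) = ∏ i : Fin (m + n), ∑ k : Fin (m + n), L1 (M k i) :=
    (Finset.prod_univ_sum (fun _ => univ) (fun i k => L1 (M k i))).symm
  refine (h1.trans h2).trans ?_
  rw [h3, Fin.prod_univ_add]
  have h4 : ∀ i : Fin m, ∑ k : Fin (m + n), L1 (M k (Fin.castAdd n i)) ≤ L2 g := by
    intro i
    have h5 : ∀ k : Fin (m + n), M k (Fin.castAdd n i) =
        if (k : ℕ) ∈ Set.Icc (i : ℕ) (i + n) then g.coeff (k - i) else 0 := by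
      intro k
      rw [hM, sylvester, Matrix.of_apply, Fin.addCases_left]
    rw [sum_congr rfl fun k _ => congrArg L1 (h5 k)]
    exact rsl_col g _ _ _
  have h6 : ∀ i : Fin n, ∑ k : Fin (m + n), L1 (M k (Fin.natAdd m i)) ≤ L2 f := by
    intro i
    have h5 : ∀ k : Fin (m + n), M k (Fin.natAdd m i) =
        if (k : ℕ) ∈ Set.Icc (i : ℕ) (i + m) then f.coeff (k - i) else 0 := by
      intro k
      rw [hM, sylvester, Matrix.of_apply, Fin.addCases_right]
    rw [sum_congr rfl fun k _ => congrArg L1 (h5 k)]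
    exact rsl_col f _ _ _
  refine mul_le_mul ?_ ?_ (prod_nonneg fun i _ => sum_nonneg fun k _ => L1_nonneg _)
    (pow_nonneg (L2_nonneg _) _)
  · refine (prod_le_prod (fun i _ => sum_nonneg fun k _ => L1_nonneg _) fun i _ => h4 i).trans ?_
    rw [prod_const, card_univ, Fintype.card_fin]
  · refine (prod_le_prod (fun i _ => sum_nonneg fun k _ => L1_nonneg _) fun i _ => h6 i).trans ?_
    rw [prod_const, card_univ, Fintype.card_fin]

/-- the inner translation -/
private noncomputable def rslT (x : ℤ) : ℤ[X] →+* ℤ[X] :=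
  ((taylorAlgHom x : ℤ[X] →ₐ[ℤ] ℤ[X]) : ℤ[X] →+* ℤ[X])

private theorem rslT_apply (x : ℤ) (p : ℤ[X]) : rslT x p = taylor x p := rfl

private theorem rslT_inj (x : ℤ) : Function.Injective (rslT x) := fun p q h =>
  taylor_injective x h

private theorem rsl_tr (x y : ℤ) (g : ℤ[X][X]) : tr x y g = taylor (C y) (g.map (rslT x)) := rfl

private theorem rsl_Lam (x y : ℤ) (g : ℤ[X][X]) : ((tr x y g).coeff 0).coeff 0 = Lam x y g := by
  rw [rsl_tr, taylor_coeff_zero, eval_map, coeff_zero_eq_eval_zero]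
  have h1 : eval 0 (eval₂ (rslT x) (C y) g) =
      eval₂ ((evalRingHom (0 : ℤ)).comp (rslT x)) ((evalRingHom (0 : ℤ)) (C y)) g :=
    hom_eval₂ g (rslT x) (evalRingHom (0 : ℤ)) (C y)
  rw [h1]
  have h2 : (evalRingHom (0 : ℤ)).comp (rslT x) = eval₂RingHom (Int.castRingHom ℤ) x := by
    refine Polynomial.ringHom_ext (fun a => ?_) ?_
    · rw [RingHom.comp_apply, rslT_apply, taylor_C]
      simp
    · rw [RingHom.comp_apply, rslT_apply, taylor_X]
      simp
  rw [h2]
  simp [Lam]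

theorem van_resultant (x y : ℤ) (f g : ℤ[X][X]) (hg : 1 ≤ g.natDegree) (h0 : Lam x y g = 0) (k : ℕ)
    (hf : Van x y k f) : (X - C x) ^ k ∣ resultant f g := by
  have hdeg : ∀ p : ℤ[X][X], (p.map (rslT x)).natDegree = p.natDegree := fun p =>
    natDegree_map_eq_of_injective (rslT_inj x) p
  have h1 : taylor x (resultant f g) = resultant (tr x y f) (tr x y g) := by
    rw [rsl_tr, rsl_tr, resultant_taylor, hdeg, hdeg, resultant_map_map]
    rfl
  have hdg : (tr x y g).natDegree = g.natDegree := by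
    rw [rsl_tr, natDegree_taylor, hdeg]
  have h2 : (X : ℤ[X]) ^ k ∣ resultant (tr x y f) (tr x y g) := by
    refine dvd_resultant X _ _ _ _ k (by rw [hdg]; exact hg) ?_ ?_
    · rw [X_dvd_iff, rsl_Lam]
      exact h0
    · intro j hj
      rw [X_pow_dvd_iff]
      intro d hd
      exact hf d j (by omega)
  obtain ⟨h, hh⟩ := h2
  rw [← h1] at hh
  have h3 := congrArg (taylor (-x)) hh
  rw [taylor_taylor, neg_add_cancel, taylor_zero, taylor_mul, taylor_pow, taylor_X] at h3
  refine ⟨taylor (-x) h, ?_⟩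
  rw [h3, C_neg, sub_eq_add_neg]

theorem pow_le_L1 {x : ℤ} (hx : x ≠ 0) {k : ℕ} {ρ : ℤ[X]} (hρ : ρ ≠ 0) (h : (X - C x) ^ k ∣ ρ) :
    |(x : ℝ)| ^ k ≤ L1 ρ := by
  obtain ⟨w, hw⟩ := h
  have hw0 : w ≠ 0 := by
    rintro rfl
    exact hρ (by rw [hw, mul_zero])
  have h1 : ((X - C x : ℤ[X]) ^ k).coeff 0 = (-x) ^ k := by
    rw [coeff_zero_eq_eval_zero]
    simp
  have h2 : ((X - C x : ℤ[X]) ^ k).trailingCoeff = (-x) ^ k := by
    have h3 : ((X - C x : ℤ[X]) ^ k).natTrailingDegree = 0 := by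
      rw [natTrailingDegree_eq_zero]
      right
      rw [h1]
      exact pow_ne_zero _ (neg_ne_zero.2 hx)
    rw [trailingCoeff, h3, h1]
  have h4 : ρ.trailingCoeff = (-x) ^ k * w.trailingCoeff := by
    rw [hw, trailingCoeff_mul, h2]
  have h5 := coeff_le_L1 ρ ρ.natTrailingDegree
  have h6 : ρ.coeff ρ.natTrailingDegree = (-x) ^ k * w.trailingCoeff := h4
  rw [h6] at h5
  have h7 : 1 ≤ |((w.trailingCoeff : ℤ) : ℝ)| := by
    have h8 : w.trailingCoeff ≠ 0 := trailingCoeff_nonzero_iff_nonzero.2 hw0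
    have h9 : 1 ≤ |w.trailingCoeff| := Int.one_le_abs h8
    exact_mod_cast h9
  refine le_trans ?_ h5
  push_cast
  rw [abs_mul, abs_pow, abs_neg]
  exact le_mul_of_one_le_right (by positivity) h7

end Pool.Agent.H97.NW
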