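import Mathlib

/-! # [H97 NW PRA] A primitive element with small coefficients

Let `Ω` be an algebraic closure of `M`. There are exactly `finrank k M ≤ N` embeddings `τ : M →ₐ[k] Ω` (`AlgHom.card`, separable), determined by their values on `a1, a2, a3` (`hgen`; `IntermediateField.algHom_ext_of_eq_adjoin` or: the equalizer is an intermediate field). For `τ ≠ τ'` the numbers `μ` with
`τ w = τ' w`, `w = a1 + μ a2 + μ^2 a3`, are roots of the nonzero polynomial `(τ a1 - τ' a1) + X (τ a2 - τ' a2) + X^2 (τ a3 - τ' a3)`, at most two. There are at most `N (N-1)/2` unordered pairs, so some `μ ≤ N^2`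
(`N^2 + 1 > N (N - 1)` numbers, characteristic zero) is good for all pairs. Then `k(w) = M` (`Field.primitive_element_iff_algHom_eq_of_eval` or its primed version). -/

namespace Pool.Agent.H97.NW

open Polynomial

theorem small_prim (k M : Type) [Field k] [CharZero k] [Field M] [Algebra k M]
    [FiniteDimensional k M] (N : ℕ) (hN : Module.finrank k M ≤ N) (a1 a2 a3 : M)
    (hgen : IntermediateField.adjoin k {a1, a2, a3} = ⊤) :
    ∃ μ : ℕ, μ ≤ N ^ 2 ∧
      IntermediateField.adjoin k {a1 + (μ : M) * a2 + (μ : M) ^ 2 * a3} = ⊤ := by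
  classical
  let W := AlgebraicClosure M
  have hcM : CharZero M := charZero_of_injective_algebraMap (algebraMap k M).injective
  have hcW : CharZero W := charZero_of_injective_algebraMap (algebraMap M W).injective
  have hcard : Fintype.card (M →ₐ[k] W) = Module.finrank k M := AlgHom.card k M W
  let φ : M →ₐ[k] W := IsScalarTower.toAlgHom k M W
  -- extensionality
  have hext : ∀ ψ : M →ₐ[k] W, φ a1 = ψ a1 → φ a2 = ψ a2 → φ a3 = ψ a3 → φ = ψ := by
    intro ψ e1 e2 e3
    have h1 : IntermediateField.adjoin k {a1, a2, a3} ≤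
        (AlgHom.equalizer φ ψ).toIntermediateField (fun x hx => by
          rw [AlgHom.mem_equalizer] at hx ⊢
          rw [map_inv₀, map_inv₀, hx]) := by
      rw [IntermediateField.adjoin_le_iff]
      intro x hx
      simp only [Set.mem_insert_iff, Set.mem_singleton_iff] at hx
      show φ x = ψ x
      rcases hx with rfl | rfl | rfl
      · exact e1
      · exact e2
      · exact e3
    rw [hgen] at h1
    ext x
    exact h1 (IntermediateField.mem_top (F := k) (E := M) (x := x))
  -- the polynomial of the bad numbers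
  let P : (M →ₐ[k] W) → W[X] := fun ψ =>
    C (φ a1 - ψ a1) + C (φ a2 - ψ a2) * X + C (φ a3 - ψ a3) * X ^ 2
  have hPdeg : ∀ ψ, (P ψ).natDegree ≤ 2 := by
    intro ψ
    simp only [P]
    compute_degree
  have hP0 : ∀ ψ, ψ ≠ φ → P ψ ≠ 0 := by
    intro ψ hψ h0
    apply hψ
    have hc : ∀ i, (P ψ).coeff i = (if i = 0 then φ a1 - ψ a1 else 0) +
        (φ a2 - ψ a2) * (if 1 = i then 1 else 0) + (φ a3 - ψ a3) * (if i = 2 then 1 else 0) := by
      intro i
      simp only [P, coeff_add, coeff_C_mul, coeff_C, coeff_X, coeff_X_pow]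
    have c0 := hc 0
    have c1 := hc 1
    have c2 := hc 2
    rw [h0] at c0 c1 c2
    norm_num at c0 c1 c2
    replace c0 := c0.symm
    replace c1 := c1.symm
    replace c2 := c2.symm
    exact (hext ψ (sub_eq_zero.1 c0) (sub_eq_zero.1 c1) (sub_eq_zero.1 c2)).symm
  have hbad : ∀ ψ, ψ ≠ φ →
      ((Finset.range (N ^ 2 + 1)).filter (fun μ : ℕ => (P ψ).eval (μ : W) = 0)).card ≤ 2 := by
    intro ψ hψ
    have h1 : ((Finset.range (N ^ 2 + 1)).filter
        (fun μ : ℕ => (P ψ).eval (μ : W) = 0)).card ≤ (P ψ).roots.toFinset.card := by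
      refine Finset.card_le_card_of_injOn (fun μ : ℕ => (μ : W)) ?_ ?_
      · intro μ hμ
        have hμ' := (Finset.mem_filter.1 (Finset.mem_coe.1 hμ)).2
        simp only [Finset.mem_coe, Multiset.mem_toFinset]
        rw [mem_roots (hP0 ψ hψ)]
        exact hμ'
      · intro a _ b _ hab
        exact Nat.cast_injective hab
    exact h1.trans ((Multiset.toFinset_card_le _).trans ((card_roots' _).trans (hPdeg ψ)))
  -- some number is good
  obtain ⟨μ, hμ1, hμ2⟩ : ∃ μ : ℕ, μ ≤ N ^ 2 ∧ ∀ ψ, ψ ≠ φ → (P ψ).eval (μ : W) ≠ 0 := by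
    by_contra hcon
    push Not at hcon
    have h1 : Finset.range (N ^ 2 + 1) ⊆ (Finset.univ.erase φ).biUnion (fun ψ =>
        (Finset.range (N ^ 2 + 1)).filter (fun μ : ℕ => (P ψ).eval (μ : W) = 0)) := by
      intro μ hμ
      obtain ⟨ψ, h2, h3⟩ := hcon μ (by
        have := Finset.mem_range.1 hμ
        omega)
      rw [Finset.mem_biUnion]
      exact ⟨ψ, Finset.mem_erase.2 ⟨h2, Finset.mem_univ _⟩, Finset.mem_filter.2 ⟨hμ, h3⟩⟩
    have h2 := Finset.card_le_card h1
    rw [Finset.card_range] at h2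
    have h3 := h2.trans (Finset.card_biUnion_le_card_mul _ _ 2 (fun ψ hψ =>
      hbad ψ (Finset.mem_erase.1 hψ).1))
    rw [Finset.card_erase_of_mem (Finset.mem_univ _), Finset.card_univ, hcard] at h3
    have h4 : Module.finrank k M - 1 ≤ N - 1 := Nat.sub_le_sub_right hN 1
    have h5 : 0 < Module.finrank k M := Module.finrank_pos
    have h6 : 1 ≤ N := by omega
    obtain ⟨K, rfl⟩ : ∃ K, N = K + 1 := ⟨N - 1, by omega⟩
    have h7 : (K + 1) ^ 2 + 1 ≤ K * 2 := h3.trans (Nat.mul_le_mul_right 2 (by omega))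
    nlinarith
  refine ⟨μ, hμ1, ?_⟩
  rw [Field.primitive_element_iff_algHom_eq_of_eval k W (fun x => IsAlgClosed.splits _) _ φ]
  intro ψ hψ
  by_contra hne
  apply hμ2 ψ (fun h => hne h.symm)
  simp only [map_add, map_mul, map_pow, map_natCast] at hψ
  simp only [P, eval_add, eval_mul, eval_C, eval_X, eval_pow]
  linear_combination hψ

end Pool.Agent.H97.NW
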