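import Pool.Agent.H97.NW.ZD
import Pool.Agent.H97.NW.PRA

/-! # [H97 NW PRB] A plane model of a domain, finite over `ℤ[u]`

`R = ℤ[X]`, `A` is an `R`-algebra by `ι`; `k0 = FractionRing R`, `M = FractionRing A`, a `k0`-algebra (`ι` injective). `a1` is integral over `R` (root of the monic `g1`), `a2, a3` are roots of monic polynomials over `ι(R)[a1]`. So `A` is integral over `R` (`hgen`), `M = k0(a1,a2,a3)`
(every element of `A` lies in the subring; `M` is algebraic over `k0`, so the subfield generated is everything: elements `a/b`), `[k0(a1) : k0] ≤ natDegree g1`, `[k0(a1,a2) : k0(a1)] ≤ natDegree g2`, `[.. (a3) ..] ≤ natDegree g3`: `finrank k0 M ≤ N`.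
`small_prim` (char zero): `μ`, `w = a1 + μ a2 + μ^2 a3` with `k0(w) = M`. `f = minpoly R w` (`R` is integrally closed, a UFD): monic, irreducible (`minpoly.irreducible` / `minpoly.prime_of_isIntegrallyClosed`), maps to `minpoly k0 w` (`minpoly.isIntegrallyClosed_eq_field_fractions'`), so `natDegree f ≤ N`.
Lifting: `φ : R → L`, `X ↦ U` is injective by hypothesis, extends to `k0 → L`; `L` is a `k0`-algebra and `W` a root of `minpoly k0 w`, so there is a `k0`-algebra homomorphism `k0(w) → L`, `w ↦ W` (`IntermediateField.adjoin.powerBasis.lift`, or `PowerBasis.lift`); restrict it to `A ⊆ M = k0(w)`.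
(`Lam U W f = f.eval₂ φ W`.) -/

namespace Pool.Agent.H97.NW

open Finset Polynomial Pool.Agent.H72.ES

/-- the monomials span the domain -/
private theorem prb_span (R A : Type) [CommRing R] [CommRing A] [Algebra R A] (a1 a2 a3 : A)
    (d1 d2 d3 : ℕ) (hd1 : 0 < d1) (hd2 : 0 < d2) (hd3 : 0 < d3) (c1 : ℕ → R) (c2 c3 : ℕ → A)
    (hc2 : ∀ t, c2 t ∈ Algebra.adjoin R {a1}) (hc3 : ∀ t, c3 t ∈ Algebra.adjoin R {a1})
    (r1 : a1 ^ d1 = ∑ t ∈ range d1, algebraMap R A (c1 t) * a1 ^ t)
    (r2 : a2 ^ d2 = ∑ t ∈ range d2, c2 t * a2 ^ t)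
    (r3 : a3 ^ d3 = ∑ t ∈ range d3, c3 t * a3 ^ t)
    (hgen : ∀ S : Subring A, (algebraMap R A).range ≤ S → a1 ∈ S → a2 ∈ S → a3 ∈ S → S = ⊤) :
    Submodule.span R (Set.range (fun x : Fin d1 × Fin d2 × Fin d3 =>
      a1 ^ x.1.1 * a2 ^ x.2.1.1 * a3 ^ x.2.2.1)) = ⊤ := by
  obtain ⟨W, hW⟩ : ∃ W : Submodule R A, W = Submodule.span R (Set.range
    (fun x : Fin d1 × Fin d2 × Fin d3 => a1 ^ x.1.1 * a2 ^ x.2.1.1 * a3 ^ x.2.2.1)) := ⟨_, rfl⟩
  rw [← hW]
  have hm : ∀ i < d1, ∀ j < d2, ∀ l < d3, a1 ^ i * a2 ^ j * a3 ^ l ∈ W := by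
    intro i hi j hj l hl
    rw [hW]
    exact Submodule.subset_span ⟨(⟨i, hi⟩, ⟨j, hj⟩, ⟨l, hl⟩), rfl⟩
  have hclos : ∀ a : A, (∀ i < d1, ∀ j < d2, ∀ l < d3, a * (a1 ^ i * a2 ^ j * a3 ^ l) ∈ W) →
      ∀ x ∈ W, a * x ∈ W := by
    intro a ha x hx
    rw [hW] at hx
    induction hx using Submodule.span_induction with
    | mem x h =>
      obtain ⟨y, rfl⟩ := h
      exact ha y.1.1 y.1.2 y.2.1.1 y.2.1.2 y.2.2.1 y.2.2.2
    | zero => rw [mul_zero]; exact W.zero_mem
    | add x y _ _ h1 h2 => rw [mul_add]; exact W.add_mem h1 h2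
    | smul r x _ h1 => rw [mul_smul_comm]; exact W.smul_mem r h1
  have k1 : ∀ x ∈ W, a1 * x ∈ W := by
    refine hclos a1 ?_
    intro i hi j hj l hl
    have e : a1 * (a1 ^ i * a2 ^ j * a3 ^ l) = a1 ^ (i + 1) * a2 ^ j * a3 ^ l := by
      rw [pow_succ]
      ring
    rw [e]
    rcases Nat.lt_or_ge (i + 1) d1 with h | h
    · exact hm _ h j hj l hl
    · have h' : i + 1 = d1 := by omega
      rw [h', r1, Finset.sum_mul, Finset.sum_mul]
      refine W.sum_mem fun t ht => ?_
      rw [mul_assoc, mul_assoc, ← Algebra.smul_def, ← mul_assoc]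
      exact W.smul_mem _ (hm t (mem_range.1 ht) j hj l hl)
  have k1' : ∀ y ∈ Algebra.adjoin R {a1}, ∀ x ∈ W, y * x ∈ W := by
    intro y hy
    induction hy using Algebra.adjoin_induction with
    | mem y h =>
      intro x hx
      rw [Set.mem_singleton_iff] at h
      rw [h]
      exact k1 x hx
    | algebraMap r =>
      intro x hx
      rw [← Algebra.smul_def]
      exact W.smul_mem r hx
    | add y z _ _ h1 h2 =>
      intro x hx
      rw [add_mul]
      exact W.add_mem (h1 x hx) (h2 x hx)
    | mul y z _ _ h1 h2 =>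
      intro x hx
      rw [mul_assoc]
      exact h1 _ (h2 x hx)
  have k2 : ∀ x ∈ W, a2 * x ∈ W := by
    refine hclos a2 ?_
    intro i hi j hj l hl
    have e : a2 * (a1 ^ i * a2 ^ j * a3 ^ l) = a2 ^ (j + 1) * (a1 ^ i * a3 ^ l) := by
      rw [pow_succ]
      ring
    rcases Nat.lt_or_ge (j + 1) d2 with h | h
    · have e' : a2 ^ (j + 1) * (a1 ^ i * a3 ^ l) = a1 ^ i * a2 ^ (j + 1) * a3 ^ l := by ring
      rw [e, e']
      exact hm _ hi _ h l hl
    · have h' : j + 1 = d2 := by omega
      rw [e, h', r2, Finset.sum_mul]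
      refine W.sum_mem fun t ht => ?_
      have e' : c2 t * a2 ^ t * (a1 ^ i * a3 ^ l) = c2 t * (a1 ^ i * a2 ^ t * a3 ^ l) := by ring
      rw [e']
      exact k1' _ (hc2 t) _ (hm i hi t (mem_range.1 ht) l hl)
  have k3 : ∀ x ∈ W, a3 * x ∈ W := by
    refine hclos a3 ?_
    intro i hi j hj l hl
    have e : a3 * (a1 ^ i * a2 ^ j * a3 ^ l) = a3 ^ (l + 1) * (a1 ^ i * a2 ^ j) := by
      rw [pow_succ]
      ring
    rcases Nat.lt_or_ge (l + 1) d3 with h | h
    · have e' : a3 ^ (l + 1) * (a1 ^ i * a2 ^ j) = a1 ^ i * a2 ^ j * a3 ^ (l + 1) := by ring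
      rw [e, e']
      exact hm _ hi _ hj _ h
    · have h' : l + 1 = d3 := by omega
      rw [e, h', r3, Finset.sum_mul]
      refine W.sum_mem fun t ht => ?_
      have e' : c3 t * a3 ^ t * (a1 ^ i * a2 ^ j) = c3 t * (a1 ^ i * a2 ^ j * a3 ^ t) := by ring
      rw [e']
      exact k1' _ (hc3 t) _ (hm i hi j hj t (mem_range.1 ht))
  have hone : (1 : A) ∈ W := by
    have := hm 0 hd1 0 hd2 0 hd3
    simpa using this
  let S : Subring A :=
    { carrier := {y | ∀ x ∈ W, y * x ∈ W}
      mul_mem' := by
        intro y z hy hz x hx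
        rw [mul_assoc]
        exact hy _ (hz x hx)
      one_mem' := by
        intro x hx
        rwa [one_mul]
      add_mem' := by
        intro y z hy hz x hx
        rw [add_mul]
        exact W.add_mem (hy x hx) (hz x hx)
      zero_mem' := by
        intro x _
        rw [zero_mul]
        exact W.zero_mem
      neg_mem' := by
        intro y hy x hx
        rw [neg_mul]
        exact W.neg_mem (hy x hx) }
  have hS : S = ⊤ := by
    refine hgen S ?_ k1 k2 k3
    rintro _ ⟨r, rfl⟩ x hx
    rw [← Algebra.smul_def]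
    exact W.smul_mem r hx
  rw [eq_top_iff]
  intro y _
  have hy : y ∈ S := by
    rw [hS]
    exact Subring.mem_top y
  have h1 : y * 1 ∈ W := hy 1 hone
  rwa [mul_one] at h1

private theorem prb_core (R A : Type) [CommRing R] [IsDomain R] [IsIntegrallyClosed R] [CharZero R]
    [CommRing A] [IsDomain A] [Algebra R A] (hinj : Function.Injective (algebraMap R A))
    (a1 a2 a3 : A) (κ : Type) [Fintype κ] (m : κ → A)
    (hspan : Submodule.span R (Set.range m) = ⊤)
    (hgen : ∀ S : Subring A, (algebraMap R A).range ≤ S → a1 ∈ S → a2 ∈ S → a3 ∈ S → S = ⊤) :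
    ∃ (μ : ℕ) (f : R[X]), μ ≤ (Fintype.card κ) ^ 2 ∧ f.Monic ∧ Irreducible f ∧
      f.natDegree ≤ Fintype.card κ ∧ 1 ≤ f.natDegree ∧
      aeval (a1 + (μ : A) * a2 + (μ : A) ^ 2 * a3) f = 0 ∧
      ∀ (L : Type) [Field L] [Algebra R L], Function.Injective (algebraMap R L) →
        ∀ W : L, aeval W f = 0 →
        ∃ ψ : A →ₐ[R] L, ψ (a1 + (μ : A) * a2 + (μ : A) ^ 2 * a3) = W := by
  have : FaithfulSMul R A := (faithfulSMul_iff_algebraMap_injective R A).2 hinj
  have : Module.Finite R A := ⟨by
    rw [← hspan]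
    exact Submodule.fg_span (Set.finite_range m)⟩
  let : Algebra (FractionRing R) (FractionRing A) := FractionRing.liftAlgebra R (FractionRing A)
  have : IsScalarTower R (FractionRing R) (FractionRing A) :=
    FractionRing.isScalarTower_liftAlgebra R (FractionRing A)
  have hint : ∀ a : A, IsIntegral R a := fun a => Algebra.IsIntegral.isIntegral a
  have htow : ∀ r : R, algebraMap A (FractionRing A) (algebraMap R A r) =
      algebraMap (FractionRing R) (FractionRing A) (algebraMap R (FractionRing R) r) := by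
    intro r
    rw [← IsScalarTower.algebraMap_apply, ← IsScalarTower.algebraMap_apply]
  have hV : Submodule.span (FractionRing R)
      (Set.range (fun i => algebraMap A (FractionRing A) (m i))) = ⊤ := by
    obtain ⟨V, hVd⟩ : ∃ V : Submodule (FractionRing R) (FractionRing A), V =
      Submodule.span (FractionRing R) (Set.range (fun i => algebraMap A (FractionRing A) (m i))) :=
      ⟨_, rfl⟩
    rw [← hVd]
    have h1 : ∀ a : A, algebraMap A (FractionRing A) a ∈ V := by
      intro a
      have ha : a ∈ Submodule.span R (Set.range m) := by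
        rw [hspan]
        exact Submodule.mem_top
      induction ha using Submodule.span_induction with
      | mem x h =>
        obtain ⟨y, rfl⟩ := h
        rw [hVd]
        exact Submodule.subset_span ⟨y, rfl⟩
      | zero => rw [map_zero]; exact V.zero_mem
      | add x y _ _ h1 h2 => rw [map_add]; exact V.add_mem h1 h2
      | smul r x _ h1 =>
        rw [Algebra.smul_def, map_mul, htow, ← Algebra.smul_def]
        exact V.smul_mem _ h1
    rw [eq_top_iff]
    intro x _
    obtain ⟨a, b, hb, rfl⟩ := IsFractionRing.div_surjective (A := A) x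
    obtain ⟨r, hr, c, hc⟩ := IsAlgebraic.exists_nonzero_dvd (hint b).isAlgebraic hb
    have hb0 : algebraMap A (FractionRing A) b ≠ 0 := by
      intro h
      have h2 : algebraMap A (FractionRing A) b = algebraMap A (FractionRing A) 0 := by rw [h, map_zero]
      exact nonZeroDivisors.ne_zero hb (IsFractionRing.injective A (FractionRing A) h2)
    have hr0 : algebraMap R (FractionRing R) r ≠ 0 := by
      intro h
      have h2 : algebraMap R (FractionRing R) r = algebraMap R (FractionRing R) 0 := by rw [h, map_zero]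
      exact hr (IsFractionRing.injective R (FractionRing R) h2)
    have h3 : algebraMap A (FractionRing A) a / algebraMap A (FractionRing A) b =
        (algebraMap R (FractionRing R) r)⁻¹ • algebraMap A (FractionRing A) (a * c) := by
      rw [Algebra.smul_def, map_inv₀, ← htow, hc, map_mul, map_mul]
      have hc0 : algebraMap A (FractionRing A) c ≠ 0 := by
        intro h
        have h4 : algebraMap A (FractionRing A) (algebraMap R A r) = 0 := by
          rw [hc, map_mul, h, mul_zero]
        rw [htow] at h4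
        have h5 : algebraMap R (FractionRing R) r = 0 :=
          (algebraMap (FractionRing R) (FractionRing A)).injective (by rw [h4, map_zero])
        exact hr0 h5
      field_simp
    rw [h3]
    exact V.smul_mem _ (h1 _)
  have : Module.Finite (FractionRing R) (FractionRing A) := ⟨by
    rw [← hV]
    exact Submodule.fg_span (Set.finite_range _)⟩
  have hrank : Module.finrank (FractionRing R) (FractionRing A) ≤ Fintype.card κ := by
    have h1 := finrank_range_le_card (R := FractionRing R)
      (fun i => algebraMap A (FractionRing A) (m i))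
    rw [Set.finrank, hV, finrank_top] at h1
    exact h1
  have : CharZero (FractionRing R) := IsFractionRing.charZero R
  have hadj : IntermediateField.adjoin (FractionRing R) {algebraMap A (FractionRing A) a1,
      algebraMap A (FractionRing A) a2, algebraMap A (FractionRing A) a3} = ⊤ := by
    obtain ⟨E, hE⟩ : ∃ E : IntermediateField (FractionRing R) (FractionRing A), E =
      IntermediateField.adjoin (FractionRing R) {algebraMap A (FractionRing A) a1,
      algebraMap A (FractionRing A) a2, algebraMap A (FractionRing A) a3} := ⟨_, rfl⟩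
    rw [← hE]
    have hsub : ∀ y ∈ ({algebraMap A (FractionRing A) a1, algebraMap A (FractionRing A) a2,
        algebraMap A (FractionRing A) a3} : Set (FractionRing A)), y ∈ E := by
      intro y hy
      rw [hE]
      exact IntermediateField.subset_adjoin _ _ hy
    have hS : (E.toSubfield.toSubring.comap (algebraMap A (FractionRing A))) = ⊤ := by
      refine hgen _ ?_ ?_ ?_ ?_
      · rintro _ ⟨r, rfl⟩
        show algebraMap A (FractionRing A) (algebraMap R A r) ∈ E
        rw [htow]
        exact E.algebraMap_mem _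
      · exact hsub _ (by simp)
      · exact hsub _ (by simp)
      · exact hsub _ (by simp)
    have hall : ∀ a : A, algebraMap A (FractionRing A) a ∈ E := by
      intro a
      have h1 : a ∈ (E.toSubfield.toSubring.comap (algebraMap A (FractionRing A))) := by
        rw [hS]
        exact Subring.mem_top a
      exact h1
    rw [eq_top_iff]
    intro x _
    obtain ⟨a, b, _, rfl⟩ := IsFractionRing.div_surjective (A := A) x
    exact E.div_mem (hall a) (hall b)
  obtain ⟨μ, hμ, hprim⟩ := small_prim (FractionRing R) (FractionRing A) (Fintype.card κ) hrank _ _ _ hadj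
  have hw : algebraMap A (FractionRing A) a1 + (μ : FractionRing A) * algebraMap A (FractionRing A) a2 +
      (μ : FractionRing A) ^ 2 * algebraMap A (FractionRing A) a3 =
      algebraMap A (FractionRing A) (a1 + (μ : A) * a2 + (μ : A) ^ 2 * a3) := by
    simp only [map_add, map_mul, map_pow, map_natCast]
  rw [hw] at hprim
  obtain ⟨w, hwd⟩ : ∃ w : A, w = a1 + (μ : A) * a2 + (μ : A) ^ 2 * a3 := ⟨_, rfl⟩
  rw [← hwd] at hprim
  have hf := minpoly.isIntegrallyClosed_eq_field_fractions (FractionRing R) (FractionRing A) (hint w)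
  refine ⟨μ, minpoly R w, hμ, minpoly.monic (hint w), minpoly.irreducible (hint w), ?_,
    minpoly.natDegree_pos (hint w), ?_, ?_⟩
  · have h1 := minpoly.natDegree_le (A := FractionRing R) (algebraMap A (FractionRing A) w)
    rw [hf, (minpoly.monic (hint w)).natDegree_map] at h1
    exact h1.trans hrank
  · rw [← hwd]
    exact minpoly.aeval R w
  · intro L _ _ hL W hW
    rw [← hwd]
    have : FaithfulSMul R L := (faithfulSMul_iff_algebraMap_injective R L).2 hL
    let : Algebra (FractionRing R) L := FractionRing.liftAlgebra R L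
    have : IsScalarTower R (FractionRing R) L := FractionRing.isScalarTower_liftAlgebra R L
    have hwi : IsIntegral (FractionRing R) (algebraMap A (FractionRing A) w) :=
      Algebra.IsIntegral.isIntegral _
    have hroot : aeval W (minpoly (FractionRing R) (IntermediateField.adjoin.powerBasis hwi).gen) = 0 := by
      rw [IntermediateField.adjoin.powerBasis_gen, IntermediateField.minpoly_gen, hf,
        aeval_map_algebraMap]
      exact hW
    let e1 := (IntermediateField.topEquiv (F := FractionRing R) (E := FractionRing A)).symm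
    let e2 := IntermediateField.equivOfEq hprim.symm
    let ψ0 := (IntermediateField.adjoin.powerBasis hwi).lift W hroot
    let ψM : FractionRing A →ₐ[FractionRing R] L := (ψ0.comp e2.toAlgHom).comp e1.toAlgHom
    refine ⟨(ψM.restrictScalars R).comp (IsScalarTower.toAlgHom R A (FractionRing A)), ?_⟩
    show ψM (algebraMap A (FractionRing A) w) = W
    have h1 : e2 (e1 (algebraMap A (FractionRing A) w)) =
        IntermediateField.AdjoinSimple.gen (FractionRing R) (algebraMap A (FractionRing A) w) := by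
      apply Subtype.ext
      rfl
    show ψ0 (e2 (e1 (algebraMap A (FractionRing A) w))) = W
    rw [h1, ← IntermediateField.adjoin.powerBasis_gen hwi]
    exact PowerBasis.lift_gen _ W hroot

private theorem prb_deg {S : Type} [CommRing S] {T : Type} [CommRing T] [Nontrivial T] (g : S[X])
    (hg : g.Monic) (φ : S →+* T) (a : T) (h : g.eval₂ φ a = 0) : 0 < g.natDegree ∧
      a ^ g.natDegree = ∑ t ∈ range g.natDegree, (-φ (g.coeff t)) * a ^ t := by
  have h1 := congrArg (fun p => p.eval₂ φ a) hg.as_sum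
  simp only [h, eval₂_add, eval₂_pow, eval₂_X, eval₂_finsetSum, eval₂_mul, eval₂_C] at h1
  have h2 : a ^ g.natDegree = ∑ t ∈ range g.natDegree, (-φ (g.coeff t)) * a ^ t := by
    simp only [neg_mul]
    rw [Finset.sum_neg_distrib]
    exact eq_neg_of_add_eq_zero_left h1.symm
  refine ⟨?_, h2⟩
  rcases Nat.eq_zero_or_pos g.natDegree with h0 | h0
  · rw [h0, Finset.range_zero, Finset.sum_empty, pow_zero] at h2
    exact absurd h2 one_ne_zero
  · exact h0

theorem plane_model (A : Type) [CommRing A] [IsDomain A] (ι : ℤ[X] →+* A)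
    (hι : Function.Injective ι) (a1 a2 a3 : A) (g1 : ℤ[X][X]) (g2 g3 : ℤ[X][X][X])
    (h1 : g1.Monic) (h2 : g2.Monic) (h3 : g3.Monic) (e1 : Lam (ι X) a1 g1 = 0)
    (e2 : g2.eval₂ (Lam (ι X) a1) a2 = 0) (e3 : g3.eval₂ (Lam (ι X) a1) a3 = 0)
    (hgen : ∀ S : Subring A, ι.range ≤ S → a1 ∈ S → a2 ∈ S → a3 ∈ S → S = ⊤) :
    ∃ (μ : ℕ) (f : ℤ[X][X]), μ ≤ (g1.natDegree * g2.natDegree * g3.natDegree) ^ 2 ∧ f.Monic ∧
      Irreducible f ∧ f.natDegree ≤ g1.natDegree * g2.natDegree * g3.natDegree ∧
      1 ≤ f.natDegree ∧ Lam (ι X) (a1 + (μ : A) * a2 + (μ : A) ^ 2 * a3) f = 0 ∧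
      ∀ (L : Type) [Field L] [CharZero L] (U W : L),
        (∀ q : ℤ[X], q ≠ 0 → q.eval₂ (Int.castRingHom L) U ≠ 0) → Lam U W f = 0 →
        ∃ ψ : A →+* L, ψ (ι X) = U ∧ ψ (a1 + (μ : A) * a2 + (μ : A) ^ 2 * a3) = W := by
  let : Algebra ℤ[X] A := ι.toAlgebra
  have halg : algebraMap ℤ[X] A = ι := rfl
  have hLam : ∀ (a : A) (p : ℤ[X][X]), Lam (ι X) a p = aeval a p := by
    intro a p
    have h0 : (eval₂RingHom (Int.castRingHom A) (ι X)) = ι := by
      apply Polynomial.ringHom_ext
      · intro n
        simp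
      · simp
    unfold Lam
    rw [h0]
    rfl
  obtain ⟨d1, r1⟩ := prb_deg g1 h1 (algebraMap ℤ[X] A) a1 (by rw [← e1, hLam]; rfl)
  obtain ⟨d2, r2⟩ := prb_deg g2 h2 (Lam (ι X) a1) a2 e2
  obtain ⟨d3, r3⟩ := prb_deg g3 h3 (Lam (ι X) a1) a3 e3
  have hmem : ∀ p : ℤ[X][X], -(Lam (ι X) a1 p) ∈ Algebra.adjoin ℤ[X] {a1} := by
    intro p
    rw [hLam]
    exact neg_mem (aeval_mem_adjoin_singleton _ _)
  have hgen' : ∀ S : Subring A, (algebraMap ℤ[X] A).range ≤ S → a1 ∈ S → a2 ∈ S → a3 ∈ S → S = ⊤ :=
    hgen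
  have hspan := prb_span ℤ[X] A a1 a2 a3 g1.natDegree g2.natDegree g3.natDegree d1 d2 d3
    (fun t => -(g1.coeff t)) (fun t => -(Lam (ι X) a1 (g2.coeff t)))
    (fun t => -(Lam (ι X) a1 (g3.coeff t))) (fun t => hmem _) (fun t => hmem _)
    (by simpa only [map_neg] using r1) r2 r3 hgen'
  obtain ⟨μ, f, hμ, hfm, hfi, hfd, hf1, hfw, hlift⟩ := prb_core ℤ[X] A hι a1 a2 a3 _ _ hspan hgen'
  have hcard : Fintype.card (Fin g1.natDegree × Fin g2.natDegree × Fin g3.natDegree) =
      g1.natDegree * g2.natDegree * g3.natDegree := by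
    simp only [Fintype.card_prod, Fintype.card_fin]
    ring
  rw [hcard] at hμ hfd
  refine ⟨μ, f, hμ, hfm, hfi, hfd, hf1, ?_, ?_⟩
  · rw [hLam]
    exact hfw
  · intro L _ _ U W hU hW
    let : Algebra ℤ[X] L := (eval₂RingHom (Int.castRingHom L) U).toAlgebra
    have hinj : Function.Injective (algebraMap ℤ[X] L) := by
      rw [injective_iff_map_eq_zero]
      intro q hq
      by_contra hne
      exact hU q hne hq
    obtain ⟨ψ, hψ⟩ := hlift L hinj W hW
    refine ⟨ψ.toRingHom, ?_, hψ⟩
    show ψ (algebraMap ℤ[X] A X) = U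
    rw [ψ.commutes]
    show (eval₂RingHom (Int.castRingHom L) U) X = U
    simp

end Pool.Agent.H97.NW
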