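import Pool.Agent.H97.NW.CMA
import Pool.Agent.H97.NW.PRB

/-! # [H97 NW COV] A plane model of a covering through an integer point

`exists_dom`, then `plane_model`. `Lam u0 w0 f = ev (Lam (ι X) w f) = 0` (`ev ∘ Lam (ι X) w = Lam u0 (ev w)` as ring homomorphisms on `ℤ[X][X]`; `ev w = s1 + μ s2 + μ^2 s3`). The last part: `Z_i = ψ a_i` and `ψ` of the equations `e1, e2, e3`
(`ψ (g.eval₂ (Lam (ι X) a1) a) = g.eval₂ (Lam U (ψ a1)) (ψ a)`, `hom_eval₂`, `ψ ∘ Lam (ι X) a1 = Lam U (ψ a1)`). -/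

namespace Pool.Agent.H97.NW

open Finset Polynomial Pool.Agent.H72.ES

theorem cov_comp {A S : Type} [CommRing A] [CommRing S] (ψ : A →+* S) (x y : A) :
    ψ.comp (Lam x y) = Lam (ψ x) (ψ y) := by
  refine Polynomial.ringHom_ext' (Polynomial.ringHom_ext' (RingHom.ext_int _ _) ?_) ?_
  · simp [Lam]
  · simp [Lam]

theorem cov_Lam {A S : Type} [CommRing A] [CommRing S] (ψ : A →+* S) (x y : A) (f : ℤ[X][X]) :
    Lam (ψ x) (ψ y) f = ψ (Lam x y f) := by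
  rw [← cov_comp ψ x y]
  rfl

theorem cov_eval {A S : Type} [CommRing A] [CommRing S] (ψ : A →+* S) (x y z : A)
    (g : ℤ[X][X][X]) : g.eval₂ (Lam (ψ x) (ψ y)) (ψ z) = ψ (g.eval₂ (Lam x y) z) := by
  rw [hom_eval₂, cov_comp ψ x y]

theorem cover (g1 : ℤ[X][X]) (g2 g3 : ℤ[X][X][X]) (h1 : g1.Monic) (h2 : g2.Monic)
    (h3 : g3.Monic) (u0 s1 s2 s3 : ℤ) (e1 : Lam u0 s1 g1 = 0) (e2 : g2.eval₂ (Lam u0 s1) s2 = 0)
    (e3 : g3.eval₂ (Lam u0 s1) s3 = 0) :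
    ∃ (μ : ℕ) (f : ℤ[X][X]), μ ≤ (g1.natDegree * g2.natDegree * g3.natDegree) ^ 2 ∧ f.Monic ∧
      Irreducible f ∧ f.natDegree ≤ g1.natDegree * g2.natDegree * g3.natDegree ∧
      1 ≤ f.natDegree ∧ Lam u0 (s1 + μ * s2 + μ ^ 2 * s3) f = 0 ∧
      ∀ (L : Type) [Field L] [CharZero L] (U W : L),
        (∀ q : ℤ[X], q ≠ 0 → q.eval₂ (Int.castRingHom L) U ≠ 0) → Lam U W f = 0 →
        ∃ Z1 Z2 Z3 : L, Lam U Z1 g1 = 0 ∧ g2.eval₂ (Lam U Z1) Z2 = 0 ∧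
          g3.eval₂ (Lam U Z1) Z3 = 0 ∧ W = Z1 + μ * Z2 + μ ^ 2 * Z3 := by
  obtain ⟨A, iA, iD, ι, a1, a2, a3, ev, hι, hev, hs1, hs2, hs3, f1, f2, f3, hgen⟩ :=
    exists_dom g1 g2 g3 h1 h2 h3 u0 s1 s2 s3 e1 e2 e3
  obtain ⟨μ, f, hμ, hmon, hirr, hdeg, hdeg1, hw, hL⟩ :=
    plane_model A ι hι a1 a2 a3 g1 g2 g3 h1 h2 h3 f1 f2 f3 hgen
  refine ⟨μ, f, hμ, hmon, hirr, hdeg, hdeg1, ?_, ?_⟩
  · have h4 := cov_Lam ev (ι X) (a1 + (μ : A) * a2 + (μ : A) ^ 2 * a3) f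
    rw [hw, map_zero, hev, eval_X, map_add, map_add, map_mul, map_mul, map_pow, map_natCast, hs1,
      hs2, hs3] at h4
    exact h4
  · intro L _ _ U W hU hW
    obtain ⟨ψ, hψ1, hψ2⟩ := hL L U W hU hW
    refine ⟨ψ a1, ψ a2, ψ a3, ?_, ?_, ?_, ?_⟩
    · rw [← hψ1, cov_Lam, f1, map_zero]
    · rw [← hψ1, cov_eval, f2, map_zero]
    · rw [← hψ1, cov_eval, f3, map_zero]
    · rw [← hψ2, map_add, map_add, map_mul, map_mul, map_pow, map_natCast]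

end Pool.Agent.H97.NW
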