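import Pool.Agent.H97.NW.SIE
import Pool.Agent.H97.NW.CNT
import Pool.Agent.H97.NW.CEL
import Pool.Agent.H52.AC.UB

/-! # [H97 NW AUXA] The auxiliary function

As `aux_exists` (`Pool/Agent/H52/AC/SGE.lean`). `siegel_gen` with `ι = Mo P N`, `C = {K // K ∈ cells ℓ TT}`,
`P = {p // p ∈ PP}`, `V K p μ = ∑_(r : ∀ v, Fin e_v) ∏_v coeff (e_v K_v + r_v) (uu .. (x (p v)) (D v) (μ v).1 (μ v).2)`,
so that `∑_μ A μ V K p μ = Vm P D N A p K` (`Finset.sum_comm`). `cj p = (c_v (p v))_v` with `exists_cj`; `cj p ∈ PP` by `hst.1`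
with `σ = (starRingEnd ℂ).comp (algebraMap AA ℂ)`; `hconj` by `coeff_uu_conj`. Bound: `‖coeff k (uu ..)‖ ≤ (2 q R)^(k + b)`
(`uu_le` of `UB.lean`, with `pd.growth`), `b ≤ n`, `k < e_v (K_v + 1)`, so `‖V K p μ‖ ≤ ∏_v e_v (2 q R)^(e_v (K_v+1) + n) ≤ B`
(`Finset.prod_univ_sum` or: the sum over `r` of products is the product of the sums), and `M = card * B`. `1 ≤ B`: take `K = 0`
(`0 < TT`). Then `cell_zero_m`, and for `k` arbitrary take `K_v = k_v / e_v`, `r_v = k_v % e_v`, `mem_cells`. -/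

namespace Pool.Agent.H97.NW

open Finset Polynomial Pool.Agent.H72.ES Pool.Agent.H87.SA2 Pool.Agent.H8.AW Pool.Agent.H52.AC

variable {m n : ℕ}

theorem auxA (P : Fin m → Ptd n) (PP : Finset (∀ v, Fin (P v).d)) (hst : Stb P PP)
    (D N : Fin m → ℕ) (hN : ∀ v, 1 ≤ N v) (ℓ : Fin m → ℝ) (hℓ : ∀ v, 0 < ℓ v) (TT : ℝ)
    (hTT : 0 < TT) (r : ℕ) (hr : 1 ≤ r)
    (hcount : (r + 1) * (PP.card * (cells ℓ TT).card) ≤ r * ∏ v, (N v * (P v).d)) (B : ℝ)
    (hB : ∀ K ∈ cells ℓ TT, ∏ v, (((P v).C.pd.e : ℝ) *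
      (2 * (P v).C.pd.q * (P v).C.pd.R) ^ ((P v).C.pd.e * (K v + 1) + n)) ≤ B) :
    ∃ A : Mo P N → ℤ, A ≠ 0 ∧ (∀ μ, |(A μ : ℝ)| ≤ (4 * ((∏ v, (N v * (P v).d) : ℕ) * B)) ^ r) ∧
      ∀ p ∈ PP, ∀ k : Fin m → ℕ, ∑ v, ℓ v * ((k v / (P v).C.pd.e : ℕ) : ℝ) < TT →
        Bm P D N A p k = 0 := by
  classical
  choose c hc1 hc2 using fun v => exists_cj (P v)
  have hq1 : ∀ v, (1 : ℝ) ≤ (P v).C.pd.q := fun v => by exact_mod_cast (P v).C.pd.q_pos
  have hR1 : ∀ v, (2 : ℝ) ≤ (P v).C.pd.R := fun v => (P v).C.pd.R_ge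
  have he1 : ∀ v, (1 : ℝ) ≤ (P v).C.pd.e := fun v => by exact_mod_cast (P v).C.pd.e_pos
  have hX1 : ∀ v, (1 : ℝ) ≤ 2 * (P v).C.pd.q * (P v).C.pd.R := fun v => by
    have h1 := hq1 v
    have h2 := hR1 v
    nlinarith
  -- conjugation
  have hcm : ∀ p ∈ PP, (fun v => c v (p v)) ∈ PP := by
    intro p hp
    refine hst.1 ((starRingEnd ℂ).comp (algebraMap AA ℂ)) p hp _ ?_
    intro v k a ha
    rw [hc2 v (p v) k, ← ha]
    rfl
  let cj : {p // p ∈ PP} → {p // p ∈ PP} := fun p => ⟨fun v => c v (p.1 v), hcm p.1 p.2⟩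
  have hcj : ∀ p, cj (cj p) = p := by
    intro p
    apply Subtype.ext
    funext v
    exact hc1 v _
  let V : {K // K ∈ cells ℓ TT} → {p // p ∈ PP} → Mo P N → ℂ := fun K p μ =>
    ∑ r : (∀ v, Fin (P v).C.pd.e), ∏ v, PowerSeries.coeff ((P v).C.pd.e * K.1 v + (r v : ℕ))
      (uu (P v).C.pd.q (P v).C.pd.e ((P v).C.pd.x (p.1 v)) (D v) (μ v).1 (μ v).2)
  have hconj : ∀ K p μ, V K (cj p) μ = (starRingEnd ℂ) (V K p μ) := by
    intro K p μ
    simp only [V]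
    rw [map_sum]
    refine Finset.sum_congr rfl fun r _ => ?_
    rw [map_prod]
    refine Finset.prod_congr rfl fun v _ => ?_
    exact coeff_uu_conj _ _ (hc2 v (p.1 v)) _ _ _ _
  have hVn : ∀ K p μ, ‖V K p μ‖ ≤ B := by
    intro K p μ
    refine le_trans ?_ (hB K.1 K.2)
    simp only [V]
    refine (norm_sum_le _ _).trans ?_
    have h1 : ∀ r ∈ (Finset.univ : Finset (∀ v, Fin (P v).C.pd.e)),
        ‖∏ v, PowerSeries.coeff ((P v).C.pd.e * K.1 v + (r v : ℕ))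
        (uu (P v).C.pd.q (P v).C.pd.e ((P v).C.pd.x (p.1 v)) (D v) (μ v).1 (μ v).2)‖ ≤
        ∏ v, (2 * ((P v).C.pd.q : ℝ) * (P v).C.pd.R) ^ ((P v).C.pd.e * (K.1 v + 1) + n) := by
      intro r _
      rw [norm_prod]
      refine Finset.prod_le_prod (fun v _ => norm_nonneg _) fun v _ => ?_
      refine (uu_le (P v).C.pd.q_pos (by linarith [hR1 v]) ((P v).C.pd.growth (p.1 v)) _ _ _ _).trans ?_
      apply pow_le_pow_right₀ (hX1 v)
      have h2 : ((μ v).2 : ℕ) < (P v).d := (μ v).2.2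
      have h3 := (P v).C.dn
      have h4 : (r v : ℕ) < (P v).C.pd.e := (r v).2
      have h5 : (P v).C.pd.e * (K.1 v + 1) = (P v).C.pd.e * K.1 v + (P v).C.pd.e := by ring
      omega
    refine (Finset.sum_le_sum h1).trans (le_of_eq ?_)
    rw [Finset.sum_const, Finset.card_univ, Fintype.card_pi, nsmul_eq_mul]
    push_cast
    rw [← Finset.prod_mul_distrib]
    refine Finset.prod_congr rfl fun v _ => ?_
    rw [Fintype.card_fin]
  have hcard : Fintype.card (Mo P N) = ∏ v, (N v * (P v).d) := by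
    rw [Fintype.card_pi]
    refine Finset.prod_congr rfl fun v _ => ?_
    rw [Fintype.card_prod, Fintype.card_fin, Fintype.card_fin]
  have hcard0 : 0 < Fintype.card (Mo P N) := by
    rw [hcard]
    refine Finset.prod_pos fun v _ => ?_
    exact Nat.mul_pos (hN v) (P v).C.d1
  have hB1 : 1 ≤ B := by
    have h0 : (fun _ => 0 : Fin m → ℕ) ∈ cells ℓ TT := by
      rw [mem_cells hℓ]
      simpa using hTT
    refine le_trans ?_ (hB _ h0)
    refine Finset.prod_induction _ (fun x : ℝ => 1 ≤ x)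
      (fun a b ha hb => one_le_mul_of_one_le_of_one_le ha hb) le_rfl fun v _ => ?_
    exact one_le_mul_of_one_le_of_one_le (he1 v) (one_le_pow₀ (hX1 v))
  have hM1 : 1 ≤ ((∏ v, (N v * (P v).d) : ℕ) : ℝ) * B := by
    apply one_le_mul_of_one_le_of_one_le _ hB1
    rw [← hcard]
    exact_mod_cast hcard0
  obtain ⟨A, hA0, hAb, hAs⟩ := siegel_gen V cj hcj hconj hM1
    (by
      intro K p
      calc ∑ μ, ‖V K p μ‖ ≤ ∑ _μ : Mo P N, B := Finset.sum_le_sum fun μ _ => hVn K p μ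
        _ = ((∏ v, (N v * (P v).d) : ℕ) : ℝ) * B := by
            rw [Finset.sum_const, Finset.card_univ, nsmul_eq_mul, hcard]) hr
    (by
      rw [Fintype.card_coe, Fintype.card_coe, hcard]
      exact hcount) hcard0
  refine ⟨A, hA0, hAb, ?_⟩
  intro p hp k hk
  have hmem : (fun v => k v / (P v).C.pd.e) ∈ cells ℓ TT := (mem_cells hℓ).2 hk
  have hsmall : ∀ p ∈ PP, ‖Vm P D N A p (fun v => k v / (P v).C.pd.e)‖ < 1 := by
    intro p hp
    have h1 := hAs ⟨_, hmem⟩ ⟨p, hp⟩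
    have h2 : Vm P D N A p (fun v => k v / (P v).C.pd.e) =
        ∑ μ, (A μ : ℂ) * V ⟨_, hmem⟩ ⟨p, hp⟩ μ := by
      unfold Vm Bm
      rw [Finset.sum_comm]
      refine Finset.sum_congr rfl fun μ _ => ?_
      rw [← Finset.mul_sum]
    rw [h2]
    exact h1
  have h3 := cell_zero_m P PP hst D N A _ hsmall p hp
    (fun v => ⟨k v % (P v).C.pd.e, Nat.mod_lt _ (P v).C.pd.e_pos⟩)
  have h4 : (fun v => (P v).C.pd.e * (k v / (P v).C.pd.e) + k v % (P v).C.pd.e) = k := by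
    funext v
    exact Nat.div_add_mod _ _
  simp only [h4] at h3
  exact h3

end Pool.Agent.H97.NW
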