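import Pool.Agent.H97.NW.AUXA
import Pool.Agent.H97.NW.CNB

/-! # [H97 NW AUXB] The auxiliary function with the bound `exp (δ Y)`

`η, K0, r` from `count_num`. Apply `auxA` with `D = Df P Y`, `N = Nf P Y`, `ℓ_v = ell`, `TT = (m + η) Y` and
`B = exp (∑_v (log e_v + (e_v (K_v + 1) + n) log (2 q R)))` bounded as follows. `Thr c`: `c log b ≤ ell`, so with
`2 q R ≤ 2 b² ≤ b³`: `log (2 q R) ≤ 3 ell_v / c`. `e_v ≤ n!` (`e_le`, `d ≤ n`). `ell_v K_v ≤ (m + η) Y` on cells. So
`log B ≤ m log n! + (3/c) ∑_v (n! (ell_v K_v + ell_v) + n ell_v) ≤ m log n! + (3/c) (n! (m+1) Y + (n! + n) m Y)`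
(`∑_v ell_v K_v < (m+η) Y ≤ (m+1) Y`, `ell_v ≤ Y`). The number of unknowns: `log ∏ Nf v d_v ≤ ∑_v log ((Y/ell_v + 1) n) ≤
∑_v (log n + Y/ell_v)`, and `Y / ell_v ≤ Y / (c log 2)` as `ell_v ≥ c log b ≥ c log 2`. Constants: `1 ≤ Y / (c log 2)` since `Y ≥ ell_v`
(so `C ≤ C Y / (c log 2)`). Altogether `r (log 4 + log card + log B) ≤ (C(m,n,r) / c) Y ≤ δ Y` for `c ≥ C / δ`. -/

namespace Pool.Agent.H97.NW

open Finset

/-- one factor -/
private theorem auxB_one {n : ℕ} (P : Ptd n) (c : ℕ) (hc : 1 ≤ c) (h : P.Thr c) (K : ℕ) :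
    (P.C.pd.e : ℝ) * (2 * P.C.pd.q * P.C.pd.R) ^ (P.C.pd.e * (K + 1) + n) ≤
      Real.exp (Real.log n.factorial + 3 / c * (n.factorial * (P.ell * K) + (n.factorial + n) * P.ell)) := by
  have hcr : (1 : ℝ) ≤ c := by exact_mod_cast hc
  have hb2 : (2 : ℝ) ≤ P.b := by exact_mod_cast P.C.b2
  have hell : c * Real.log P.b ≤ P.ell := by
    unfold Ptd.ell
    rw [← Real.log_pow]
    exact Real.log_le_log (by positivity) h
  have hlb : Real.log P.b ≤ P.ell / c := by
    rw [le_div_iff₀ (by linarith)]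
    linarith
  have hlb0 : 0 ≤ Real.log P.b := Real.log_nonneg (by linarith)
  have hq : (P.C.pd.q : ℝ) ≤ P.b := by exact_mod_cast P.C.q_le
  have hq0 : (1 : ℝ) ≤ P.C.pd.q := by exact_mod_cast P.C.pd.q_pos
  have hR := P.C.R_le
  have hR2 := P.C.pd.R_ge
  have h1 : 2 * (P.C.pd.q : ℝ) * P.C.pd.R ≤ Real.exp (3 * P.ell / c) := by
    have e1 : 2 * (P.C.pd.q : ℝ) * P.C.pd.R ≤ P.b * P.b * P.b := by
      apply mul_le_mul _ hR (by linarith) (by positivity)
      exact mul_le_mul hb2 hq (by linarith) (by linarith)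
    have e2 : (P.b : ℝ) * P.b * P.b = Real.exp (3 * Real.log P.b) := by
      rw [show (3 : ℝ) * Real.log P.b = Real.log P.b + Real.log P.b + Real.log P.b by ring, Real.exp_add, Real.exp_add,
        Real.exp_log (by linarith)]
    rw [e2] at e1
    refine e1.trans (Real.exp_le_exp.2 ?_)
    have e3 : 3 * P.ell / c = 3 * (P.ell / c) := by ring
    rw [e3]
    linarith
  have h0 : 0 ≤ 2 * (P.C.pd.q : ℝ) * P.C.pd.R := by
    have : 0 ≤ P.C.pd.R := by linarith
    positivity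
  have hfac : P.C.pd.e ≤ n.factorial := P.C.e_le.trans (Nat.factorial_le P.C.dn)
  have h2 : P.C.pd.e * (K + 1) + n ≤ n.factorial * (K + 1) + n := by
    have := Nat.mul_le_mul_right (K + 1) hfac
    omega
  have h3 : (2 * (P.C.pd.q : ℝ) * P.C.pd.R) ^ (P.C.pd.e * (K + 1) + n) ≤
      Real.exp (3 * P.ell / c) ^ (n.factorial * (K + 1) + n) := by
    refine (pow_le_pow_left₀ h0 h1 _).trans ?_
    apply pow_le_pow_right₀ _ h2
    apply Real.one_le_exp
    have : 0 ≤ P.ell / c := hlb0.trans hlb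
    have e3 : 3 * P.ell / c = 3 * (P.ell / c) := by ring
    rw [e3]
    linarith
  have h4 : (P.C.pd.e : ℝ) ≤ Real.exp (Real.log n.factorial) := by
    rw [Real.exp_log (by exact_mod_cast Nat.factorial_pos n)]
    exact_mod_cast hfac
  rw [← Real.exp_nat_mul] at h3
  refine (mul_le_mul h4 h3 (pow_nonneg h0 _) (Real.exp_pos _).le).trans (le_of_eq ?_)
  rw [← Real.exp_add]
  congr 1
  push_cast
  ring

theorem auxB (m n : ℕ) (hm : 1 ≤ m) (hn : 1 ≤ n) (γ : ℝ) (hγ : 0 < γ) : ∃ η K0 : ℝ,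
    0 < η ∧ η ≤ 1 ∧ 1 ≤ K0 ∧ ∀ δ : ℝ, 0 < δ → ∃ c : ℕ, ∀ (P : Fin m → Ptd n)
      (PP : Finset (∀ v, Fin (P v).d)), Stb P PP →
      (1 + γ) * ((m : ℝ) ^ m * PP.card) ≤ (m.factorial : ℝ) * ∏ v, ((P v).d : ℝ) →
      (∀ v, (P v).Thr c) → ∀ Y : ℝ, (∀ v, K0 * (P v).ell ≤ Y) →
      (∀ v, 1 ≤ Nf P Y v) ∧ ∃ A : Mo P (Nf P Y) → ℤ, A ≠ 0 ∧
        (∀ μ, |(A μ : ℝ)| ≤ Real.exp (δ * Y)) ∧
        ∀ p ∈ PP, ∀ k : Fin m → ℕ,
          ∑ v, (P v).ell * ((k v / (P v).C.pd.e : ℕ) : ℝ) < (m + η) * Y →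
          Bm P (Df P Y) (Nf P Y) A p k = 0 := by
  obtain ⟨η, K0, r, hη, hη1, hK0, hr, H⟩ := count_num m n hm γ hγ
  refine ⟨η, K0, hη, hη1, hK0, ?_⟩
  intro δ hδ
  obtain ⟨f, hf⟩ : ∃ f : ℝ, f = (n.factorial : ℝ) := ⟨_, rfl⟩
  have hf1 : 1 ≤ f := by
    rw [hf]
    exact_mod_cast Nat.factorial_pos n
  have hlf : 0 ≤ Real.log f := Real.log_nonneg hf1
  have hnr : (1 : ℝ) ≤ n := by exact_mod_cast hn
  have hmr : (1 : ℝ) ≤ m := by exact_mod_cast hm
  have hln : 0 ≤ Real.log n := Real.log_nonneg hnr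
  obtain ⟨C1, hC1⟩ : ∃ C1 : ℝ, C1 = 2 * m * Real.log f + 3 * (f * (m + 1) + (f + n) * m) := ⟨_, rfl⟩
  have hC10 : 0 ≤ C1 := by
    rw [hC1]
    positivity
  obtain ⟨C2, hC2⟩ : ∃ C2 : ℝ, C2 = 4 + 2 * m * Real.log n + 2 * m + C1 := ⟨_, rfl⟩
  have hC20 : 0 ≤ C2 := by
    rw [hC2]
    positivity
  obtain ⟨c0, hc0⟩ := exists_nat_ge (r * C2 / δ)
  refine ⟨max c0 1, ?_⟩
  obtain ⟨c, hcdef⟩ : ∃ c, c = max c0 1 := ⟨_, rfl⟩
  rw [← hcdef]
  have hc1 : 1 ≤ c := by rw [hcdef]; exact le_max_right _ _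
  have hcc0 : (c0 : ℝ) ≤ c := by
    rw [hcdef]
    exact_mod_cast le_max_left _ _
  have hcr : (1 : ℝ) ≤ c := by exact_mod_cast hc1
  have hcδ : r * C2 ≤ δ * c := by
    have h1 := (div_le_iff₀ hδ).1 (hc0.trans hcc0)
    linarith
  intro P PP hst hcard hthr Y hY
  -- the size of ell
  have hl2 : (1 : ℝ) / 2 ≤ Real.log 2 := by
    have := Real.log_two_gt_d9
    linarith
  have hell : ∀ v, (c : ℝ) / 2 ≤ (P v).ell := by
    intro v
    have h1 : c * Real.log (P v).b ≤ (P v).ell := by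
      unfold Ptd.ell
      rw [← Real.log_pow]
      refine Real.log_le_log ?_ (hthr v)
      have : (0 : ℝ) < (P v).b := by
        have := (P v).C.b2
        exact_mod_cast (by omega : 0 < (P v).b)
      positivity
    have h2 : Real.log 2 ≤ Real.log (P v).b := by
      apply Real.log_le_log (by norm_num)
      exact_mod_cast (P v).C.b2
    have h3 : c * (1 / 2 : ℝ) ≤ c * Real.log (P v).b := mul_le_mul_of_nonneg_left (hl2.trans h2) (by linarith)
    linarith
  have hell0 : ∀ v, 0 < (P v).ell := fun v => lt_of_lt_of_le (by linarith) (hell v)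
  have hYell : ∀ v, (P v).ell ≤ Y := by
    intro v
    have h1 := hY v
    have h2 : 1 * (P v).ell ≤ K0 * (P v).ell := mul_le_mul_of_nonneg_right hK0 (hell0 v).le
    linarith
  have hYc : (1 : ℝ) ≤ 2 * Y / c := by
    rw [le_div_iff₀ (by linarith)]
    have h1 := hell ⟨0, by omega⟩
    have h2 := hYell ⟨0, by omega⟩
    linarith
  have hY0 : 0 < Y := lt_of_lt_of_le (hell0 ⟨0, by omega⟩) (hYell ⟨0, by omega⟩)
  have hYc0 : 0 ≤ Y / c := by positivity
  obtain ⟨hN, hcount⟩ := H P PP.card hcard hell0 Y hY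
  refine ⟨hN, ?_⟩
  have hTT : 0 < (m + η) * Y := by positivity
  have hB : ∀ K ∈ cells (fun v => (P v).ell) ((m + η) * Y), ∏ v, (((P v).C.pd.e : ℝ) *
      (2 * (P v).C.pd.q * (P v).C.pd.R) ^ ((P v).C.pd.e * (K v + 1) + n)) ≤ Real.exp (C1 * (Y / c)) := by
    intro K hK
    have hKs : ∑ v, (P v).ell * (K v : ℝ) < (m + η) * Y := by
      unfold cells at hK
      exact (Finset.mem_filter.1 hK).2
    have h1 : ∏ v, (((P v).C.pd.e : ℝ) * (2 * (P v).C.pd.q * (P v).C.pd.R) ^ ((P v).C.pd.e * (K v + 1) + n)) ≤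
        ∏ v, Real.exp (Real.log n.factorial + 3 / c * (n.factorial * ((P v).ell * K v) + (n.factorial + n) * (P v).ell)) := by
      apply Finset.prod_le_prod
      · intro v _
        have h2 := (P v).C.pd.R_ge
        have h3 : 0 ≤ (P v).C.pd.R := by linarith
        positivity
      · intro v _
        exact auxB_one (P v) c hc1 (hthr v) (K v)
    refine h1.trans ?_
    rw [← Real.exp_sum]
    apply Real.exp_le_exp.2
    rw [← hf, Finset.sum_add_distrib, ← Finset.mul_sum, Finset.sum_add_distrib, ← Finset.mul_sum, ← Finset.mul_sum,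
      Finset.sum_const, Finset.card_univ, Fintype.card_fin, nsmul_eq_mul]
    have h2 : ∑ v, (P v).ell ≤ m * Y := by
      refine (Finset.sum_le_sum fun v _ => hYell v).trans ?_
      rw [Finset.sum_const, Finset.card_univ, Fintype.card_fin, nsmul_eq_mul]
    have h3 : ∑ v, (P v).ell * (K v : ℝ) ≤ (m + 1) * Y := by
      refine hKs.le.trans (mul_le_mul_of_nonneg_right (by linarith) hY0.le)
    have h4 : f * ∑ v, (P v).ell * (K v : ℝ) + (f + n) * ∑ v, (P v).ell ≤ f * ((m + 1) * Y) + (f + n) * (m * Y) :=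
      add_le_add (mul_le_mul_of_nonneg_left h3 (by linarith)) (mul_le_mul_of_nonneg_left h2 (by linarith))
    have h5 := mul_le_mul_of_nonneg_left h4 (show (0 : ℝ) ≤ 3 / c by positivity)
    have h6 : (m : ℝ) * Real.log f * 1 ≤ m * Real.log f * (2 * Y / c) := mul_le_mul_of_nonneg_left hYc (by positivity)
    have h7 : C1 * (Y / c) = m * Real.log f * (2 * Y / c) + 3 / c * (f * ((m + 1) * Y) + (f + n) * (m * Y)) := by
      rw [hC1]
      ring
    rw [h7]
    linarith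
  obtain ⟨A, hA0, hA1, hA2⟩ := auxA P PP hst (Df P Y) (Nf P Y) hN (fun v => (P v).ell) hell0 ((m + η) * Y) hTT r hr hcount
    (Real.exp (C1 * (Y / c))) hB
  refine ⟨A, hA0, ?_, hA2⟩
  intro μ
  refine (hA1 μ).trans ?_
  -- the number of unknowns
  have hNd : ((∏ v, (Nf P Y v * (P v).d) : ℕ) : ℝ) ≤ Real.exp ((2 * m * Real.log n + 2 * m) * (Y / c)) := by
    push_cast
    have h1 : ∏ v, ((Nf P Y v : ℝ) * (P v).d) ≤ ∏ _v : Fin m, Real.exp ((2 * Real.log n + 2) * (Y / c)) := by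
      apply Finset.prod_le_prod
      · intro v _
        positivity
      · intro v _
        have h2 : (Nf P Y v : ℝ) ≤ Real.exp (2 * (Y / c)) := by
          have h3 : Nf P Y v ≤ Df P Y v := by
            unfold Nf
            have := (P v).C.d1
            omega
          have h4 : (Df P Y v : ℝ) ≤ Y / (P v).ell := by
            unfold Df
            exact Nat.floor_le (div_nonneg hY0.le (hell0 v).le)
          have h5 : Y / (P v).ell ≤ 2 * (Y / c) := by
            rw [show 2 * (Y / c) = Y / (c / 2) by field_simp]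
            exact div_le_div_of_nonneg_left hY0.le (by positivity) (hell v)
          have h6 : (Nf P Y v : ℝ) ≤ Df P Y v := by exact_mod_cast h3
          have h7 := Real.add_one_le_exp (2 * (Y / c))
          linarith
        have h8 : ((P v).d : ℝ) ≤ Real.exp (2 * Real.log n * (Y / c)) := by
          have h9 : ((P v).d : ℝ) ≤ n := by exact_mod_cast (P v).C.dn
          have h10 : (n : ℝ) = Real.exp (Real.log n) := (Real.exp_log (by linarith)).symm
          rw [h10] at h9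
          refine h9.trans (Real.exp_le_exp.2 ?_)
          have h11 : Real.log n * 1 ≤ Real.log n * (2 * Y / c) := mul_le_mul_of_nonneg_left hYc hln
          calc Real.log n = Real.log n * 1 := (mul_one _).symm
            _ ≤ Real.log n * (2 * Y / c) := h11
            _ = 2 * Real.log n * (Y / c) := by ring
        refine (mul_le_mul h2 h8 (Nat.cast_nonneg _) (Real.exp_pos _).le).trans (le_of_eq ?_)
        rw [← Real.exp_add]
        congr 1
        ring
    refine h1.trans (le_of_eq ?_)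
    rw [Finset.prod_const, Finset.card_univ, Fintype.card_fin, ← Real.exp_nat_mul]
    congr 1
    ring
  have h4 : (4 : ℝ) ≤ Real.exp (4 * (Y / c)) := by
    have h5 : (4 : ℝ) ≤ Real.exp 2 := by
      have h6 : Real.exp 2 = Real.exp 1 * Real.exp 1 := by
        rw [← Real.exp_add]
        norm_num
      have h7 : (2 : ℝ) ≤ Real.exp 1 := by
        have := Real.add_one_le_exp (1 : ℝ)
        linarith
      rw [h6]
      nlinarith
    refine h5.trans (Real.exp_le_exp.2 ?_)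
    have h6 : 2 * Y / c = 2 * (Y / c) := by ring
    rw [h6] at hYc
    linarith
  have h5 : 4 * (((∏ v, (Nf P Y v * (P v).d) : ℕ) : ℝ) * Real.exp (C1 * (Y / c))) ≤ Real.exp (C2 * (Y / c)) := by
    have h6 : ((∏ v, (Nf P Y v * (P v).d) : ℕ) : ℝ) * Real.exp (C1 * (Y / c)) ≤
        Real.exp ((2 * m * Real.log n + 2 * m) * (Y / c)) * Real.exp (C1 * (Y / c)) :=
      mul_le_mul_of_nonneg_right hNd (Real.exp_pos _).le
    refine (mul_le_mul h4 h6 (by positivity) (Real.exp_pos _).le).trans (le_of_eq ?_)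
    rw [← Real.exp_add, ← Real.exp_add, hC2]
    congr 1
    ring
  refine (pow_le_pow_left₀ (by positivity) h5 r).trans ?_
  rw [← Real.exp_nat_mul]
  apply Real.exp_le_exp.2
  have h6 : (r : ℝ) * (C2 * (Y / c)) = r * C2 * (Y / c) := by ring
  have h7 : δ * Y = δ * c * (Y / c) := by
    field_simp
  rw [h6, h7]
  exact mul_le_mul_of_nonneg_right hcδ hYc0

end Pool.Agent.H97.NW
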