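import Pool.Agent.H97.NW.TAIL
import Pool.Agent.H97.NW.VAL
import Pool.Agent.H97.NW.LOC

/-! # [H97 NW ZER] The local coefficients of small weight vanish

`small_m`: let `δ' = η / (16 (m + η))`. For `T, ξ` as in the statement: `|ξ_v| ≥ |x_v|/2`, so `‖T_v‖^e q^e = 1/|ξ_v| ≤ 2 exp(-ell_v)`, and
`(2 q R ‖T‖)^e ≤ 2 (2R)^e exp(-ell) ≤ exp(-(1-δ') ell)` as `2 (2R)^e ≤ b^(1 + 2 n!) ≤ exp(δ' ell)` for `c ≥ (2 n! + 1)/δ'` (`Ptd.ell_ge`, `R ≤ b`,
`e ≤ n!`). `2 q R ‖T‖ ≤ 1/2`: its `e`-th power is `≤ exp(-(1-δ')ell) ≤ 2^(-e)` (`e ≤ n!`, `ell ≥ c log 2`). `exp(-δ' ell) ≤ 1/2`. `R ‖T‖ < 1`. By `val_m`,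
`tail_m` (`TT = (m+η) Y`, `Z = exp(η Y/8)`): `‖∑‖ ≤ ∏ |ξ_v|^(D_v) * card * exp(ηY/8) * ∏ (2qR)^n * 4^m * exp(-(1-2δ')(m+η)Y)`. Here
`|ξ_v| ≤ (3/2)|x_v|`, `D_v ell_v ≤ Y`, so `∏ |ξ_v|^(D_v) ≤ exp(m Y + ∑ Y/ell_v)`; `card ≤ ∏ (Y/ell_v + 1) n`, `log card ≤ ∑ (Y/ell_v + log n)`;
`∏ (2qR)^n ≤ exp(3 n ∑ ell_v / c)` (`2qR ≤ b³`), `ell_v ≤ Y`; `(1-2δ')(m+η) = m + η - η/8`. The exponent is at most
`m Y - (m+η)Y + ηY/8 + ηY/8 + (C(m,n)/c) Y ≤ -(η/2) Y` for `c` large (`Y/ell_v ≤ Y/(c log 2)`, `1 ≤ Y/(c log 2)`).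
`zero_m`: `loc_m` with `ρ_v = |x_v| / (2 |kap_v|)`, `M = exp(-(η/2)Y)`: `|Lm| ≤ exp(-(η/2)Y) ∏ (2 |kap|/|x|)^(K_v)`, and `2|kap|/|x| ≤ |x|^(2n)`
(`kap_facts`, `2 ≤ |x|`), so `∏ ≤ exp(2 n ∑ K_v ell_v) ≤ exp((2/5) η Y)`: `|Lm| < 1`, `Lm = 0` (`Int.abs_lt_one_iff`). (`N v + d ≤ D v + 1` for
`N = Nf`, `D = Df` since `1 ≤ Nf`.) -/

namespace Pool.Agent.H97.NW

open Finset Polynomial Pool.Agent.H72.ES Pool.Agent.H87.SA2 Pool.Agent.H8.AW Pool.Agent.H52.AC

private theorem zer_one {n : ℕ} (hn : 4 ≤ n) (P : Ptd n) {c : ℕ} (hc : cA n ≤ c) (h : P.Thr c)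
    {δ : ℝ} (hδ : 0 < δ) (hδ2 : δ ≤ 1 / 2) (hc1 : 2 * (n.factorial : ℝ) + 1 ≤ δ * c) (T ξ : ℂ)
    (hT : (((P.C.pd.q : ℕ) : ℂ) * T) ^ P.C.pd.e * ξ = 1)
    (hξ : ‖ξ - (P.x : ℂ)‖ ≤ |(P.x : ℝ)| / 2) :
    2 * P.C.pd.q * P.C.pd.R * ‖T‖ ≤ 1 / 2 ∧
      (2 * P.C.pd.q * P.C.pd.R * ‖T‖) ^ P.C.pd.e ≤ Real.exp (-(1 - δ) * P.ell) ∧
      Real.exp (-δ * P.ell) ≤ 1 / 2 ∧ P.C.pd.R * ‖T‖ < 1 ∧ ‖ξ‖ ≤ Real.exp (P.ell + 1) := by
  have hfa := P.facts hn (P.thr_mono hc h)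
  have hx0 : P.x ≠ 0 := hfa.2.2.2.2.1
  obtain ⟨hg1, hg2⟩ := P.ell_ge h
  have hX0 : (0 : ℝ) < |(P.x : ℝ)| := by
    rw [abs_pos]
    exact_mod_cast hx0
  have hexp : Real.exp P.ell = |(P.x : ℝ)| := Real.exp_log hX0
  set X : ℝ := |(P.x : ℝ)| with hX
  have hxn : ‖(P.x : ℂ)‖ = X := by
    rw [Complex.norm_intCast]
  have hb2 : (2 : ℝ) ≤ P.b := by exact_mod_cast P.C.b2
  have hq1 : (1 : ℝ) ≤ P.C.pd.q := by exact_mod_cast P.C.pd.q_pos
  have hR2 : 2 ≤ P.C.pd.R := P.C.pd.R_ge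
  have hRb : P.C.pd.R ≤ P.b := P.C.R_le
  have hef : P.C.pd.e ≤ n.factorial := P.C.e_le.trans (Nat.factorial_le P.C.dn)
  have hfac : (P.C.pd.e : ℝ) ≤ (n.factorial : ℝ) := by exact_mod_cast hef
  have hl2 : 0 < Real.log 2 := Real.log_pos (by norm_num)
  have hlb : 0 < Real.log P.b := Real.log_pos (by linarith)
  have hfac0 : (0 : ℝ) ≤ (n.factorial : ℝ) := Nat.cast_nonneg _
  have hc0 : (0 : ℝ) < c := by
    by_contra hcon
    push Not at hcon
    nlinarith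
  have hell0 : 0 < P.ell := lt_of_lt_of_le (by positivity) hg2
  -- the size of `ξ`
  have hξ1 : X / 2 ≤ ‖ξ‖ := by
    have h1 := norm_sub_norm_le (P.x : ℂ) ξ
    rw [hxn, norm_sub_rev] at h1
    linarith
  have hξ2 : ‖ξ‖ ≤ Real.exp (P.ell + 1) := by
    have h1 := norm_sub_norm_le ξ (P.x : ℂ)
    rw [hxn] at h1
    rw [Real.exp_add, hexp]
    have h2 := Real.add_one_le_exp (1 : ℝ)
    nlinarith
  -- the size of `T`
  have hnT : ((P.C.pd.q : ℝ) * ‖T‖) ^ P.C.pd.e * ‖ξ‖ = 1 := by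
    have h1 := congrArg norm hT
    rw [norm_mul, norm_pow, norm_mul, Complex.norm_natCast, norm_one] at h1
    exact h1
  set τ : ℝ := (P.C.pd.q : ℝ) * ‖T‖ with hτ
  have hτ0 : 0 ≤ τ := by positivity
  have hτe : τ ^ P.C.pd.e ≤ 2 * Real.exp (-P.ell) := by
    rw [Real.exp_neg, hexp]
    have h1 : τ ^ P.C.pd.e * (X / 2) ≤ 1 := by
      rw [← hnT]
      exact mul_le_mul_of_nonneg_left hξ1 (by positivity)
    rw [← div_eq_mul_inv, le_div_iff₀ hX0]
    linarith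
  have hs : 2 * P.C.pd.q * P.C.pd.R * ‖T‖ = (2 * P.C.pd.R) * τ := by rw [hτ]; ring
  have hpow : 2 * (2 * P.C.pd.R) ^ P.C.pd.e ≤ Real.exp (δ * P.ell) := by
    have h1 : (2 * P.C.pd.R) ^ P.C.pd.e ≤ (P.b : ℝ) ^ (2 * n.factorial) := by
      calc (2 * P.C.pd.R) ^ P.C.pd.e ≤ ((P.b : ℝ) ^ 2) ^ P.C.pd.e := by
            apply pow_le_pow_left₀ (by linarith)
            nlinarith
        _ = (P.b : ℝ) ^ (2 * P.C.pd.e) := by rw [← pow_mul]
        _ ≤ (P.b : ℝ) ^ (2 * n.factorial) := pow_le_pow_right₀ (by linarith) (by omega)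
    have h2 : 2 * (2 * P.C.pd.R) ^ P.C.pd.e ≤ (P.b : ℝ) ^ (2 * n.factorial + 1) := by
      rw [pow_succ, mul_comm]
      exact mul_le_mul h1 hb2 (by norm_num) (by positivity)
    refine h2.trans ?_
    have h3 : (P.b : ℝ) ^ (2 * n.factorial + 1) =
        Real.exp (((2 * n.factorial + 1 : ℕ) : ℝ) * Real.log P.b) := by
      rw [Real.exp_nat_mul, Real.exp_log (by linarith)]
    rw [h3]
    apply Real.exp_le_exp.mpr
    push_cast
    calc (2 * (n.factorial : ℝ) + 1) * Real.log P.b ≤ (δ * c) * Real.log P.b :=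
          mul_le_mul_of_nonneg_right hc1 hlb.le
      _ = δ * (c * Real.log P.b) := by ring
      _ ≤ δ * P.ell := mul_le_mul_of_nonneg_left hg1 hδ.le
  have hse : ((2 * P.C.pd.R) * τ) ^ P.C.pd.e ≤ Real.exp (-(1 - δ) * P.ell) := by
    rw [mul_pow]
    calc (2 * P.C.pd.R) ^ P.C.pd.e * τ ^ P.C.pd.e
        ≤ (2 * P.C.pd.R) ^ P.C.pd.e * (2 * Real.exp (-P.ell)) :=
          mul_le_mul_of_nonneg_left hτe (pow_nonneg (by linarith) _)
      _ = (2 * (2 * P.C.pd.R) ^ P.C.pd.e) * Real.exp (-P.ell) := by ring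
      _ ≤ Real.exp (δ * P.ell) * Real.exp (-P.ell) :=
          mul_le_mul_of_nonneg_right hpow (Real.exp_pos _).le
      _ = Real.exp (-(1 - δ) * P.ell) := by
          rw [← Real.exp_add]
          congr 1
          ring
  have hs2 : (2 * P.C.pd.R) * τ ≤ 1 / 2 := by
    by_contra hcon
    push Not at hcon
    have h1 : (1 / 2 : ℝ) ^ P.C.pd.e < ((2 * P.C.pd.R) * τ) ^ P.C.pd.e :=
      pow_lt_pow_left₀ hcon (by norm_num) (by have := P.C.pd.e_pos; omega)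
    have h2 : (1 / 2 : ℝ) ^ P.C.pd.e = Real.exp (-((P.C.pd.e : ℝ) * Real.log 2)) := by
      rw [Real.exp_neg, Real.exp_nat_mul, Real.exp_log (by norm_num), one_div, inv_pow]
    rw [h2] at h1
    have h3 := Real.exp_lt_exp.mp (h1.trans_le hse)
    have h4 : (P.C.pd.e : ℝ) * 2 ≤ c := by nlinarith
    have h5 : (P.C.pd.e : ℝ) * 2 * Real.log 2 ≤ P.ell :=
      (mul_le_mul_of_nonneg_right h4 hl2.le).trans hg2
    have h6 : δ * P.ell ≤ 1 / 2 * P.ell := mul_le_mul_of_nonneg_right hδ2 hell0.le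
    linarith
  refine ⟨hs ▸ hs2, hs ▸ hse, ?_, ?_, hξ2⟩
  · have h1 : Real.log 2 ≤ δ * P.ell := by
      calc Real.log 2 = 1 * Real.log 2 := (one_mul _).symm
        _ ≤ (δ * c) * Real.log 2 := mul_le_mul_of_nonneg_right (by linarith) hl2.le
        _ = δ * (c * Real.log 2) := by ring
        _ ≤ δ * P.ell := mul_le_mul_of_nonneg_left hg2 hδ.le
    calc Real.exp (-δ * P.ell) ≤ Real.exp (-Real.log 2) := Real.exp_le_exp.mpr (by linarith)
      _ = 1 / 2 := by rw [Real.exp_neg, Real.exp_log (by norm_num)]; norm_num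
  · have h1 : ‖T‖ ≤ τ := by
      rw [hτ]
      exact le_mul_of_one_le_left (norm_nonneg _) hq1
    have h2 : P.C.pd.R * ‖T‖ ≤ P.C.pd.R * τ := mul_le_mul_of_nonneg_left h1 (by linarith)
    linarith

theorem small_m (m n : ℕ) (hm : 1 ≤ m) (hn : 4 ≤ n) (η : ℝ) (hη : 0 < η) (hη1 : η ≤ 1) :
    ∃ c : ℕ, cA n ≤ c ∧ ∀ (P : Fin m → Ptd n), (∀ v, (P v).Thr c) → ∀ Y : ℝ,
      (∀ v, (P v).ell ≤ Y) → (∀ v, 1 ≤ Nf P Y v) → ∀ A : Mo P (Nf P Y) → ℤ,
      (∀ μ, |(A μ : ℝ)| ≤ Real.exp (η / 8 * Y)) →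
      (∀ k : Fin m → ℕ, ∑ v, (P v).ell * ((k v / (P v).C.pd.e : ℕ) : ℝ) < (m + η) * Y →
        Bm P (Df P Y) (Nf P Y) A (fun v => (P v).i) k = 0) →
      ∀ T ξ : Fin m → ℂ,
      (∀ v, ((((P v).C.pd.q : ℕ) : ℂ) * T v) ^ (P v).C.pd.e * ξ v = 1) →
      (∀ v, ‖ξ v - (P v).x‖ ≤ |((P v).x : ℝ)| / 2) →
      ‖∑ μ : Mo P (Nf P Y), (A μ : ℂ) * ∏ v, (ξ v ^ ((μ v).1 : ℕ) *
        (ξ v * evz (T v) ((P v).C.pd.x (P v).i)) ^ ((μ v).2 : ℕ))‖ ≤
        Real.exp (-(η / 2) * Y) := by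
  have hm1 : (1 : ℝ) ≤ m := by exact_mod_cast hm
  have hn1 : (4 : ℝ) ≤ n := by exact_mod_cast hn
  set δ : ℝ := η / (16 * (m + η)) with hδ
  have hmη : (0 : ℝ) < m + η := by linarith
  have hδ0 : 0 < δ := by positivity
  have hδm : δ * (m + η) = η / 16 := by rw [hδ]; field_simp
  have hδ16 : δ ≤ 1 / 16 := by
    rw [hδ, div_le_iff₀ (by positivity)]
    linarith
  refine ⟨max (cA n) (max ⌈(2 * (n.factorial : ℝ) + 1) / δ⌉₊ ⌈4 * (8 * m + 5 * m * n) / η⌉₊),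
    le_max_left _ _, ?_⟩
  set c : ℕ := max (cA n) (max ⌈(2 * (n.factorial : ℝ) + 1) / δ⌉₊ ⌈4 * (8 * (m : ℝ) + 5 * m * n) / η⌉₊)
    with hcdef
  have hcA : cA n ≤ c := le_max_left _ _
  have hc1 : 2 * (n.factorial : ℝ) + 1 ≤ δ * c := by
    have h1 : ⌈(2 * (n.factorial : ℝ) + 1) / δ⌉₊ ≤ c := (le_max_left _ _).trans (le_max_right _ _)
    have h2 : (2 * (n.factorial : ℝ) + 1) / δ ≤ c := (Nat.le_ceil _).trans (by exact_mod_cast h1)
    rw [div_le_iff₀ hδ0] at h2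
    linarith
  have hc2 : 4 * (8 * (m : ℝ) + 5 * m * n) ≤ η * c := by
    have h1 : ⌈4 * (8 * (m : ℝ) + 5 * m * n) / η⌉₊ ≤ c := (le_max_right _ _).trans (le_max_right _ _)
    have h2 : 4 * (8 * (m : ℝ) + 5 * m * n) / η ≤ c := (Nat.le_ceil _).trans (by exact_mod_cast h1)
    rw [div_le_iff₀ hη] at h2
    linarith
  have hfac0 : (0 : ℝ) ≤ (n.factorial : ℝ) := Nat.cast_nonneg _
  have hc0 : (0 : ℝ) < c := by
    by_contra hcon
    push Not at hcon
    nlinarith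
  intro P hP Y hY hN A hA hvan T ξ hT hξ
  have hone := fun v => zer_one hn (P v) hcA (hP v) hδ0 (by linarith) hc1 (T v) (ξ v) (hT v) (hξ v)
  have hell := fun v => (P v).ell_ge (hP v)
  have hl2 : 0 < Real.log 2 := Real.log_pos (by norm_num)
  have hell0 : ∀ v, 0 < (P v).ell := fun v => lt_of_lt_of_le (by positivity) (hell v).2
  have hY0 : 0 < Y := by
    have v0 : Fin m := ⟨0, by omega⟩
    exact (hell0 v0).trans_le (hY v0)
  have hDN : ∀ v, Nf P Y v + (P v).d ≤ Df P Y v + 1 := by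
    intro v
    have h1 := hN v
    unfold Nf at h1 ⊢
    omega
  rw [val_m P (Df P Y) (Nf P Y) hDN A T ξ hT (fun v => (hone v).2.2.2.1), norm_mul]
  have htail := tail_m P (Df P Y) (Nf P Y) A (fun v => (P v).ell) hell0
    (TT := (m + η) * Y) (Z := Real.exp (η / 8 * Y)) (δ := δ) (by positivity) hδ0 (by linarith)
    hvan hA T (fun v => (hone v).1) (fun v => (hone v).2.1) (fun v => (hone v).2.2.1)
  -- the four factors
  set y : ℝ := Y / (c * Real.log 2) with hy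
  have hyell : ∀ v, Y / (P v).ell ≤ y := fun v =>
    div_le_div_of_nonneg_left hY0.le (by positivity) (hell v).2
  have hy1 : 1 ≤ y := by
    have v0 : Fin m := ⟨0, by omega⟩
    rw [hy, le_div_iff₀ (by positivity), one_mul]
    exact (hell v0).2.trans (hY v0)
  have hy2 : y ≤ 2 * (Y / c) := by
    have h1 := Real.log_two_gt_d9
    rw [hy, div_le_iff₀ (by positivity)]
    have h2 : 2 * (Y / c) * (c * Real.log 2) = 2 * Real.log 2 * Y := by field_simp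
    rw [h2]
    nlinarith
  have hD : ∀ v, ((Df P Y v : ℕ) : ℝ) ≤ Y / (P v).ell := fun v =>
    Nat.floor_le (div_nonneg hY0.le (hell0 v).le)
  have hB1 : ‖∏ v, ξ v ^ Df P Y v‖ ≤ Real.exp (m * Y + m * y) := by
    rw [norm_prod]
    calc ∏ v, ‖ξ v ^ Df P Y v‖ ≤ ∏ _v : Fin m, Real.exp (Y + y) := by
          refine prod_le_prod (fun v _ => norm_nonneg _) fun v _ => ?_
          rw [norm_pow]
          refine (pow_le_pow_left₀ (norm_nonneg _) (hone v).2.2.2.2 _).trans ?_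
          rw [← Real.exp_nat_mul]
          apply Real.exp_le_exp.mpr
          have h1 : ((Df P Y v : ℕ) : ℝ) * (P v).ell ≤ Y := by
            have := mul_le_mul_of_nonneg_right (hD v) (hell0 v).le
            rwa [div_mul_cancel₀ _ (hell0 v).ne'] at this
          have h2 := (hD v).trans (hyell v)
          rw [mul_add, mul_one]
          linarith
      _ = Real.exp (m * Y + m * y) := by
          rw [prod_const, card_univ, Fintype.card_fin, ← Real.exp_nat_mul]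
          congr 1
          ring
  have hB2 : ((∏ v, (Nf P Y v * (P v).d) : ℕ) : ℝ) ≤ Real.exp (m * y + m * n) := by
    push_cast
    calc ∏ v, ((Nf P Y v : ℕ) : ℝ) * ((P v).d : ℝ) ≤ ∏ _v : Fin m, Real.exp (y + n) := by
          refine prod_le_prod (fun v _ => by positivity) fun v _ => ?_
          rw [Real.exp_add]
          apply mul_le_mul _ _ (Nat.cast_nonneg _) (Real.exp_pos _).le
          · have h1 : ((Nf P Y v : ℕ) : ℝ) ≤ ((Df P Y v : ℕ) : ℝ) := by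
              have h2 := hDN v
              have h3 := (P v).C.d1
              exact_mod_cast (by omega : Nf P Y v ≤ Df P Y v)
            have h2 := (hD v).trans (hyell v)
            have h3 := Real.add_one_le_exp y
            linarith
          · have h1 : ((P v).d : ℝ) ≤ n := by exact_mod_cast (P v).C.dn
            have h3 := Real.add_one_le_exp (n : ℝ)
            linarith
      _ = Real.exp (m * y + m * n) := by
          rw [prod_const, card_univ, Fintype.card_fin, ← Real.exp_nat_mul]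
          congr 1
          ring
  have hB3 : (∏ v, (2 * (P v).C.pd.q * (P v).C.pd.R) ^ n) ≤ Real.exp (3 * n * m * (Y / c)) := by
    calc (∏ v, (2 * ((P v).C.pd.q : ℝ) * (P v).C.pd.R) ^ n) ≤
          ∏ _v : Fin m, Real.exp (3 * n * (Y / c)) := by
          have hRp : ∀ v, 0 ≤ (P v).C.pd.R := fun v => by linarith [(P v).C.pd.R_ge]
          refine prod_le_prod (fun v _ => pow_nonneg (mul_nonneg (by positivity) (hRp v)) _)
            fun v _ => ?_
          have hb2 : (2 : ℝ) ≤ (P v).b := by exact_mod_cast (P v).C.b2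
          have hqb : ((P v).C.pd.q : ℝ) ≤ (P v).b := by exact_mod_cast (P v).C.q_le
          have hRb : (P v).C.pd.R ≤ (P v).b := (P v).C.R_le
          have h1 : 2 * ((P v).C.pd.q : ℝ) * (P v).C.pd.R ≤ Real.exp (3 * Real.log (P v).b) := by
            have h2 : Real.exp (3 * Real.log (P v).b) = (P v).b * (P v).b * (P v).b := by
              have h3 : (3 : ℝ) * Real.log (P v).b =
                  Real.log (P v).b + Real.log (P v).b + Real.log (P v).b := by ring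
              rw [h3, Real.exp_add, Real.exp_add, Real.exp_log (by linarith)]
            rw [h2]
            exact mul_le_mul (mul_le_mul hb2 hqb (Nat.cast_nonneg _) (by linarith)) hRb (hRp v)
              (by positivity)
          refine (pow_le_pow_left₀ (mul_nonneg (by positivity) (hRp v)) h1 n).trans ?_
          rw [← Real.exp_nat_mul]
          apply Real.exp_le_exp.mpr
          have h4 : Real.log (P v).b ≤ Y / c := by
            rw [le_div_iff₀ hc0, mul_comm]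
            exact (hell v).1.trans (hY v)
          nlinarith
      _ = Real.exp (3 * n * m * (Y / c)) := by
          rw [prod_const, card_univ, Fintype.card_fin, ← Real.exp_nat_mul]
          congr 1
          ring
  have hB4 : (4 : ℝ) ^ m ≤ Real.exp (2 * m) := by
    have h1 : (4 : ℝ) ≤ Real.exp 2 := by
      have h2 := Real.add_one_le_exp (1 : ℝ)
      have h3 : Real.exp 2 = Real.exp 1 * Real.exp 1 := by rw [← Real.exp_add]; norm_num
      rw [h3]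
      nlinarith
    calc (4 : ℝ) ^ m ≤ Real.exp 2 ^ m := pow_le_pow_left₀ (by norm_num) h1 m
      _ = Real.exp (2 * m) := by rw [← Real.exp_nat_mul]; congr 1; ring
  have hQ0 : 0 ≤ ∏ v, (2 * ((P v).C.pd.q : ℝ) * (P v).C.pd.R) ^ n :=
    prod_nonneg fun v _ => pow_nonneg (mul_nonneg (by positivity) (by linarith [(P v).C.pd.R_ge])) _
  have hB5 : ((∏ v, (Nf P Y v * (P v).d) : ℕ) : ℝ) * Real.exp (η / 8 * Y) *
      (∏ v, (2 * ((P v).C.pd.q : ℝ) * (P v).C.pd.R) ^ n) * 4 ^ m *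
        Real.exp (-(1 - 2 * δ) * ((m + η) * Y)) ≤
      Real.exp (m * y + m * n) * Real.exp (η / 8 * Y) * Real.exp (3 * n * m * (Y / c)) *
      Real.exp (2 * m) * Real.exp (-(1 - 2 * δ) * ((m + η) * Y)) := by
    gcongr
  refine (mul_le_mul hB1 (htail.trans hB5) (norm_nonneg _) (Real.exp_pos _).le).trans ?_
  rw [← Real.exp_add, ← Real.exp_add, ← Real.exp_add, ← Real.exp_add, ← Real.exp_add]
  apply Real.exp_le_exp.mpr
  have hw : (8 * (m : ℝ) + 5 * m * n) * (Y / c) ≤ η / 4 * Y := by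
    have h1 : (8 * (m : ℝ) + 5 * m * n) ≤ η / 4 * c := by linarith
    have h2 := mul_le_mul_of_nonneg_right h1 (div_nonneg hY0.le hc0.le)
    have h3 : η / 4 * c * (Y / c) = η / 4 * Y := by field_simp
    rwa [h3] at h2
  have e1 : -(1 - 2 * δ) * ((m + η) * Y) = -(m + η) * Y + 2 * (δ * (m + η)) * Y := by ring
  rw [e1, hδm]
  have h5 : (m : ℝ) * y + m * y + m * n + 2 * m ≤ (4 * m + m * n) * y := by
    have : (0 : ℝ) ≤ (2 * m + m * n) * (y - 1) := mul_nonneg (by positivity) (by linarith)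
    nlinarith
  have h6 : (4 * (m : ℝ) + m * n) * y ≤ (4 * m + m * n) * (2 * (Y / c)) :=
    mul_le_mul_of_nonneg_left hy2 (by positivity)
  nlinarith

theorem zero_m (m n : ℕ) (hm : 1 ≤ m) (hn : 4 ≤ n) (η : ℝ) (hη : 0 < η) (hη1 : η ≤ 1) :
    ∃ c : ℕ, cA n ≤ c ∧ ∀ (P : Fin m → Ptd n), (∀ v, (P v).Thr c) → ∀ Y : ℝ,
      (∀ v, (P v).ell ≤ Y) → (∀ v, 1 ≤ Nf P Y v) → ∀ A : Mo P (Nf P Y) → ℤ,
      (∀ μ, |(A μ : ℝ)| ≤ Real.exp (η / 8 * Y)) →
      (∀ k : Fin m → ℕ, ∑ v, (P v).ell * ((k v / (P v).C.pd.e : ℕ) : ℝ) < (m + η) * Y →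
        Bm P (Df P Y) (Nf P Y) A (fun v => (P v).i) k = 0) →
      ∀ K : Fin m → ℕ, ∑ v, (P v).ell * (K v : ℝ) < η / (5 * n) * Y → Lm P (Nf P Y) A K = 0 := by
  obtain ⟨c, hcA, hsm⟩ := small_m m n hm hn η hη hη1
  refine ⟨c, hcA, ?_⟩
  intro P hP Y hY hN A hA hvan K hK
  have hn1 : (4 : ℝ) ≤ n := by exact_mod_cast hn
  have hPA : ∀ v, (P v).Thr (cA n) := fun v => (P v).thr_mono hcA (hP v)
  have hcA2 : (2 : ℝ) ≤ cA n := by
    have h1 : 2 ≤ cA n := by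
      unfold cA
      have h2 : 1 ≤ n.factorial := Nat.factorial_pos n
      have h3 : 1 ≤ n ^ 2 := Nat.one_le_pow _ _ (by omega)
      have h4 : 1 ≤ n ^ 5 := Nat.one_le_pow _ _ (by omega)
      calc 2 ≤ 20 * 1 * (10 ^ 6 * 1 * 1) := by norm_num
        _ ≤ 20 * n ^ 2 * (10 ^ 6 * n ^ 5 * n.factorial) := by gcongr
    exact_mod_cast h1
  have hl2 : 0 < Real.log 2 := Real.log_pos (by norm_num)
  have hell1 : ∀ v, Real.log 2 ≤ (P v).ell := by
    intro v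
    have h1 := ((P v).ell_ge (hPA v)).2
    nlinarith
  have hell0 : ∀ v, 0 < (P v).ell := fun v => hl2.trans_le (hell1 v)
  have hY0 : 0 < Y := by
    have v0 : Fin m := ⟨0, by omega⟩
    exact (hell0 v0).trans_le (hY v0)
  have hx0 : ∀ v, (P v).x ≠ 0 := fun v => ((P v).facts hn (hPA v)).2.2.2.2.1
  have hX0 : ∀ v, (0 : ℝ) < |((P v).x : ℝ)| := fun v => by
    rw [abs_pos]
    exact_mod_cast hx0 v
  have hexp : ∀ v, Real.exp (P v).ell = |((P v).x : ℝ)| := fun v => Real.exp_log (hX0 v)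
  have hX2 : ∀ v, (2 : ℝ) ≤ |((P v).x : ℝ)| := by
    intro v
    rw [← hexp v]
    calc (2 : ℝ) = Real.exp (Real.log 2) := (Real.exp_log (by norm_num)).symm
      _ ≤ Real.exp (P v).ell := Real.exp_le_exp.mpr (hell1 v)
  have hkap := fun v => (P v).kap_facts hn (hPA v)
  have hk0 : ∀ v, (0 : ℝ) < |((P v).kap : ℝ)| := fun v => by
    rw [abs_pos]
    exact_mod_cast (hkap v).1
  have hloc := loc_m hn P hPA (Nf P Y) A (M := Real.exp (-(η / 2) * Y))
    (fun v => |((P v).x : ℝ)| / (2 * |((P v).kap : ℝ)|))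
    (fun v => div_pos (hX0 v) (by have := hk0 v; positivity))
    (fun v => by
      have := (hk0 v).ne'
      apply le_of_eq
      field_simp)
    (fun T ξ hT hξ => hsm P hP Y hY hN A hA hvan T ξ hT hξ) K
  have hρ : Real.exp (-(2 / 5 * η) * Y) ≤
      ∏ v, (|((P v).x : ℝ)| / (2 * |((P v).kap : ℝ)|)) ^ K v := by
    calc Real.exp (-(2 / 5 * η) * Y) ≤ Real.exp (∑ v, -(2 * n * ((P v).ell * (K v : ℝ)))) := by
          apply Real.exp_le_exp.mpr
          have h1 : ∑ v, -(2 * n * ((P v).ell * (K v : ℝ))) =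
              -(2 * n * ∑ v, (P v).ell * (K v : ℝ)) := by
            rw [sum_neg_distrib, mul_sum]
          rw [h1]
          have h2 : 2 * (n : ℝ) * (η / (5 * n) * Y) = 2 / 5 * η * Y := by
            field_simp
          have h3 : 2 * (n : ℝ) * ∑ v, (P v).ell * (K v : ℝ) ≤ 2 * (n : ℝ) * (η / (5 * n) * Y) :=
            mul_le_mul_of_nonneg_left hK.le (by positivity)
          rw [h2] at h3
          linarith
      _ = ∏ v, Real.exp (-(2 * n * ((P v).ell * (K v : ℝ)))) := Real.exp_sum _ _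
      _ ≤ _ := by
          refine prod_le_prod (fun v _ => (Real.exp_pos _).le) fun v _ => ?_
          have h1 : Real.exp (-(2 * n * ((P v).ell * (K v : ℝ)))) =
              (Real.exp (-((2 * n : ℕ) * (P v).ell))) ^ K v := by
            rw [← Real.exp_nat_mul]
            congr 1
            push_cast
            ring
          rw [h1]
          apply pow_le_pow_left₀ (Real.exp_pos _).le
          rw [Real.exp_neg, Real.exp_nat_mul, hexp v, le_div_iff₀ (by have := hk0 v; positivity)]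
          have h2 : 0 < |((P v).x : ℝ)| ^ (2 * n) := pow_pos (hX0 v) _
          rw [inv_mul_le_iff₀ h2]
          have h3 := (hkap v).2
          have h4 := hX2 v
          nlinarith
  have hlt : |((Lm P (Nf P Y) A K : ℤ) : ℝ)| < 1 := by
    have hpos : 0 < ∏ v, (|((P v).x : ℝ)| / (2 * |((P v).kap : ℝ)|)) ^ K v :=
      (Real.exp_pos _).trans_le hρ
    have h1 : |((Lm P (Nf P Y) A K : ℤ) : ℝ)| * Real.exp (-(2 / 5 * η) * Y) ≤
        Real.exp (-(η / 2) * Y) :=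
      (mul_le_mul_of_nonneg_left hρ (abs_nonneg _)).trans hloc
    by_contra hcon
    push Not at hcon
    have h2 : Real.exp (-(2 / 5 * η) * Y) ≤ Real.exp (-(η / 2) * Y) := by
      refine le_trans ?_ h1
      exact le_mul_of_one_le_left (Real.exp_pos _).le hcon
    have h3 := Real.exp_le_exp.mp h2
    nlinarith [mul_pos hη hY0]
  have hlt2 : |Lm P (Nf P Y) A K| < 1 := by exact_mod_cast hlt
  exact Int.abs_lt_one_iff.mp hlt2

end Pool.Agent.H97.NW
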