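import Pool.Agent.H97.NW.ZLM
import Pool.Agent.H97.NW.CVZ

/-! # [H97 NW LMZ] The zero estimate in two variables, final form

`zlem` for `toB W`, `x = x 0`, `y = x 1` (`![x 0, x 1] = x`), `g = toB.symm p`: `ofB_deg`, `toB_L2`, `toB_Lam`; `l1 g ^ c0 ≤ |x|` from `c0 log (l1 g) ≤ log |x|` (`Real.log_pow`, `Real.log_le_log_iff`;
`1 ≤ l1 g` as `g ≠ 0`). For the vanishing: `((tr x y (toB W)).coeff j).coeff i = (sh x W).coeff (single 0 i + single 1 j)`. -/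

namespace Pool.Agent.H97.NW

open Finset Polynomial Pool.Agent.H72.ES H4AR

private theorem lmz_pos {g : MvPolynomial (Fin 2) ℤ} (hg : g ≠ 0) : 0 < l1 g := by
  unfold l1
  refine Finset.sum_pos (fun e he => ?_) (MvPolynomial.support_nonempty.2 hg)
  rw [abs_pos]
  exact_mod_cast MvPolynomial.mem_support_iff.1 he

private theorem lmz_pow {c0 : ℕ} {a x : ℝ} (ha : 0 < a) (hx : 0 < x)
    (h : c0 * Real.log a ≤ Real.log x) : a ^ c0 ≤ x := by
  rw [← Real.log_pow] at h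
  exact (Real.log_le_log_iff (pow_pos ha _) hx).1 h

theorem lemZ (σ R M : ℝ) (hσ : 0 < σ) (hR : 1 ≤ R) (hM : 1 ≤ M) : ∃ A : ℕ, ∀ c0 : ℕ, ∃ δ L0 : ℝ,
    0 < δ ∧ 1 ≤ L0 ∧ ∀ (W : MvPolynomial (Fin 2) ℤ) (x : Fin 2 → ℤ) (Y : ℝ), W ≠ 0 → 0 < Y →
      (∀ v, L0 ≤ Real.log |(x v : ℝ)|) → (∀ v w, Real.log |(x v : ℝ)| ≤ R * Real.log |(x w : ℝ)|) →
      (∀ v, (W.degreeOf v : ℝ) * Real.log |(x v : ℝ)| ≤ M * Y) → Real.log (l1 W) ≤ δ * Y →
      (∀ e : Fin 2 →₀ ℕ, ∑ v, Real.log |(x v : ℝ)| * (e v : ℝ) < σ * Y →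
        (sh x W).coeff e = 0) → Spc A c0 (x 0) (x 1) := by
  obtain ⟨A, hA⟩ := zlem σ R M hσ hR hM
  refine ⟨A, fun c0 => ?_⟩
  obtain ⟨δ, L0, hδ, hL0, h⟩ := hA c0
  refine ⟨δ, L0, hδ, hL0, ?_⟩
  intro W x Y hW hY hL hRR hMM hl hvan
  have hx : ![x 0, x 1] = x := by
    funext v
    fin_cases v
    · rfl
    · rfl
  have hpos : ∀ v, 0 < |(x v : ℝ)| := by
    intro v
    rcases (abs_nonneg (x v : ℝ)).eq_or_lt with h0 | h0
    · have h1 := hL v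
      rw [← h0, Real.log_zero] at h1
      linarith
    · exact h0
  have hW' : toB W ≠ 0 := fun h0 => hW (toB.injective (h0.trans (map_zero toB).symm))
  obtain ⟨p, hp, hpn, hpX, hpL, hp0, hp1⟩ := h (toB W) (x 0) (x 1) Y hW' hY (hL 0) (hL 1)
    (hRR 0 1) (hRR 1 0) (by
      refine le_trans ?_ (hMM 1)
      refine mul_le_mul_of_nonneg_right ?_ (by linarith [hL 1])
      exact_mod_cast toB_nat W)
    (by rw [toB_L2]; exact hl) (by
      intro i j hij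
      rw [toB_tr, toB_coeff, hx]
      refine hvan _ ?_
      rw [Fin.sum_univ_two]
      simpa using hij)
  have hg : toB (toB.symm p) = p := toB.apply_symm_apply p
  have hg0 : toB.symm p ≠ 0 := by
    intro h0
    rw [h0, map_zero] at hg
    exact hp.ne_zero hg.symm
  have hl1 : l1 (toB.symm p) = L2 p := by
    rw [← toB_L2, hg]
  refine ⟨toB.symm p, hg0, fun v => ofB_deg _ (by rw [hg]; exact hpn) (by rw [hg]; exact hpX) v,
    ?_, ?_, ?_⟩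
  · rw [← toB_Lam, hg]
    exact hpL
  · exact lmz_pow (lmz_pos hg0) (hpos 0) (by rw [hl1]; exact hp0)
  · exact lmz_pow (lmz_pos hg0) (hpos 1) (by rw [hl1]; exact hp1)

end Pool.Agent.H97.NW
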