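import Pool.Agent.H97.NW.ZD
import Pool.Agent.H4.AR.Shift

/-! # [H97 NW SPN] Specialisation of the first two of four variables

For an exponent `e : Fin 4 →₀ ℕ` write `e = ex4 u v`, `u = (e 0, e 1)`, `v = (e 2, e 3)`. Put `low v = ∑_(e ∈ N.support, (e2,e3) = v) monomial u (N.coeff e)`: its coefficient at `u` is
`N.coeff (ex4 u v)`, `l1 (low v) ≤ l1 N`, `degreeOf 0, 1 (low v) ≤ degreeOf 0, 1 N ≤ A1`; some `low v ≠ 0` since `N ≠ 0`. Put, for `u = (u0, u1)` with `u0, u1 ≤ A1`,
`g u = ∑_(e ∈ N.support, (e0,e1) = u) monomial v (N.coeff e)`, `c u = x0^u0 x1^u1`. Then `∑ c u • g u` has the coefficient `MvPolynomial.eval ![x 0, x 1] (low v)` at `v`, which is `≠ 0` for some `v` by `hns`.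
The last statement: both sides are the coefficient at `v` of the images of `N` under two ring homomorphisms `MvPolynomial (Fin 4) ℤ → MvPolynomial (Fin 2) ℤ`: put `S = aeval ![C x0, C x1, X 0, X 1]`, so
`∑ c u • g u = S N`, and `sh ![x 2, x 3] ∘ S = E ∘ sh x` with `E = aeval ![0, 0, X 0, X 1]` (check on `X v`; `sh_X`: `sh x (X v) = X v + C (x v)`; here `S` applied after specialising `X_0 ↦ x_0`), and
`(E f).coeff v = f.coeff (ex4 0 v)` (linear, check on monomials). -/

namespace Pool.Agent.H97.NW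

open Finset Polynomial Pool.Agent.H72.ES H4AR

/-- exponents of four variables from two pairs -/
noncomputable def ex4 (u v : Fin 2 →₀ ℕ) : Fin 4 →₀ ℕ :=
  Finsupp.equivFunOnFinite.symm ![u 0, u 1, v 0, v 1]

/-- the first two exponents -/
private noncomputable def pu (e : Fin 4 →₀ ℕ) : Fin 2 →₀ ℕ := Finsupp.equivFunOnFinite.symm ![e 0, e 1]

/-- the last two exponents -/
private noncomputable def pv (e : Fin 4 →₀ ℕ) : Fin 2 →₀ ℕ := Finsupp.equivFunOnFinite.symm ![e 2, e 3]

private theorem pu0 (e : Fin 4 →₀ ℕ) : pu e 0 = e 0 := rfl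
private theorem pu1 (e : Fin 4 →₀ ℕ) : pu e 1 = e 1 := rfl
private theorem pv0 (e : Fin 4 →₀ ℕ) : pv e 0 = e 2 := rfl
private theorem pv1 (e : Fin 4 →₀ ℕ) : pv e 1 = e 3 := rfl

private theorem ex_inj {e f : Fin 4 →₀ ℕ} (h1 : pu e = pu f) (h2 : pv e = pv f) : e = f := by
  ext i
  fin_cases i
  · exact DFunLike.congr_fun h1 0
  · exact DFunLike.congr_fun h1 1
  · exact DFunLike.congr_fun h2 0
  · exact DFunLike.congr_fun h2 1

private theorem grp_l1 (N : MvPolynomial (Fin 4) ℤ) (s : Finset (Fin 4 →₀ ℕ)) (hs : s ⊆ N.support)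
    (p : (Fin 4 →₀ ℕ) → (Fin 2 →₀ ℕ)) :
    l1 (∑ e ∈ s, MvPolynomial.monomial (p e) (N.coeff e)) ≤ l1 N := by
  refine (l1_sum_le s _).trans ?_
  have h1 : ∀ e ∈ s, l1 (MvPolynomial.monomial (p e) (N.coeff e)) ≤ |((N.coeff e : ℤ) : ℝ)| := by
    intro e _
    rw [l1_eq_sum _ {p e} MvPolynomial.support_monomial_subset, Finset.sum_singleton,
      MvPolynomial.coeff_monomial, if_pos rfl]
  refine (Finset.sum_le_sum h1).trans ?_
  unfold l1
  exact Finset.sum_le_sum_of_subset_of_nonneg hs fun _ _ _ => abs_nonneg _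

private theorem grp_deg (N : MvPolynomial (Fin 4) ℤ) (s : Finset (Fin 4 →₀ ℕ))
    (p : (Fin 4 →₀ ℕ) → (Fin 2 →₀ ℕ)) (j : Fin 2) (A : ℕ) (h : ∀ e ∈ s, p e j ≤ A) :
    (∑ e ∈ s, MvPolynomial.monomial (p e) (N.coeff e)).degreeOf j ≤ A := by
  classical
  rw [MvPolynomial.degreeOf_le_iff]
  intro m hm
  rw [MvPolynomial.mem_support_iff, MvPolynomial.coeff_sum] at hm
  obtain ⟨e, he, hne⟩ := Finset.exists_ne_zero_of_sum_ne_zero hm
  rw [MvPolynomial.coeff_monomial] at hne
  split_ifs at hne with h1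
  · rw [← h1]
    exact h e he
  · exact absurd rfl hne

private theorem mon2 (v : Fin 2 →₀ ℕ) (a : ℤ) :
    MvPolynomial.monomial v a =
      MvPolynomial.C a * (MvPolynomial.X 0 ^ v 0 * MvPolynomial.X 1 ^ v 1) := by
  rw [MvPolynomial.monomial_eq, Finsupp.prod_fintype _ _ (fun i => pow_zero _), Fin.prod_univ_two]

private theorem S_mon (y0 y1 : ℤ) (e : Fin 4 →₀ ℕ) (a : ℤ) :
    MvPolynomial.aeval ![MvPolynomial.C y0, MvPolynomial.C y1, (MvPolynomial.X 0 : MvPolynomial (Fin 2) ℤ),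
      MvPolynomial.X 1] (MvPolynomial.monomial e a) =
      MvPolynomial.monomial (pv e) (y0 ^ (e 0) * y1 ^ (e 1) * a) := by
  rw [MvPolynomial.aeval_monomial, Finsupp.prod_fintype _ _ (fun i => pow_zero _), Fin.prod_univ_four,
    mon2, pv0, pv1]
  simp only [Matrix.cons_val_zero, Matrix.cons_val_one, Matrix.cons_val, MvPolynomial.algebraMap_eq]
  rw [map_mul, map_mul, map_pow, map_pow]
  ring

theorem spn (N : MvPolynomial (Fin 4) ℤ) (hN : N ≠ 0) (A1 : ℕ) (h0 : N.degreeOf 0 ≤ A1)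
    (h1 : N.degreeOf 1 ≤ A1) (x : Fin 4 → ℤ)
    (hns : ∀ g : MvPolynomial (Fin 2) ℤ, g ≠ 0 → (∀ v, g.degreeOf v ≤ A1) → l1 g ≤ l1 N →
      MvPolynomial.eval ![x 0, x 1] g ≠ 0) :
    ∃ (c : Fin (A1 + 1) × Fin (A1 + 1) → ℤ)
      (g : Fin (A1 + 1) × Fin (A1 + 1) → MvPolynomial (Fin 2) ℤ),
      (∀ u, (g u).degreeOf 0 ≤ N.degreeOf 2 ∧ (g u).degreeOf 1 ≤ N.degreeOf 3 ∧
        l1 (g u) ≤ l1 N) ∧ ∑ u, c u • g u ≠ 0 ∧
      ∀ v : Fin 2 →₀ ℕ, (sh ![x 2, x 3] (∑ u, c u • g u)).coeff v = (sh x N).coeff (ex4 0 v) := by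
  classical
  obtain ⟨S, hS⟩ : ∃ S : MvPolynomial (Fin 4) ℤ →ₐ[ℤ] MvPolynomial (Fin 2) ℤ,
    S = MvPolynomial.aeval ![MvPolynomial.C (x 0), MvPolynomial.C (x 1),
      (MvPolynomial.X 0 : MvPolynomial (Fin 2) ℤ), MvPolynomial.X 1] := ⟨_, rfl⟩
  have hSm : ∀ e a, S (MvPolynomial.monomial e a) =
      MvPolynomial.monomial (pv e) (x 0 ^ (e 0) * x 1 ^ (e 1) * a) := by
    intro e a
    rw [hS]
    exact S_mon _ _ e a
  have hSN : S N = ∑ e ∈ N.support, MvPolynomial.monomial (pv e) (x 0 ^ (e 0) * x 1 ^ (e 1) * N.coeff e) := by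
    conv_lhs => rw [← MvPolynomial.support_sum_monomial_coeff N]
    rw [map_sum]
    exact Finset.sum_congr rfl fun e _ => hSm e _
  have hA0 : ∀ e ∈ N.support, e 0 < A1 + 1 := fun e he =>
    Nat.lt_succ_of_le ((MvPolynomial.monomial_le_degreeOf 0 he).trans h0)
  have hA1 : ∀ e ∈ N.support, e 1 < A1 + 1 := fun e he =>
    Nat.lt_succ_of_le ((MvPolynomial.monomial_le_degreeOf 1 he).trans h1)
  obtain ⟨fl, hfl⟩ : ∃ fl : Fin (A1 + 1) × Fin (A1 + 1) → Finset (Fin 4 →₀ ℕ),
    ∀ u, fl u = N.support.filter fun e => e 0 = (u.1 : ℕ) ∧ e 1 = (u.2 : ℕ) :=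
    ⟨fun u => N.support.filter fun e => e 0 = (u.1 : ℕ) ∧ e 1 = (u.2 : ℕ), fun _ => rfl⟩
  have hsum : ∑ u : Fin (A1 + 1) × Fin (A1 + 1), (x 0 ^ (u.1 : ℕ) * x 1 ^ (u.2 : ℕ)) •
      ∑ e ∈ fl u, MvPolynomial.monomial (pv e) (N.coeff e) = S N := by
    have e1 : ∀ u : Fin (A1 + 1) × Fin (A1 + 1), (x 0 ^ (u.1 : ℕ) * x 1 ^ (u.2 : ℕ)) •
        ∑ e ∈ fl u, MvPolynomial.monomial (pv e) (N.coeff e) =
        ∑ e ∈ N.support, if e 0 = (u.1 : ℕ) ∧ e 1 = (u.2 : ℕ) then
          MvPolynomial.monomial (pv e) (x 0 ^ (e 0) * x 1 ^ (e 1) * N.coeff e) else 0 := by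
      intro u
      rw [Finset.smul_sum, hfl, Finset.sum_filter]
      refine Finset.sum_congr rfl fun e _ => ?_
      split_ifs with h
      · rw [MvPolynomial.smul_monomial, smul_eq_mul, h.1, h.2]
      · rfl
    rw [Finset.sum_congr rfl fun u _ => e1 u, Finset.sum_comm, hSN]
    refine Finset.sum_congr rfl fun e he => ?_
    rw [Finset.sum_eq_single (⟨⟨e 0, hA0 e he⟩, ⟨e 1, hA1 e he⟩⟩ : Fin (A1 + 1) × Fin (A1 + 1))]
    · rw [if_pos ⟨rfl, rfl⟩]
    · intro u _ hu
      rw [if_neg]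
      rintro ⟨h2, h3⟩
      apply hu
      ext
      · exact h2.symm
      · exact h3.symm
    · intro h
      exact absurd (Finset.mem_univ _) h
  refine ⟨fun u => x 0 ^ (u.1 : ℕ) * x 1 ^ (u.2 : ℕ),
    fun u => ∑ e ∈ fl u, MvPolynomial.monomial (pv e) (N.coeff e), ?_, ?_, ?_⟩
  · intro u
    have hsub : fl u ⊆ N.support := by
      rw [hfl]
      exact Finset.filter_subset _ _
    refine ⟨grp_deg N _ pv 0 _ fun e he => ?_, grp_deg N _ pv 1 _ fun e he => ?_, grp_l1 N _ hsub pv⟩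
    · rw [pv0]
      exact MvPolynomial.monomial_le_degreeOf 2 (hsub he)
    · rw [pv1]
      exact MvPolynomial.monomial_le_degreeOf 3 (hsub he)
  · simp only []
    rw [hsum]
    intro hzero
    obtain ⟨e0, he0⟩ := MvPolynomial.ne_zero_iff.1 hN
    have he0s : e0 ∈ N.support := MvPolynomial.mem_support_iff.2 he0
    obtain ⟨t, ht⟩ : ∃ t : Finset (Fin 4 →₀ ℕ), t = N.support.filter fun e => pv e = pv e0 := ⟨_, rfl⟩
    have htsub : t ⊆ N.support := by
      rw [ht]
      exact Finset.filter_subset _ _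
    have hlow : ∑ e ∈ t, MvPolynomial.monomial (pu e) (N.coeff e) ≠ 0 := by
      rw [MvPolynomial.ne_zero_iff]
      refine ⟨pu e0, ?_⟩
      rw [MvPolynomial.coeff_sum, Finset.sum_eq_single e0]
      · rw [MvPolynomial.coeff_monomial, if_pos rfl]
        exact he0
      · intro e he hne
        rw [MvPolynomial.coeff_monomial, if_neg]
        intro h
        apply hne
        rw [ht, Finset.mem_filter] at he
        exact ex_inj h he.2
      · intro h
        exact absurd (by rw [ht, Finset.mem_filter]; exact ⟨he0s, rfl⟩) h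
    refine hns _ hlow ?_ (grp_l1 N t htsub pu) ?_
    · intro v
      fin_cases v
      · refine grp_deg N _ pu 0 _ fun e he => ?_
        rw [pu0]
        exact (MvPolynomial.monomial_le_degreeOf 0 (htsub he)).trans h0
      · refine grp_deg N _ pu 1 _ fun e he => ?_
        rw [pu1]
        exact (MvPolynomial.monomial_le_degreeOf 1 (htsub he)).trans h1
    · have h2 : (S N).coeff (pv e0) = 0 := by rw [hzero, MvPolynomial.coeff_zero]
      rw [hSN, MvPolynomial.coeff_sum] at h2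
      rw [map_sum, ht, Finset.sum_filter]
      refine Eq.trans (Finset.sum_congr rfl fun e _ => ?_) h2
      rw [MvPolynomial.coeff_monomial]
      split_ifs with h
      · rw [MvPolynomial.eval_monomial, Finsupp.prod_fintype _ _ (fun i => pow_zero _), Fin.prod_univ_two,
          pu0, pu1]
        simp only [Matrix.cons_val_zero, Matrix.cons_val_one]
        ring
      · rfl
  · intro v
    simp only []
    rw [hsum]
    obtain ⟨E, hE⟩ : ∃ E : MvPolynomial (Fin 4) ℤ →ₐ[ℤ] MvPolynomial (Fin 2) ℤ,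
      E = MvPolynomial.aeval ![MvPolynomial.C 0, MvPolynomial.C 0,
        (MvPolynomial.X 0 : MvPolynomial (Fin 2) ℤ), MvPolynomial.X 1] := ⟨_, rfl⟩
    have hcomp : (sh ![x 2, x 3]).comp S = E.comp (sh x) := by
      refine MvPolynomial.algHom_ext fun j => ?_
      rw [AlgHom.comp_apply, AlgHom.comp_apply, sh_X, map_add, hE, hS, MvPolynomial.aeval_X,
        MvPolynomial.aeval_X, MvPolynomial.aeval_C]
      fin_cases j
      · simp
      · simp
      · simp [sh_X]
      · simp [sh_X]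
    have hE2 : ∀ f : MvPolynomial (Fin 4) ℤ, (E f).coeff v = f.coeff (ex4 0 v) := by
      intro f
      induction f using MvPolynomial.induction_on' with
      | monomial e a =>
        rw [hE, S_mon, MvPolynomial.coeff_monomial, MvPolynomial.coeff_monomial]
        by_cases h2 : e = ex4 0 v
        · have h3 : pv e = v := by
            rw [h2]
            ext i
            fin_cases i <;> rfl
          have h4 : e 0 = 0 := by rw [h2]; rfl
          have h5 : e 1 = 0 := by rw [h2]; rfl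
          rw [if_pos h3, if_pos h2, h4, h5]
          simp
        · rw [if_neg h2]
          split_ifs with h3
          · by_cases h4 : e 0 = 0
            · have h5 : e 1 ≠ 0 := by
                intro h5
                apply h2
                refine ex_inj ?_ ?_
                · ext i
                  fin_cases i
                  · exact h4
                  · exact h5
                · rw [h3]
                  ext i
                  fin_cases i <;> rfl
              rw [zero_pow h5, mul_zero, zero_mul]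
            · rw [zero_pow h4, zero_mul, zero_mul]
          · rfl
      | add p q hp hq =>
        rw [map_add, MvPolynomial.coeff_add, MvPolynomial.coeff_add, hp, hq]
    rw [← hE2, ← AlgHom.comp_apply, ← AlgHom.comp_apply, hcomp]

end Pool.Agent.H97.NW
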