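import Pool.Agent.H97.NW.ZD
import Pool.Agent.H4.AR.Wron
import Pool.Agent.H4.AR.L1Det
import Pool.Agent.H4.AR.Shift

/-! # [H97 NW WRO] The generalised Wronskian of a linear combination

Over `ℚ` (`toQ`): among the `toQ (g u)` choose a maximal linearly independent family `g_j`, `j : Fin s` (`exists_linearIndependent` / `exists_finset_linearIndependent..`; `s ≤ card ι = r`), spanning the same subspace, so
`toQ (∑ c u • g u) = ∑_j c'_j • toQ (g_j)` with rational `c'_j`, and some `c'_(j0) ≠ 0`. `wronskian` gives `D : Fin s → (Fin 2 →₀ ℕ)`, `∑ D mu ≤ s - 1`, with `det (hs (D mu) (toQ g_i)) ≠ 0`; `W = det (hs (D mu) (g_i))` over `ℤ`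
(`toQ W` is this determinant: `hs` commutes with `map`, `RingHom.map_det`). `degreeOf_det_le`, `l1_det_le`, `l1_hs_le` (`degreeOf` of `hs` is not larger): `l1 W ≤ s! (2^(∑ D) B)^s ≤ r! (..)^r` (`1 ≤ B` as some `g u ≠ 0`).
Index: `C c'_(j0) * toQ W = det` of the matrix with the column `j0` replaced by `hs (D mu) (toQ G)`, `G = ∑ c u • g u` (`Matrix.det_updateCol_sum` or multilinearity, `hs_sum`, `hs_smul`). Apply `sh` (ring homomorphism, `hs_sh`):
the entries of that column are `hs (D mu) (sh x (toQ G))`, whose coefficients of weight `< θ - r max ℓ` vanish (`coeff_hs`: `coeff e (hs i f) = mch (e+i) i * f.coeff (e+i)`, the weight of `D mu` is at most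
`(s - 1) max ℓ`). The polynomials without terms of weight `< t` form an ideal (weights `≥ 0`), so by the Leibniz formula (every product contains one entry of the column `j0`) the same holds for the determinant. -/

namespace Pool.Agent.H97.NW

open Finset Polynomial Pool.Agent.H72.ES H4AR

/-- the coefficients of `f(X + x)` of weight less than `t` vanish -/
def WroV (ℓ : Fin 2 → ℝ) (x : Fin 2 → ℚ) (t : ℝ) (f : MvPolynomial (Fin 2) ℚ) : Prop :=
  ∀ e : Fin 2 →₀ ℕ, ∑ v, ℓ v * (e v : ℝ) < t → (sh x f).coeff e = 0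

theorem wro_nonpos {ℓ : Fin 2 → ℝ} (hl : ∀ v, 0 ≤ ℓ v) (x : Fin 2 → ℚ) {t : ℝ} (ht : t ≤ 0)
    (f : MvPolynomial (Fin 2) ℚ) : WroV ℓ x t f := by
  intro e he
  have h : 0 ≤ ∑ v, ℓ v * (e v : ℝ) := Finset.sum_nonneg fun v _ => mul_nonneg (hl v) (by positivity)
  linarith

theorem wro_sum {ℓ : Fin 2 → ℝ} {x : Fin 2 → ℚ} {t : ℝ} {ι : Type} (s : Finset ι)
    (F : ι → MvPolynomial (Fin 2) ℚ) (hF : ∀ u ∈ s, WroV ℓ x t (F u)) : WroV ℓ x t (∑ u ∈ s, F u) := by
  intro e he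
  rw [map_sum, MvPolynomial.coeff_sum]
  exact Finset.sum_eq_zero fun u hu => hF u hu e he

theorem wro_mul {ℓ : Fin 2 → ℝ} {x : Fin 2 → ℚ} {t u : ℝ} {f g : MvPolynomial (Fin 2) ℚ}
    (hf : WroV ℓ x t f) (hg : WroV ℓ x u g) : WroV ℓ x (t + u) (f * g) := by
  intro e he
  rw [map_mul, MvPolynomial.coeff_mul]
  refine Finset.sum_eq_zero fun p hp => ?_
  have h1 := Finset.HasAntidiagonal.mem_antidiagonal.1 hp
  have h2 : ∑ v, ℓ v * (e v : ℝ) = ∑ v, ℓ v * (p.1 v : ℝ) + ∑ v, ℓ v * (p.2 v : ℝ) := by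
    rw [← Finset.sum_add_distrib]
    refine Finset.sum_congr rfl fun v _ => ?_
    rw [← h1, Finsupp.add_apply, Nat.cast_add]
    ring
  by_cases h3 : ∑ v, ℓ v * (p.1 v : ℝ) < t
  · rw [hf p.1 h3, zero_mul]
  · rw [hg p.2 (by linarith), mul_zero]

theorem wro_prod {ℓ : Fin 2 → ℝ} (hl : ∀ v, 0 ≤ ℓ v) {x : Fin 2 → ℚ} {ι : Type} (s : Finset ι)
    (t : ι → ℝ) (F : ι → MvPolynomial (Fin 2) ℚ) (hF : ∀ u ∈ s, WroV ℓ x (t u) (F u)) :
    WroV ℓ x (∑ u ∈ s, t u) (∏ u ∈ s, F u) := by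
  classical
  induction s using Finset.induction_on with
  | empty =>
    rw [Finset.sum_empty]
    exact wro_nonpos hl x le_rfl _
  | insert a s ha ih =>
    rw [Finset.sum_insert ha, Finset.prod_insert ha]
    exact wro_mul (hF a (Finset.mem_insert_self a s))
      (ih fun x hx => hF x (Finset.mem_insert_of_mem hx))

theorem wro_det {ℓ : Fin 2 → ℝ} (hl : ∀ v, 0 ≤ ℓ v) {x : Fin 2 → ℚ} {s : ℕ}
    (M : Matrix (Fin s) (Fin s) (MvPolynomial (Fin 2) ℚ)) (th : Fin s → ℝ)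
    (h : ∀ a b, WroV ℓ x (th b) (M a b)) : WroV ℓ x (∑ b, th b) M.det := by
  rw [Matrix.det_apply']
  refine wro_sum _ _ fun σ _ => ?_
  have h1 := wro_mul (wro_nonpos hl x (le_refl (0 : ℝ))
    (((Equiv.Perm.sign σ : ℤ) : MvPolynomial (Fin 2) ℚ)))
    (wro_prod hl Finset.univ th (fun i => M (σ i) i) fun i _ => h (σ i) i)
  rwa [zero_add] at h1

theorem wro_hs {ℓ : Fin 2 → ℝ} {L : ℝ} (hl : ∀ v, 0 ≤ ℓ v) (hL : ∀ v, ℓ v ≤ L) {x : Fin 2 → ℚ}
    {t : ℝ} {r : ℕ} {f : MvPolynomial (Fin 2) ℚ} (hf : WroV ℓ x t f) (i : Fin 2 →₀ ℕ)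
    (hi : ∑ v, i v ≤ r) : WroV ℓ x (t - r * L) (hs i f) := by
  intro e he
  rw [← hs_sh, coeff_hs]
  have hL0 : 0 ≤ L := (hl 0).trans (hL 0)
  have h1 : ∑ v, ℓ v * (i v : ℝ) ≤ r * L := by
    calc ∑ v, ℓ v * (i v : ℝ) ≤ ∑ v, L * (i v : ℝ) :=
          Finset.sum_le_sum fun v _ => mul_le_mul_of_nonneg_right (hL v) (by positivity)
      _ = ((∑ v, i v : ℕ) : ℝ) * L := by rw [← Finset.mul_sum, Nat.cast_sum, mul_comm]
      _ ≤ r * L := mul_le_mul_of_nonneg_right (by exact_mod_cast hi) hL0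
  have h2 : ∑ v, ℓ v * ((e + i) v : ℝ) = ∑ v, ℓ v * (e v : ℝ) + ∑ v, ℓ v * (i v : ℝ) := by
    rw [← Finset.sum_add_distrib]
    refine Finset.sum_congr rfl fun v _ => ?_
    rw [Finsupp.add_apply, Nat.cast_add]
    ring
  rw [hf (e + i) (by rw [h2]; linarith), mul_zero]

theorem wro_toQ_inj {f : MvPolynomial (Fin 2) ℤ} (hf : f ≠ 0) : toQ f ≠ 0 := by
  intro h
  apply hf
  unfold toQ at h
  exact (MvPolynomial.map_injective (Int.castRingHom ℚ) Int.cast_injective) (by rw [h, map_zero])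

theorem wro_toQ_sum {ι : Type} [Fintype ι] (g : ι → MvPolynomial (Fin 2) ℤ) (c : ι → ℤ) :
    toQ (∑ u, c u • g u) = ∑ u, (c u : ℚ) • toQ (g u) := by
  unfold toQ
  rw [map_sum]
  refine Finset.sum_congr rfl fun u _ => ?_
  rw [map_zsmul]
  exact (Int.cast_smul_eq_zsmul ℚ (c u) _).symm

/-- the linear algebra: independent subfamily -/
theorem wro_indep {ι : Type} [Fintype ι] (g : ι → MvPolynomial (Fin 2) ℤ) (c : ι → ℤ)
    (h : ∑ u, c u • g u ≠ 0) : ∃ (s : ℕ) (a : Fin s → ι) (c' : Fin s → ℚ) (j0 : Fin s),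
      s ≤ Fintype.card ι ∧ LinearIndependent ℚ (fun j => toQ (g (a j))) ∧ c' j0 ≠ 0 ∧
      ∑ j, c' j • toQ (g (a j)) = toQ (∑ u, c u • g u) := by
  classical
  obtain ⟨κ, a, ha, hsp, hli⟩ := exists_linearIndependent' ℚ (fun u => toQ (g u))
  have : Fintype κ := Fintype.ofInjective a ha
  let eq : Fin (Fintype.card κ) ≃ κ := (Fintype.equivFin κ).symm
  have hmem : toQ (∑ u, c u • g u) ∈ Submodule.span ℚ (Set.range ((fun u => toQ (g u)) ∘ a)) := by
    rw [hsp, wro_toQ_sum]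
    exact Submodule.sum_mem _ fun u _ => Submodule.smul_mem _ _ (Submodule.subset_span ⟨u, rfl⟩)
  rw [Submodule.mem_span_range_iff_exists_fun] at hmem
  obtain ⟨c1, hc1⟩ := hmem
  have hsum : ∑ j, c1 (eq j) • toQ (g (a (eq j))) = toQ (∑ u, c u • g u) := by
    rw [← hc1, ← eq.sum_comp]
    rfl
  obtain ⟨j0, hj0⟩ : ∃ j0, c1 (eq j0) ≠ 0 := by
    by_contra hno
    push Not at hno
    apply wro_toQ_inj h
    rw [← hsum]
    exact Finset.sum_eq_zero fun j _ => by rw [hno j, zero_smul]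
  refine ⟨Fintype.card κ, fun j => a (eq j), fun j => c1 (eq j), j0,
    Fintype.card_le_of_injective a ha, ?_, hj0, hsum⟩
  exact hli.comp eq eq.injective

theorem wro {ι : Type} [Fintype ι] (g : ι → MvPolynomial (Fin 2) ℤ) (c : ι → ℤ)
    (h : ∑ u, c u • g u ≠ 0) (D : Fin 2 → ℕ) (hD : ∀ u v, (g u).degreeOf v ≤ D v) (B : ℝ)
    (hB : ∀ u, l1 (g u) ≤ B) :
    ∃ W : MvPolynomial (Fin 2) ℤ, W ≠ 0 ∧ (∀ v, W.degreeOf v ≤ Fintype.card ι * D v) ∧
      l1 W ≤ ((Fintype.card ι).factorial : ℝ) * (2 ^ (∑ v, D v) * B) ^ Fintype.card ι ∧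
      ∀ (x : Fin 2 → ℤ) (ℓ : Fin 2 → ℝ) (θ L : ℝ), (∀ v, 0 ≤ ℓ v) → (∀ v, ℓ v ≤ L) →
        (∀ e : Fin 2 →₀ ℕ, ∑ v, ℓ v * (e v : ℝ) < θ → (sh x (∑ u, c u • g u)).coeff e = 0) →
        ∀ e : Fin 2 →₀ ℕ, ∑ v, ℓ v * (e v : ℝ) < θ - Fintype.card ι * L →
          (sh x W).coeff e = 0 := by
  classical
  obtain ⟨s, a, c', j0, hs, hli, hj0, hsum⟩ := wro_indep g c h
  obtain ⟨D', hD', hdet⟩ := wronskian _ hli
  obtain ⟨W, hW⟩ : ∃ W : MvPolynomial (Fin 2) ℤ,
      W = (Matrix.of fun mu i : Fin s => H4AR.hs (D' mu) (g (a i))).det := ⟨_, rfl⟩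
  have hWQ : toQ W = (Matrix.of fun mu i : Fin s => H4AR.hs (D' mu) (toQ (g (a i)))).det := by
    rw [hW]
    unfold toQ
    rw [RingHom.map_det]
    congr 1
    ext1 mu i
    rw [RingHom.mapMatrix_apply, Matrix.map_apply, Matrix.of_apply, Matrix.of_apply, hs_map]
  have hW0 : W ≠ 0 := by
    intro h0
    apply hdet
    rw [← hWQ, h0]
    unfold toQ
    rw [map_zero]
  have hexists : ∃ u, g u ≠ 0 := by
    by_contra hno
    push Not at hno
    exact h (Finset.sum_eq_zero fun u _ => by rw [hno u, smul_zero])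
  have hB1 : 1 ≤ B := by
    obtain ⟨u, hu⟩ := hexists
    exact (one_le_l1 hu).trans (hB u)
  have hB2 : (1 : ℝ) ≤ 2 ^ (∑ v, D v) * B := by
    have h1 : (1 : ℝ) ≤ 2 ^ (∑ v, D v) := one_le_pow₀ (by norm_num)
    nlinarith
  refine ⟨W, hW0, ?_, ?_, ?_⟩
  · intro v
    rw [hW]
    refine (degreeOf_det_le _ v (D v) fun mu i => ?_).trans (Nat.mul_le_mul_right _ hs)
    rw [Matrix.of_apply]
    exact (degreeOf_hs_le _ _ v).trans (hD _ v)
  · rw [hW]
    refine (l1_det_le _ (2 ^ (∑ v, D v) * B) (by linarith) fun mu i => ?_).trans ?_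
    · rw [Matrix.of_apply]
      refine (l1_hs_le _ _ D fun v => hD _ v).trans ?_
      exact mul_le_mul_of_nonneg_left (hB _) (by positivity)
    · refine mul_le_mul ?_ (pow_le_pow_right₀ hB2 hs) (by positivity) (by positivity)
      exact_mod_cast Nat.factorial_le hs
  · intro x ℓ θ L hl hL hG e he
    -- pass to the rationals
    obtain ⟨xq, hxq⟩ : ∃ xq : Fin 2 → ℚ, xq = fun v => ((x v : ℤ) : ℚ) := ⟨_, rfl⟩
    have hshmap : ∀ f : MvPolynomial (Fin 2) ℤ, sh xq (toQ f) = toQ (sh x f) := by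
      intro f
      rw [hxq]
      exact sh_map (Int.castRingHom ℚ) x f
    have hcoe : ∀ (f : MvPolynomial (Fin 2) ℤ) (e : Fin 2 →₀ ℕ),
        (toQ f).coeff e = ((f.coeff e : ℤ) : ℚ) := by
      intro f e
      unfold toQ
      rw [MvPolynomial.coeff_map]
      rfl
    have hGV : WroV ℓ xq θ (toQ (∑ u, c u • g u)) := by
      intro e he
      rw [hshmap, hcoe, hG e he, Int.cast_zero]
    -- the determinant with the column replaced
    obtain ⟨A, hA⟩ : ∃ A : Matrix (Fin s) (Fin s) (MvPolynomial (Fin 2) ℚ),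
        A = Matrix.of fun mu i : Fin s => H4AR.hs (D' mu) (toQ (g (a i))) := ⟨_, rfl⟩
    have hupd := Matrix.det_updateCol_sum A j0 (fun i => (MvPolynomial.C (c' i) : MvPolynomial (Fin 2) ℚ))
    have hcol : (fun k => ∑ i, (MvPolynomial.C (c' i) : MvPolynomial (Fin 2) ℚ) • A k i) =
        fun k => H4AR.hs (D' k) (toQ (∑ u, c u • g u)) := by
      funext k
      rw [← hsum, hs_sum]
      refine Finset.sum_congr rfl fun i _ => ?_
      rw [hs_smul, hA, Matrix.of_apply, MvPolynomial.smul_eq_C_mul, smul_eq_mul]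
    rw [hcol] at hupd
    have hdetV : WroV ℓ xq (∑ b, (if b = j0 then θ - (Fintype.card ι : ℝ) * L else 0))
        (A.updateCol j0 fun k => H4AR.hs (D' k) (toQ (∑ u, c u • g u))).det := by
      refine wro_det hl _ _ fun mu b => ?_
      by_cases hb : b = j0
      · rw [if_pos hb, hb, Matrix.updateCol_self]
        refine wro_hs hl hL hGV _ ?_
        have h1 := hD' mu
        omega
      · rw [if_neg hb]
        exact wro_nonpos hl xq le_rfl _
    rw [Finset.sum_ite_eq' Finset.univ j0, if_pos (Finset.mem_univ _), hupd] at hdetV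
    have h1 := hdetV e he
    rw [smul_eq_mul, map_mul, sh_C, MvPolynomial.coeff_C_mul, hA, ← hWQ, hshmap, hcoe] at h1
    have h2 := (mul_eq_zero.1 h1).resolve_left hj0
    exact_mod_cast h2

end Pool.Agent.H97.NW
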