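import Pool.Agent.H97.NW.AUXN
import Pool.Agent.H97.NW.SPN
import Pool.Agent.H97.NW.WRO
import Pool.Agent.H97.NW.LMZ

/-! # [H97 NW BLK] Two pairs of comparable scales

Write `l_v = (P v).ell`. `τ, K0` from `aux_norm 4 n γ`; `A1 = ⌈2 n^4 K0 R⌉₊`, `r = (A1+1)^2`, `M' = 2 r n^4`, `AZ` from `lemZ (τ/2) R M'`, `A = max A1 AZ`. Given `c0`: `δZ, L0` from `lemZ`;
`δ = min (1/(K0 R (c0+1))) (δZ/(3 r))`; `c` at least that of `aux_norm` for `δ`, `cA n`, `c log 2 ≥ L0`, `c log 2 ≥ 3 r^2/δZ + 12 r n^4/δZ`; `K = max 1 (2 r/τ)`.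
`Y = K0 max l_0 l_1`, so `K0 l_v ≤ Y` for all `v`, `Y ≤ K0 R min(l_0, l_1)`. `N` from `aux_norm`: `degreeOf 0, 1 N ≤ 2 n^4 Y/l ≤ A1`.
`hns` of `spn`: if `g ≠ 0`, degrees `≤ A1`, `l1 g ≤ l1 N`, `g(x_0, x_1) = 0`, then `c0 log (l1 g) ≤ c0 δ Y ≤ min(l_0, l_1)`, so `Spc A1 c0`, `Spc.mono`, contradiction.
`W` from `wro` with `D v = degreeOf (v+2) N`, `B = l1 N`: `degreeOf v W * l_(v+2) ≤ r 2 n^4 Y = M' Y`; `log l1 W ≤ r^2 + r ((D 0 + D 1) log 2 + δ Y) ≤ δZ Y` since `D v ≤ 2 n^4 Y/l ≤ 2 n^4 Y/(c log 2)` and `1 ≤ Y/(c log 2)`.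
Index: by `spn` the coefficients of `sh ![x2, x3] (∑ c • g)` at `e` are those of `sh x N` at `ex4 0 e`, zero if `l_2 e_0 + l_3 e_1 < τ Y`; so those of `sh W` vanish for weight `< τ Y - r L`, `L = max l_2 l_3 ≤ l_0/K ≤ Y/K`, in particular for
weight `< (τ/2) Y`. `lemZ` for `x = ![x 2, x 3]`: `Spc AZ c0 x2 x3`, `Spc.mono`, contradiction. -/

namespace Pool.Agent.H97.NW

open Finset Polynomial Pool.Agent.H72.ES Pool.Agent.H87.SA2 Pool.Agent.H8.AW Pool.Agent.H52.AC H4AR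

private theorem blk_fact (s : ℕ) : Real.log (s.factorial : ℝ) ≤ (s : ℝ) * s := by
  have h1 : (s.factorial : ℝ) ≤ (s : ℝ) ^ s := by exact_mod_cast Nat.factorial_le_pow s
  have h0 : (0 : ℝ) < s.factorial := by exact_mod_cast Nat.factorial_pos s
  calc Real.log (s.factorial : ℝ) ≤ Real.log ((s : ℝ) ^ s) := Real.log_le_log h0 h1
    _ = s * Real.log s := Real.log_pow _ _
    _ ≤ (s : ℝ) * s := mul_le_mul_of_nonneg_left (Real.log_le_self (Nat.cast_nonneg s)) (Nat.cast_nonneg s)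

/-- the norm of the Wronskian -/
private theorem blk_log {W : MvPolynomial (Fin 2) ℤ} (hW : W ≠ 0) (s D0 D1 : ℕ) {B : ℝ} (hB : 1 ≤ B)
    (h : l1 W ≤ (s.factorial : ℝ) * (2 ^ (D0 + D1) * B) ^ s) :
    Real.log (l1 W) ≤ s * s + s * ((D0 + D1) * Real.log 2 + Real.log B) := by
  have h1 : 1 ≤ l1 W := one_le_l1 hW
  have h2 := Real.log_le_log (by linarith) h
  have hf : (0 : ℝ) < s.factorial := by exact_mod_cast Nat.factorial_pos s
  rw [Real.log_mul hf.ne' (by positivity), Real.log_pow, Real.log_mul (by positivity) (by positivity),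
    Real.log_pow] at h2
  push_cast at h2
  have h3 := blk_fact s
  linarith

/-- a bound for the height of a special curve -/
private theorem blk_pow {a x : ℝ} (ha : 1 ≤ a) (hx : 0 < x) (c0 : ℕ) (h : c0 * Real.log a ≤ Real.log x) :
    a ^ c0 ≤ x := by
  have ha0 : 0 < a := by linarith
  rw [← Real.log_pow] at h
  exact (Real.log_le_log_iff (pow_pos ha0 _) hx).1 h

private theorem blk_abs {x : ℤ} (h : 0 < Real.log |(x : ℝ)|) : 0 < |(x : ℝ)| := by
  rw [abs_pos]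
  intro h0
  rw [h0, abs_zero, Real.log_zero] at h
  exact lt_irrefl _ h

theorem block (n : ℕ) (hn : 4 ≤ n) (γ : ℝ) (hγ : 0 < γ) (R : ℝ) (hR : 1 ≤ R) : ∃ A : ℕ, ∀ c0 : ℕ,
    ∃ (c : ℕ) (K : ℝ), cA n ≤ c ∧ 1 ≤ K ∧ ∀ (P : Fin 4 → Ptd n)
      (PP : Finset (∀ v, Fin (P v).d)), Stb P PP → (fun v => (P v).i) ∈ PP →
      (1 + γ) * ((4 : ℝ) ^ 4 * PP.card) ≤ 24 * ∏ v, ((P v).d : ℝ) →
      (∀ v, (P v).Thr c) → (P 0).ell ≤ R * (P 1).ell → (P 1).ell ≤ R * (P 0).ell →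
      (P 2).ell ≤ R * (P 3).ell → (P 3).ell ≤ R * (P 2).ell →
      K * (P 2).ell ≤ (P 0).ell → K * (P 3).ell ≤ (P 0).ell →
      ¬ Spc A c0 (P 0).x (P 1).x → ¬ Spc A c0 (P 2).x (P 3).x → False := by
  obtain ⟨τ, K0, hτ, hK0, hB⟩ := aux_norm 4 n (by norm_num) hn γ hγ
  have hnR : (4 : ℝ) ≤ n := by exact_mod_cast hn
  have hn4 : (1 : ℝ) ≤ (n : ℝ) ^ 4 := one_le_pow₀ (by linarith)
  have hK00 : 0 < K0 := by linarith
  have hR0 : 0 < R := by linarith
  obtain ⟨A1, hA1⟩ : ∃ A1 : ℕ, 2 * (n : ℝ) ^ 4 * K0 * R ≤ A1 := exists_nat_ge _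
  obtain ⟨r, hr⟩ : ∃ r : ℕ, r = (A1 + 1) * (A1 + 1) := ⟨_, rfl⟩
  have hr1 : (1 : ℝ) ≤ r := by
    have : 1 ≤ r := by
      rw [hr]
      exact Nat.mul_le_mul (Nat.le_add_left 1 A1) (Nat.le_add_left 1 A1)
    exact_mod_cast this
  have hr0 : (0 : ℝ) < r := by linarith
  obtain ⟨AZ, hAZ⟩ := lemZ (τ / 2) R (2 * r * (n : ℝ) ^ 4) (by positivity) hR (by nlinarith)
  refine ⟨max A1 AZ, fun c0 => ?_⟩
  obtain ⟨δZ, L0, hδZ, hL0, hZ⟩ := hAZ c0
  obtain ⟨δ, hδ⟩ : ∃ δ, δ = min (1 / (K0 * R * (c0 + 1))) (δZ / (3 * r)) := ⟨_, rfl⟩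
  have hδ0 : 0 < δ := by rw [hδ]; exact lt_min (by positivity) (by positivity)
  have hδa : δ * (K0 * R * (c0 + 1)) ≤ 1 := by
    have h1 : δ ≤ 1 / (K0 * R * (c0 + 1)) := by rw [hδ]; exact min_le_left _ _
    rwa [le_div_iff₀ (by positivity)] at h1
  have hδb : δ * (3 * r) ≤ δZ := by
    have h1 : δ ≤ δZ / (3 * r) := by rw [hδ]; exact min_le_right _ _
    rwa [le_div_iff₀ (by positivity)] at h1
  obtain ⟨c1, hc1, hB1⟩ := hB δ hδ0
  have hl20 : 0 < Real.log 2 := Real.log_pos (by norm_num)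
  have hl21 : Real.log 2 ≤ 1 := by
    have := Real.log_two_lt_d9
    linarith
  obtain ⟨c2, hc2⟩ := exists_nat_ge (L0 / Real.log 2 + 3 * (r : ℝ) * r / δZ / Real.log 2 +
    12 * r * (n : ℝ) ^ 4 / δZ)
  have q1 : 0 ≤ L0 / Real.log 2 := by positivity
  have q2 : 0 ≤ 3 * (r : ℝ) * r / δZ / Real.log 2 := by positivity
  have q3 : 0 ≤ 12 * r * (n : ℝ) ^ 4 / δZ := by positivity
  obtain ⟨K, hK⟩ : ∃ K, K = max 1 (2 * r / τ) := ⟨_, rfl⟩
  have hK1 : 1 ≤ K := by rw [hK]; exact le_max_left _ _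
  have hK2 : 2 * r ≤ τ * K := by
    have h1 : 2 * r / τ ≤ K := by rw [hK]; exact le_max_right _ _
    rw [div_le_iff₀ hτ] at h1
    linarith
  refine ⟨c1 + c2 + 1, K, by omega, hK1, ?_⟩
  intro P PP hStb hnear hcard hThr h01 h10 h23 h32 hK20 hK30 hS01 hS23
  have hT1 : ∀ v, (P v).Thr c1 := fun v => Ptd.thr_mono _ (by omega) (hThr v)
  obtain ⟨c, hc⟩ : ∃ c : ℝ, c = ((c1 + c2 + 1 : ℕ) : ℝ) := ⟨_, rfl⟩
  have hcc2 : (c2 : ℝ) ≤ c := by
    rw [hc]
    exact_mod_cast (by omega : c2 ≤ c1 + c2 + 1)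
  have hc1' : (1 : ℝ) ≤ c := by
    rw [hc]
    exact_mod_cast (by omega : 1 ≤ c1 + c2 + 1)
  have hell : ∀ v, c * Real.log 2 ≤ (P v).ell := fun v => by
    rw [hc]
    exact (Ptd.ell_ge _ (hThr v)).2
  have hcL0 : L0 ≤ c * Real.log 2 := by
    have h1 : L0 / Real.log 2 ≤ c := by linarith only [hc2, q1, q2, q3, hcc2]
    rwa [div_le_iff₀ hl20] at h1
  have hcr : 3 * (r : ℝ) * r ≤ δZ * (c * Real.log 2) := by
    have h1 : 3 * (r : ℝ) * r / δZ / Real.log 2 ≤ c := by linarith only [hc2, q1, q2, q3, hcc2]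
    rw [div_le_iff₀ hl20, div_le_iff₀ hδZ] at h1
    linarith only [h1]
  have hcn : 12 * r * (n : ℝ) ^ 4 ≤ c * δZ := by
    have h1 : 12 * r * (n : ℝ) ^ 4 / δZ ≤ c := by linarith only [hc2, q1, q2, q3, hcc2]
    rwa [div_le_iff₀ hδZ] at h1
  have hcl0 : 0 < c * Real.log 2 := by positivity
  have hellpos : ∀ v, 0 < (P v).ell := fun v => lt_of_lt_of_le hcl0 (hell v)
  have l0 := hellpos 0
  have l1' := hellpos 1
  have l2 := hellpos 2
  have l3 := hellpos 3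
  -- the parameter Y
  obtain ⟨Y, hY⟩ : ∃ Y, Y = K0 * max (P 0).ell (P 1).ell := ⟨_, rfl⟩
  have hY0 : K0 * (P 0).ell ≤ Y := by
    rw [hY]; exact mul_le_mul_of_nonneg_left (le_max_left _ _) hK00.le
  have hY1 : K0 * (P 1).ell ≤ Y := by
    rw [hY]; exact mul_le_mul_of_nonneg_left (le_max_right _ _) hK00.le
  have h20 : (P 2).ell ≤ (P 0).ell := by
    have : 1 * (P 2).ell ≤ K * (P 2).ell := mul_le_mul_of_nonneg_right hK1 l2.le
    linarith only [this, hK20]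
  have h30 : (P 3).ell ≤ (P 0).ell := by
    have : 1 * (P 3).ell ≤ K * (P 3).ell := mul_le_mul_of_nonneg_right hK1 l3.le
    linarith only [this, hK30]
  have hY2 : K0 * (P 2).ell ≤ Y := (mul_le_mul_of_nonneg_left h20 hK00.le).trans hY0
  have hY3 : K0 * (P 3).ell ≤ Y := (mul_le_mul_of_nonneg_left h30 hK00.le).trans hY0
  have hYall : ∀ v, K0 * (P v).ell ≤ Y := by
    intro v
    fin_cases v
    · exact hY0
    · exact hY1
    · exact hY2
    · exact hY3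
  have hYR0 : Y ≤ K0 * R * (P 0).ell := by
    have h1 : max (P 0).ell (P 1).ell ≤ R * (P 0).ell := by
      refine max_le ?_ h10
      have : 1 * (P 0).ell ≤ R * (P 0).ell := mul_le_mul_of_nonneg_right hR l0.le
      linarith only [this]
    have h2 := mul_le_mul_of_nonneg_left h1 hK00.le
    rw [hY]
    linarith only [h2]
  have hYR1 : Y ≤ K0 * R * (P 1).ell := by
    have h1 : max (P 0).ell (P 1).ell ≤ R * (P 1).ell := by
      refine max_le h01 ?_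
      have : 1 * (P 1).ell ≤ R * (P 1).ell := mul_le_mul_of_nonneg_right hR l1'.le
      linarith only [this]
    have h2 := mul_le_mul_of_nonneg_left h1 hK00.le
    rw [hY]
    linarith only [h2]
  have hl0Y : (P 0).ell ≤ Y := by
    have : 1 * (P 0).ell ≤ K0 * (P 0).ell := mul_le_mul_of_nonneg_right hK0 l0.le
    linarith only [this, hY0]
  have hYpos : 0 < Y := lt_of_lt_of_le l0 hl0Y
  have hcY : c * Real.log 2 ≤ Y := (hell 0).trans hl0Y
  obtain ⟨N, hN, hdeg, hl1N, hvan⟩ := hB1 P PP hStb hnear (by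
    have h24 : ((Nat.factorial 4 : ℕ) : ℝ) = 24 := by norm_num [Nat.factorial]
    rw [h24]
    exact_mod_cast hcard) hT1 Y hYall
  have hdeg' : ∀ v : Fin 4, Y ≤ K0 * R * (P v).ell → N.degreeOf v ≤ A1 := by
    intro v hv
    have h1 := hdeg v
    have h2 : 2 * (n : ℝ) ^ 4 * Y ≤ 2 * (n : ℝ) ^ 4 * (K0 * R * (P v).ell) :=
      mul_le_mul_of_nonneg_left hv (by positivity)
    have h3 : (N.degreeOf v : ℝ) * (P v).ell ≤ (2 * (n : ℝ) ^ 4 * K0 * R) * (P v).ell := by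
      linarith only [h1, h2]
    have h4 : (N.degreeOf v : ℝ) ≤ 2 * (n : ℝ) ^ 4 * K0 * R := le_of_mul_le_mul_right h3 (hellpos v)
    exact_mod_cast h4.trans hA1
  obtain ⟨x, hx⟩ : ∃ x : Fin 4 → ℤ, x = fun v => (P v).x := ⟨_, rfl⟩
  have hxell : ∀ v, Real.log |(x v : ℝ)| = (P v).ell := fun v => by rw [hx]; rfl
  have hB1N : 1 ≤ l1 N := one_le_l1 hN
  -- no special curve
  have hns : ∀ g : MvPolynomial (Fin 2) ℤ, g ≠ 0 → (∀ v, g.degreeOf v ≤ A1) → l1 g ≤ l1 N →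
      MvPolynomial.eval ![x 0, x 1] g ≠ 0 := by
    intro g hg hgd hgl hev
    apply hS01
    have hg1 : 1 ≤ l1 g := one_le_l1 hg
    have hlog : Real.log (l1 g) ≤ δ * Y :=
      (Real.log_le_log (by linarith only [hg1]) hgl).trans hl1N
    have key : ∀ v : Fin 4, Y ≤ K0 * R * (P v).ell → l1 g ^ c0 ≤ |(((P v).x : ℤ) : ℝ)| := by
      intro v hv
      have hpos : 0 < Real.log |(((P v).x : ℤ) : ℝ)| := hellpos v
      refine blk_pow hg1 (blk_abs hpos) c0 ?_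
      have hc00 : (0 : ℝ) ≤ c0 := Nat.cast_nonneg _
      have s1 : (c0 : ℝ) * Real.log (l1 g) ≤ c0 * (δ * Y) := mul_le_mul_of_nonneg_left hlog hc00
      have s2 : (c0 : ℝ) * (δ * Y) ≤ (c0 + 1) * (δ * (K0 * R * (P v).ell)) := by
        have s3 : δ * Y ≤ δ * (K0 * R * (P v).ell) := mul_le_mul_of_nonneg_left hv hδ0.le
        have s4 : 0 ≤ δ * (K0 * R * (P v).ell) := by
          have := hellpos v
          positivity
        have s5 := mul_le_mul_of_nonneg_left s3 hc00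
        linarith only [s4, s5]
      have s6 : (c0 + 1) * (δ * (K0 * R * (P v).ell)) ≤ 1 * (P v).ell := by
        have s7 := mul_le_mul_of_nonneg_right hδa (hellpos v).le
        linarith only [s7]
      have s8 : (P v).ell = Real.log |(((P v).x : ℤ) : ℝ)| := rfl
      rw [← s8]
      linarith only [s1, s2, s6]
    refine Spc.mono (le_max_left A1 AZ) ⟨g, hg, hgd, ?_, key 0 hYR0, key 1 hYR1⟩
    rw [hx] at hev
    exact hev
  obtain ⟨cc, g, hg, hsum, hsh⟩ := spn N hN A1 (hdeg' 0 hYR0) (hdeg' 1 hYR1) x hns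
  obtain ⟨W, hW, hWd, hWl, hWv⟩ := wro g cc hsum ![N.degreeOf 2, N.degreeOf 3] (by
    intro u v
    fin_cases v
    · exact (hg u).1
    · exact (hg u).2.1) (l1 N) (fun u => (hg u).2.2)
  have hcardr : Fintype.card (Fin (A1 + 1) × Fin (A1 + 1)) = r := by
    rw [Fintype.card_prod, Fintype.card_fin, hr]
  rw [hcardr] at hWl
  rw [Fin.sum_univ_two] at hWl
  have hlogW := blk_log hW r (N.degreeOf 2) (N.degreeOf 3) hB1N hWl
  -- the two logarithms
  have hy0 : Real.log |((![x 2, x 3] 0 : ℤ) : ℝ)| = (P 2).ell := hxell 2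
  have hy1 : Real.log |((![x 2, x 3] 1 : ℤ) : ℝ)| = (P 3).ell := hxell 3
  -- bounds for the degrees
  have hD : ∀ v : Fin 4, (N.degreeOf v : ℝ) * Real.log 2 * c ≤ 2 * (n : ℝ) ^ 4 * Y := by
    intro v
    have h1 := hdeg v
    have h2 : (N.degreeOf v : ℝ) * (c * Real.log 2) ≤ (N.degreeOf v : ℝ) * (P v).ell :=
      mul_le_mul_of_nonneg_left (hell v) (Nat.cast_nonneg _)
    linarith only [h1, h2]
  have hfin := hZ W ![x 2, x 3] Y hW hYpos ?_ ?_ ?_ ?_ ?_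
  · apply hS23
    refine Spc.mono (le_max_right A1 AZ) ?_
    have e2 : (P 2).x = x 2 := by rw [hx]
    have e3 : (P 3).x = x 3 := by rw [hx]
    rw [e2, e3]
    exact hfin
  · intro v
    fin_cases v
    · exact (hcL0.trans (hell 2)).trans (le_of_eq hy0.symm)
    · exact (hcL0.trans (hell 3)).trans (le_of_eq hy1.symm)
  · have hRR : ∀ a : ℝ, 0 < a → a ≤ R * a := fun a ha => by
      have : 1 * a ≤ R * a := mul_le_mul_of_nonneg_right hR ha.le
      linarith only [this]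
    intro v w
    fin_cases v <;> fin_cases w
    · show Real.log |((![x 2, x 3] 0 : ℤ) : ℝ)| ≤ R * Real.log |((![x 2, x 3] 0 : ℤ) : ℝ)|
      rw [hy0]; exact hRR _ l2
    · show Real.log |((![x 2, x 3] 0 : ℤ) : ℝ)| ≤ R * Real.log |((![x 2, x 3] 1 : ℤ) : ℝ)|
      rw [hy0, hy1]; exact h23
    · show Real.log |((![x 2, x 3] 1 : ℤ) : ℝ)| ≤ R * Real.log |((![x 2, x 3] 0 : ℤ) : ℝ)|
      rw [hy0, hy1]; exact h32
    · show Real.log |((![x 2, x 3] 1 : ℤ) : ℝ)| ≤ R * Real.log |((![x 2, x 3] 1 : ℤ) : ℝ)|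
      rw [hy1]; exact hRR _ l3
  · have key : ∀ (dW dN : ℕ) (ell : ℝ), 0 < ell → dW ≤ r * dN → (dN : ℝ) * ell ≤ 2 * (n : ℝ) ^ 4 * Y →
        (dW : ℝ) * ell ≤ 2 * r * (n : ℝ) ^ 4 * Y := by
      intro dW dN ell hell0 h1 h2
      have h3 : (dW : ℝ) ≤ r * dN := by exact_mod_cast h1
      have h4 := mul_le_mul_of_nonneg_right h3 hell0.le
      have h5 := mul_le_mul_of_nonneg_left h2 hr0.le
      linarith only [h4, h5]
    intro v
    fin_cases v
    · show (W.degreeOf 0 : ℝ) * Real.log |((![x 2, x 3] 0 : ℤ) : ℝ)| ≤ _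
      rw [hy0]
      have h1 := hWd 0
      rw [hcardr] at h1
      exact key _ _ _ l2 h1 (hdeg 2)
    · show (W.degreeOf 1 : ℝ) * Real.log |((![x 2, x 3] 1 : ℤ) : ℝ)| ≤ _
      rw [hy1]
      have h1 := hWd 1
      rw [hcardr] at h1
      exact key _ _ _ l3 h1 (hdeg 3)
  · -- the norm of W
    have b1 : (r : ℝ) * (((N.degreeOf 2 : ℝ) + (N.degreeOf 3 : ℝ)) * Real.log 2) ≤ δZ / 3 * Y := by
      have s1 := hD 2
      have s2 := hD 3
      have s3 : (r : ℝ) * (((N.degreeOf 2 : ℝ) + (N.degreeOf 3 : ℝ)) * Real.log 2) * c ≤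
          r * (4 * (n : ℝ) ^ 4 * Y) := by
        have s4 : (((N.degreeOf 2 : ℝ) + (N.degreeOf 3 : ℝ)) * Real.log 2) * c ≤ 4 * (n : ℝ) ^ 4 * Y := by
          linarith only [s1, s2]
        have s5 := mul_le_mul_of_nonneg_left s4 hr0.le
        linarith only [s5]
      have s6 : r * (4 * (n : ℝ) ^ 4 * Y) ≤ δZ / 3 * Y * c := by
        have s7 := mul_le_mul_of_nonneg_right hcn hYpos.le
        linarith only [s7]
      exact le_of_mul_le_mul_right (s3.trans s6) (by linarith only [hc1'])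
    have b2 : (r : ℝ) * Real.log (l1 N) ≤ δZ / 3 * Y := by
      have s1 := mul_le_mul_of_nonneg_left hl1N hr0.le
      have s2 := mul_le_mul_of_nonneg_right hδb hYpos.le
      linarith only [s1, s2]
    have b3 : (r : ℝ) * r ≤ δZ / 3 * Y := by
      have s1 := mul_le_mul_of_nonneg_left hcY hδZ.le
      linarith only [s1, hcr]
    linarith only [hlogW, b1, b2, b3]
  · -- the vanishing
    intro e he
    refine hWv ![x 2, x 3] (fun v => Real.log |((![x 2, x 3] v : ℤ) : ℝ)|) (τ * Y)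
      (max (P 2).ell (P 3).ell) ?_ ?_ ?_ e ?_
    · intro v
      fin_cases v
      · exact l2.le.trans (le_of_eq hy0.symm)
      · exact l3.le.trans (le_of_eq hy1.symm)
    · intro v
      fin_cases v
      · exact (le_of_eq hy0).trans (le_max_left _ _)
      · exact (le_of_eq hy1).trans (le_max_right _ _)
    · intro e' he'
      rw [hsh e', hx]
      refine hvan (ex4 0 e') ?_
      rw [Fin.sum_univ_two] at he'
      rw [Fin.sum_univ_four]
      have z0 : (ex4 0 e') 0 = 0 := rfl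
      have z1 : (ex4 0 e') 1 = 0 := rfl
      have z2 : (ex4 0 e') 2 = e' 0 := rfl
      have z3 : (ex4 0 e') 3 = e' 1 := rfl
      rw [z0, z1, z2, z3]
      have he2 : (P 2).ell * (e' 0 : ℝ) + (P 3).ell * (e' 1 : ℝ) < τ * Y := by
        rw [← hy0, ← hy1]
        exact he'
      have hz : ((0 : ℕ) : ℝ) = 0 := Nat.cast_zero
      rw [hz, mul_zero, mul_zero]
      linarith only [he2]
    · refine lt_of_lt_of_le he ?_
      rw [hcardr]
      have hKmax : K * max (P 2).ell (P 3).ell ≤ (P 0).ell := by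
        rw [mul_max_of_nonneg _ _ (by linarith only [hK1])]
        exact max_le hK20 hK30
      have hmax0 : 0 ≤ max (P 2).ell (P 3).ell := l2.le.trans (le_max_left _ _)
      have s1 := mul_le_mul_of_nonneg_right hK2 hmax0
      have s2 := mul_le_mul_of_nonneg_left hKmax hτ.le
      have s3 := mul_le_mul_of_nonneg_left hl0Y hτ.le
      linarith only [s1, s2, s3]

end Pool.Agent.H97.NW
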