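import Pool.Agent.H97.NW.ZD

/-! # [H97 NW CMA] The component of a curve through an integer point

`prime_below`: a minimal prime `q` below the prime ideal `ker ev` (`Ideal.exists_minimalPrimes_le` with `⊥ ≤ ker ev`); the nonzero elements of `R` are non zero divisors in `B` (torsion free), and a minimal prime contains no non zero divisor
(`Ideal.disjoint_nonZeroDivisors_of_mem_minimalPrimes`), so `q ∩ R = 0`.
`exists_dom`: `R = ℤ[X]`, `B1 = AdjoinRoot g1`, `B2 = AdjoinRoot (g2 mapped to B1[X])`, `B3 = AdjoinRoot (g3 mapped to B2[X])` (maps of the coefficients: `Lam (u) (root)`). Each is a free module with the power basis (`AdjoinRoot.powerBasis'`, monic), so `B3` is free over the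
domain `R`, hence torsion free. `ev : B3 → ℤ` by three `AdjoinRoot.lift`. `A = B3 ⧸ q`, `ι` = the composite (injective as `q ∩ R = 0`), `a1, a2, a3` the classes of the roots, `ev` factors through `A` (`q ≤ ker ev`, `Ideal.Quotient.lift`).
Generation: a subring containing the image of `R` and `a1` contains the image of `B1` (every element of `AdjoinRoot g` is `mk p`, induction on `p`), etc. (Alternatively replace `A` by the subring generated by `ι.range, a1, a2, a3`.) -/

namespace Pool.Agent.H97.NW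

open Finset Polynomial Pool.Agent.H72.ES

theorem prime_below {R B : Type} [CommRing R] [IsDomain R] [CommRing B] (φ : R →+* B)
    (htf : ∀ (r : R) (x : B), r ≠ 0 → φ r * x = 0 → x = 0) {D : Type} [CommRing D] [IsDomain D]
    (ev : B →+* D) : ∃ q : Ideal B, q.IsPrime ∧ q ≤ RingHom.ker ev ∧ ∀ r : R, φ r ∈ q → r = 0 := by
  have hk : (RingHom.ker ev).IsPrime := RingHom.ker_isPrime ev
  obtain ⟨q, hq, hle⟩ := Ideal.exists_minimalPrimes_le (I := (⊥ : Ideal B)) (J := RingHom.ker ev)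
    bot_le
  refine ⟨q, hq.1.1, hle, ?_⟩
  intro r hr
  by_contra hr0
  have hnz : φ r ∈ nonZeroDivisors B := by
    rw [mem_nonZeroDivisors_iff_right]
    intro x hx
    exact htf r x hr0 (by rwa [mul_comm] at hx)
  have hdis := Ideal.disjoint_nonZeroDivisors_of_mem_minimalPrimes hq
  exact Set.disjoint_left.mp hdis hr hnz

private lemma cma_step {S : Type} [CommRing S] (g : S[X]) (hg : g.Monic) (e : S →+* ℤ) (s : ℤ)
    (h : g.eval₂ e s = 0) : ∃ (B : Type) (_ : CommRing B) (j : S →+* B) (b : B) (ev : B →+* ℤ),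
      (∀ x, ev (j x) = e x) ∧ ev b = s ∧ g.eval₂ j b = 0 ∧
      (∀ s : S, (∀ y : S, s * y = 0 → y = 0) → ∀ y : B, j s * y = 0 → y = 0) ∧
      (∀ T : Subring B, j.range ≤ T → b ∈ T → T = ⊤) := by
  refine ⟨AdjoinRoot g, inferInstance, AdjoinRoot.of g, AdjoinRoot.root g,
    AdjoinRoot.lift e s h, ?_, ?_, AdjoinRoot.eval₂_root g, ?_, ?_⟩
  · intro x
    exact AdjoinRoot.lift_of h
  · exact AdjoinRoot.lift_root h
  · intro t ht y hy
    have h1 : t • y = 0 := by
      rw [Algebra.smul_def, AdjoinRoot.algebraMap_eq]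
      exact hy
    have h2 : (AdjoinRoot.powerBasis' hg).basis.repr (t • y) = 0 := by
      rw [h1, map_zero]
    rw [map_smul] at h2
    have h3 : (AdjoinRoot.powerBasis' hg).basis.repr y = 0 := by
      ext i
      have h4 := DFunLike.congr_fun h2 i
      rw [Finsupp.smul_apply, smul_eq_mul, Finsupp.zero_apply] at h4
      rw [Finsupp.zero_apply]
      exact ht _ h4
    exact (LinearEquiv.map_eq_zero_iff _).mp h3
  · intro T hT hb
    rw [eq_top_iff]
    rintro x -
    obtain ⟨p, rfl⟩ := AdjoinRoot.mk_surjective x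
    induction p using Polynomial.induction_on' with
    | add p q hp hq =>
      rw [map_add]
      exact T.add_mem hp hq
    | monomial n a =>
      rw [← C_mul_X_pow_eq_monomial, map_mul, map_pow, AdjoinRoot.mk_C, AdjoinRoot.mk_X]
      exact T.mul_mem (hT ⟨a, rfl⟩) (T.pow_mem hb n)

private lemma cma_Lam_comp {S S' : Type} [CommRing S] [CommRing S'] (ψ : S →+* S') (x y : S) :
    ψ.comp (Lam x y) = Lam (ψ x) (ψ y) := by
  apply Polynomial.ringHom_ext'
  · apply Polynomial.ringHom_ext'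
    · exact RingHom.ext_int _ _
    · simp [Lam]
  · simp [Lam]

private lemma cma_Lam_eq {S : Type} [CommRing S] (j : ℤ[X] →+* S) (y : S) (g : ℤ[X][X]) :
    Lam (j X) y g = g.eval₂ j y := by
  have h : eval₂RingHom (Int.castRingHom S) (j X) = j := by
    apply Polynomial.ringHom_ext'
    · exact RingHom.ext_int _ _
    · simp
  unfold Lam
  rw [h]
  rfl

theorem exists_dom (g1 : ℤ[X][X]) (g2 g3 : ℤ[X][X][X]) (h1 : g1.Monic) (h2 : g2.Monic)
    (h3 : g3.Monic) (u0 s1 s2 s3 : ℤ) (e1 : Lam u0 s1 g1 = 0) (e2 : g2.eval₂ (Lam u0 s1) s2 = 0)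
    (e3 : g3.eval₂ (Lam u0 s1) s3 = 0) :
    ∃ (A : Type) (_ : CommRing A) (_ : IsDomain A) (ι : ℤ[X] →+* A) (a1 a2 a3 : A)
      (ev : A →+* ℤ), Function.Injective ι ∧ (∀ q, ev (ι q) = q.eval u0) ∧ ev a1 = s1 ∧
      ev a2 = s2 ∧ ev a3 = s3 ∧ Lam (ι X) a1 g1 = 0 ∧ g2.eval₂ (Lam (ι X) a1) a2 = 0 ∧
      g3.eval₂ (Lam (ι X) a1) a3 = 0 ∧
      ∀ S : Subring A, ι.range ≤ S → a1 ∈ S → a2 ∈ S → a3 ∈ S → S = ⊤ := by
  have hX : (evalRingHom u0 : ℤ[X] →+* ℤ) X = u0 := by simp
  have f1 : g1.eval₂ (evalRingHom u0) s1 = 0 := by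
    rw [← cma_Lam_eq (evalRingHom u0) s1 g1, hX]
    exact e1
  obtain ⟨B1, _, j1, b1, v1, p1, q1, r1, t1, w1⟩ := cma_step g1 h1 (evalRingHom u0) s1 f1
  have hL1 : v1.comp (Lam (j1 X) b1) = Lam u0 s1 := by
    rw [cma_Lam_comp, p1, q1, hX]
  have f2 : (g2.map (Lam (j1 X) b1)).eval₂ v1 s2 = 0 := by
    rw [eval₂_map, hL1]
    exact e2
  obtain ⟨B2, _, j2, b2, v2, p2, q2, r2, t2, w2⟩ :=
    cma_step (g2.map (Lam (j1 X) b1)) (h2.map _) v1 s2 f2
  have hL2 : v2.comp (j2.comp (Lam (j1 X) b1)) = Lam u0 s1 := by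
    rw [cma_Lam_comp, cma_Lam_comp, p2, p2, p1, q1, hX]
  have f3 : (g3.map (j2.comp (Lam (j1 X) b1))).eval₂ v2 s3 = 0 := by
    rw [eval₂_map, hL2]
    exact e3
  obtain ⟨B3, _, j3, b3, v3, p3, q3, r3, t3, w3⟩ :=
    cma_step (g3.map (j2.comp (Lam (j1 X) b1))) (h3.map _) v2 s3 f3
  have htf : ∀ (r : ℤ[X]) (x : B3), r ≠ 0 → (j3.comp (j2.comp j1)) r * x = 0 → x = 0 := by
    intro r x hr hx
    refine t3 _ (t2 _ (t1 r ?_)) x hx
    intro y hy
    exact (mul_eq_zero.mp hy).resolve_left hr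
  obtain ⟨q, hq, hle, hinj⟩ := prime_below (j3.comp (j2.comp j1)) htf v3
  have := hq
  have hl : ∀ x, Ideal.Quotient.lift q v3 (fun a ha => hle ha) (Ideal.Quotient.mk q x) = v3 x :=
    fun x => rfl
  refine ⟨B3 ⧸ q, Ideal.Quotient.commRing q, Ideal.Quotient.isDomain q,
    (Ideal.Quotient.mk q).comp (j3.comp (j2.comp j1)),
    Ideal.Quotient.mk q (j3 (j2 b1)), Ideal.Quotient.mk q (j3 b2), Ideal.Quotient.mk q b3,
    Ideal.Quotient.lift q v3 (fun a ha => hle ha), ?_, ?_, ?_, ?_, ?_, ?_, ?_, ?_, ?_⟩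
  · rw [injective_iff_map_eq_zero]
    intro r hr
    exact hinj r (Ideal.Quotient.eq_zero_iff_mem.mp hr)
  · intro r
    refine (hl _).trans ?_
    rw [RingHom.comp_apply, RingHom.comp_apply, p3, p2, p1]
    simp
  · refine (hl _).trans ?_
    rw [p3, p2, q1]
  · refine (hl _).trans ?_
    rw [p3, q2]
  · exact (hl _).trans q3
  · have h5 : Lam (((Ideal.Quotient.mk q).comp (j3.comp (j2.comp j1))) X)
        (Ideal.Quotient.mk q (j3 (j2 b1))) =
        ((Ideal.Quotient.mk q).comp (j3.comp j2)).comp (Lam (j1 X) b1) := by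
      rw [cma_Lam_comp]
      rfl
    rw [h5, RingHom.comp_apply, cma_Lam_eq, r1, map_zero]
  · have h5 : Lam (((Ideal.Quotient.mk q).comp (j3.comp (j2.comp j1))) X)
        (Ideal.Quotient.mk q (j3 (j2 b1))) =
        ((Ideal.Quotient.mk q).comp j3).comp (j2.comp (Lam (j1 X) b1)) := by
      rw [cma_Lam_comp, cma_Lam_comp]
      rfl
    rw [h5]
    have h6 : Ideal.Quotient.mk q (j3 b2) = ((Ideal.Quotient.mk q).comp j3) b2 := rfl
    rw [h6, ← Polynomial.hom_eval₂]
    rw [eval₂_map] at r2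
    rw [r2, map_zero]
  · have h5 : Lam (((Ideal.Quotient.mk q).comp (j3.comp (j2.comp j1))) X)
        (Ideal.Quotient.mk q (j3 (j2 b1))) =
        (Ideal.Quotient.mk q).comp (j3.comp (j2.comp (Lam (j1 X) b1))) := by
      rw [cma_Lam_comp, cma_Lam_comp, cma_Lam_comp]
      rfl
    rw [h5, ← Polynomial.hom_eval₂]
    rw [eval₂_map] at r3
    rw [r3, map_zero]
  · intro S hS hs1 hs2 hs3
    have k1 : (((S.comap (Ideal.Quotient.mk q)).comap j3).comap j2) = ⊤ := by
      apply w1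
      · rintro _ ⟨x, rfl⟩
        exact hS ⟨x, rfl⟩
      · exact hs1
    have k2 : ((S.comap (Ideal.Quotient.mk q)).comap j3) = ⊤ := by
      apply w2
      · rintro _ ⟨x, rfl⟩
        have : x ∈ (((S.comap (Ideal.Quotient.mk q)).comap j3).comap j2) := by
          rw [k1]
          trivial
        exact this
      · exact hs2
    have k3 : (S.comap (Ideal.Quotient.mk q)) = ⊤ := by
      apply w3
      · rintro _ ⟨x, rfl⟩
        have : x ∈ ((S.comap (Ideal.Quotient.mk q)).comap j3) := by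
          rw [k2]
          trivial
        exact this
      · exact hs3
    rw [eq_top_iff]
    rintro x -
    obtain ⟨y, rfl⟩ := Ideal.Quotient.mk_surjective x
    have : y ∈ (S.comap (Ideal.Quotient.mk q)) := by
      rw [k3]
      trivial
    exact this

end Pool.Agent.H97.NW
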