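import Pool.Agent.H97.NW.Defs

/-! # [H97 NW CMP] The companion matrix of a curve in normal form

`ev d F x y = ∑_(i ≤ d) ∑_(j ≤ d - i) F i j x^i y^j`, and the coefficient of `y^d` is `F 0 d = 1` (`P.C.lead`). So in a commutative ring with
`ev = 0`: `y^d = - ∑_(j < d) (∑_(k ≤ d - j) F k j x^k) y^j`.
`cmp_eig`: for `i + 1 < d` the row `i` is the unit vector at `i + 1`; for `i + 1 = d` the formula above (split off `j = d` in the double sum,
`Finset.sum_comm'` or `tri_comm` of `Pool/Agent/H34/AC/Inf1.lean`).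
`cmp_pow_eig`: induction on `b` (`pow_succ`, `Matrix.mul_apply`, `Finset.sum_comm`).
`cmp_pow_deg`: the entries have `natDegree ≤ d ≤ n`; `Matrix.mul_apply`, `natDegree_sum_le_of_forall_le`, `natDegree_mul_le`.
`cmp_pow_L1`: `L1` (`Pool.Agent.H72.ES.L1`) is subadditive and submultiplicative (search in `Pool/Agent/H72/ES` for the lemmas
`L1_add`, `L1_mul`, `L1_sum`); the entries have `L1 ≤ (n+1) b`, products of matrices of size `d ≤ n`: factor `n`, so `(n (n+1) b)^β`. -/

namespace Pool.Agent.H97.NW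

open Finset Polynomial Pool.Agent.H72.ES Pool.Agent.H87.SA2 Pool.Agent.H8.AW Pool.Agent.H52.AC

variable {n : ℕ}

/-- the companion matrix -/
noncomputable def Ptd.cmp (P : Ptd n) : Matrix (Fin P.d) (Fin P.d) ℤ[X] := fun i j =>
  if (i : ℕ) + 1 < P.d then (if (j : ℕ) = i + 1 then 1 else 0)
  else - ∑ k ∈ range (P.d + 1 - j), Polynomial.C (P.F k j) * X ^ k

private theorem tri_cmp {S : Type*} [AddCommMonoid S] (d : ℕ) (g : ℕ → ℕ → S) :
    ∑ i ∈ range (d + 1), ∑ j ∈ range (d + 1 - i), g i j =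
      ∑ j ∈ range (d + 1), ∑ i ∈ range (d + 1 - j), g i j := by
  apply Finset.sum_comm'
  intro i j
  simp only [Finset.mem_range]
  omega

private theorem cmp_eig (P : Ptd n) {S : Type} [CommRing S] (φ : ℤ[X] →+* S) (y : S)
    (h : ev P.d (cst S P.F) (φ X) y = 0) (i : Fin P.d) :
    ∑ j, φ (P.cmp i j) * y ^ (j : ℕ) = y * y ^ (i : ℕ) := by
  have hφi : ∀ a : ℤ, φ (C a) = (a : S) := by
    intro a
    have : φ (C a) = (φ.comp C) a := rfl
    rw [this, eq_intCast]
  by_cases hi : (i : ℕ) + 1 < P.d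
  · have h1 : ∀ j : Fin P.d, φ (P.cmp i j) * y ^ (j : ℕ) = if j = ⟨(i : ℕ) + 1, hi⟩ then y ^ ((i : ℕ) + 1) else 0 := by
      intro j
      unfold Ptd.cmp
      rw [if_pos hi]
      by_cases hj : j = ⟨(i : ℕ) + 1, hi⟩
      · rw [if_pos hj, hj, if_pos rfl, map_one, one_mul]
      · rw [if_neg hj, if_neg (fun hc => hj (Fin.ext hc)), map_zero, zero_mul]
    rw [Finset.sum_congr rfl fun j _ => h1 j, Finset.sum_ite_eq' Finset.univ, if_pos (Finset.mem_univ _), pow_succ']
  · have hid : (i : ℕ) + 1 = P.d := by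
      have := i.2
      omega
    have h1 : ∀ j : Fin P.d, φ (P.cmp i j) * y ^ (j : ℕ) =
        -((∑ k ∈ range (P.d + 1 - (j : ℕ)), (P.F k (j : ℕ) : S) * φ X ^ k * y ^ (j : ℕ))) := by
      intro j
      unfold Ptd.cmp
      rw [if_neg hi, map_neg, neg_mul, map_sum, Finset.sum_mul]
      congr 1
      refine Finset.sum_congr rfl fun k _ => ?_
      rw [map_mul, map_pow, hφi]
    rw [Finset.sum_congr rfl fun j _ => h1 j, Finset.sum_neg_distrib,
      Fin.sum_univ_eq_sum_range (fun j => ∑ k ∈ range (P.d + 1 - j), (P.F k j : S) * φ X ^ k * y ^ j) P.d]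
    rw [ev, tri_cmp, Finset.sum_range_succ] at h
    have h2 : ∑ k ∈ range (P.d + 1 - P.d), cst S P.F k P.d * φ X ^ k * y ^ P.d = y ^ P.d := by
      rw [Nat.add_sub_cancel_left, Finset.sum_range_one, cst, P.C.lead]
      simp
    rw [h2] at h
    have h3 : y * y ^ (i : ℕ) = y ^ P.d := by
      rw [← pow_succ', hid]
    rw [h3]
    have h4 : ∑ j ∈ range P.d, ∑ k ∈ range (P.d + 1 - j), (P.F k j : S) * φ X ^ k * y ^ j =
        ∑ j ∈ range P.d, ∑ k ∈ range (P.d + 1 - j), cst S P.F k j * φ X ^ k * y ^ j := rfl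
    rw [h4]
    exact (eq_neg_of_add_eq_zero_right h).symm

private theorem cmp_deg (P : Ptd n) (i j : Fin P.d) : (P.cmp i j).natDegree ≤ n := by
  unfold Ptd.cmp
  by_cases hi : (i : ℕ) + 1 < P.d
  · rw [if_pos hi]
    by_cases hj : (j : ℕ) = i + 1
    · rw [if_pos hj, natDegree_one]
      exact Nat.zero_le _
    · rw [if_neg hj, natDegree_zero]
      exact Nat.zero_le _
  · rw [if_neg hi, natDegree_neg]
    apply natDegree_sum_le_of_forall_le
    intro k hk
    refine (natDegree_C_mul_X_pow_le _ _).trans ?_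
    rw [Finset.mem_range] at hk
    have := P.C.dn
    omega

private theorem cmp_L1 (P : Ptd n) (i j : Fin P.d) : L1 (P.cmp i j) ≤ (n + 1) * P.b := by
  have hb : (1 : ℝ) ≤ P.b := by
    have := P.C.b2
    exact_mod_cast (by omega : 1 ≤ P.b)
  have hb1 : (1 : ℝ) ≤ (n + 1) * P.b := by
    have hn : (1 : ℝ) ≤ n + 1 := by
      have : (0 : ℝ) ≤ n := Nat.cast_nonneg _
      linarith
    calc (1 : ℝ) = 1 * 1 := by ring
      _ ≤ (n + 1) * P.b := mul_le_mul hn hb (by norm_num) (by linarith)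
  unfold Ptd.cmp
  by_cases hi : (i : ℕ) + 1 < P.d
  · rw [if_pos hi]
    by_cases hj : (j : ℕ) = i + 1
    · rw [if_pos hj, L1_one]
      exact hb1
    · rw [if_neg hj, L1_zero]
      linarith
  · rw [if_neg hi, L1_neg]
    refine (L1_sum_le _ _).trans ?_
    have h1 : ∀ k ∈ range (P.d + 1 - (j : ℕ)), L1 (C (P.F k j) * X ^ k) ≤ (P.b : ℝ) := by
      intro k _
      rw [L1_monomial]
      exact_mod_cast P.C.le k j
    refine (Finset.sum_le_sum h1).trans ?_
    rw [Finset.sum_const, Finset.card_range, nsmul_eq_mul]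
    apply mul_le_mul_of_nonneg_right _ (by linarith)
    have h2 : P.d + 1 - (j : ℕ) ≤ n + 1 := by
      have := P.C.dn
      omega
    exact_mod_cast h2

theorem cmp_pow_eig (P : Ptd n) {S : Type} [CommRing S] (φ : ℤ[X] →+* S) (y : S)
    (h : ev P.d (cst S P.F) (φ X) y = 0) (β : ℕ) (i : Fin P.d) :
    ∑ j, φ ((P.cmp ^ β) i j) * y ^ (j : ℕ) = y ^ β * y ^ (i : ℕ) := by
  induction β generalizing i with
  | zero =>
    rw [pow_zero, pow_zero, one_mul]
    have h1 : ∀ j : Fin P.d, φ ((1 : Matrix (Fin P.d) (Fin P.d) ℤ[X]) i j) * y ^ (j : ℕ) =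
        if j = i then y ^ (i : ℕ) else 0 := by
      intro j
      by_cases hj : j = i
      · rw [if_pos hj, hj, Matrix.one_apply_eq, map_one, one_mul]
      · rw [if_neg hj, Matrix.one_apply_ne (fun hc => hj hc.symm), map_zero, zero_mul]
    rw [Finset.sum_congr rfl fun j _ => h1 j, Finset.sum_ite_eq' Finset.univ, if_pos (Finset.mem_univ _)]
  | succ β ih =>
    have h1 : ∀ j : Fin P.d, φ ((P.cmp ^ (β + 1)) i j) * y ^ (j : ℕ) =
        ∑ l, φ ((P.cmp ^ β) i l) * (φ (P.cmp l j) * y ^ (j : ℕ)) := by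
      intro j
      rw [pow_succ, Matrix.mul_apply, map_sum, Finset.sum_mul]
      refine Finset.sum_congr rfl fun l _ => ?_
      rw [map_mul, mul_assoc]
    rw [Finset.sum_congr rfl fun j _ => h1 j, Finset.sum_comm]
    have h2 : ∀ l : Fin P.d, ∑ j, φ ((P.cmp ^ β) i l) * (φ (P.cmp l j) * y ^ (j : ℕ)) =
        y * (φ ((P.cmp ^ β) i l) * y ^ (l : ℕ)) := by
      intro l
      rw [← Finset.mul_sum, cmp_eig P φ y h l]
      ring
    rw [Finset.sum_congr rfl fun l _ => h2 l, ← Finset.mul_sum, ih i, pow_succ]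
    ring

theorem cmp_pow_deg (P : Ptd n) (β : ℕ) (i j : Fin P.d) :
    ((P.cmp ^ β) i j).natDegree ≤ n * β := by
  induction β generalizing i j with
  | zero =>
    rw [pow_zero, mul_zero]
    by_cases hj : i = j
    · rw [hj, Matrix.one_apply_eq, natDegree_one]
    · rw [Matrix.one_apply_ne hj, natDegree_zero]
  | succ β ih =>
    rw [pow_succ, Matrix.mul_apply]
    apply natDegree_sum_le_of_forall_le
    intro l _
    refine natDegree_mul_le.trans ?_
    have h1 := ih i l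
    have h2 := cmp_deg P l j
    rw [mul_add, mul_one]
    omega

theorem cmp_pow_L1 (P : Ptd n) (β : ℕ) (i j : Fin P.d) :
    L1 ((P.cmp ^ β) i j) ≤ (((n + 1) ^ 2 * P.b : ℕ) : ℝ) ^ β := by
  have hb : (1 : ℝ) ≤ P.b := by
    have := P.C.b2
    exact_mod_cast (by omega : 1 ≤ P.b)
  induction β generalizing i j with
  | zero =>
    rw [pow_zero, pow_zero]
    by_cases hj : i = j
    · rw [hj, Matrix.one_apply_eq, L1_one]
    · rw [Matrix.one_apply_ne hj, L1_zero]
      exact zero_le_one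
  | succ β ih =>
    rw [pow_succ, Matrix.mul_apply]
    refine (L1_sum_le _ _).trans ?_
    have h1 : ∀ l ∈ (Finset.univ : Finset (Fin P.d)), L1 ((P.cmp ^ β) i l * P.cmp l j) ≤
        (((n + 1) ^ 2 * P.b : ℕ) : ℝ) ^ β * ((n + 1) * P.b) := by
      intro l _
      refine (L1_mul_le _ _).trans ?_
      exact mul_le_mul (ih i l) (cmp_L1 P l j) (L1_nonneg _) (by positivity)
    refine (Finset.sum_le_sum h1).trans ?_
    rw [Finset.sum_const, Finset.card_univ, Fintype.card_fin, nsmul_eq_mul, pow_succ]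
    have h2 : (P.d : ℝ) ≤ n + 1 := by
      have := P.C.dn
      exact_mod_cast (by omega : P.d ≤ n + 1)
    have h3 : 0 ≤ (((n + 1) ^ 2 * P.b : ℕ) : ℝ) ^ β * ((n + 1) * P.b) := by positivity
    refine (mul_le_mul_of_nonneg_right h2 h3).trans (le_of_eq ?_)
    push_cast
    ring

end Pool.Agent.H97.NW
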