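import Pool.Agent.H4.AR.Win

/-!
# MP_821da1_nt, NoWindows, part F (ii): from finitely many pairs to density zero (helper4)

Let `E` be a set of rationals such that for every two different primes `p, q` only finitely many
`β ∈ E` have `(q/p) β ∈ E`. Then for every `ε > 0` there is `T₀` such that for all `T ≥ T₀` and all
`b ≥ 1` at most `ε T` of the `a ≤ T` have `a/b ∈ E`.
Proof: window `W` of primes `> z ≥ 4/ε`, `∑ 1/p ≥ log (4/ε)`: at most `(ε/4) T + C` numbers `a ≤ T` have no
prime factor in `W`. For the others `a ↦ a / p` takes at most `T/z` values; two different `a, a'` with the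
same value satisfy `a' / a = p' / p`, so `a/b` is in a finite set that depends on `p, p'` only.
-/

namespace Pool.Agent.H97.NW

open Finset H4AR

theorem density (E : Set ℚ)
    (hE : ∀ p q : ℕ, p.Prime → q.Prime → p ≠ q → {β : ℚ | β ∈ E ∧ (q / p : ℚ) * β ∈ E}.Finite)
    (ε : ℝ) (hε : 0 < ε) :
    ∃ T₀ : ℕ, ∀ T : ℕ, T₀ ≤ T → ∀ b : ℕ, 1 ≤ b →
      ({a : ℕ | 1 ≤ a ∧ a ≤ T ∧ ((a : ℚ) / b) ∈ E}.ncard : ℝ) ≤ ε * T := by
  classical
  -- the window
  obtain ⟨z, hz⟩ := exists_nat_ge (4 / ε)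
  obtain ⟨W, hW1, hW2, -⟩ := exists_window (max 0 (Real.log (4 / ε))) (le_max_left _ _) (z + 1)
  have hWp : ∀ p ∈ W, p.Prime := fun p hp => (hW1 p hp).1
  -- the finite sets
  set Fs : ℕ → ℕ → Set ℚ := fun p q => {β : ℚ | β ∈ E ∧ (q / p : ℚ) * β ∈ E} with hFs
  set M : ℕ := ∑ x ∈ (W ×ˢ W).filter (fun x => x.1 ≠ x.2), (Fs x.1 x.2).ncard with hM
  obtain ⟨T₀, hT₀⟩ := exists_nat_ge (4 / ε * (∏ p ∈ W, (p : ℝ) + M + 1))
  refine ⟨T₀, fun T hT b hb => ?_⟩
  have hTr : (T₀ : ℝ) ≤ T := by exact_mod_cast hT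
  set S : Finset ℕ := (Icc 1 T).filter (fun a => ((a : ℚ) / b) ∈ E) with hS
  have hSS : {a : ℕ | 1 ≤ a ∧ a ≤ T ∧ ((a : ℚ) / b) ∈ E} = (S : Set ℕ) := by
    ext a; simp [hS, and_assoc]
  rw [hSS, Set.ncard_coe_finset]
  set S1 := S.filter (fun a => ∀ p ∈ W, ¬ p ∣ a) with hS1
  set S2 := S.filter (fun a => ¬ ∀ p ∈ W, ¬ p ∣ a) with hS2
  have hcard : S.card = S1.card + S2.card := by
    rw [hS1, hS2, Finset.card_filter_add_card_filter_not]
  -- numbers without a prime factor in the window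
  have h1 : (S1.card : ℝ) ≤ ε / 4 * T + ∏ p ∈ W, (p : ℝ) := by
    have h2 : S1 ⊆ (Icc 1 T).filter (fun a => ∀ p ∈ W, ¬ p ∣ a) := by
      intro a ha
      rw [hS1, hS, mem_filter, mem_filter] at ha
      exact mem_filter.2 ⟨ha.1.1, ha.2⟩
    have h3 := count_no_prime W hWp T
    have h4 : (S1.card : ℝ) ≤ (((Icc 1 T).filter (fun a => ∀ p ∈ W, ¬ p ∣ a)).card : ℝ) := by
      exact_mod_cast card_le_card h2
    have h5 : Real.exp (-∑ p ∈ W, (1 : ℝ) / p) ≤ ε / 4 := by
      have h6 : Real.log (4 / ε) ≤ ∑ p ∈ W, (1 : ℝ) / p := le_trans (le_max_right _ _) hW2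
      have h7 : -∑ p ∈ W, (1 : ℝ) / p ≤ Real.log (ε / 4) := by
        have : Real.log (ε / 4) = - Real.log (4 / ε) := by rw [← Real.log_inv]; congr 1; field_simp
        rw [this]; linarith
      calc Real.exp (-∑ p ∈ W, (1 : ℝ) / p) ≤ Real.exp (Real.log (ε / 4)) := Real.exp_le_exp.2 h7
        _ = ε / 4 := Real.exp_log (by positivity)
    have h8 : (T : ℝ) * Real.exp (-∑ p ∈ W, (1 : ℝ) / p) ≤ T * (ε / 4) :=
      mul_le_mul_of_nonneg_left h5 (Nat.cast_nonneg _)
    nlinarith [h3, h4, h8]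
  -- the prime factor in the window
  have hpf : ∀ a ∈ S2, ∃ p ∈ W, p ∣ a := by
    intro a ha
    rw [hS2, mem_filter] at ha
    by_contra h
    push Not at h
    exact ha.2 h
  set pf : ℕ → ℕ := fun a => if h : ∃ p ∈ W, p ∣ a then h.choose else 1 with hpfd
  have hpf1 : ∀ a ∈ S2, pf a ∈ W ∧ pf a ∣ a := by
    intro a ha
    have h := hpf a ha
    have : pf a = h.choose := by rw [hpfd]; exact dif_pos h
    rw [this]
    exact h.choose_spec
  set val : ℕ → ℕ := fun a => a / pf a with hval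
  -- a representative of each value
  set rep : ℕ → ℕ := fun v => if h : ∃ a ∈ S2, val a = v then h.choose else 0 with hrep
  have hrep1 : ∀ a ∈ S2, rep (val a) ∈ S2 ∧ val (rep (val a)) = val a := by
    intro a ha
    have h : ∃ a' ∈ S2, val a' = val a := ⟨a, ha, rfl⟩
    have : rep (val a) = h.choose := by rw [hrep]; exact dif_pos h
    rw [this]
    exact h.choose_spec
  set R1 := S2.filter (fun a => rep (val a) = a) with hR1
  set R2 := S2.filter (fun a => ¬ rep (val a) = a) with hR2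
  have hcard2 : S2.card = R1.card + R2.card := by
    rw [hR1, hR2, Finset.card_filter_add_card_filter_not]
  -- the representatives
  have h9 : R1.card ≤ T / (z + 1) := by
    have h10 : R1.card ≤ (Icc 1 (T / (z + 1))).card := by
      apply Finset.card_le_card_of_injOn val
      · intro a ha
        rw [mem_coe, hR1, mem_filter] at ha
        have hp := hpf1 a ha.1
        have ha1 : a ∈ Icc 1 T := by
          have := ha.1
          rw [hS2, mem_filter, hS, mem_filter] at this
          exact this.1.1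
        rw [mem_Icc] at ha1
        have hpp := hW1 _ hp.1
        rw [mem_coe, mem_Icc]
        constructor
        · exact Nat.div_pos (Nat.le_of_dvd (by omega) hp.2) hpp.1.pos
        · calc val a = a / pf a := rfl
            _ ≤ T / pf a := Nat.div_le_div_right ha1.2
            _ ≤ T / (z + 1) := Nat.div_le_div_left hpp.2.le (by omega)
      · intro a ha a' ha' h
        rw [mem_coe, hR1, mem_filter] at ha ha'
        have h' : val a = val a' := h
        rw [← ha.2, ← ha'.2, h']
    simpa using h10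
  -- the others
  have h11 : R2.card ≤ M := by
    set tr : ℕ → (ℕ × ℕ) × ℚ := fun a => ((pf (rep (val a)), pf a), ((rep (val a) : ℕ) : ℚ) / b) with htr
    have hfin : ∀ x ∈ (W ×ˢ W).filter (fun x => x.1 ≠ x.2), (Fs x.1 x.2).Finite := by
      intro x hx
      rw [mem_filter, mem_product] at hx
      exact hE x.1 x.2 (hWp _ hx.1.1) (hWp _ hx.1.2) hx.2
    set Tg : Finset ((ℕ × ℕ) × ℚ) := ((W ×ˢ W).filter (fun x => x.1 ≠ x.2)).biUnion
      (fun x => if h : (Fs x.1 x.2).Finite then h.toFinset.map ⟨fun β => (x, β), fun β β' h => by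
        simpa using h⟩ else ∅) with hTg
    have hb0 : (b : ℚ) ≠ 0 := by
      have : (1 : ℚ) ≤ b := by exact_mod_cast hb
      positivity
    have h12 : R2.card ≤ Tg.card := by
      apply Finset.card_le_card_of_injOn tr
      · intro a ha
        rw [mem_coe, hR2, mem_filter] at ha
        have hp := hpf1 a ha.1
        have hr := hrep1 a ha.1
        have hp' := hpf1 _ hr.1
        have hne : pf (rep (val a)) ≠ pf a := by
          intro h
          apply ha.2
          have e1 : val (rep (val a)) * pf (rep (val a)) = rep (val a) := Nat.div_mul_cancel hp'.2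
          have e2 : val a * pf a = a := Nat.div_mul_cancel hp.2
          rw [← e1, hr.2, h, e2]
        have hx : (pf (rep (val a)), pf a) ∈ (W ×ˢ W).filter (fun x => x.1 ≠ x.2) :=
          mem_filter.2 ⟨mem_product.2 ⟨hp'.1, hp.1⟩, hne⟩
        rw [mem_coe, hTg, mem_biUnion]
        refine ⟨_, hx, ?_⟩
        have hf := hfin _ hx
        rw [dif_pos hf, mem_map]
        refine ⟨((rep (val a) : ℕ) : ℚ) / b, ?_, rfl⟩
        rw [Set.Finite.mem_toFinset]
        have hE1 : ∀ a ∈ S2, ((a : ℚ) / b) ∈ E := by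
          intro a ha
          rw [hS2, mem_filter, hS, mem_filter] at ha
          exact ha.1.2
        refine ⟨hE1 _ hr.1, ?_⟩
        have e1 : val (rep (val a)) * pf (rep (val a)) = rep (val a) := Nat.div_mul_cancel hp'.2
        have e2 : val a * pf a = a := Nat.div_mul_cancel hp.2
        have hpos : ((pf (rep (val a)) : ℕ) : ℚ) ≠ 0 := by
          have := (hWp _ hp'.1).pos
          positivity
        have e3 : ((pf a : ℕ) : ℚ) / ((pf (rep (val a)) : ℕ) : ℚ) * (((rep (val a) : ℕ) : ℚ) / b)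
            = (a : ℚ) / b := by
          rw [hr.2] at e1
          have e1' : ((rep (val a) : ℕ) : ℚ) = (val a : ℚ) * ((pf (rep (val a)) : ℕ) : ℚ) := by
            exact_mod_cast e1.symm
          have e2' : (a : ℚ) = (val a : ℚ) * ((pf a : ℕ) : ℚ) := by exact_mod_cast e2.symm
          rw [e1', e2']
          field_simp
        show ((pf a : ℕ) : ℚ) / ((pf (rep (val a)) : ℕ) : ℚ) * (((rep (val a) : ℕ) : ℚ) / b) ∈ E
        rw [e3]
        exact hE1 _ ha.1
      · intro a ha a' ha' h
        rw [mem_coe, hR2, mem_filter] at ha ha'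
        have hp := hpf1 a ha.1
        have hp2 := hpf1 a' ha'.1
        have hr := hrep1 a ha.1
        have hr2 := hrep1 a' ha'.1
        simp only [htr, Prod.mk.injEq] at h
        obtain ⟨⟨h1, h2⟩, h3⟩ := h
        have h4 : rep (val a) = rep (val a') := by
          have : ((rep (val a) : ℕ) : ℚ) = ((rep (val a') : ℕ) : ℚ) := by
            have := congrArg (· * (b : ℚ)) h3
            simpa [div_mul_cancel₀ _ hb0] using this
          exact_mod_cast this
        have h5 : val a = val a' := by rw [← hr.2, ← hr2.2, h4]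
        have e1 : val a * pf a = a := Nat.div_mul_cancel hp.2
        have e2 : val a' * pf a' = a' := Nat.div_mul_cancel hp2.2
        rw [← e1, ← e2, h5, h2]
    refine h12.trans ?_
    rw [hTg, hM]
    refine card_biUnion_le.trans (Finset.sum_le_sum fun x hx => ?_)
    rw [dif_pos (hfin x hx), card_map, Set.ncard_eq_toFinset_card _ (hfin x hx)]
  have h13 : (T / (z + 1) : ℕ) ≤ (ε / 4 * T : ℝ) := by
    have h14 : ((T / (z + 1) : ℕ) : ℝ) ≤ (T : ℝ) / ((z + 1 : ℕ) : ℝ) := Nat.cast_div_le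
    have h15 : (T : ℝ) / ((z + 1 : ℕ) : ℝ) ≤ ε / 4 * T := by
      rw [div_le_iff₀ (by positivity)]
      have h16 : 4 / ε ≤ ((z + 1 : ℕ) : ℝ) := by push_cast; linarith
      have h17 : 1 ≤ ε / 4 * ((z + 1 : ℕ) : ℝ) := by
        rw [div_le_iff₀ hε] at h16
        nlinarith
      nlinarith [Nat.cast_nonneg (α := ℝ) T]
    exact h14.trans h15
  have h18 : (S.card : ℝ) = S1.card + (R1.card + R2.card) := by
    rw [hcard, hcard2]; push_cast; ring
  have h19 : (R1.card : ℝ) ≤ ε / 4 * T := le_trans (by exact_mod_cast h9) h13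
  have h20 : (R2.card : ℝ) ≤ M := by exact_mod_cast h11
  have h21 : ∏ p ∈ W, (p : ℝ) + M + 1 ≤ ε / 4 * T := by
    have h22 : 4 / ε * (∏ p ∈ W, (p : ℝ) + M + 1) ≤ T := hT₀.trans hTr
    have h23 : ε / 4 * (4 / ε * (∏ p ∈ W, (p : ℝ) + M + 1)) ≤ ε / 4 * T :=
      mul_le_mul_of_nonneg_left h22 (by positivity)
    have h24 : ε / 4 * (4 / ε * (∏ p ∈ W, (p : ℝ) + M + 1)) = ∏ p ∈ W, (p : ℝ) + M + 1 := by
      field_simp
    linarith
  rw [h18]
  nlinarith [Nat.cast_nonneg (α := ℝ) T]

end Pool.Agent.H97.NW
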