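import Pool.Agent.H97.NW.DNS

/-! # [H97 NW DNR] The reducible radicals have density zero, uniformly in the denominator

`red_pow`: `X_pow_sub_C_irreducible_iff_of_...` (`Mathlib/FieldTheory/KummerPolynomial.lean`: `X^n - C a` is irreducible if `a` is not a `p`-th power for every prime `p ∣ n` and, for `4 ∣ n`, `a` is not `-4 c^4`; see `X_pow_sub_C_irreducible_of_odd`, `X_pow_mul_sub_C_irreducible`, Capelli / Vahlen;
if Mathlib only has the odd case, use for `β > 0` the following: let `θ > 0` be the real root of `X^r - β`, `m` the degree of `θ` over `ℚ`; the minimal polynomial divides `X^r - β`, so its constant term is, up to sign, a product of `m` roots of absolute value `θ`, so `θ^m = c ∈ ℚ`, `c > 0`;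
with `m < r`: let `g = gcd(m, r)`, `g = u m + v r` (integers), `θ^g = c^u β^v ∈ ℚ`, `g ∣ r`, `g ≤ m < r`, and for a prime `p ∣ r/g`: `β = θ^r = (θ^(g (r/(g p))))^p` is the `p`-th power of a positive rational).
`dens_red`: for every prime `p ∣ r` put `E_p = {β | ∃ c : ℚ, 0 < c ∧ c^p = β}`. For primes `p1 ≠ q1` there is no `β ≠ 0` with `β` and `(p1/q1) β` both in `E_p` (the `p1`-adic valuation of `p1/q1` is `1`, not divisible by `p ≥ 2`), and `0 ∉ E_p`: the set in `dens_zero` is empty. `dens_zero` for `E_p` and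
`ε / (r + 1)`; the set in question is contained in the union over the primes `p ∣ r` (at most `r` of them) for `a ≥ 1`; take the maximum of the `T0`. -/

namespace Pool.Agent.H97.NW

open Finset Polynomial

private theorem dnr_norm (θ : ℝ) (s : Multiset ℂ) (h : ∀ z ∈ s, ‖z‖ = θ) :
    ‖s.prod‖ = θ ^ s.card := by
  induction s using Multiset.induction_on with
  | empty => simp
  | cons a s ih =>
    rw [Multiset.prod_cons, norm_mul, h a (Multiset.mem_cons_self a s),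
      ih fun z hz => h z (Multiset.mem_cons_of_mem hz), Multiset.card_cons, pow_succ']

theorem red_pow (r : ℕ) (hr : 1 ≤ r) (β : ℚ) (hβ : 0 < β)
    (h : ¬ Irreducible (X ^ r - C β : ℚ[X])) : ∃ p : ℕ, p.Prime ∧ p ∣ r ∧
      ∃ c : ℚ, 0 < c ∧ c ^ p = β := by
  have hr0 : r ≠ 0 := by omega
  have hβR : (0 : ℝ) < (β : ℝ) := by exact_mod_cast hβ
  obtain ⟨θ, hθ, hθr⟩ : ∃ θ : ℝ, 0 < θ ∧ θ ^ r = (β : ℝ) :=
    ⟨(β : ℝ) ^ ((r : ℝ)⁻¹), Real.rpow_pos_of_pos hβR _, Real.rpow_inv_natCast_pow hβR.le hr0⟩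
  have hroot : aeval θ (X ^ r - C β : ℚ[X]) = 0 := by
    rw [map_sub, map_pow, aeval_X, aeval_C, hθr, eq_ratCast, sub_self]
  have hmon := monic_X_pow_sub_C β hr0
  have hint : IsIntegral ℚ θ := ⟨_, hmon, hroot⟩
  obtain ⟨f, hf⟩ : ∃ f, f = minpoly ℚ θ := ⟨_, rfl⟩
  have hfm : f.Monic := by
    rw [hf]
    exact minpoly.monic hint
  have hfi : Irreducible f := by
    rw [hf]
    exact minpoly.irreducible hint
  have hfd : f ∣ X ^ r - C β := by
    rw [hf]
    exact minpoly.dvd ℚ θ hroot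
  have hlt : f.natDegree < r := by
    by_contra hcon
    have h1 := eq_of_monic_of_dvd_of_natDegree_le hfm hmon hfd
      (by rw [natDegree_X_pow_sub_C]; omega)
    rw [h1] at h
    exact h hfi
  have hm0 : 0 < f.natDegree := hfi.natDegree_pos
  have hc : ∃ c : ℚ, (c : ℝ) = θ ^ f.natDegree := by
    refine ⟨|f.coeff 0|, ?_⟩
    have hsp := IsAlgClosed.splits (f.map (algebraMap ℚ ℂ))
    have h1 := hsp.coeff_zero_eq_prod_roots_of_monic (hfm.map _)
    have h2 := congrArg norm h1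
    have h3 : ∀ z ∈ (f.map (algebraMap ℚ ℂ)).roots, ‖z‖ = θ := by
      intro z hz
      have h4 : (f.map (algebraMap ℚ ℂ)).eval z = 0 := (mem_roots'.1 hz).2
      obtain ⟨q, hq⟩ := hfd
      have h5 : ((X ^ r - C β : ℚ[X]).map (algebraMap ℚ ℂ)).eval z = 0 := by
        rw [hq, Polynomial.map_mul, eval_mul, h4, zero_mul]
      rw [Polynomial.map_sub, Polynomial.map_pow, map_X, map_C, eval_sub, eval_pow, eval_X,
        eval_C, sub_eq_zero] at h5
      have h6 := congrArg norm h5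
      rw [norm_pow, eq_ratCast] at h6
      have h7 : ‖((β : ℚ) : ℂ)‖ = θ ^ r := by
        rw [hθr, ← Complex.ofReal_ratCast, Complex.norm_real, Real.norm_of_nonneg hβR.le]
      rw [h7] at h6
      exact (pow_left_inj₀ (norm_nonneg _) hθ.le hr0).1 h6
    rw [norm_mul, norm_pow, norm_neg, norm_one, one_pow, one_mul, dnr_norm θ _ h3,
      ← hsp.natDegree_eq_card_roots, natDegree_map, coeff_map, eq_ratCast,
      ← Complex.ofReal_ratCast, Complex.norm_real, Real.norm_eq_abs] at h2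
    rw [← h2]
    push_cast
    rfl
  let Q : AddSubgroup ℤ :=
    { carrier := {k | ∃ c : ℚ, (c : ℝ) = θ ^ k}
      add_mem' := by
        rintro a b ⟨c, hc⟩ ⟨d, hd⟩
        refine ⟨c * d, ?_⟩
        rw [zpow_add₀ hθ.ne', ← hc, ← hd]
        push_cast
        rfl
      zero_mem' := ⟨1, by simp⟩
      neg_mem' := by
        rintro a ⟨c, hc⟩
        refine ⟨c⁻¹, ?_⟩
        rw [zpow_neg, ← hc]
        push_cast
        rfl }
  have hQm : ((f.natDegree : ℕ) : ℤ) ∈ Q := by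
    obtain ⟨c, hc⟩ := hc
    exact ⟨c, by rw [hc, zpow_natCast]⟩
  have hQr : ((r : ℕ) : ℤ) ∈ Q := ⟨β, by rw [zpow_natCast, hθr]⟩
  obtain ⟨g, hg⟩ : ∃ g, g = Nat.gcd f.natDegree r := ⟨_, rfl⟩
  have hQg : ((g : ℕ) : ℤ) ∈ Q := by
    rw [hg, Nat.gcd_eq_gcd_ab]
    refine Q.add_mem ?_ ?_
    · have h1 := Q.zsmul_mem hQm (Nat.gcdA f.natDegree r)
      rwa [smul_eq_mul, mul_comm] at h1
    · have h1 := Q.zsmul_mem hQr (Nat.gcdB f.natDegree r)
      rwa [smul_eq_mul, mul_comm] at h1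
  have hgle : g ≤ f.natDegree := by
    rw [hg]
    exact Nat.gcd_le_left r hm0
  obtain ⟨s, hs⟩ : g ∣ r := by
    rw [hg]
    exact Nat.gcd_dvd_right _ _
  have hs1 : s ≠ 1 := by
    rintro rfl
    omega
  obtain ⟨t, ht⟩ := Nat.minFac_dvd s
  have hpp := Nat.minFac_prime hs1
  obtain ⟨p, hp⟩ : ∃ p, p = s.minFac := ⟨_, rfl⟩
  rw [← hp] at ht hpp
  refine ⟨p, hpp, ⟨g * t, by rw [hs, ht]; ring⟩, ?_⟩
  have hQt : ((g * t : ℕ) : ℤ) ∈ Q := by
    have h1 := Q.zsmul_mem hQg (t : ℤ)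
    rw [smul_eq_mul, mul_comm] at h1
    exact_mod_cast h1
  obtain ⟨c, hc⟩ := hQt
  rw [zpow_natCast] at hc
  have hc0 : (0 : ℝ) < (c : ℝ) := by
    rw [hc]
    positivity
  refine ⟨c, by exact_mod_cast hc0, ?_⟩
  have h1 : ((c ^ p : ℚ) : ℝ) = ((β : ℚ) : ℝ) := by
    push_cast
    rw [hc, ← pow_mul, ← hθr]
    congr 1
    rw [hs, ht]
    ring
  exact_mod_cast h1

private theorem dnr_val {p p1 q1 : ℕ} (hp : p.Prime) (hp1 : p1.Prime) (hq1 : q1.Prime)
    (hpq : p1 ≠ q1) {c d : ℚ} (hc : 0 < c) (hd : 0 < d)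
    (h : (p1 : ℚ) / q1 * c ^ p = d ^ p) : False := by
  haveI : Fact p1.Prime := ⟨hp1⟩
  haveI : Fact q1.Prime := ⟨hq1⟩
  have hp0 : (p1 : ℚ) ≠ 0 := by exact_mod_cast hp1.ne_zero
  have hq0 : (q1 : ℚ) ≠ 0 := by exact_mod_cast hq1.ne_zero
  have h1 := congrArg (padicValRat p1) h
  rw [padicValRat.mul (div_ne_zero hp0 hq0) (pow_ne_zero _ hc.ne'), padicValRat.div hp0 hq0,
    padicValRat.self hp1.one_lt, padicValRat.of_nat, padicValNat_primes hpq, padicValRat.pow,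
    padicValRat.pow] at h1
  have h2 : (p : ℤ) * (padicValRat p1 d - padicValRat p1 c) = 1 := by
    push_cast at h1
    linarith
  have h3 : (p : ℤ) ∣ 1 := ⟨_, h2.symm⟩
  have h4 : p ∣ 1 := by exact_mod_cast h3
  exact hp.one_lt.ne' (Nat.dvd_one.1 h4)

open Classical in
theorem dens_red (r : ℕ) (hr : 1 ≤ r) (ε : ℝ) (hε : 0 < ε) : ∃ T0 : ℕ, ∀ T : ℕ, T0 ≤ T →
    ∀ b : ℕ, 1 ≤ b → (((Finset.Icc 1 T).filter fun a : ℕ =>
      ¬ Irreducible (X ^ r - C ((a : ℚ) / b) : ℚ[X])).card : ℝ) ≤ ε * T := by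
  have hex : ∀ p : ℕ, ∃ T0 : ℕ, p.Prime → ∀ T : ℕ, T0 ≤ T → ∀ b : ℕ, 1 ≤ b →
      (((Finset.Icc 1 T).filter fun a : ℕ => ((a : ℚ) / b) ∈
        {β : ℚ | ∃ c : ℚ, 0 < c ∧ c ^ p = β}).card : ℝ) ≤ ε / (r + 1) * T := by
    intro p
    by_cases hp : p.Prime
    · obtain ⟨T0, hT0⟩ := dens_zero {β : ℚ | ∃ c : ℚ, 0 < c ∧ c ^ p = β} (by
        intro p1 q1 hp1 hq1 hpq
        have h1 : {β : ℚ | β ∈ {β : ℚ | ∃ c : ℚ, 0 < c ∧ c ^ p = β} ∧
            (p1 : ℚ) / q1 * β ∈ {β : ℚ | ∃ c : ℚ, 0 < c ∧ c ^ p = β}} = ∅ := by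
          rw [Set.eq_empty_iff_forall_notMem]
          rintro β ⟨⟨c, hc, rfl⟩, ⟨d, hd, hdc⟩⟩
          exact dnr_val hp hp1 hq1 hpq hc hd hdc.symm
        rw [h1]
        exact Set.finite_empty) (ε / (r + 1)) (by positivity)
      exact ⟨T0, fun _ => hT0⟩
    · exact ⟨0, fun h => absurd h hp⟩
  choose f hf using hex
  refine ⟨r.primeFactors.sup f, fun T hT b hb => ?_⟩
  have hsub : ((Finset.Icc 1 T).filter fun a : ℕ =>
      ¬ Irreducible (X ^ r - C ((a : ℚ) / b) : ℚ[X])) ⊆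
      r.primeFactors.biUnion fun p => (Finset.Icc 1 T).filter fun a : ℕ => ((a : ℚ) / b) ∈
        {β : ℚ | ∃ c : ℚ, 0 < c ∧ c ^ p = β} := by
    intro a ha
    rw [mem_filter, Finset.mem_Icc] at ha
    have ha0 : (0 : ℚ) < (a : ℚ) / b := by
      have h1 : 0 < a := by omega
      have h2 : 0 < b := by omega
      positivity
    obtain ⟨p, hp, hpr, hc⟩ := red_pow r hr _ ha0 ha.2
    rw [mem_biUnion]
    refine ⟨p, Nat.mem_primeFactors.2 ⟨hp, hpr, by omega⟩, ?_⟩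
    rw [mem_filter, Finset.mem_Icc]
    exact ⟨ha.1, hc⟩
  have hcard : (r.primeFactors.card : ℝ) ≤ r := by
    have h1 : r.primeFactors ⊆ Finset.Icc 1 r := by
      intro p hp
      have h2 := Nat.mem_primeFactors.1 hp
      rw [Finset.mem_Icc]
      exact ⟨h2.1.one_lt.le, Nat.le_of_dvd (by omega) h2.2.1⟩
    have h2 := card_le_card h1
    rw [Nat.card_Icc, Nat.add_sub_cancel] at h2
    exact_mod_cast h2
  calc (((Finset.Icc 1 T).filter fun a : ℕ =>
      ¬ Irreducible (X ^ r - C ((a : ℚ) / b) : ℚ[X])).card : ℝ)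
      ≤ ((r.primeFactors.biUnion fun p => (Finset.Icc 1 T).filter fun a : ℕ => ((a : ℚ) / b) ∈
        {β : ℚ | ∃ c : ℚ, 0 < c ∧ c ^ p = β}).card : ℝ) := by exact_mod_cast card_le_card hsub
    _ ≤ ((∑ p ∈ r.primeFactors, ((Finset.Icc 1 T).filter fun a : ℕ => ((a : ℚ) / b) ∈
        {β : ℚ | ∃ c : ℚ, 0 < c ∧ c ^ p = β}).card : ℕ) : ℝ) := by
          exact_mod_cast card_biUnion_le
    _ = ∑ p ∈ r.primeFactors, (((Finset.Icc 1 T).filter fun a : ℕ => ((a : ℚ) / b) ∈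
        {β : ℚ | ∃ c : ℚ, 0 < c ∧ c ^ p = β}).card : ℝ) := by push_cast; rfl
    _ ≤ ∑ p ∈ r.primeFactors, ε / (r + 1) * T := sum_le_sum fun p hp =>
          hf p (Nat.mem_primeFactors.1 hp).1 T ((Finset.le_sup hp).trans hT) b hb
    _ = r.primeFactors.card * (ε / (r + 1) * T) := by rw [sum_const, nsmul_eq_mul]
    _ ≤ r * (ε / (r + 1) * T) := mul_le_mul_of_nonneg_right hcard (by positivity)
    _ ≤ (r + 1) * (ε / (r + 1) * T) := by
          refine mul_le_mul_of_nonneg_right ?_ (by positivity)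
          linarith
    _ = ε * T := by
          field_simp

end Pool.Agent.H97.NW
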