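import Pool.Agent.H4.AR.SievB

/-! # [H97 NW DNS] Density zero from finiteness for every ratio

`irr_ratio`: `X^r - p/q` is irreducible over `ℚ` for primes `p ≠ q`, `1 ≤ r`: `q X^r - p ∈ ℤ[X]` is Eisenstein at `p` (primitive since `gcd(p,q) = 1`), `Polynomial.irreducible_of_eisenstein_criterion` and Gauss (`IsPrimitive.Int.irreducible_iff_irreducible_map_cast`); multiply by the unit `1/q`.
`dens_zero`: `C` from `H4AR.sieve_window`. `y = max 3 (4/ε)`, `z ≥ y` with `C log y/log z ≤ ε/2`. `𝒫 = PI y z` (the primes in `(y, z]`, a finite set; `MertB.mem_PI`). For every pair of distinct primes `p, q ∈ 𝒫` the set `{β | β ∈ E ∧ (p/q) β ∈ E}` is finite; let `N0` be the sum of the numbers of elements.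
Let `T ≥ z`, `b ≥ 1`, `S = {a ∈ Icc 1 T | a/b ∈ E}`. If `#S > ε T`, then `S' = {a ∈ S | some p ∈ 𝒫 divides a}` has more than `(ε/2) T` elements. For `a ∈ S'` let `p(a)` be the least prime of `𝒫` dividing `a`, `m(a) = a/p(a) ≤ T/y ≤ (ε/4) T`. Choose in every class of `m` one element `a_m`. For `a ∈ S'`, `a ≠ a_(m(a))`:
`a_(m) = p m`, `a = p' m`, `p ≠ p'`, and `β = a_m/b ∈ E`, `(p'/p) β = a/b ∈ E`. The map `a ↦ (p', p, β)` is injective (`a/b = (p'/p) β`), so `#S' ≤ (ε/4) T + N0`. Hence `(ε/4) T < N0`; take `T0 > 4 N0/ε`, `T0 ≥ z`. -/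

namespace Pool.Agent.H97.NW

open Finset Polynomial

theorem irr_ratio (r p q : ℕ) (hr : 1 ≤ r) (hp : p.Prime) (hq : q.Prime) (hpq : p ≠ q) :
    Irreducible (X ^ r - C ((p : ℚ) / q) : ℚ[X]) := by
  have hq0 : (q : ℤ) ≠ 0 := by exact_mod_cast hq.ne_zero
  have hp0 : (p : ℤ) ≠ 0 := by exact_mod_cast hp.ne_zero
  have hqQ : (q : ℚ) ≠ 0 := by exact_mod_cast hq.ne_zero
  have hpz : Prime (p : ℤ) := Nat.prime_iff_prime_int.1 hp
  obtain ⟨f, hf⟩ : ∃ f : ℤ[X], f = C (q : ℤ) * X ^ r - C (p : ℤ) := ⟨_, rfl⟩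
  have hc : ∀ n, f.coeff n = (if n = r then (q : ℤ) else 0) - (if n = 0 then (p : ℤ) else 0) := by
    intro n
    rw [hf, coeff_sub, coeff_C_mul, coeff_X_pow, coeff_C]
    split_ifs <;> simp
  have hdeg : f.natDegree = r := by
    rw [hf]
    rw [natDegree_sub_C, natDegree_C_mul_X_pow r (q : ℤ) hq0]
  have hlc : f.leadingCoeff = (q : ℤ) := by
    rw [leadingCoeff, hdeg, hc, if_pos rfl, if_neg (by omega), sub_zero]
  have hcop : IsCoprime (p : ℤ) (q : ℤ) := by
    rw [Nat.isCoprime_iff_coprime]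
    exact (Nat.coprime_primes hp hq).2 hpq
  have hprim : f.IsPrimitive := by
    intro a ha
    rw [C_dvd_iff_dvd_coeff] at ha
    have h1 := ha r
    have h2 := ha 0
    rw [hc, if_pos rfl, if_neg (by omega), sub_zero] at h1
    rw [hc, if_neg (by omega), if_pos rfl, zero_sub, dvd_neg] at h2
    exact hcop.isUnit_of_dvd' h2 h1
  have hirr : Irreducible f := by
    refine irreducible_of_eisenstein_criterion (P := Ideal.span {(p : ℤ)})
      ((Ideal.span_singleton_prime hp0).2 hpz) ?_ ?_ ?_ ?_ hprim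
    · rw [hlc, Ideal.mem_span_singleton]
      intro h
      have h1 : (p : ℕ) ∣ q := by exact_mod_cast h
      exact hpq ((Nat.prime_dvd_prime_iff_eq hp hq).1 h1)
    · intro n hn
      have hn' : n < r := by
        rw [degree_eq_natDegree (by rintro h; rw [h] at hlc; simp at hlc; exact hq0 (by exact_mod_cast hlc.symm)), hdeg] at hn
        exact_mod_cast hn
      rw [hc, if_neg (by omega), zero_sub, Ideal.mem_span_singleton, dvd_neg]
      split_ifs
      · exact dvd_rfl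
      · exact dvd_zero _
    · rw [← natDegree_pos_iff_degree_pos, hdeg]
      exact hr
    · rw [hc, if_neg (by omega), if_pos rfl, zero_sub, Ideal.span_singleton_pow,
        Ideal.mem_span_singleton, dvd_neg]
      intro h
      have h1 : (p : ℤ) ^ 2 ∣ (p : ℤ) ^ 1 := by simpa using h
      have h2 := (pow_dvd_pow_iff hp0 hpz.not_unit).1 h1
      omega
  have h1 := (IsPrimitive.Int.irreducible_iff_irreducible_map_cast hprim).1 hirr
  have h2 : f.map (Int.castRingHom ℚ) = C (q : ℚ) * (X ^ r - C ((p : ℚ) / q)) := by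
    rw [hf, Polynomial.map_sub, Polynomial.map_mul, Polynomial.map_pow, map_X, map_C, map_C,
      mul_sub, ← C_mul, mul_div_cancel₀ _ hqQ]
    simp
  rw [h2] at h1
  have h3 : IsUnit (C (q : ℚ) : ℚ[X]) := isUnit_C.2 (isUnit_iff_ne_zero.2 hqQ)
  exact (irreducible_isUnit_mul h3).1 h1

open Classical in
theorem dens_zero (E : Set ℚ) (hE : ∀ p q : ℕ, p.Prime → q.Prime → p ≠ q →
    {β | β ∈ E ∧ (p : ℚ) / q * β ∈ E}.Finite) (ε : ℝ) (hε : 0 < ε) : ∃ T0 : ℕ, ∀ T : ℕ, T0 ≤ T →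
      ∀ b : ℕ, 1 ≤ b →
        (((Finset.Icc 1 T).filter fun a : ℕ => ((a : ℚ) / b) ∈ E).card : ℝ) ≤ ε * T := by
  obtain ⟨Cc, hC, hsv⟩ := H4AR.sieve_window
  obtain ⟨y, hy⟩ : ∃ y : ℝ, y = max 3 (4 / ε) := ⟨_, rfl⟩
  have hy3 : 3 ≤ y := by rw [hy]; exact le_max_left _ _
  have hyε : 4 / ε ≤ y := by rw [hy]; exact le_max_right _ _
  have hy0 : 0 < y := by linarith
  have hly : 0 < Real.log y := Real.log_pos (by linarith)
  obtain ⟨z, hz⟩ : ∃ z : ℝ, z = max y (Real.exp (2 * Cc * Real.log y / ε)) := ⟨_, rfl⟩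
  have hyz : y ≤ z := by rw [hz]; exact le_max_left _ _
  have hz0 : 0 < z := by linarith
  have hlz : 2 * Cc * Real.log y / ε ≤ Real.log z := by
    rw [Real.le_log_iff_exp_le hz0, hz]
    exact le_max_right _ _
  have hlz0 : 0 < Real.log z := Real.log_pos (by linarith)
  have hcz : Cc * Real.log y / Real.log z ≤ ε / 2 := by
    rw [div_le_iff₀ hlz0]
    rw [div_le_iff₀ hε] at hlz
    linarith
  obtain ⟨PP, hPP⟩ : ∃ PP : Finset ℕ, PP = Pool.Agent.H75.AP.PI y z := ⟨_, rfl⟩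
  have hmem : ∀ p ∈ PP, p.Prime ∧ y < (p : ℝ) := by
    intro p hp
    rw [hPP, Pool.Agent.H75.AP.MertB.mem_PI hy0.le] at hp
    exact ⟨hp.1, hp.2.1⟩
  -- the finite set of triples
  obtain ⟨G, hG⟩ : ∃ G : Set (ℕ × ℕ × ℚ), G = {t | t.1 ∈ PP ∧ t.2.1 ∈ PP ∧ t.1 ≠ t.2.1 ∧
    t.2.2 ∈ E ∧ (t.1 : ℚ) / t.2.1 * t.2.2 ∈ E} := ⟨_, rfl⟩
  have hGf : G.Finite := by
    have h1 : G ⊆ ⋃ p ∈ (PP : Set ℕ), ⋃ q ∈ (PP : Set ℕ),
        {t : ℕ × ℕ × ℚ | t.1 = p ∧ t.2.1 = q ∧ p ≠ q ∧ t.2.2 ∈ E ∧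
          (p : ℚ) / q * t.2.2 ∈ E} := by
      intro t ht
      rw [hG] at ht
      obtain ⟨h1, h2, h3, h4, h5⟩ := ht
      simp only [Set.mem_iUnion]
      exact ⟨t.1, h1, t.2.1, h2, rfl, rfl, h3, h4, h5⟩
    refine Set.Finite.subset (Set.Finite.biUnion PP.finite_toSet fun p hp =>
      Set.Finite.biUnion PP.finite_toSet fun q hq => ?_) h1
    by_cases hpq : p = q
    · refine Set.Finite.subset Set.finite_empty ?_
      rintro t ⟨_, _, h3, _⟩
      exact absurd hpq h3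
    · refine Set.Finite.subset ((hE p q (hmem p hp).1 (hmem q hq).1 hpq).image
        (fun β => (p, q, β))) ?_
      rintro ⟨t1, t2, t3⟩ ⟨h2, h3, _, h4, h5⟩
      simp only at h2 h3 h4 h5
      exact ⟨t3, ⟨h4, h5⟩, by rw [h2, h3]⟩
  obtain ⟨GF, hGF⟩ : ∃ GF : Finset (ℕ × ℕ × ℚ), ∀ t, t ∈ GF ↔ t ∈ G :=
    ⟨hGf.toFinset, fun t => hGf.mem_toFinset⟩
  refine ⟨max ⌈z⌉₊ ⌈4 * (GF.card : ℝ) / ε⌉₊, fun T hT b hb => ?_⟩
  have hTz : z ≤ (T : ℝ) := by
    refine (Nat.le_ceil z).trans ?_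
    exact_mod_cast (le_max_left _ _).trans hT
  have hTG : (GF.card : ℝ) ≤ ε / 4 * T := by
    have h1 : 4 * (GF.card : ℝ) / ε ≤ (T : ℝ) := by
      refine (Nat.le_ceil _).trans ?_
      exact_mod_cast (le_max_right _ _).trans hT
    rw [div_le_iff₀ hε] at h1
    linarith
  have hT0 : (0 : ℝ) ≤ T := by linarith
  have hbQ : (b : ℚ) ≠ 0 := by
    have : b ≠ 0 := by omega
    exact_mod_cast this
  obtain ⟨S, hS⟩ : ∃ S : Finset ℕ, S = (Finset.Icc 1 T).filter fun a : ℕ => ((a : ℚ) / b) ∈ E :=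
    ⟨_, rfl⟩
  rw [← hS]
  obtain ⟨S0, hS0⟩ : ∃ S0 : Finset ℕ, S0 = (Finset.Icc 1 T).filter
    fun a : ℕ => ∀ p ∈ PP, ¬ p ∣ a := ⟨_, rfl⟩
  obtain ⟨S1, hS1⟩ : ∃ S1 : Finset ℕ, S1 = S.filter fun a : ℕ => ∃ p ∈ PP, p ∣ a := ⟨_, rfl⟩
  have hcov : S ⊆ S0 ∪ S1 := by
    intro a ha
    rw [mem_union]
    by_cases h : ∃ p ∈ PP, p ∣ a
    · right
      rw [hS1, mem_filter]
      exact ⟨ha, h⟩
    · left
      rw [hS0, mem_filter]
      rw [hS, mem_filter] at ha
      refine ⟨ha.1, fun p hp hpa => h ⟨p, hp, hpa⟩⟩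
  have hc0 : (S0.card : ℝ) ≤ ε / 2 * T := by
    have h1 := hsv y z T hy3 hyz hTz
    rw [hS0, hPP]
    refine h1.trans ?_
    calc Cc * T * Real.log y / Real.log z = (Cc * Real.log y / Real.log z) * T := by ring
      _ ≤ ε / 2 * T := mul_le_mul_of_nonneg_right hcz hT0
  -- the prime divisor
  obtain ⟨pr, hpr⟩ : ∃ pr : ℕ → ℕ, ∀ a ∈ S1, pr a ∈ PP ∧ pr a ∣ a := by
    refine ⟨fun a => if h : ∃ p ∈ PP, p ∣ a then h.choose else 0, fun a ha => ?_⟩
    rw [hS1, mem_filter] at ha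
    simp only
    rw [dif_pos ha.2]
    exact ha.2.choose_spec
  have hS1S : ∀ a ∈ S1, 1 ≤ a ∧ a ≤ T ∧ ((a : ℚ) / b) ∈ E := by
    intro a ha
    rw [hS1, mem_filter, hS, mem_filter, mem_Icc] at ha
    exact ⟨ha.1.1.1, ha.1.1.2, ha.1.2⟩
  have hprm : ∀ a ∈ S1, pr a * (a / pr a) = a := fun a ha => Nat.mul_div_cancel' (hpr a ha).2
  -- representatives
  obtain ⟨rep, hrep⟩ : ∃ rep : ℕ → ℕ, ∀ a ∈ S1, rep (a / pr a) ∈ S1 ∧
      rep (a / pr a) / pr (rep (a / pr a)) = a / pr a := by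
    refine ⟨fun v => if h : ∃ a ∈ S1, a / pr a = v then h.choose else 0, fun a ha => ?_⟩
    have h1 : ∃ a' ∈ S1, a' / pr a' = a / pr a := ⟨a, ha, rfl⟩
    simp only
    rw [dif_pos h1]
    exact h1.choose_spec
  have hA : ((S1.filter fun a => a = rep (a / pr a)).card : ℝ) ≤ ε / 4 * T := by
    have h1 : (S1.filter fun a => a = rep (a / pr a)).card ≤ (Finset.Icc 1 ⌊(T : ℝ) / y⌋₊).card := by
      refine card_le_card_of_injOn (fun a => a / pr a) ?_ ?_
      · intro a ha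
        rw [mem_coe, mem_filter] at ha
        obtain ⟨h2, h3, _⟩ := hS1S a ha.1
        have h4 := hprm a ha.1
        have h5 := (hmem _ (hpr a ha.1).1).2
        rw [mem_coe, mem_Icc]
        constructor
        · rw [Nat.one_le_iff_ne_zero]
          intro h6
          have h6' : a / pr a = 0 := h6
          rw [h6', mul_zero] at h4
          omega
        · rw [Nat.le_floor_iff (by positivity), le_div_iff₀ hy0]
          have h6 : (((a / pr a : ℕ)) : ℝ) * y ≤ ((a / pr a : ℕ) : ℝ) * (pr a : ℝ) :=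
            mul_le_mul_of_nonneg_left h5.le (Nat.cast_nonneg _)
          refine h6.trans ?_
          have h7 : (a / pr a) * pr a ≤ T := by
            rw [mul_comm, h4]
            exact h3
          exact_mod_cast h7
      · intro a ha a' ha' haa
        rw [mem_coe, mem_filter] at ha ha'
        simp only at haa
        rw [ha.2, ha'.2, haa]
    rw [Nat.card_Icc, Nat.add_sub_cancel] at h1
    have h2 : ((S1.filter fun a => a = rep (a / pr a)).card : ℝ) ≤ (⌊(T : ℝ) / y⌋₊ : ℝ) := by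
      exact_mod_cast h1
    have h3 : (⌊(T : ℝ) / y⌋₊ : ℝ) ≤ (T : ℝ) / y := Nat.floor_le (by positivity)
    have h4 : (T : ℝ) / y ≤ ε / 4 * T := by
      rw [div_le_iff₀ hy0]
      rw [div_le_iff₀ hε] at hyε
      have h5 : 4 * (T : ℝ) ≤ y * ε * T := mul_le_mul_of_nonneg_right hyε hT0
      linarith
    linarith
  have hB : ((S1.filter fun a => ¬ a = rep (a / pr a)).card : ℝ) ≤ GF.card := by
    have h1 : (S1.filter fun a => ¬ a = rep (a / pr a)).card ≤ GF.card := by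
      refine card_le_card_of_injOn
        (fun a => (pr a, pr (rep (a / pr a)), ((rep (a / pr a) : ℕ) : ℚ) / b)) ?_ ?_
      · intro a ha
        rw [mem_coe, mem_filter] at ha
        obtain ⟨ha1, ha2⟩ := ha
        obtain ⟨hr1, hr2⟩ := hrep a ha1
        rw [mem_coe, hGF, hG]
        have e1 := hprm a ha1
        have e2 := hprm _ hr1
        rw [hr2] at e2
        have hne : pr a ≠ pr (rep (a / pr a)) := by
          intro h
          apply ha2
          rw [← e2, ← h, e1]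
        refine ⟨(hpr a ha1).1, (hpr _ hr1).1, hne, (hS1S _ hr1).2.2, ?_⟩
        have h3 := (hS1S a ha1).2.2
        have hq0 : ((pr (rep (a / pr a)) : ℕ) : ℚ) ≠ 0 := by
          exact_mod_cast (hmem _ (hpr _ hr1).1).1.ne_zero
        have h4 : ((pr a : ℕ) : ℚ) / (pr (rep (a / pr a)) : ℕ) *
            (((rep (a / pr a) : ℕ) : ℚ) / b) = (a : ℚ) / b := by
          have e3 : ((rep (a / pr a) : ℕ) : ℚ) =
              (pr (rep (a / pr a)) : ℕ) * ((a / pr a : ℕ) : ℚ) := by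
            exact_mod_cast e2.symm
          have e4 : (a : ℚ) = (pr a : ℕ) * ((a / pr a : ℕ) : ℚ) := by
            exact_mod_cast e1.symm
          calc ((pr a : ℕ) : ℚ) / (pr (rep (a / pr a)) : ℕ) *
              (((rep (a / pr a) : ℕ) : ℚ) / b)
              = ((pr a : ℕ) : ℚ) / (pr (rep (a / pr a)) : ℕ) *
              (((pr (rep (a / pr a)) : ℕ) * ((a / pr a : ℕ) : ℚ)) / b) := by rw [← e3]
            _ = ((pr a : ℕ) * ((a / pr a : ℕ) : ℚ)) / b := by
              field_simp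
            _ = _ := by rw [← e4]
        simp only
        rw [h4]
        exact h3
      · intro a ha a' ha' haa
        rw [mem_coe, mem_filter] at ha ha'
        obtain ⟨hr1, hr2⟩ := hrep a ha.1
        obtain ⟨hr1', hr2'⟩ := hrep a' ha'.1
        have e1 := hprm a ha.1
        have e1' := hprm a' ha'.1
        have e2 := hprm _ hr1
        have e2' := hprm _ hr1'
        rw [hr2] at e2
        rw [hr2'] at e2'
        simp only [Prod.mk.injEq] at haa
        obtain ⟨h1, h2, h3⟩ := haa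
        have h4 : ((rep (a / pr a) : ℕ) : ℚ) = ((rep (a' / pr a') : ℕ) : ℚ) := by
          field_simp at h3
          exact h3
        have h5 : rep (a / pr a) = rep (a' / pr a') := by exact_mod_cast h4
        have h6 : a / pr a = a' / pr a' := by
          have h7 : 0 < pr (rep (a / pr a)) := (hmem _ (hpr _ hr1).1).1.pos
          have h8 : pr (rep (a / pr a)) * (a / pr a) = pr (rep (a / pr a)) * (a' / pr a') := by
            rw [e2, h5, e2']
          exact Nat.eq_of_mul_eq_mul_left h7 h8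
        rw [← e1, ← e1', ← h1, h6, h1]
    exact_mod_cast h1
  have hfin : (S.card : ℝ) ≤ S0.card + ((S1.filter fun a => a = rep (a / pr a)).card +
      (S1.filter fun a => ¬ a = rep (a / pr a)).card) := by
    have h1 : S.card ≤ S0.card + S1.card := (card_le_card hcov).trans (card_union_le _ _)
    have h2 := Finset.card_filter_add_card_filter_not (s := S1) (fun a => a = rep (a / pr a))
    have h3 : S.card ≤ S0.card + ((S1.filter fun a => a = rep (a / pr a)).card +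
      (S1.filter fun a => ¬ a = rep (a / pr a)).card) := by
      rw [h2]
      exact h1
    exact_mod_cast h3
  linarith

end Pool.Agent.H97.NW
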