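import Pool.Agent.H97.NW.Defs
import Pool.Agent.H34.AC.KapR

/-!
# MP_821da1_nt, NoWindows: the condition at infinity

`INL r β d F`: for every number field `K` with a real embedding and every `K((t))`-point `(X, Y)` of
the curve `F = 0` whose first coordinate has a pole, `β` is an `r`-th power in `K`.
(`Spc A c0 x y`, the pair `(x, y)` of integers is special, is in `Pool/Agent/H97/NW/ZD.lean`.)
-/

namespace Pool.Agent.H97.NW

open Finset Polynomial Pool.Agent.H72.ES Pool.Agent.H87.SA2 Pool.Agent.H8.AW Pool.Agent.H52.AC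
  Pool.Agent.H34.AC

/-- every point with a pole of the first coordinate over a number field `K` with a real embedding
makes `β` an `r`-th power in `K` -/
def INL (r : ℕ) (β : ℚ) (d : ℕ) (F : ℕ → ℕ → ℤ) : Prop :=
  ∀ (K : Type) [Field K] [NumberField K], Nonempty (K →+* ℝ) →
    ∀ (X Y : LaurentSeries K), ev d (cst (LaurentSeries K) F) X Y = 0 →
      X ∈ (HahnSeries.ofPowerSeries ℤ K).range ∨ ∃ a : K, a ^ r = (β : K)

end Pool.Agent.H97.NW
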