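import Pool.Agent.H97.NW.Defs
import Pool.Agent.H52.AC.UI
import Pool.Agent.H52.AC.PRM

/-! # [H97 NW EQV] Integrality and conjugation of the cell sums

`Vm_int`: `Vm` is a finite sum of products of integers and coefficients of `uu`, which are algebraic
integers (`uu_int` of `Pool/Agent/H52/AC/UI.lean` with `pd.integral`): `IsIntegral.sum`, `.mul`, `IsIntegral.prod`.
`Vm_gal`: by `uu_gal` (`UI.lean`, with `coeff_mem` of `PRM.lean`) every coefficient `c` of
`uu .. (x (p v)) ..` is `(a : ℂ)` for an `a : AA` with `σ a` = the coefficient of `uu .. (x (p' v)) ..`. So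
`Vm .. p K` is the image of an explicit element `z0 : AA` (the same finite sum of products in `AA`), `z = z0`
(`Subtype.ext`), and `σ z0 = Vm .. p' K` (`map_sum, map_mul, map_prod, map_intCast`).
`exists_cj`: `perm_gal pd σ` with `σ = (starRingEnd ℂ).comp (algebraMap AA ℂ)` for each `v`, as in
`exists_conjS` (`Pool/Agent/H8/AS/Fib.lean`); `c (c i) = i` by `pd.x_inj`.
`Vm_conj`: as `VV_conj`/`Vc_conj`: the coefficients of `uu` along `x (c i)` are the conjugates
(`uu_conj_UR` of `UR.lean` or directly: `x (c i) = map (starRingEnd ℂ) (x i)`). -/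

namespace Pool.Agent.H97.NW

open Finset Polynomial Pool.Agent.H72.ES Pool.Agent.H87.SA2 Pool.Agent.H8.AW Pool.Agent.H52.AC

variable {m n : ℕ}

/-- the cell sum over a ring -/
private noncomputable def VmS {S : Type*} [CommRing S] (P : Fin m → Ptd n) (D N : Fin m → ℕ) (A : Mo P N → ℤ)
    (η : Fin m → PowerSeries S) (K : Fin m → ℕ) : S :=
  ∑ r : (∀ v, Fin (P v).C.pd.e), ∑ μ : Mo P N, (A μ : S) * ∏ v, PowerSeries.coeff ((P v).C.pd.e * K v + (r v : ℕ))
    (uuS_UI (P v).C.pd.q (P v).C.pd.e (η v) (D v) (μ v).1 (μ v).2)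

private theorem VmS_map {S S' : Type*} [CommRing S] [CommRing S'] (φ : S →+* S') (P : Fin m → Ptd n) (D N : Fin m → ℕ)
    (A : Mo P N → ℤ) (η : Fin m → PowerSeries S) (K : Fin m → ℕ) :
    φ (VmS P D N A η K) = VmS P D N A (fun v => PowerSeries.map φ (η v)) K := by
  unfold VmS
  rw [map_sum]
  refine sum_congr rfl fun r _ => ?_
  rw [map_sum]
  refine sum_congr rfl fun μ _ => ?_
  rw [map_mul, map_intCast, map_prod]
  congr 1
  refine prod_congr rfl fun v _ => ?_
  rw [← PowerSeries.coeff_map, uuS_map_UI]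

private theorem Vm_eq (P : Fin m → Ptd n) (D N : Fin m → ℕ) (A : Mo P N → ℤ) (p : ∀ v, Fin (P v).d) (K : Fin m → ℕ) :
    Vm P D N A p K = VmS P D N A (fun v => (P v).C.pd.x (p v)) K := rfl

theorem Vm_int (P : Fin m → Ptd n) (D N : Fin m → ℕ) (A : Mo P N → ℤ)
    (p : ∀ v, Fin (P v).d) (K : Fin m → ℕ) : IsIntegral ℤ (Vm P D N A p K) := by
  have h : Vm P D N A p K = algebraMap (integralClosure ℤ ℂ) ℂ
      (VmS P D N A (fun v => intS_UI ((P v).C.pd.integral (p v))) K) := by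
    rw [VmS_map, Vm_eq]
    congr 1
    funext v
    rw [intS_map_UI]
  rw [h]
  exact (VmS P D N A (fun v => intS_UI ((P v).C.pd.integral (p v))) K).2

theorem Vm_gal (P : Fin m → Ptd n) (D N : Fin m → ℕ) (A : Mo P N → ℤ) (σ : AA →+* ℂ)
    (p p' : ∀ v, Fin (P v).d)
    (h : ∀ (v : Fin m) (k : ℕ) (a : AA), (a : ℂ) = PowerSeries.coeff k ((P v).C.pd.x (p v)) →
      σ a = PowerSeries.coeff k ((P v).C.pd.x (p' v))) (K : Fin m → ℕ) (z : AA)
    (hz : (z : ℂ) = Vm P D N A p K) : σ z = Vm P D N A p' K := by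
  have h3 : Vm P D N A p K = algebraMap AA ℂ
      (VmS P D N A (fun v => algS_UI (coeff_mem (P v).C.pd (p v))) K) := by
    rw [VmS_map, Vm_eq]
    congr 1
    funext v
    rw [algS_map_UI]
  have h4 : z = VmS P D N A (fun v => algS_UI (coeff_mem (P v).C.pd (p v))) K := Subtype.ext (hz.trans h3)
  rw [h4, VmS_map, Vm_eq]
  congr 1
  funext v
  rw [algS_gal_UI σ _ (h v)]

theorem exists_cj (P : Ptd n) : ∃ c : Fin P.d → Fin P.d, (∀ i, c (c i) = i) ∧
    ∀ i k, PowerSeries.coeff k (P.C.pd.x (c i)) =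
      (starRingEnd ℂ) (PowerSeries.coeff k (P.C.pd.x i)) := by
  obtain ⟨σ, hσ⟩ : ∃ σ : AA →+* ℂ, ∀ a : AA, σ a = (starRingEnd ℂ) (a : ℂ) :=
    ⟨(starRingEnd ℂ).comp (algebraMap AA ℂ), fun a => rfl⟩
  obtain ⟨π, hπ⟩ := perm_gal P.C.pd σ
  have h1 : ∀ i m, PowerSeries.coeff m (P.C.pd.x (π i)) =
      (starRingEnd ℂ) (PowerSeries.coeff m (P.C.pd.x i)) := by
    intro i m
    have h2 := hπ i m ⟨PowerSeries.coeff m (P.C.pd.x i), coeff_mem P.C.pd i m⟩ rfl
    rw [hσ] at h2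
    exact h2.symm
  refine ⟨π, fun i => ?_, h1⟩
  apply P.C.pd.x_inj
  ext m
  rw [h1, h1, Complex.conj_conj]

theorem coeff_uu_conj (q e : ℕ) {w w' : PowerSeries ℂ}
    (h : ∀ k, PowerSeries.coeff k w' = (starRingEnd ℂ) (PowerSeries.coeff k w)) (D a b k : ℕ) :
    PowerSeries.coeff k (uu q e w' D a b) =
      (starRingEnd ℂ) (PowerSeries.coeff k (uu q e w D a b)) := by
  have h1 : w' = PowerSeries.map (starRingEnd ℂ) w := by
    ext m
    rw [PowerSeries.coeff_map, h]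
  have h2 : uu q e w' D a b = PowerSeries.map (starRingEnd ℂ) (uu q e w D a b) := by
    rw [h1]
    simp only [uu, map_mul, map_pow, PowerSeries.map_X, map_natCast]
  rw [h2, PowerSeries.coeff_map]

end Pool.Agent.H97.NW
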