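import Pool.Agent.H97.NW.RPD

/-! # [H97 NW EXC] The exceptional radicals -/

namespace Pool.Agent.H97.NW

open Polynomial Pool.Agent.H34.AC

/-- the height of a rational number -/
def hgt (β : ℚ) : ℕ := max β.num.natAbs β.den

/-- `β` is exceptional: some irreducible curve of degree `≤ d` and height `≤ H`, all of whose real
points at infinity carry an `r`-th root of `β`, has an integer point of size larger than
`(hgt β * H)^C`. -/
def Exc (r d C : ℕ) : Set ℚ := {β | 0 < β ∧ Irreducible (X ^ r - Polynomial.C β : ℚ[X]) ∧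
  ∃ F : MvPolynomial (Fin 2) ℤ, Irreducible (MvPolynomial.map (Int.castRingHom ℚ) F) ∧
    F.totalDegree ≤ d ∧ INFN r β F ∧ ∃ H : ℕ, 2 ≤ H ∧ (∀ m, |F.coeff m| ≤ (H : ℤ)) ∧
      ∃ x y : ℤ, vl F x y = 0 ∧ (hgt β * H) ^ C < max x.natAbs y.natAbs}

end Pool.Agent.H97.NW
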