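import Pool.Agent.H97.NW.RPD

/-! # [H97 NW FAM] The equations `b x^r - a y^r = G(x,y)` with `deg G < r`

`Fam r a b G = C b * X 0 ^ r - C a * X 1 ^ r - G`.
`fam_infn`: let `F(X,Y) = 0` in `K((t))`, `b X^r = a Y^r + G(X,Y)`, and not both in `K[[t]]`. Let `-m < 0` be the smaller of the orders of `X, Y` (`HahnSeries.order`, or: multiply by `t^m` such that `X = t^(-m) U`, `Y = t^(-m) V` with `U, V ∈ K[[t]]` not both divisible by `t`). Multiply the equation by `t^(r m)`:
`b U^r = a V^r + t * (...)` since every monomial of `G` has degree `≤ r - 1`. Constant terms `u, v` of `U, V`: `b u^r = a v^r`, not both zero, so (`a, b ≠ 0`) both nonzero, `(u/v)^r = a/b`.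
`fam_deg`: `totalDegree ≤ r`. `fam_coeff`: the monomials of `G` are different from `X 0 ^ r`, `X 1 ^ r`: coefficients bounded by `max (max a b) H`.
`fam_irr`: let `F = f g` over `ℚ`, of total degrees `s, s'`, `s + s' = r` (`MvPolynomial.totalDegree_mul_of_isDomain`; `totalDegree F = r`). For a polynomial `h` of total degree `≤ s` put `h^s(x) = ∑_(i+j=s) h_ij x^i` (`ℚ[X]`, degree `≤ s`): the top forms at `y = 1`; `(f g)^(s+s') = f^s g^s'` (only pairs of top monomials
contribute). So `f^s g^s' = b x^r - a`, which is irreducible (a unit times `X^r - a/b`), hence `f^s` or `g^s'` is constant, `≠ 0`; the degrees add up to `r = s + s'`, so `natDegree f^s = s`, `natDegree g^s' = s'`, and `s = 0` or `s' = 0`: one factor is a nonzero constant, a unit. -/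

namespace Pool.Agent.H97.NW

open Finset Polynomial Pool.Agent.H34.AC

/-- the equation `b x^r - a y^r - G(x,y) = 0` -/
noncomputable def Fam (r a b : ℕ) (G : MvPolynomial (Fin 2) ℤ) : MvPolynomial (Fin 2) ℤ :=
  MvPolynomial.C (b : ℤ) * MvPolynomial.X 0 ^ r - MvPolynomial.C (a : ℤ) * MvPolynomial.X 1 ^ r - G

private theorem fam_vl_eq {S : Type*} [CommRing S] (F : MvPolynomial (Fin 2) ℤ) (x y : S) :
    vl F x y = ∑ m ∈ F.support, ((F.coeff m : ℤ) : S) * (x ^ m 0 * y ^ m 1) := by
  rw [vl, MvPolynomial.eval₂_eq']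
  refine Finset.sum_congr rfl fun m _ => ?_
  rw [Fin.prod_univ_two]
  rfl

private theorem fam_sum (m : Fin 2 →₀ ℕ) : (m.sum fun _ e => e) = m 0 + m 1 := by
  rw [Finsupp.sum_fintype _ _ (fun _ => rfl), Fin.sum_univ_two]

private theorem fam_td {R : Type*} [CommRing R] {G : MvPolynomial (Fin 2) R} {m : Fin 2 →₀ ℕ}
    (h : G.totalDegree < m 0 + m 1) : G.coeff m = 0 := by
  by_contra hc
  have h1 := MvPolynomial.le_totalDegree (MvPolynomial.mem_support_iff.2 hc)
  rw [fam_sum] at h1
  omega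

private theorem fam_pole {K : Type} [Field K] (Z : LaurentSeries K) :
    ∃ (N : ℕ) (u : PowerSeries K), HahnSeries.ofPowerSeries ℤ K u =
      (HahnSeries.ofPowerSeries ℤ K PowerSeries.X) ^ N * Z := by
  have h1 := LaurentSeries.single_order_mul_powerSeriesPart Z
  obtain ⟨N, hN⟩ : ∃ N : ℕ, N = (HahnSeries.order Z).natAbs := ⟨_, rfl⟩
  obtain ⟨k, hk⟩ : ∃ k : ℕ, (k : ℤ) = N + HahnSeries.order Z := by
    refine ⟨((N : ℤ) + HahnSeries.order Z).toNat, ?_⟩
    rw [Int.toNat_of_nonneg]
    omega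
  refine ⟨N, PowerSeries.X ^ k * LaurentSeries.powerSeriesPart Z, ?_⟩
  rw [map_mul, ← map_pow, HahnSeries.ofPowerSeries_X_pow, HahnSeries.ofPowerSeries_X_pow]
  conv_rhs => rw [← h1]
  rw [← mul_assoc, HahnSeries.single_mul_single, mul_one, hk]

theorem fam_infn {r a b : ℕ} (hr : 1 ≤ r) (ha : 1 ≤ a) (hb : 1 ≤ b)
    {G : MvPolynomial (Fin 2) ℤ} (hG : G.totalDegree < r) :
    INFN r ((a : ℚ) / b) (Fam r a b G) := by
  classical
  intro K _ _ _ X Y h0
  set Q := HahnSeries.ofPowerSeries ℤ K with hQ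
  set τ : LaurentSeries K := Q PowerSeries.X with hτ
  have hinj : Function.Injective Q := HahnSeries.ofPowerSeries_injective
  have hτ0 : τ ≠ 0 := by
    intro h
    have : (PowerSeries.X : PowerSeries K) = 0 := hinj (by rw [map_zero]; exact h)
    exact PowerSeries.X_ne_zero this
  have hex : ∃ N : ℕ, ∃ u v : PowerSeries K, Q u = τ ^ N * X ∧ Q v = τ ^ N * Y := by
    obtain ⟨N1, u, hu⟩ := fam_pole X
    obtain ⟨N2, v, hv⟩ := fam_pole Y
    refine ⟨N1 + N2, PowerSeries.X ^ N2 * u, PowerSeries.X ^ N1 * v, ?_, ?_⟩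
    · rw [map_mul, map_pow, hu, pow_add]
      ring
    · rw [map_mul, map_pow, hv, pow_add]
      ring
  obtain ⟨u, v, hu, hv⟩ := Nat.find_spec hex
  rcases Nat.eq_zero_or_pos (Nat.find hex) with hN | hN
  · left
    rw [hN, pow_zero, one_mul] at hu hv
    exact ⟨⟨u, hu⟩, ⟨v, hv⟩⟩
  right
  set N := Nat.find hex with hNd
  have hmin : ¬ (PowerSeries.constantCoeff u = 0 ∧ PowerSeries.constantCoeff v = 0) := by
    rintro ⟨hu0, hv0⟩
    obtain ⟨u', hu'⟩ := PowerSeries.X_dvd_iff.2 hu0
    obtain ⟨v', hv'⟩ := PowerSeries.X_dvd_iff.2 hv0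
    refine Nat.find_min hex (m := N - 1) (by omega) ⟨u', v', ?_, ?_⟩
    · have h1 : τ * Q u' = τ * (τ ^ (N - 1) * X) := by
        rw [← map_mul, ← hu', hu, ← mul_assoc, ← pow_succ']
        congr 2
        omega
      exact mul_left_cancel₀ hτ0 h1
    · have h1 : τ * Q v' = τ * (τ ^ (N - 1) * Y) := by
        rw [← map_mul, ← hv', hv, ← mul_assoc, ← pow_succ']
        congr 2
        omega
      exact mul_left_cancel₀ hτ0 h1
  -- the equation
  have h1 : (b : LaurentSeries K) * X ^ r - (a : LaurentSeries K) * Y ^ r - vl G X Y = 0 := by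
    rw [← h0]
    unfold Fam vl
    rw [MvPolynomial.eval₂_sub, MvPolynomial.eval₂_sub, MvPolynomial.eval₂_mul,
      MvPolynomial.eval₂_mul, MvPolynomial.eval₂_pow, MvPolynomial.eval₂_pow, MvPolynomial.eval₂_C,
      MvPolynomial.eval₂_C, MvPolynomial.eval₂_X, MvPolynomial.eval₂_X]
    simp
  obtain ⟨w, hw⟩ : ∃ w : PowerSeries K, w = ∑ m ∈ G.support, ((G.coeff m : ℤ) : PowerSeries K) *
      ((PowerSeries.X : PowerSeries K) ^ (N * (r - (m 0 + m 1))) * (u ^ m 0 * v ^ m 1)) := ⟨_, rfl⟩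
  have hdeg : ∀ m ∈ G.support, m 0 + m 1 < r := by
    intro m hm
    have h2 := MvPolynomial.le_totalDegree hm
    rw [fam_sum] at h2
    omega
  have hQw : Q w = τ ^ (N * r) * vl G X Y := by
    rw [hw, map_sum, fam_vl_eq, Finset.mul_sum]
    refine Finset.sum_congr rfl fun m hm => ?_
    have h2 := hdeg m hm
    rw [map_mul, map_mul, map_mul, map_pow, map_pow, map_pow, map_intCast, hu, hv, ← hτ]
    have h3 : N * r = N * (r - (m 0 + m 1)) + N * m 0 + N * m 1 := by
      rw [← Nat.mul_add, ← Nat.mul_add]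
      congr 1
      omega
    rw [h3, pow_add, pow_add, mul_pow, mul_pow, ← pow_mul, ← pow_mul]
    ring
  have h2 : Q ((b : PowerSeries K) * u ^ r - (a : PowerSeries K) * v ^ r - w) = 0 := by
    rw [map_sub, map_sub, map_mul, map_mul, map_pow, map_pow, map_natCast, map_natCast, hu, hv, hQw]
    have h3 : (b : LaurentSeries K) * (τ ^ N * X) ^ r - a * (τ ^ N * Y) ^ r - τ ^ (N * r) * vl G X Y =
        τ ^ (N * r) * ((b : LaurentSeries K) * X ^ r - (a : LaurentSeries K) * Y ^ r - vl G X Y) := by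
      rw [mul_pow, mul_pow, ← pow_mul]
      ring
    rw [h3, h1, mul_zero]
  have h3 : (b : PowerSeries K) * u ^ r - (a : PowerSeries K) * v ^ r - w = 0 :=
    hinj (by rw [h2, map_zero])
  have hw0 : PowerSeries.constantCoeff w = 0 := by
    rw [hw, map_sum]
    refine Finset.sum_eq_zero fun m hm => ?_
    have h4 := hdeg m hm
    rw [map_mul, map_mul, map_pow, PowerSeries.constantCoeff_X, zero_pow, zero_mul, mul_zero]
    have : 0 < N * (r - (m 0 + m 1)) := Nat.mul_pos hN (by omega)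
    omega
  have h4 := congrArg (PowerSeries.constantCoeff (R := K)) h3
  rw [map_sub, map_sub, map_mul, map_mul, map_pow, map_pow, map_natCast, map_natCast, hw0,
    sub_zero, map_zero, sub_eq_zero] at h4
  set u0 := PowerSeries.constantCoeff u with hu0
  set v0 := PowerSeries.constantCoeff v with hv0
  have ha0 : (a : K) ≠ 0 := by
    have : a ≠ 0 := by omega
    exact_mod_cast this
  have hb0 : (b : K) ≠ 0 := by
    have : b ≠ 0 := by omega
    exact_mod_cast this
  have hr0 : r ≠ 0 := by omega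
  have hv00 : v0 ≠ 0 := by
    intro h5
    rw [h5, zero_pow hr0, mul_zero] at h4
    rcases mul_eq_zero.1 h4 with h6 | h6
    · exact hb0 h6
    · exact hmin ⟨eq_zero_of_pow_eq_zero h6, h5⟩
  refine ⟨u0 / v0, ?_⟩
  push_cast
  rw [div_pow, div_eq_div_iff (pow_ne_zero _ hv00) hb0]
  rw [mul_comm, h4]

theorem fam_deg {r a b : ℕ} (hr : 1 ≤ r) {G : MvPolynomial (Fin 2) ℤ} (hG : G.totalDegree < r) :
    (Fam r a b G).totalDegree ≤ r := by
  unfold Fam
  refine (MvPolynomial.totalDegree_sub _ _).trans (max_le ?_ hG.le)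
  refine (MvPolynomial.totalDegree_sub _ _).trans (max_le ?_ ?_)
  · refine (MvPolynomial.totalDegree_mul _ _).trans ?_
    rw [MvPolynomial.totalDegree_C, MvPolynomial.totalDegree_X_pow, zero_add]
  · refine (MvPolynomial.totalDegree_mul _ _).trans ?_
    rw [MvPolynomial.totalDegree_C, MvPolynomial.totalDegree_X_pow, zero_add]

theorem fam_coeff {r a b : ℕ} (hr : 1 ≤ r) (ha : 1 ≤ a) (hb : 1 ≤ b)
    {G : MvPolynomial (Fin 2) ℤ} (hG : G.totalDegree < r) {H : ℕ} (hH : 1 ≤ H)
    (h : ∀ m, |G.coeff m| ≤ (H : ℤ)) (m : Fin 2 →₀ ℕ) :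
    |(Fam r a b G).coeff m| ≤ ((max a b * H : ℕ) : ℤ) := by
  classical
  have hne : (Finsupp.single (0 : Fin 2) r) ≠ Finsupp.single 1 r := by
    intro h1
    have h2 := DFunLike.congr_fun h1 0
    simp at h2
    omega
  have hc : (Fam r a b G).coeff m = (if Finsupp.single 0 r = m then (b : ℤ) else 0) -
      (if Finsupp.single 1 r = m then (a : ℤ) else 0) - G.coeff m := by
    unfold Fam
    rw [MvPolynomial.coeff_sub, MvPolynomial.coeff_sub, MvPolynomial.coeff_C_mul,
      MvPolynomial.coeff_C_mul, MvPolynomial.coeff_X_pow, MvPolynomial.coeff_X_pow]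
    split_ifs <;> ring
  have hHab : max a b ≤ max a b * H := Nat.le_mul_of_pos_right _ (by omega)
  have hHH : H ≤ max a b * H := Nat.le_mul_of_pos_left _ (by
    have := le_max_left a b
    omega)
  rw [hc]
  by_cases h0 : Finsupp.single 0 r = m
  · have h1 : G.coeff m = 0 := by
      apply fam_td
      rw [← h0]
      simpa using hG
    have h2 : ¬ Finsupp.single 1 r = m := fun h2 => hne (h0.trans h2.symm)
    rw [if_pos h0, if_neg h2, h1, sub_zero, sub_zero]
    have h3 : b ≤ max a b * H := (le_max_right a b).trans hHab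
    rw [abs_of_nonneg (by positivity)]
    exact_mod_cast h3
  · by_cases h2 : Finsupp.single 1 r = m
    · have h1 : G.coeff m = 0 := by
        apply fam_td
        rw [← h2]
        simpa using hG
      rw [if_neg h0, if_pos h2, h1, sub_zero, zero_sub, abs_neg]
      have h3 : a ≤ max a b * H := (le_max_left a b).trans hHab
      rw [abs_of_nonneg (by positivity)]
      exact_mod_cast h3
    · rw [if_neg h0, if_neg h2, sub_zero, zero_sub, abs_neg]
      have h3 := h m
      have h4 : (H : ℤ) ≤ ((max a b * H : ℕ) : ℤ) := by exact_mod_cast hHH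
      exact h3.trans h4

/-- `x ↦ x t`, `y ↦ t` -/
private noncomputable def famPhi : MvPolynomial (Fin 2) ℚ →+* ℚ[X][X] :=
  MvPolynomial.eval₂Hom ((C : ℚ[X] →+* ℚ[X][X]).comp (C : ℚ →+* ℚ[X])) ![C X * X, X]

private theorem famPhi_coeff (f : MvPolynomial (Fin 2) ℚ) (k i : ℕ) :
    ((famPhi f).coeff k).coeff i =
      ∑ m ∈ f.support, if m 0 + m 1 = k ∧ m 0 = i then f.coeff m else 0 := by
  have h1 : famPhi f = ∑ m ∈ f.support, C (C (f.coeff m) * X ^ m 0) * X ^ (m 0 + m 1) := by
    unfold famPhi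
    rw [MvPolynomial.coe_eval₂Hom, MvPolynomial.eval₂_eq']
    refine Finset.sum_congr rfl fun m _ => ?_
    rw [Fin.prod_univ_two]
    simp only [RingHom.comp_apply, Matrix.cons_val_zero, Matrix.cons_val_one]
    rw [mul_pow, pow_add, map_mul, map_pow]
    ring
  rw [h1, finset_sum_coeff, finset_sum_coeff]
  refine Finset.sum_congr rfl fun m _ => ?_
  rw [coeff_C_mul, coeff_X_pow]
  by_cases h2 : k = m 0 + m 1
  · rw [if_pos h2, mul_one, coeff_C_mul, coeff_X_pow]
    by_cases h3 : i = m 0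
    · rw [if_pos h3, mul_one, if_pos ⟨h2.symm, h3.symm⟩]
    · rw [if_neg h3, mul_zero, if_neg (fun h => h3 h.2.symm)]
  · rw [if_neg h2, mul_zero, coeff_zero, if_neg (fun h => h2 h.1.symm)]

private theorem famPhi_deg (f : MvPolynomial (Fin 2) ℚ) (k : ℕ) :
    ((famPhi f).coeff k).natDegree ≤ k := by
  rw [natDegree_le_iff_coeff_eq_zero]
  intro i hi
  rw [famPhi_coeff]
  refine Finset.sum_eq_zero fun m _ => ?_
  rw [if_neg]
  rintro ⟨h1, h2⟩
  omega

private theorem famPhi_zero {f : MvPolynomial (Fin 2) ℚ} {k : ℕ} (h : f.totalDegree < k) :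
    (famPhi f).coeff k = 0 := by
  ext i
  rw [famPhi_coeff, coeff_zero]
  refine Finset.sum_eq_zero fun m hm => ?_
  rw [if_neg]
  rintro ⟨h1, _⟩
  have h2 := MvPolynomial.le_totalDegree hm
  rw [fam_sum] at h2
  omega

private theorem famPhi_coeff' (f : MvPolynomial (Fin 2) ℚ) (m : Fin 2 →₀ ℕ) :
    ((famPhi f).coeff (m 0 + m 1)).coeff (m 0) = f.coeff m := by
  rw [famPhi_coeff]
  have h1 : ∀ m' ∈ f.support, (if m' 0 + m' 1 = m 0 + m 1 ∧ m' 0 = m 0 then f.coeff m' else 0) =
      if m = m' then f.coeff m' else 0 := by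
    intro m' _
    by_cases h2 : m = m'
    · rw [if_pos h2, if_pos]
      rw [h2]
      exact ⟨rfl, rfl⟩
    · rw [if_neg h2, if_neg]
      rintro ⟨h3, h4⟩
      apply h2
      ext v
      fin_cases v
      · exact h4.symm
      · simp only [Fin.mk_one]
        omega
  rw [Finset.sum_congr rfl h1, Finset.sum_ite_eq]
  split_ifs with h2
  · rfl
  · exact (MvPolynomial.notMem_support_iff.1 h2).symm

private theorem famPhi_const {f : MvPolynomial (Fin 2) ℚ} (h : (famPhi f).natDegree = 0) :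
    f = MvPolynomial.C (f.coeff 0) := by
  ext m
  rw [MvPolynomial.coeff_C]
  split_ifs with h1
  · rw [h1]
  · rw [← famPhi_coeff']
    have h2 : 0 < m 0 + m 1 := by
      by_contra hc
      apply h1
      ext v
      fin_cases v
      · simp only [Fin.zero_eta, Finsupp.coe_zero, Pi.zero_apply]
        omega
      · simp only [Fin.mk_one, Finsupp.coe_zero, Pi.zero_apply]
        omega
    have h3 : (famPhi f).coeff (m 0 + m 1) = 0 := coeff_eq_zero_of_natDegree_lt (by omega)
    rw [h3, coeff_zero]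

private theorem fam_mapdeg (F : MvPolynomial (Fin 2) ℤ) :
    (MvPolynomial.map (Int.castRingHom ℚ) F).totalDegree ≤ F.totalDegree := by
  rw [MvPolynomial.totalDegree, MvPolynomial.totalDegree]
  exact Finset.sup_mono (MvPolynomial.support_map_subset _ _)

private theorem famPhi_inj {f : MvPolynomial (Fin 2) ℚ} (h : famPhi f = 0) : f = 0 := by
  ext m
  rw [← famPhi_coeff', h]
  simp

/-- one factor is constant -/
private theorem fam_half {r : ℕ} {L : ℚ[X]} (hL : L.natDegree = r)
    {f g : MvPolynomial (Fin 2) ℚ} (hf : famPhi f ≠ 0) (hg : famPhi g ≠ 0)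
    (hfg : (famPhi f).natDegree + (famPhi g).natDegree = r)
    (hl : (famPhi f).leadingCoeff * (famPhi g).leadingCoeff = L)
    (hu : IsUnit (famPhi f).leadingCoeff) : IsUnit f := by
  have h1 : (famPhi f).leadingCoeff.natDegree = 0 := natDegree_eq_zero_of_isUnit hu
  have h2 : (famPhi g).leadingCoeff.natDegree = r := by
    have h3 := natDegree_mul (leadingCoeff_ne_zero.2 hf) (leadingCoeff_ne_zero.2 hg)
    rw [hl, hL, h1, zero_add] at h3
    exact h3.symm
  have h3 : (famPhi g).leadingCoeff.natDegree ≤ (famPhi g).natDegree := famPhi_deg g _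
  have h4 : (famPhi f).natDegree = 0 := by omega
  have h5 := famPhi_const h4
  rw [h5]
  apply IsUnit.map
  rw [isUnit_iff_ne_zero]
  intro h6
  rw [h6, map_zero] at h5
  rw [h5, map_zero] at hf
  exact hf rfl

theorem fam_irr {r a b : ℕ} (hr : 1 ≤ r) (ha : 1 ≤ a) (hb : 1 ≤ b)
    {G : MvPolynomial (Fin 2) ℤ} (hG : G.totalDegree < r)
    (hi : Irreducible (X ^ r - C ((a : ℚ) / b) : ℚ[X])) :
    Irreducible (MvPolynomial.map (Int.castRingHom ℚ) (Fam r a b G)) := by
  obtain ⟨L, hLd⟩ : ∃ L : ℚ[X], L = C (b : ℚ) * X ^ r - C (a : ℚ) := ⟨_, rfl⟩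
  have hb0 : (b : ℚ) ≠ 0 := by
    have : b ≠ 0 := by omega
    exact_mod_cast this
  have hLe : L = C (b : ℚ) * (X ^ r - C ((a : ℚ) / b)) := by
    rw [hLd, mul_sub, ← C_mul, mul_div_cancel₀ _ hb0]
  have hLi : Irreducible L := by
    rw [hLe]
    exact (irreducible_isUnit_mul (isUnit_C.2 (isUnit_iff_ne_zero.2 hb0))).2 hi
  have hLdeg : L.natDegree = r := by
    rw [hLe, natDegree_C_mul hb0, natDegree_X_pow_sub_C]
  obtain ⟨F, hF⟩ : ∃ F : MvPolynomial (Fin 2) ℚ,
      F = MvPolynomial.map (Int.castRingHom ℚ) (Fam r a b G) := ⟨_, rfl⟩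
  have hGd : (MvPolynomial.map (Int.castRingHom ℚ) G).totalDegree < r :=
    lt_of_le_of_lt (fam_mapdeg _) hG
  have hFd : (MvPolynomial.map (Int.castRingHom ℚ) (Fam r a b G)).totalDegree ≤ r :=
    (fam_mapdeg _).trans (fam_deg hr hG)
  have hlead : (famPhi F).coeff r = L := by
    have h1 : F = MvPolynomial.C (b : ℚ) * MvPolynomial.X 0 ^ r -
        MvPolynomial.C (a : ℚ) * MvPolynomial.X 1 ^ r - MvPolynomial.map (Int.castRingHom ℚ) G := by
      rw [hF]
      unfold Fam
      simp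
    have h2 : famPhi (MvPolynomial.C (b : ℚ) * MvPolynomial.X 0 ^ r -
        MvPolynomial.C (a : ℚ) * MvPolynomial.X 1 ^ r) = C L * X ^ r := by
      unfold famPhi
      rw [MvPolynomial.coe_eval₂Hom, MvPolynomial.eval₂_sub, MvPolynomial.eval₂_mul,
        MvPolynomial.eval₂_mul, MvPolynomial.eval₂_pow, MvPolynomial.eval₂_pow,
        MvPolynomial.eval₂_C, MvPolynomial.eval₂_C, MvPolynomial.eval₂_X, MvPolynomial.eval₂_X]
      simp only [RingHom.comp_apply, Matrix.cons_val_zero, Matrix.cons_val_one]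
      rw [hLd, map_sub, map_mul, map_pow, mul_pow]
      ring
    rw [h1, map_sub, h2, coeff_sub, famPhi_zero hGd, sub_zero, coeff_C_mul, coeff_X_pow,
      if_pos rfl, mul_one]
  have hL0 : L ≠ 0 := hLi.ne_zero
  have hdeg : (famPhi F).natDegree = r := by
    apply le_antisymm
    · rw [natDegree_le_iff_coeff_eq_zero]
      intro k hk
      apply famPhi_zero
      rw [hF]
      omega
    · apply le_natDegree_of_ne_zero
      rw [hlead]
      exact hL0
  have hlc : (famPhi F).leadingCoeff = L := by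
    rw [leadingCoeff, hdeg, hlead]
  rw [← hF]
  refine ⟨fun hu => ?_, fun f g hfg => ?_⟩
  · have h1 := natDegree_eq_zero_of_isUnit (hu.map famPhi)
    omega
  · have hF0 : famPhi F ≠ 0 := by
      intro h1
      rw [h1, natDegree_zero] at hdeg
      omega
    have h1 : famPhi f * famPhi g = famPhi F := by rw [← map_mul, ← hfg]
    have hf0 : famPhi f ≠ 0 := by
      intro h2
      rw [h2, zero_mul] at h1
      exact hF0 h1.symm
    have hg0 : famPhi g ≠ 0 := by
      intro h2
      rw [h2, mul_zero] at h1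
      exact hF0 h1.symm
    have hd : (famPhi f).natDegree + (famPhi g).natDegree = r := by
      rw [← natDegree_mul hf0 hg0, h1, hdeg]
    have hl : (famPhi f).leadingCoeff * (famPhi g).leadingCoeff = L := by
      rw [← leadingCoeff_mul, h1, hlc]
    rcases hLi.isUnit_or_isUnit hl.symm with h2 | h2
    · exact Or.inl (fam_half hLdeg hf0 hg0 hd hl h2)
    · exact Or.inr (fam_half hLdeg hg0 hf0 (by omega) (by rw [mul_comm]; exact hl) h2)

end Pool.Agent.H97.NW
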