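import Pool.Agent.H97.NW.PLM
import Pool.Agent.H97.NW.NMP
import Pool.Agent.H97.NW.SPI
import Pool.Agent.H8.AF.Fin

/-! # [H97 NW SPE] Special pairs are bounded

Constants: `np0 = 2 A + 3`, `np = np0 (np0 + 1)`, `M = np0 + 1`; `cn` from `nomix np0`; `n', κ'` from `plane n np`; `E = κ' (cF n') + 1`, `e1 = 2 np0 + 3`; `cs = cn + (cR np0) * (2 np + 1) * e1 + 2 (cR np0) E e1 + 2 E e1 + 2` (large); `c0` from `spc_irr A cs`; `c1 ≥ c0`, `c1 ≥ 2 E e1 + 2`.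
Given `ω`: `k = AdjoinRoot (X^r - C ω)` is a number field of degree `r ≥ 3`; `all_curves k n'` gives `S`; `W = (sup of M^(wF n') over M ∈ S, and 2)^e1`.
Given `Q0, Q1` (`x0, y0, b0, ..`): `2^c0 ≤ 2^c1 ≤ b^c1 ≤ |x0|, |x1|`. `spc_irr`: `p, H`; `nomix` applies (`cn ≤ cs`). `redB np0 p`: `D, bp, Fp, a`, `bp ≤ H^(cR np0)`, `D ≤ np`. `B = max bp (max H (max b0 b1))`. `plane`: `f, w0`. `Hf = B^κ' ≥ 2`.
`u0 = x1 + x0^M`, `m = max |x0| |x1|`. `size_up` for `p` (`V = |u0|` if `bp^(2 np + 1) ≤ |u0|`): `m ≤ |u0|^e1`; the case `|u0| < bp^(2 np+1)` is excluded: then `m ≤ bp^((2 np+1) e1) ≤ H^(..) < H^cs ≤ m`.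
`all_curves`: `max |u0| |w0| ≤ Hf^(cF n')` or `≤ W'`. In the first case `m ≤ |u0|^e1 ≤ B^(E e1)`; but `bp^(E e1) ≤ H^(cR E e1) < m`, `H^(E e1) < m`, `b0^(E e1) < b0^c1 ≤ |x0| ≤ m`, the same for `b1`: contradiction. In the second case `|x0| ≤ m ≤ |u0|^e1 ≤ W`. -/

namespace Pool.Agent.H97.NW

open Finset Polynomial Pool.Agent.H72.ES Pool.Agent.H34.AC Pool.Agent.H8.AF H4AR

/-- a power of the height is smaller than the coordinate -/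
private theorem spe_lt {H : ℕ} (hH : 2 ≤ H) {e c : ℕ} (h : e < c) {m : ℝ} (hm : (H : ℝ) ^ c ≤ m) :
    (H : ℝ) ^ e < m :=
  lt_of_lt_of_le (pow_lt_pow_right₀ (by exact_mod_cast (by omega : 1 < H)) h) hm

theorem spec (r n A : ℕ) (hr : 3 ≤ r) : ∃ c0 c1 : ℕ, ∀ ω : ℚ,
    Irreducible (X ^ r - C ω : ℚ[X]) → ∃ W : ℝ, ∀ (β : ℚ), β ≠ 0 → ∀ (Q0 : RPt r n β)
      (Q1 : RPt r n (ω * β)), Q0.P.Thr c1 → Q1.P.Thr c1 → Spc A c0 Q0.P.x Q1.P.x →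
        |(Q0.P.x : ℝ)| ≤ W := by
  obtain ⟨np0, hnp0⟩ : ∃ np0, np0 = 2 * A + 3 := ⟨_, rfl⟩
  have hnp3 : 3 ≤ np0 := by omega
  obtain ⟨np, hnp⟩ : ∃ np, np = np0 * (np0 + 1) := ⟨_, rfl⟩
  obtain ⟨cn, hcn⟩ := nomix np0 hnp3
  obtain ⟨n', κ', hn', hκ', hplane⟩ := plane n np
  obtain ⟨E, hE⟩ : ∃ E, E = κ' * cF n' := ⟨_, rfl⟩
  obtain ⟨e1, he1⟩ : ∃ e1, e1 = 2 * np0 + 3 := ⟨_, rfl⟩
  obtain ⟨cs, hcs⟩ : ∃ cs, cs = cn + cR np0 * ((2 * np + 1) * e1) + cR np0 * (E * e1) + E * e1 + 1 := ⟨_, rfl⟩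
  obtain ⟨c0, hc0⟩ := spc_irr A cs
  refine ⟨c0, c0 + E * e1 + 1, ?_⟩
  intro ω hω
  have : Fact (Irreducible (X ^ r - C ω : ℚ[X])) := ⟨hω⟩
  have hdeg : (X ^ r - C ω : ℚ[X]).natDegree = r := natDegree_X_pow_sub_C
  have : FiniteDimensional ℚ (AdjoinRoot (X ^ r - C ω : ℚ[X])) :=
    (AdjoinRoot.powerBasis hω.ne_zero).finite
  have : NumberField (AdjoinRoot (X ^ r - C ω : ℚ[X])) := { }
  have hfr : 3 ≤ Module.finrank ℚ (AdjoinRoot (X ^ r - C ω : ℚ[X])) := by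
    rw [(AdjoinRoot.powerBasis hω.ne_zero).finrank, AdjoinRoot.powerBasis_dim, hdeg]
    exact hr
  obtain ⟨S, -, hall⟩ := all_curves (AdjoinRoot (X ^ r - C ω : ℚ[X])) hfr n' hn'
  refine ⟨∑ M ∈ S, (((M : ℝ) ^ wF n') ^ e1), ?_⟩
  intro β hβ Q0 Q1 hT0 hT1 hspc
  obtain ⟨x0, hx0⟩ : ∃ x, x = Q0.P.x := ⟨_, rfl⟩
  obtain ⟨x1, hx1⟩ : ∃ x, x = Q1.P.x := ⟨_, rfl⟩
  obtain ⟨b0, hb0⟩ : ∃ b, b = Q0.P.b := ⟨_, rfl⟩
  obtain ⟨b1, hb1⟩ : ∃ b, b = Q1.P.b := ⟨_, rfl⟩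
  have hT0' : (b0 : ℝ) ^ (c0 + E * e1 + 1) ≤ |(x0 : ℝ)| := by
    rw [hb0, hx0]
    exact hT0
  have hT1' : (b1 : ℝ) ^ (c0 + E * e1 + 1) ≤ |(x1 : ℝ)| := by
    rw [hb1, hx1]
    exact hT1
  have hb02 : 2 ≤ b0 := hb0 ▸ Q0.P.C.b2
  have hb12 : 2 ≤ b1 := hb1 ▸ Q1.P.C.b2
  have hx0' : (2 : ℤ) ^ c0 ≤ |x0| := by
    have h1 : (2 : ℝ) ^ c0 ≤ |(x0 : ℝ)| := by
      calc (2 : ℝ) ^ c0 ≤ (b0 : ℝ) ^ c0 := pow_le_pow_left₀ (by norm_num) (by exact_mod_cast hb02) _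
        _ ≤ (b0 : ℝ) ^ (c0 + E * e1 + 1) :=
            pow_le_pow_right₀ (by exact_mod_cast (by omega : 1 ≤ b0)) (by omega)
        _ ≤ _ := hT0'
    exact_mod_cast h1
  have hx1' : (2 : ℤ) ^ c0 ≤ |x1| := by
    have h1 : (2 : ℝ) ^ c0 ≤ |(x1 : ℝ)| := by
      calc (2 : ℝ) ^ c0 ≤ (b1 : ℝ) ^ c0 := pow_le_pow_left₀ (by norm_num) (by exact_mod_cast hb12) _
        _ ≤ (b1 : ℝ) ^ (c0 + E * e1 + 1) :=
            pow_le_pow_right₀ (by exact_mod_cast (by omega : 1 ≤ b1)) (by omega)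
        _ ≤ _ := hT1'
    exact_mod_cast h1
  obtain ⟨p, H, hpirr, hpdeg, hpvar, hH2, hpH, hp0, hHx0, hHx1⟩ := hc0 x0 x1
    (by rw [hx0, hx1]; exact hspc) hx0' hx1'
  have hH1 : (1 : ℝ) ≤ H := by exact_mod_cast (by omega : 1 ≤ H)
  have hpdeg' : p.totalDegree ≤ np0 := by omega
  have hnm := hcn p hpirr hpdeg' hpvar H hH2 hpH x0 x1 hp0
    ((pow_le_pow_right₀ hH1 (by omega)).trans hHx0) ((pow_le_pow_right₀ hH1 (by omega)).trans hHx1)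
  obtain ⟨D, bp, Fp, a, ⟨Cp⟩, -, hbp, ha0, haH, hrel⟩ := redB np0 hnp3 p hpirr hpdeg' (hpvar 1) H hH2 hpH
  obtain ⟨B, hB⟩ : ∃ B, B = max bp (max H (max b0 b1)) := ⟨_, rfl⟩
  have hB1 : bp ≤ B := hB ▸ le_max_left _ _
  have hB2 : H ≤ B := hB ▸ (le_max_left _ _).trans (le_max_right _ _)
  have hB3 : b0 ≤ B := hB ▸ (le_max_left _ _).trans ((le_max_right _ _).trans (le_max_right _ _))
  have hB4 : b1 ≤ B := hB ▸ (le_max_right _ _).trans ((le_max_right _ _).trans (le_max_right _ _))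
  have hB2' : 2 ≤ B := hH2.trans hB2
  have hz0 : ev Q0.P.d Q0.P.F x0 Q0.P.y = 0 := by rw [hx0]; exact Q0.P.zero
  have hz1 : ev Q1.P.d Q1.P.F x1 Q1.P.y = 0 := by rw [hx1]; exact Q1.P.zero
  obtain ⟨f, w0, hfirr, hfdeg, hfinf, hfH, hf0⟩ := hplane r (by omega) β ω hβ Q0.P.d Q1.P.d Q0.P.F Q1.P.F
    Q0.inf Q1.inf p hnm D (np0 + 1) Fp a ha0 hrel B Q0.P.C.dn Q1.P.C.dn (hnp ▸ Cp.dn)
    (by rw [hnp]; nlinarith) hB2' Q0.P.C.lead Q1.P.C.lead Cp.lead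
    (fun i j => (Q0.P.C.le i j).trans (by rw [← hb0]; exact_mod_cast hB3))
    (fun i j => (Q1.P.C.le i j).trans (by rw [← hb1]; exact_mod_cast hB4))
    (fun i j => (Cp.le i j).trans (by exact_mod_cast hB1)) (haH.trans (by exact_mod_cast hB2))
    x0 Q0.P.y x1 Q1.P.y hz0 hz1 hp0
  obtain ⟨u0, hu0⟩ : ∃ u, u = x1 + x0 ^ (np0 + 1) := ⟨_, rfl⟩
  rw [← hu0] at hf0
  obtain ⟨m, hm⟩ : ∃ m : ℝ, m = max |(x0 : ℝ)| |(x1 : ℝ)| := ⟨_, rfl⟩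
  have hm0 : |(x0 : ℝ)| ≤ m := hm ▸ le_max_left _ _
  have hm1 : |(x1 : ℝ)| ≤ m := hm ▸ le_max_right _ _
  have hHm : (H : ℝ) ^ cs ≤ m := hHx0.trans hm0
  have hevp : ev D Fp (x1 + x0 ^ (np0 + 1)) (a * x0) = 0 := by
    have h1 := hrel ℤ x0 x1
    rw [hp0, mul_zero] at h1
    have h2 : cst ℤ Fp = Fp := by
      funext i j
      simp [cst]
    rw [h2] at h1
    simpa using h1
  have hbpH : (bp : ℝ) ≤ (H : ℝ) ^ cR np0 := by exact_mod_cast hbp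
  have hbp2 : 2 ≤ bp := Cp.b2
  -- the size of `u0`
  have hsize : ∀ V : ℤ, (bp : ℤ) ^ (2 * np + 1) ≤ V → |u0| ≤ V → m ≤ ((V : ℤ) : ℝ) ^ e1 := by
    intro V hV hu
    obtain ⟨h1, h2⟩ := size_up Cp.d1 (hnp ▸ Cp.dn : D ≤ np) Cp.b2 Cp.lead Cp.le ha0 hV (hu0 ▸ hu) hevp
    rw [hm, he1]
    refine max_le ?_ ?_
    · exact_mod_cast h1
    · exact_mod_cast h2
  have hbig : (bp : ℤ) ^ (2 * np + 1) ≤ |u0| := by
    by_contra hcon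
    push Not at hcon
    have h1 := hsize _ le_rfl hcon.le
    have h2 : (((bp : ℤ) ^ (2 * np + 1) : ℤ) : ℝ) ^ e1 ≤ (H : ℝ) ^ (cR np0 * ((2 * np + 1) * e1)) := by
      push_cast
      rw [← pow_mul, pow_mul (H : ℝ)]
      exact pow_le_pow_left₀ (by positivity) hbpH _
    have h3 : (H : ℝ) ^ (cR np0 * ((2 * np + 1) * e1)) < m := spe_lt hH2 (by omega) hHm
    linarith
  have hmu := hsize |u0| hbig le_rfl
  have hHf2 : 2 ≤ B ^ κ' := hB2'.trans (Nat.le_self_pow (by omega) _)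
  rcases hall f hfirr hfdeg hfinf (B ^ κ') hHf2 hfH u0 w0 hf0 with h | ⟨M, hM, -, h⟩
  · exfalso
    have h1 : u0.natAbs ≤ B ^ E := by
      rw [hE, pow_mul]
      exact (le_max_left _ _).trans h
    have h2 : ((|u0| : ℤ) : ℝ) ≤ (B : ℝ) ^ E := by
      rw [Int.abs_eq_natAbs]
      exact_mod_cast h1
    have h3 : m ≤ (B : ℝ) ^ (E * e1) := by
      rw [pow_mul]
      exact hmu.trans (pow_le_pow_left₀ (by positivity) h2 _)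
    have h4 : (bp : ℝ) ^ (E * e1) < m := by
      refine lt_of_le_of_lt (pow_le_pow_left₀ (by positivity) hbpH _) ?_
      rw [← pow_mul]
      exact spe_lt hH2 (by omega) hHm
    have h5 : (H : ℝ) ^ (E * e1) < m := spe_lt hH2 (by omega) hHm
    have h6 : (b0 : ℝ) ^ (E * e1) < m := spe_lt hb02 (by omega) (hT0'.trans hm0)
    have h7 : (b1 : ℝ) ^ (E * e1) < m := spe_lt hb12 (by omega) (hT1'.trans hm1)
    have h8 : (B : ℝ) ^ (E * e1) < m := by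
      rcases max_choice bp (max H (max b0 b1)) with h | h
      · rw [hB, h]; exact h4
      · rcases max_choice H (max b0 b1) with h' | h'
        · rw [hB, h, h']; exact h5
        · rcases max_choice b0 b1 with h'' | h''
          · rw [hB, h, h', h'']; exact h6
          · rw [hB, h, h', h'']; exact h7
    linarith
  · have h1 : u0.natAbs ≤ M ^ wF n' := (le_max_left _ _).trans h
    have h2 : ((|u0| : ℤ) : ℝ) ≤ (M : ℝ) ^ wF n' := by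
      rw [Int.abs_eq_natAbs]
      exact_mod_cast h1
    rw [← hx0]
    refine hm0.trans (hmu.trans ((pow_le_pow_left₀ (by positivity) h2 _).trans ?_))
    exact Finset.single_le_sum (f := fun M : ℕ => ((M : ℝ) ^ wF n') ^ e1)
      (fun _ _ => by positivity) hM

end Pool.Agent.H97.NW
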