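import Pool.Agent.H97.NW.FOU
import Pool.Agent.H97.NW.FAR
import Pool.Agent.H97.NW.BLK
import Pool.Agent.H97.NW.SPE

/-! # [H97 NW TWP] Two pairs of the same type repel each other

Constants: `R, cF` from `far_m 4 n (1/40)`; `A` from `block n hn (1/40) R`; `c0, c1` from `spec r n A`; `cB, KB` from `block` for `c0`; `c = max cF (max c1 cB)`, `K = max KB R`. For `ω`: `W` from `spec`.
Let `q, q'` be as in the statement, `M = max (ell q'.Q0) (ell q'.Q1)`; `K M ≤ ell q.Q0, ell q.Q1`. (`Ptd.thr_mono`; `0 ≤ ell`.)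
If `R ell Q1 ≤ ell Q0` for `q` (and so for `q'`, same type): `four` with `β = ![β, ω β, β', ω β']`, `Q = ![q.Q0, q.Q1, q'.Q0, q'.Q1]` (dependent: use `Fin.cons` or a `match`; or `Fin.cases`), and `far_m`: for `i < j` in `Fin 4`: `R ell_j ≤ ell_i` from the type for `(0,1)`, `(2,3)` and from `R ≤ K` for the others.
If not, but `R ell Q0 ≤ ell Q1`: the same with `β = ![ω β, β, ω β', β']`, `Q = ![q.Q1, q.Q0, q'.Q1, q'.Q0]` (`β1 β2 = β (ω β') = (ω β) β' = β0 β3`; the sign condition by `mul_comm`).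
Otherwise `ell Q0 ≤ R ell Q1` and `ell Q1 ≤ R ell Q0` for both pairs: `block` for the order of the first case; both pairs are not special by `spec` (`W < |x|`). -/

namespace Pool.Agent.H97.NW

open Finset Polynomial Pool.Agent.H72.ES Pool.Agent.H87.SA2 Pool.Agent.H8.AW Pool.Agent.H52.AC

/-- a pair of radical pointed curves for `β` and `ω β` -/
structure RPr (r n : ℕ) (ω β : ℚ) where
  Q0 : RPt r n β
  Q1 : RPt r n (ω * β)

open Classical in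
/-- the type of a pair -/
noncomputable def RPr.tp {r n : ℕ} {ω β : ℚ} (q : RPr r n ω β) (R : ℝ) : Bool × Bool × Bool :=
  (decide (0 < (q.Q0.h.th q.Q0.P.i).re * (q.Q1.h.th q.Q1.P.i).re),
    decide (R * q.Q1.P.ell ≤ q.Q0.P.ell), decide (R * q.Q0.P.ell ≤ q.Q1.P.ell))

private def twp_b (b0 b1 b2 b3 : ℚ) : Fin 4 → ℚ
  | 0 => b0
  | 1 => b1
  | 2 => b2
  | 3 => b3

private def twp_Q {r n : ℕ} {b0 b1 b2 b3 : ℚ} (Q0 : RPt r n b0) (Q1 : RPt r n b1)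
    (Q2 : RPt r n b2) (Q3 : RPt r n b3) : ∀ v : Fin 4, RPt r n (twp_b b0 b1 b2 b3 v)
  | 0 => Q0
  | 1 => Q1
  | 2 => Q2
  | 3 => Q3

private theorem twp_four (r n : ℕ) (hr : 11 ≤ r) (b0 b1 b2 b3 : ℚ) (h0 : 0 < b0) (h1 : 0 < b1)
    (h2 : 0 < b2) (h3 : 0 < b3) (hi : Irreducible (X ^ r - C b3 : ℚ[X]))
    (hprod : b1 * b2 = b0 * b3) (Q0 : RPt r n b0) (Q1 : RPt r n b1) (Q2 : RPt r n b2)
    (Q3 : RPt r n b3)
    (hs : 0 < (Q0.h.th Q0.P.i).re * (Q1.h.th Q1.P.i).re ↔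
      0 < (Q2.h.th Q2.P.i).re * (Q3.h.th Q3.P.i).re) :
    ∃ P : Fin 4 → Ptd n, P 0 = Q0.P ∧ P 1 = Q1.P ∧ P 2 = Q2.P ∧ P 3 = Q3.P ∧
      ∃ PP : Finset (∀ v, Fin (P v).d), Stb P PP ∧ (fun v => (P v).i) ∈ PP ∧
        (1 + 1 / 40) * ((4 : ℝ) ^ 4 * PP.card) ≤ 24 * ∏ v, ((P v).d : ℝ) := by
  refine ⟨fun v => (twp_Q Q0 Q1 Q2 Q3 v).P, rfl, rfl, rfl, rfl, ?_⟩
  refine four r n hr (twp_b b0 b1 b2 b3) ?_ hi hprod (twp_Q Q0 Q1 Q2 Q3) hs
  intro v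
  match v with
  | 0 => exact h0
  | 1 => exact h1
  | 2 => exact h2
  | 3 => exact h3

private theorem twp_thr {n : ℕ} (P : Fin 4 → Ptd n) (Q0 Q1 Q2 Q3 : Ptd n) (e0 : P 0 = Q0)
    (e1 : P 1 = Q1) (e2 : P 2 = Q2) (e3 : P 3 = Q3) (c : ℕ) (t0 : Q0.Thr c) (t1 : Q1.Thr c)
    (t2 : Q2.Thr c) (t3 : Q3.Thr c) (v : Fin 4) : (P v).Thr c := by
  match v with
  | 0 => rw [e0]; exact t0
  | 1 => rw [e1]; exact t1
  | 2 => rw [e2]; exact t2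
  | 3 => rw [e3]; exact t3

private theorem twp_sep {n : ℕ} (P : Fin 4 → Ptd n) (Q0 Q1 Q2 Q3 : Ptd n) (e0 : P 0 = Q0)
    (e1 : P 1 = Q1) (e2 : P 2 = Q2) (e3 : P 3 = Q3) (R : ℝ) (s01 : R * Q1.ell ≤ Q0.ell)
    (s02 : R * Q2.ell ≤ Q0.ell) (s03 : R * Q3.ell ≤ Q0.ell) (s12 : R * Q2.ell ≤ Q1.ell)
    (s13 : R * Q3.ell ≤ Q1.ell) (s23 : R * Q3.ell ≤ Q2.ell) (i j : Fin 4) (hij : i < j) :
    R * (P j).ell ≤ (P i).ell := by
  match i, j with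
  | 0, 0 => exact absurd hij (lt_irrefl _)
  | 0, 1 => rw [e0, e1]; exact s01
  | 0, 2 => rw [e0, e2]; exact s02
  | 0, 3 => rw [e0, e3]; exact s03
  | 1, 0 => exact absurd hij (by decide)
  | 1, 1 => exact absurd hij (lt_irrefl _)
  | 1, 2 => rw [e1, e2]; exact s12
  | 1, 3 => rw [e1, e3]; exact s13
  | 2, 0 => exact absurd hij (by decide)
  | 2, 1 => exact absurd hij (by decide)
  | 2, 2 => exact absurd hij (lt_irrefl _)
  | 2, 3 => rw [e2, e3]; exact s23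
  | 3, 0 => exact absurd hij (by decide)
  | 3, 1 => exact absurd hij (by decide)
  | 3, 2 => exact absurd hij (by decide)
  | 3, 3 => exact absurd hij (lt_irrefl _)

theorem two_pairs (r n : ℕ) (hr : 11 ≤ r) (hn : 4 ≤ n) : ∃ (c : ℕ) (R K : ℝ), cA n ≤ c ∧
    1 ≤ R ∧ 1 ≤ K ∧ ∀ ω : ℚ, 0 < ω → Irreducible (X ^ r - C ω : ℚ[X]) → ∃ W : ℝ,
      ∀ (β β' : ℚ), 0 < β → 0 < β' → Irreducible (X ^ r - C β' : ℚ[X]) →
        Irreducible (X ^ r - C (ω * β') : ℚ[X]) → ∀ (q : RPr r n ω β) (q' : RPr r n ω β'),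
        q.Q0.P.Thr c → q.Q1.P.Thr c → q'.Q0.P.Thr c → q'.Q1.P.Thr c → q.tp R = q'.tp R →
        W < |(q.Q0.P.x : ℝ)| → W < |(q'.Q0.P.x : ℝ)| →
        K * max q'.Q0.P.ell q'.Q1.P.ell ≤ q.Q0.P.ell →
        K * max q'.Q0.P.ell q'.Q1.P.ell ≤ q.Q1.P.ell → False := by
  obtain ⟨R, cF, hR1, hcF, hfar⟩ := far_m 4 n (by norm_num) hn (1 / 40) (by norm_num)
  obtain ⟨A, hA⟩ := block n hn (1 / 40) (by norm_num) R hR1
  obtain ⟨c0, c1, hspec⟩ := spec r n A (by omega)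
  obtain ⟨cB, KB, hcB, hKB, hblock⟩ := hA c0
  refine ⟨max cF (max c1 cB), R, max KB R, hcF.trans (le_max_left _ _), hR1,
    hKB.trans (le_max_left _ _), ?_⟩
  intro ω hω hωi
  obtain ⟨W, hW⟩ := hspec ω hωi
  refine ⟨W, ?_⟩
  intro β β' hβ hβ' hi' hiω' q q' t0 t1 t2 t3 htp hWx hWx' hK0 hK1
  have hcF' : cF ≤ max cF (max c1 cB) := le_max_left _ _
  have hc1' : c1 ≤ max cF (max c1 cB) := (le_max_left _ _).trans (le_max_right _ _)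
  have hcB' : cB ≤ max cF (max c1 cB) := (le_max_right _ _).trans (le_max_right _ _)
  have hpos : ∀ Q : Ptd n, Q.Thr (max cF (max c1 cB)) → 0 ≤ Q.ell := by
    intro Q hQ
    have h1 := (Ptd.ell_ge Q hQ).2
    have h2 : 0 ≤ Real.log 2 := Real.log_nonneg (by norm_num)
    exact le_trans (by positivity) h1
  have p0 := hpos _ t0
  have p1 := hpos _ t1
  have p2 := hpos _ t2
  have p3 := hpos _ t3
  have hm2 : q'.Q0.P.ell ≤ max q'.Q0.P.ell q'.Q1.P.ell := le_max_left _ _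
  have hm3 : q'.Q1.P.ell ≤ max q'.Q0.P.ell q'.Q1.P.ell := le_max_right _ _
  have hKB' : KB ≤ max KB R := le_max_left _ _
  have hKR' : R ≤ max KB R := le_max_right _ _
  have hK00 : (0 : ℝ) ≤ max KB R := by linarith
  have g : ∀ (a x y : ℝ), a ≤ max KB R → 0 ≤ x → x ≤ max q'.Q0.P.ell q'.Q1.P.ell →
      max KB R * max q'.Q0.P.ell q'.Q1.P.ell ≤ y → a * x ≤ y := by
    intro a x y ha hx hxm hy
    refine le_trans ?_ hy
    calc a * x ≤ max KB R * x := mul_le_mul_of_nonneg_right ha hx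
      _ ≤ max KB R * max q'.Q0.P.ell q'.Q1.P.ell := mul_le_mul_of_nonneg_left hxm hK00
  have htp1 := congrArg Prod.fst htp
  have htp2 := congrArg (fun x => x.2.1) htp
  have htp3 := congrArg (fun x => x.2.2) htp
  simp only [RPr.tp, decide_eq_decide] at htp1 htp2 htp3
  by_cases h1 : R * q.Q1.P.ell ≤ q.Q0.P.ell
  · have h1' := htp2.1 h1
    obtain ⟨P, e0, e1, e2, e3, PP, hS, hmem, hcard⟩ := twp_four r n hr β (ω * β) β' (ω * β') hβ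
      (mul_pos hω hβ) hβ' (mul_pos hω hβ') hiω' (by ring) q.Q0 q.Q1 q'.Q0 q'.Q1 htp1
    refine hfar P PP hS hmem ?_ (twp_thr P _ _ _ _ e0 e1 e2 e3 cF (Ptd.thr_mono _ hcF' t0)
      (Ptd.thr_mono _ hcF' t1) (Ptd.thr_mono _ hcF' t2) (Ptd.thr_mono _ hcF' t3)) ?_
    · have h5 : ((Nat.factorial 4 : ℕ) : ℝ) = 24 := by norm_num [Nat.factorial]
      rw [h5]
      exact_mod_cast hcard
    · exact twp_sep P _ _ _ _ e0 e1 e2 e3 R h1 (g _ _ _ hKR' p2 hm2 hK0) (g _ _ _ hKR' p3 hm3 hK0)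
        (g _ _ _ hKR' p2 hm2 hK1) (g _ _ _ hKR' p3 hm3 hK1) h1'
  · by_cases h2 : R * q.Q0.P.ell ≤ q.Q1.P.ell
    · have h2' := htp3.1 h2
      obtain ⟨P, e0, e1, e2, e3, PP, hS, hmem, hcard⟩ := twp_four r n hr (ω * β) β (ω * β') β'
        (mul_pos hω hβ) hβ (mul_pos hω hβ') hβ' hi' (by ring) q.Q1 q.Q0 q'.Q1 q'.Q0
        (by rw [mul_comm (q.Q1.h.th q.Q1.P.i).re, mul_comm (q'.Q1.h.th q'.Q1.P.i).re]; exact htp1)
      refine hfar P PP hS hmem ?_ (twp_thr P _ _ _ _ e0 e1 e2 e3 cF (Ptd.thr_mono _ hcF' t1)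
        (Ptd.thr_mono _ hcF' t0) (Ptd.thr_mono _ hcF' t3) (Ptd.thr_mono _ hcF' t2)) ?_
      · have h5 : ((Nat.factorial 4 : ℕ) : ℝ) = 24 := by norm_num [Nat.factorial]
        rw [h5]
        exact_mod_cast hcard
      · exact twp_sep P _ _ _ _ e0 e1 e2 e3 R h2 (g _ _ _ hKR' p3 hm3 hK1) (g _ _ _ hKR' p2 hm2 hK1)
          (g _ _ _ hKR' p3 hm3 hK0) (g _ _ _ hKR' p2 hm2 hK0) h2'
    · have h1' : ¬ R * q'.Q1.P.ell ≤ q'.Q0.P.ell := fun h => h1 (htp2.2 h)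
      have h2' : ¬ R * q'.Q0.P.ell ≤ q'.Q1.P.ell := fun h => h2 (htp3.2 h)
      push Not at h1 h2 h1' h2'
      obtain ⟨P, e0, e1, e2, e3, PP, hS, hmem, hcard⟩ := twp_four r n hr β (ω * β) β' (ω * β') hβ
        (mul_pos hω hβ) hβ' (mul_pos hω hβ') hiω' (by ring) q.Q0 q.Q1 q'.Q0 q'.Q1 htp1
      refine hblock P PP hS hmem hcard (twp_thr P _ _ _ _ e0 e1 e2 e3 cB (Ptd.thr_mono _ hcB' t0)
        (Ptd.thr_mono _ hcB' t1) (Ptd.thr_mono _ hcB' t2) (Ptd.thr_mono _ hcB' t3)) ?_ ?_ ?_ ?_ ?_ ?_ ?_ ?_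
      · rw [e0, e1]; exact h1.le
      · rw [e0, e1]; exact h2.le
      · rw [e2, e3]; exact h1'.le
      · rw [e2, e3]; exact h2'.le
      · rw [e0, e2]; exact g _ _ _ hKB' p2 hm2 hK0
      · rw [e0, e3]; exact g _ _ _ hKB' p3 hm3 hK0
      · rw [e0, e1]
        intro hsp
        exact absurd (hW β hβ.ne' q.Q0 q.Q1 (Ptd.thr_mono _ hc1' t0) (Ptd.thr_mono _ hc1' t1) hsp)
          (not_le.2 hWx)
      · rw [e2, e3]
        intro hsp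
        exact absurd (hW β' hβ'.ne' q'.Q0 q'.Q1 (Ptd.thr_mono _ hc1' t2) (Ptd.thr_mono _ hc1' t3) hsp)
          (not_le.2 hWx')

end Pool.Agent.H97.NW
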