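import Pool.Agent.H97.NW.EXC
import Pool.Agent.H97.NW.RDX
import Pool.Agent.H97.NW.TWP

/-! # [H97 NW FIN] Only finitely many exceptional pairs for each ratio

`N = d (d+1)`; `c, R, K` from `two_pairs r N`; `C0 = cR d * c * (2 d + 3) + (2 d + 3)`. Let `ω` be given, `W` from `two_pairs`.
For `β` in the set: `redX` for `β` and for `ω β` (`H^(cR d c (2d+3)) ≤ (hgt H)^C0 < max` as `1 ≤ hgt`): a pair `q_β : RPr r N ω β` above the threshold `c`, and `(hgt β)^(2d+3) ≤ (hgt β H)^C0 ≤ max ≤ |x|^(2d+3)`, so `hgt β ≤ |x|` for `q_β.Q0`, and `hgt (ω β) ≤ |x|` for `q_β.Q1`: `log hgt β ≤ ell Q0`,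
`log hgt (ω β) ≤ ell Q1`. Northcott: `{β | hgt β ≤ B}` is finite (`β = num/den`, an image of a finite set), and so is `{β | hgt (ω β) ≤ B}` (injective image, `ω ≠ 0`).
Suppose the set `E` is infinite. Choose `q_β` for every `β ∈ E` (`choose`); the map `β ↦ (q_β).tp R` to the finite type `Bool × Bool × Bool` is constant `= t` on an infinite subset `E'` (`Set.Infinite.exists_..fiber_infinite`/`Finite` pigeonhole: otherwise `E` is a finite union of finite sets). Choose `β' ∈ E'` with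
`hgt β' > W` (all but finitely many). Put `M = max (ell q_β'.Q0) (ell q_β'.Q1)`. Choose `β ∈ E'` with `hgt β > W`, `log hgt β ≥ K M`, `log hgt (ω β) ≥ K M` (all but finitely many). `two_pairs` gives a contradiction. -/

namespace Pool.Agent.H97.NW

open Finset Polynomial Pool.Agent.H34.AC

/-- Northcott -/
private theorem fin_hgt (B : ℕ) : {β : ℚ | hgt β ≤ B}.Finite := by
  classical
  refine Set.Finite.subset (((Finset.Icc (-(B : ℤ)) (B : ℤ)) ×ˢ Finset.range (B + 1)).image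
    (fun p : ℤ × ℕ => (p.1 : ℚ) / (p.2 : ℚ))).finite_toSet ?_
  intro β hβ
  have h1 : hgt β ≤ B := hβ
  unfold hgt at h1
  have h2 : β.num.natAbs ≤ B := (le_max_left _ _).trans h1
  have h3 : β.den ≤ B := (le_max_right _ _).trans h1
  rw [Finset.coe_image]
  refine ⟨(β.num, β.den), ?_, ?_⟩
  · rw [Finset.mem_coe, Finset.mem_product, Finset.mem_Icc, Finset.mem_range]
    simp only
    omega
  · exact Rat.num_div_den β

private theorem fin_hgt_mul (B : ℕ) (ω : ℚ) (hω : ω ≠ 0) : {β : ℚ | hgt (ω * β) ≤ B}.Finite := by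
  have h1 := (fin_hgt B).preimage (f := fun β : ℚ => ω * β)
    (fun a _ b _ hab => mul_left_cancel₀ hω hab)
  exact h1

private theorem hgt_pos (β : ℚ) : 1 ≤ hgt β := by
  unfold hgt
  exact (Nat.one_le_iff_ne_zero.2 β.den_nz).trans (le_max_right _ _)

open Pool.Agent.H8.AW Pool.Agent.H52.AC in
/-- a radical pointed curve for an exceptional radical -/
private theorem fin_pt (r d c : ℕ) (hr : 11 ≤ r) (hd : 3 ≤ d) (hc : cA (d * (d + 1)) ≤ c) (β : ℚ)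
    (h : β ∈ Exc r d (cR d * c * (2 * d + 3) + (2 * d + 3))) :
    ∃ Q : RPt r (d * (d + 1)) β, Q.P.Thr c ∧ ((hgt β : ℕ) : ℝ) ≤ |(Q.P.x : ℝ)| := by
  obtain ⟨hβ, hβi, F, hF, hFd, hinf, H, hH2, hH, x, y, h0, hbig⟩ := h
  have hg := hgt_pos β
  have hgH : 1 ≤ hgt β * H := Nat.one_le_iff_ne_zero.2 (Nat.mul_ne_zero (by omega) (by omega))
  have h1 : H ^ (cR d * c * (2 * d + 3)) < max x.natAbs y.natAbs := by
    refine lt_of_le_of_lt ?_ hbig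
    calc H ^ (cR d * c * (2 * d + 3)) ≤ (hgt β * H) ^ (cR d * c * (2 * d + 3)) :=
          Nat.pow_le_pow_left (Nat.le_mul_of_pos_left _ (by omega)) _
      _ ≤ (hgt β * H) ^ (cR d * c * (2 * d + 3) + (2 * d + 3)) :=
          Nat.pow_le_pow_right hgH (Nat.le_add_right _ _)
  obtain ⟨Q, hQ1, hQ2⟩ := redX r d (by omega) hd c hc β hβ.ne' hβi F hF hFd hinf H hH2 hH x y h0 h1
  refine ⟨Q, hQ1, ?_⟩
  have h2 : (hgt β) ^ (2 * d + 3) < max x.natAbs y.natAbs := by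
    refine lt_of_le_of_lt ?_ hbig
    calc (hgt β) ^ (2 * d + 3) ≤ (hgt β * H) ^ (2 * d + 3) :=
          Nat.pow_le_pow_left (Nat.le_mul_of_pos_right _ (by omega)) _
      _ ≤ (hgt β * H) ^ (cR d * c * (2 * d + 3) + (2 * d + 3)) :=
          Nat.pow_le_pow_right hgH (Nat.le_add_left _ _)
  have h3 : ((hgt β : ℕ) : ℝ) ^ (2 * d + 3) ≤ |(Q.P.x : ℝ)| ^ (2 * d + 3) := by
    refine le_trans ?_ hQ2
    exact_mod_cast h2.le
  exact le_of_pow_le_pow_left₀ (by omega) (abs_nonneg _) h3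

theorem fin_pairs (r d : ℕ) (hr : 11 ≤ r) (hd : 3 ≤ d) : ∃ C0 : ℕ, ∀ ω : ℚ, 0 < ω →
    Irreducible (X ^ r - C ω : ℚ[X]) → {β | β ∈ Exc r d C0 ∧ ω * β ∈ Exc r d C0}.Finite := by
  have hN : 4 ≤ d * (d + 1) := by nlinarith
  obtain ⟨c, R, K, hc, hR, hK, H⟩ := two_pairs r (d * (d + 1)) hr hN
  refine ⟨cR d * c * (2 * d + 3) + (2 * d + 3), fun ω hω hωi => ?_⟩
  obtain ⟨W, HW⟩ := H ω hω hωi
  obtain ⟨E, hE⟩ : ∃ E : Set ℚ, E = {β | β ∈ Exc r d (cR d * c * (2 * d + 3) + (2 * d + 3)) ∧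
    ω * β ∈ Exc r d (cR d * c * (2 * d + 3) + (2 * d + 3))} := ⟨_, rfl⟩
  rw [← hE]
  obtain ⟨PR, hPR⟩ : ∃ PR : ∀ β : ℚ, RPr r (d * (d + 1)) ω β → Prop, PR = fun β q =>
    q.Q0.P.Thr c ∧ q.Q1.P.Thr c ∧ ((hgt β : ℕ) : ℝ) ≤ |(q.Q0.P.x : ℝ)| ∧
      ((hgt (ω * β) : ℕ) : ℝ) ≤ |(q.Q1.P.x : ℝ)| := ⟨_, rfl⟩
  have hex : ∀ β ∈ E, ∃ q : RPr r (d * (d + 1)) ω β, PR β q := by
    intro β hβ
    rw [hE] at hβ
    obtain ⟨Q0, h1, h2⟩ := fin_pt r d c hr hd hc β hβ.1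
    obtain ⟨Q1, h3, h4⟩ := fin_pt r d c hr hd hc (ω * β) hβ.2
    refine ⟨⟨Q0, Q1⟩, ?_⟩
    rw [hPR]
    exact ⟨h1, h3, h2, h4⟩
  have hcov : E ⊆ ⋃ t : Bool × Bool × Bool, {β | β ∈ E ∧ ∃ q : RPr r (d * (d + 1)) ω β,
      PR β q ∧ q.tp R = t} := by
    intro β hβ
    obtain ⟨q, hq⟩ := hex β hβ
    rw [Set.mem_iUnion]
    exact ⟨q.tp R, hβ, q, hq, rfl⟩
  refine Set.Finite.subset (Set.finite_iUnion fun t => ?_) hcov
  by_contra hinf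
  have hinf' : {β | β ∈ E ∧ ∃ q : RPr r (d * (d + 1)) ω β, PR β q ∧ q.tp R = t}.Infinite := hinf
  -- the first element
  obtain ⟨β', hβ', hW'⟩ : ∃ β' ∈ {β | β ∈ E ∧ ∃ q : RPr r (d * (d + 1)) ω β,
      PR β q ∧ q.tp R = t}, β' ∉ {β : ℚ | hgt β ≤ ⌈W⌉₊} :=
    (hinf'.sdiff (fin_hgt ⌈W⌉₊)).nonempty
  obtain ⟨hβE', q', hq', ht'⟩ := hβ'
  rw [hPR] at hq'
  obtain ⟨a1, a2, a3, a4⟩ := hq'
  have hW1 : W < |(q'.Q0.P.x : ℝ)| := by
    have h1 : ⌈W⌉₊ < hgt β' := not_le.1 hW'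
    have h2 : W ≤ (⌈W⌉₊ : ℝ) := Nat.le_ceil W
    have h3 : ((⌈W⌉₊ : ℕ) : ℝ) < ((hgt β' : ℕ) : ℝ) := by exact_mod_cast h1
    linarith
  obtain ⟨M, hM⟩ : ∃ M : ℝ, M = K * max q'.Q0.P.ell q'.Q1.P.ell := ⟨_, rfl⟩
  obtain ⟨B, hB⟩ : ∃ B : ℕ, B = max ⌈W⌉₊ ⌈Real.exp M⌉₊ := ⟨_, rfl⟩
  obtain ⟨β, hβ, hBβ⟩ : ∃ β ∈ {β | β ∈ E ∧ ∃ q : RPr r (d * (d + 1)) ω β,
      PR β q ∧ q.tp R = t}, β ∉ {β : ℚ | hgt β ≤ B} ∪ {β : ℚ | hgt (ω * β) ≤ B} :=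
    (hinf'.sdiff ((fin_hgt B).union (fin_hgt_mul B ω hω.ne'))).nonempty
  obtain ⟨hβE, q, hq, ht⟩ := hβ
  rw [hPR] at hq
  obtain ⟨b1, b2, b3, b4⟩ := hq
  have hB1 : B < hgt β := by
    by_contra hcon
    exact hBβ (Or.inl (not_lt.1 hcon))
  have hB2 : B < hgt (ω * β) := by
    by_contra hcon
    exact hBβ (Or.inr (not_lt.1 hcon))
  have hBW : W ≤ (B : ℝ) := by
    refine (Nat.le_ceil W).trans ?_
    rw [hB]
    exact_mod_cast le_max_left _ _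
  have hBM : Real.exp M ≤ (B : ℝ) := by
    refine (Nat.le_ceil _).trans ?_
    rw [hB]
    exact_mod_cast le_max_right _ _
  have hr1 : (B : ℝ) < ((hgt β : ℕ) : ℝ) := by exact_mod_cast hB1
  have hr2 : (B : ℝ) < ((hgt (ω * β) : ℕ) : ℝ) := by exact_mod_cast hB2
  have hell : ∀ z : ℝ, Real.exp M ≤ z → M ≤ Real.log z := by
    intro z hz
    rw [Real.le_log_iff_exp_le (lt_of_lt_of_le (Real.exp_pos _) hz)]
    exact hz
  rw [hE] at hβE hβE'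
  refine HW β β' hβE.1.1 hβE'.1.1 hβE'.1.2.1 hβE'.2.2.1 q q' b1 b2 a1 a2 (by rw [ht, ht'])
    (by linarith) hW1 ?_ ?_
  · rw [← hM]
    exact hell _ (by linarith)
  · rw [← hM]
    exact hell _ (by linarith)

end Pool.Agent.H97.NW
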