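import Pool.Agent.H97.NW.PPF

/-! # [H97 NW FOU] Four radical pointed curves

`PP = PP4 (fun v => (Q v).P) β (fun v => (Q v).h)`; `pp4_stb`; count: `(41/40) 256 card ≤ (41/40) 256 (∏ d)/r ≤ 24 ∏ d` since `r ≥ 11` (`262.4 / 11 < 24`) by `pp4_card`. The near tuple: `(Q v).mem`; the numbers `t_v = th (i)` are real (`(Q v).real`), `t_v^r = β_v > 0`, so `t_v ≠ 0`;
`(t1 t2)^r = β1 β2 = β0 β3 = (t0 t3)^r`, hence `|t1 t2| = |t0 t3|` (`pow_left_injective` on nonnegative reals), and `t1 t2` and `t0 t3` have the same sign: `(t1 t2)(t0 t3) = (t0 t1)(t2 t3) > 0` by `hs` (both factors are nonzero with the same sign). So `t1 t2 = t0 t3`. -/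

namespace Pool.Agent.H97.NW

open Finset Polynomial Pool.Agent.H72.ES Pool.Agent.H87.SA2 Pool.Agent.H8.AW Pool.Agent.H52.AC

theorem four (r n : ℕ) (hr : 11 ≤ r) (β : Fin 4 → ℚ) (hβ : ∀ v, 0 < β v)
    (hi : Irreducible (X ^ r - C (β 3) : ℚ[X])) (hprod : β 1 * β 2 = β 0 * β 3)
    (Q : ∀ v, RPt r n (β v))
    (hs : 0 < ((Q 0).h.th (Q 0).P.i).re * ((Q 1).h.th (Q 1).P.i).re ↔
      0 < ((Q 2).h.th (Q 2).P.i).re * ((Q 3).h.th (Q 3).P.i).re) :
    ∃ PP : Finset (∀ v, Fin (Q v).P.d), Stb (fun v => (Q v).P) PP ∧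
      (fun v => (Q v).P.i) ∈ PP ∧
      (1 + 1 / 40) * ((4 : ℝ) ^ 4 * PP.card) ≤ 24 * ∏ v, ((Q v).P.d : ℝ) := by
  refine ⟨PP4 (fun v => (Q v).P) β (fun v => (Q v).h), pp4_stb (by omega) _ _ _, ?_, ?_⟩
  · unfold PP4
    rw [mem_filter]
    refine ⟨mem_univ _, fun v => (Q v).mem, ?_⟩
    obtain ⟨t, ht⟩ : ∃ t : Fin 4 → ℝ, ∀ v, t v = ((Q v).h.th (Q v).P.i).re := ⟨_, fun v => rfl⟩
    have hc : ∀ v, (Q v).h.th (Q v).P.i = ((t v : ℝ) : ℂ) := by
      intro v
      apply Complex.ext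
      · rw [Complex.ofReal_re, ht]
      · rw [Complex.ofReal_im, (Q v).real]
    have hpow : ∀ v, t v ^ r = ((β v : ℚ) : ℝ) := by
      intro v
      have h1 := (Q v).h.root (Q v).P.i
      rw [hc v] at h1
      exact_mod_cast h1
    have hr0 : r ≠ 0 := by omega
    have hne : ∀ v, t v ≠ 0 := by
      intro v h0
      have h1 := hpow v
      rw [h0, zero_pow hr0] at h1
      have h2 : (0 : ℝ) < ((β v : ℚ) : ℝ) := by exact_mod_cast hβ v
      linarith
    have habs : |t 1 * t 2| = |t 0 * t 3| := by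
      rw [← pow_left_inj₀ (abs_nonneg _) (abs_nonneg _) hr0, ← abs_pow, ← abs_pow, mul_pow,
        mul_pow, hpow, hpow, hpow, hpow]
      congr 1
      exact_mod_cast hprod
    rw [← ht, ← ht, ← ht, ← ht] at hs
    have hmain : t 1 * t 2 = t 0 * t 3 := by
      rcases abs_eq_abs.1 habs with h1 | h1
      · exact h1
      · exfalso
        have h2 : (t 0 * t 1) * (t 2 * t 3) = -(t 0 * t 3) ^ 2 := by
          have h3 : (t 0 * t 1) * (t 2 * t 3) = (t 1 * t 2) * (t 0 * t 3) := by ring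
          rw [h3, h1]
          ring
        have h4 : 0 < (t 0 * t 3) ^ 2 := by
          have := mul_ne_zero (hne 0) (hne 3)
          positivity
        have h5 : (t 0 * t 1) * (t 2 * t 3) < 0 := by linarith
        rcases lt_or_gt_of_ne (mul_ne_zero (hne 0) (hne 1)) with h6 | h6
        · have h7 : ¬ 0 < t 2 * t 3 := fun h => absurd (hs.2 h) (not_lt.2 h6.le)
          have h8 : t 2 * t 3 < 0 := lt_of_le_of_ne (not_lt.1 h7) (mul_ne_zero (hne 2) (hne 3))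
          have := mul_pos_of_neg_of_neg h6 h8
          linarith
        · have := mul_pos h6 (hs.1 h6)
          linarith
    show (Q 1).h.th (Q 1).P.i * (Q 2).h.th (Q 2).P.i =
      (Q 0).h.th (Q 0).P.i * (Q 3).h.th (Q 3).P.i
    rw [hc, hc, hc, hc]
    exact_mod_cast hmain
  · have h1 := pp4_card (by omega) (fun v => (Q v).P) β (fun v => (Q v).h) (hβ 0).ne' hi
    obtain ⟨N, hN⟩ : ∃ N, N = (PP4 (fun v => (Q v).P) β (fun v => (Q v).h)).card := ⟨_, rfl⟩
    rw [← hN] at h1 ⊢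
    have h2 : 11 * N ≤ ∏ v, (Q v).P.d := (Nat.mul_le_mul_right N hr).trans h1
    have h3 : (11 : ℝ) * N ≤ ∏ v, ((Q v).P.d : ℝ) := by exact_mod_cast h2
    have h4 : (0 : ℝ) ≤ N := Nat.cast_nonneg _
    linarith

end Pool.Agent.H97.NW
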