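import Pool.Agent.H97.NW.ZD

/-! # [H97 NW HAS] Hasse derivatives of a power

`hasse_low`, `hasse_mod` by induction on `m` with `hasseDeriv_mul`: claim `p ∣ hasseDeriv k (p^m * V)` for `k < m` and
`p ∣ hasseDeriv m (p^m * V) - (derivative p)^m * V`. Step: `hasseDeriv k (p * g) = ∑_(i+j=k) hasseDeriv i p * hasseDeriv j g`, `g = p^m * V`; the term `i = 0` is
divisible by `p`; for `k < m + 1` the terms with `i ≥ 1` have `j ≤ k - 1 < m`; for `k = m + 1` the term `i = 1` is `derivative p * hasseDeriv m g`, and `i ≥ 2` has `j < m`.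
`hasse_ndvd`: `p` is prime (`Irreducible.prime`, `ℤ[X][X]` is a UFD); if `p` divides `hasseDeriv m (p^m V)` it divides `(derivative p)^m * V`, so `p ∣ derivative p`
(`≠ 0` as `1 ≤ natDegree`, characteristic zero, smaller degree: impossible, `Polynomial.not_dvd_of_degree_lt`) or `p ∣ V`.
`exists_mult`: `FiniteMultiplicity` in a UFD (`FiniteMultiplicity.of_prime_left` and `FiniteMultiplicity.exists_eq_pow_mul_and_not_dvd`). -/

namespace Pool.Agent.H97.NW

open Finset Polynomial Pool.Agent.H72.ES

theorem hasse_low {R : Type} [CommRing R] (p V : R[X]) (m k : ℕ) (h : k < m) :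
    p ∣ hasseDeriv k (p ^ m * V) := by
  induction m generalizing k with
  | zero => exact absurd h (Nat.not_lt_zero _)
  | succ m ih =>
    rw [pow_succ', mul_assoc, hasseDeriv_mul]
    refine dvd_sum fun ij hij => ?_
    rw [HasAntidiagonal.mem_antidiagonal] at hij
    rcases Nat.eq_zero_or_pos ij.1 with h0 | h0
    · rw [h0, hasseDeriv_zero']
      exact dvd_mul_right _ _
    · exact Dvd.dvd.mul_left (ih ij.2 (by omega)) _

theorem hasse_mod {R : Type} [CommRing R] (p V : R[X]) (m : ℕ) :
    p ∣ hasseDeriv m (p ^ m * V) - derivative p ^ m * V := by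
  induction m with
  | zero =>
    rw [hasseDeriv_zero', pow_zero, pow_zero, sub_self]
    exact dvd_zero _
  | succ m ih =>
    have h1 : p ∣ hasseDeriv (m + 1) (p ^ (m + 1) * V) -
        derivative p * hasseDeriv m (p ^ m * V) := by
      rw [pow_succ' p m, mul_assoc, hasseDeriv_mul, Finset.Nat.sum_antidiagonal_succ
        (f := fun ij : ℕ × ℕ => hasseDeriv ij.1 p * hasseDeriv ij.2 (p ^ m * V))]
      have h2 : ∑ x ∈ antidiagonal m, hasseDeriv (x.1 + 1) p * hasseDeriv x.2 (p ^ m * V) -
          derivative p * hasseDeriv m (p ^ m * V) =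
          ∑ x ∈ (antidiagonal m).erase (0, m),
            hasseDeriv (x.1 + 1) p * hasseDeriv x.2 (p ^ m * V) := by
        rw [← Finset.sum_erase_add (antidiagonal m)
          (fun x : ℕ × ℕ => hasseDeriv (x.1 + 1) p * hasseDeriv x.2 (p ^ m * V))
          (show (0, m) ∈ antidiagonal m by simp)]
        simp only [zero_add, hasseDeriv_one']
        ring
      rw [add_sub_assoc, h2]
      refine dvd_add ?_ (dvd_sum fun ij hij => ?_)
      · simp only [hasseDeriv_zero']
        exact dvd_mul_right _ _
      · rw [mem_erase, HasAntidiagonal.mem_antidiagonal] at hij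
        refine Dvd.dvd.mul_left (hasse_low p V m ij.2 ?_) _
        by_contra hcon
        apply hij.1
        exact Prod.ext (by simp only; omega) (by simp only; omega)
    have h3 : hasseDeriv (m + 1) (p ^ (m + 1) * V) - derivative p ^ (m + 1) * V =
        (hasseDeriv (m + 1) (p ^ (m + 1) * V) - derivative p * hasseDeriv m (p ^ m * V)) +
        derivative p * (hasseDeriv m (p ^ m * V) - derivative p ^ m * V) := by
      ring
    rw [h3]
    exact dvd_add h1 (Dvd.dvd.mul_left ih _)

theorem hasse_ndvd (p V : ℤ[X][X]) (hp : Irreducible p) (hd : 1 ≤ p.natDegree) (m : ℕ)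
    (hV : ¬ p ∣ V) : ¬ p ∣ hasseDeriv m (p ^ m * V) := by
  intro h
  have h1 := hasse_mod p V m
  have h2 : p ∣ derivative p ^ m * V := by
    have h3 := dvd_sub h h1
    rwa [sub_sub_cancel] at h3
  rcases hp.prime.dvd_or_dvd h2 with h3 | h3
  · have h4 : p ∣ derivative p := hp.prime.dvd_of_dvd_pow h3
    have h5 : derivative p ≠ 0 := by
      intro h6
      have h7 := natDegree_eq_zero_of_derivative_eq_zero h6
      omega
    have h6 := natDegree_le_of_dvd h4 h5
    have h7 := natDegree_derivative_lt (p := p) (by omega)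
    omega
  · exact hV h3

theorem exists_mult (p W : ℤ[X][X]) (hp : Irreducible p) (hW : W ≠ 0) :
    ∃ (m : ℕ) (V : ℤ[X][X]), W = p ^ m * V ∧ ¬ p ∣ V := by
  obtain ⟨V, h1, h2⟩ := (FiniteMultiplicity.of_prime_left hp.prime hW).exists_eq_pow_mul_and_not_dvd
  exact ⟨_, V, h1, h2⟩

end Pool.Agent.H97.NW
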