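import Pool.Agent.H97.NW.ZD

/-! # [H97 NW HSB] Resultants with an irreducible polynomial; shifts and norms of Hasse derivatives

`res_ne`: `p` irreducible of positive degree in `R[X]`, `R = ℤ[X]`, is primitive (`Irreducible.isPrimitive`) and irreducible over `K = FractionRing R`
(`IsPrimitive.irreducible_iff_irreducible_map_fraction_map`). If `p` divided `f` over `K`, then `p ∣ f`: clear denominators (`p * h = C r * f`, `r ≠ 0`; `p` is prime and does not
divide `C r` by degree), so `p ∣ f`. Hence `IsCoprime` over `K` (`Irreducible.coprime_iff_not_dvd`), and `resultant ≠ 0` (`resultant_ne_zero`, `resultant_map_map`, `natDegree_map_eq_of_injective`).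
`hasse_tr`: `tr x y` commutes with `hasseDeriv m` (check on monomials, or: `hasseDeriv m (map φ f) = map φ (hasseDeriv m f)` by `hasseDeriv_coeff`, and for `taylor r`:
`(taylor r (hasseDeriv m f)).coeff j = (hasseDeriv j (hasseDeriv m f)).eval r = choose (j+m) m * (hasseDeriv (j+m) f).eval r` by `taylor_coeff`, `hasseDeriv_comp`).
`L2_hasse_le`: `hasseDeriv_coeff`: `(hasseDeriv m f).coeff j = choose (j+m) m * f.coeff (j+m)`, `choose (j + m) m ≤ 2^(j+m) ≤ 2^natDegree` for `j + m ≤ natDegree`. -/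

namespace Pool.Agent.H97.NW

open Finset Polynomial Pool.Agent.H72.ES

theorem res_ne (f p : ℤ[X][X]) (hp : Irreducible p) (hd : 1 ≤ p.natDegree) (h : ¬ p ∣ f) :
    resultant f p ≠ 0 := by
  have hprim : p.IsPrimitive := hp.isPrimitive (by omega)
  obtain ⟨φ, hφ⟩ : ∃ φ : ℤ[X] →+* FractionRing ℤ[X], φ = algebraMap ℤ[X] (FractionRing ℤ[X]) :=
    ⟨_, rfl⟩
  have hinj : Function.Injective φ := by
    rw [hφ]
    exact IsFractionRing.injective _ _
  have h1 : Irreducible (p.map φ) := by
    rw [hφ]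
    exact (hprim.irreducible_iff_irreducible_map_fraction_map).1 hp
  have h2 : ¬ p.map φ ∣ f.map φ := by
    intro h3
    apply h
    rw [hφ] at h3
    exact hprim.dvd_of_fraction_map_dvd_fraction_map h3
  have h3 : IsCoprime (f.map φ) (p.map φ) := ((h1.coprime_iff_not_dvd).2 h2).symm
  have h4 := resultant_ne_zero _ _ h3
  rw [natDegree_map_eq_of_injective hinj, natDegree_map_eq_of_injective hinj,
    resultant_map_map] at h4
  intro h5
  exact h4 (by rw [h5, map_zero])

private theorem hasse_map {R : Type} [CommRing R] (φ : R →+* R) (m : ℕ) (f : R[X]) :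
    (hasseDeriv m f).map φ = hasseDeriv m (f.map φ) := by
  ext n
  rw [coeff_map, hasseDeriv_coeff, hasseDeriv_coeff, coeff_map, map_mul, map_natCast]

private theorem hasse_taylor {R : Type} [CommRing R] (r : R) (m : ℕ) (f : R[X]) (j : ℕ) :
    (taylor r (hasseDeriv m f)).coeff j = (j + m).choose m * (taylor r f).coeff (j + m) := by
  rw [taylor_coeff, taylor_coeff]
  have h1 := congrArg (fun L => L f) (hasseDeriv_comp (R := R) j m)
  simp only [LinearMap.comp_apply, LinearMap.smul_apply] at h1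
  rw [h1, eval_smul, nsmul_eq_mul, Nat.choose_symm_add]

theorem hasse_tr (x y : ℤ) (m : ℕ) (f : ℤ[X][X]) (i j : ℕ) :
    ((tr x y (hasseDeriv m f)).coeff j).coeff i =
      (j + m).choose m * ((tr x y f).coeff (j + m)).coeff i := by
  obtain ⟨τ, hτ⟩ : ∃ τ : ℤ[X] →+* ℤ[X],
    τ = ((taylorAlgHom x : ℤ[X] →ₐ[ℤ] ℤ[X]) : ℤ[X] →+* ℤ[X]) := ⟨_, rfl⟩
  have h1 : ∀ g : ℤ[X][X], tr x y g = taylor (C y) (g.map τ) := by
    intro g
    rw [hτ]
    rfl
  rw [h1, h1, hasse_map, hasse_taylor]
  have h2 : (((j + m).choose m : ℕ) : ℤ[X]) = C (((j + m).choose m : ℕ) : ℤ) := by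
    simp
  rw [h2, coeff_C_mul]

theorem L2_hasse_le (m : ℕ) (f : ℤ[X][X]) : L2 (hasseDeriv m f) ≤ 2 ^ f.natDegree * L2 f := by
  obtain ⟨D, hD⟩ : ∃ D : ℕ, D = f.natDegree := ⟨_, rfl⟩
  have h1 : (hasseDeriv m f).natDegree ≤ D := by
    rw [natDegree_le_iff_coeff_eq_zero]
    intro n hn
    rw [hasseDeriv_coeff, coeff_eq_zero_of_natDegree_lt (by omega), mul_zero]
  rw [L2_eq_LN, LN_eq_range subMul_L1.zero (hasseDeriv m f) h1,
    LN_eq_range subMul_L1.zero f (K := m + D) (by omega), ← hD, add_assoc,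
    Finset.sum_range_add (fun i => L1 (f.coeff i)) m (D + 1)]
  have h2 : ∀ j ∈ range (D + 1), L1 ((hasseDeriv m f).coeff j) ≤
      2 ^ D * L1 (f.coeff (m + j)) := by
    intro j _
    rw [hasseDeriv_coeff, add_comm m j]
    by_cases hj : j + m ≤ D
    · have h3 := subMul_L1.mul_natCast (f.coeff (j + m)) ((j + m).choose m)
      rw [mul_comm] at h3
      refine h3.trans (mul_le_mul_of_nonneg_right ?_ (L1_nonneg _))
      have h4 : (j + m).choose m ≤ 2 ^ D :=
        (Nat.choose_le_two_pow _ _).trans (Nat.pow_le_pow_right (by norm_num) hj)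
      exact_mod_cast h4
    · rw [coeff_eq_zero_of_natDegree_lt (by omega), mul_zero, subMul_L1.zero, mul_zero]
  refine (sum_le_sum h2).trans ?_
  rw [← mul_sum]
  refine mul_le_mul_of_nonneg_left ?_ (by positivity)
  exact le_add_of_nonneg_left (sum_nonneg fun i _ => L1_nonneg _)

end Pool.Agent.H97.NW
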