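import Pool.Agent.H97.NW.FIN
import Pool.Agent.H97.NW.DNR
import Pool.Agent.H97.NW.FAM

/-! # [H97 NW NWF] NoWindows, the density statements

`Good r d C β`: `X^r - β` is irreducible and `β` is not exceptional.
`good_dens`: `C0` from `fin_pairs` is given as hypothesis `hfin`. `dens_zero` for `E = Exc r d C0` and `ε/2`: for primes `p ≠ q` use `hfin` with `ω = p/q` (`irr_ratio`). `dens_red` for `ε/2`. For `a ≥ 1` not good: `X^r - a/b` is reducible or `a/b ∈ Exc` (`0 < a/b`).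
`fam_bound`: from `Good r r C (a/b)`: the curve `Fam r a b G` has degree `≤ r`, height `≤ max a b * H`, `INFN`, is irreducible; `hgt (a/b) ≤ max a b` (`num ∣ a`, `den ∣ b`, `Rat.num_div_natCast..`), so
`max |x| |y| ≤ (max a b * (max a b * H))^C ≤ (max a b * H)^(2 C)`. -/

namespace Pool.Agent.H97.NW

open Finset Polynomial Pool.Agent.H34.AC

/-- `X^r - β` is irreducible, and all integer points on all curves of degree `≤ d` whose real points
at infinity carry an `r`-th root of `β` are bounded by `(hgt β * H)^C` -/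
def Good (r d C : ℕ) (β : ℚ) : Prop := Irreducible (X ^ r - Polynomial.C β : ℚ[X]) ∧
  ∀ F : MvPolynomial (Fin 2) ℤ, Irreducible (MvPolynomial.map (Int.castRingHom ℚ) F) →
    F.totalDegree ≤ d → INFN r β F → ∀ H : ℕ, 2 ≤ H → (∀ m, |F.coeff m| ≤ (H : ℤ)) →
      ∀ x y : ℤ, vl F x y = 0 → max x.natAbs y.natAbs ≤ (hgt β * H) ^ C

open Classical in
theorem good_dens (r d C0 : ℕ) (hr : 1 ≤ r) (hfin : ∀ ω : ℚ, 0 < ω →
    Irreducible (X ^ r - C ω : ℚ[X]) → {β | β ∈ Exc r d C0 ∧ ω * β ∈ Exc r d C0}.Finite)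
    (ε : ℝ) (hε : 0 < ε) : ∃ T0 : ℕ, ∀ T : ℕ, T0 ≤ T → ∀ b : ℕ, 1 ≤ b →
      (((Finset.Icc 1 T).filter fun a : ℕ => ¬ Good r d C0 ((a : ℚ) / b)).card : ℝ) ≤ ε * T := by
  obtain ⟨T1, hT1⟩ := dens_zero (Exc r d C0) (fun p q hp hq hpq => hfin ((p : ℚ) / q)
    (by
      have h1 : (0 : ℚ) < p := by exact_mod_cast hp.pos
      have h2 : (0 : ℚ) < q := by exact_mod_cast hq.pos
      positivity) (irr_ratio r p q hr hp hq hpq)) (ε / 2) (by positivity)
  obtain ⟨T2, hT2⟩ := dens_red r hr (ε / 2) (by positivity)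
  refine ⟨max T1 T2, fun T hT b hb => ?_⟩
  have h1 := hT1 T ((le_max_left _ _).trans hT) b hb
  have h2 := hT2 T ((le_max_right _ _).trans hT) b hb
  have h3 : ((Finset.Icc 1 T).filter fun a : ℕ => ¬ Good r d C0 ((a : ℚ) / b)) ⊆
      ((Finset.Icc 1 T).filter fun a : ℕ => ((a : ℚ) / b) ∈ Exc r d C0) ∪
      ((Finset.Icc 1 T).filter fun a : ℕ => ¬ Irreducible (X ^ r - C ((a : ℚ) / b) : ℚ[X])) := by
    intro a ha
    rw [Finset.mem_filter] at ha
    obtain ⟨ha1, ha2⟩ := ha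
    rw [Finset.mem_union, Finset.mem_filter, Finset.mem_filter]
    by_cases h4 : Irreducible (X ^ r - C ((a : ℚ) / b) : ℚ[X])
    · left
      refine ⟨ha1, ?_, h4, ?_⟩
      · have h5 : (0 : ℚ) < a := by exact_mod_cast (Finset.mem_Icc.1 ha1).1
        have h6 : (0 : ℚ) < b := by exact_mod_cast hb
        positivity
      · by_contra h5
        apply ha2
        refine ⟨h4, fun F hF hFd hinf H hH hc x y h0 => ?_⟩
        by_contra h6
        apply h5
        exact ⟨F, hF, hFd, hinf, H, hH, hc, x, y, h0, not_le.1 h6⟩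
    · exact Or.inr ⟨ha1, h4⟩
  have h4 := (Finset.card_le_card h3).trans (Finset.card_union_le _ _)
  have h5 : (((Finset.Icc 1 T).filter fun a : ℕ => ¬ Good r d C0 ((a : ℚ) / b)).card : ℝ) ≤
      (((Finset.Icc 1 T).filter fun a : ℕ => ((a : ℚ) / b) ∈ Exc r d C0).card : ℝ) +
      (((Finset.Icc 1 T).filter fun a : ℕ =>
        ¬ Irreducible (X ^ r - C ((a : ℚ) / b) : ℚ[X])).card : ℝ) := by exact_mod_cast h4
  linarith

theorem fam_bound (r C : ℕ) (hr : 1 ≤ r) (a b : ℕ) (ha : 1 ≤ a) (hb : 1 ≤ b)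
    (h : Good r r C ((a : ℚ) / b)) (G : MvPolynomial (Fin 2) ℤ) (hG : G.totalDegree < r) (H : ℕ)
    (hH : 2 ≤ H) (hc : ∀ m, |G.coeff m| ≤ (H : ℤ)) (x y : ℤ)
    (h0 : (b : ℤ) * x ^ r - a * y ^ r = MvPolynomial.eval ![x, y] G) :
    max x.natAbs y.natAbs ≤ (max a b * H) ^ (2 * C) := by
  have hM : 1 ≤ max a b := ha.trans (le_max_left _ _)
  have hbz : (b : ℤ) ≠ 0 := by
    have : b ≠ 0 := by omega
    exact_mod_cast this
  have haz : (a : ℤ) ≠ 0 := by
    have : a ≠ 0 := by omega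
    exact_mod_cast this
  have hv : vl (Fam r a b G) x y = 0 := by
    unfold Fam vl
    rw [MvPolynomial.eval₂_sub, MvPolynomial.eval₂_sub, MvPolynomial.eval₂_mul,
      MvPolynomial.eval₂_mul, MvPolynomial.eval₂_pow, MvPolynomial.eval₂_pow, MvPolynomial.eval₂_C,
      MvPolynomial.eval₂_C, MvPolynomial.eval₂_X, MvPolynomial.eval₂_X]
    have h1 : MvPolynomial.eval₂ (Int.castRingHom ℤ) ![x, y] G = MvPolynomial.eval ![x, y] G := rfl
    rw [h1, ← h0]
    simp
  have h2 := h.2 (Fam r a b G) (fam_irr hr ha hb hG h.1) (fam_deg hr hG) (fam_infn hr ha hb hG)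
    (max a b * H) (hH.trans (Nat.le_mul_of_pos_left _ (by omega)))
    (fam_coeff hr ha hb hG (by omega) hc) x y hv
  refine h2.trans ?_
  have h3 : hgt ((a : ℚ) / b) ≤ max a b := by
    unfold hgt
    have h4 : ((a : ℚ) / b) = ((a : ℤ) : ℚ) / ((b : ℤ) : ℚ) := by push_cast; rfl
    apply max_le_max
    · have h5 : ((a : ℚ) / b).num ∣ (a : ℤ) := by
        rw [h4, ← Rat.divInt_eq_div]
        exact Rat.num_dvd _ hbz
      have h6 := Int.natAbs_dvd_natAbs.2 h5
      rw [Int.natAbs_natCast] at h6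
      exact Nat.le_of_dvd (by omega) h6
    · have h5 : ((((a : ℚ) / b).den : ℕ) : ℤ) ∣ (b : ℤ) := by
        rw [h4, ← Rat.divInt_eq_div]
        exact Rat.den_dvd _ _
      exact Nat.le_of_dvd (by omega) (Int.natCast_dvd_natCast.1 h5)
  have h4 : hgt ((a : ℚ) / b) * (max a b * H) ≤ (max a b * H) ^ 2 := by
    rw [pow_two]
    exact Nat.mul_le_mul_right _ (h3.trans (Nat.le_mul_of_pos_right _ (by omega)))
  calc (hgt ((a : ℚ) / b) * (max a b * H)) ^ C ≤ ((max a b * H) ^ 2) ^ C := Nat.pow_le_pow_left h4 _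
    _ = (max a b * H) ^ (2 * C) := (pow_mul _ _ _).symm

end Pool.Agent.H97.NW
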