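import Pool.Agent.H97.NW.COV
import Pool.Agent.H97.NW.GRW
import Pool.Agent.H97.NW.CBD
import Pool.Agent.H97.NW.INO
import Pool.Agent.H97.NW.IRQ

/-! # [H97 NW PLM] The plane model attached to a special pair

`κ` from `cover_bd n np`, `N = np * n * n`, `n' = max 3 ((κ + 1) * N)`, `κ' = 2 κ N + κ N + 1` (so that `(4 B)^(κ N) ≤ B^(3 κ N) ≤ B^κ'`).
`cover` for `g1 = toP D Fp`, `g2 = sc d0 F0 a X`, `g3 = sc d1 F1 (a^M) (C (C (a^M) * X) - X^M)` (`toP_monic`, `sc_monic`; `natDegree`s `D, d0, d1`), `u0 = x1 + x0^M`, `s1 = a x0`, `s2 = a y0`, `s3 = a^M y1`: `e1` by `hrel` (`S = ℤ`, `Lam_toP`, `vl p x0 x1 = 0`); `e2`, `e3` by `sc_int`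
(`Lam u0 s1 X = a x0`; `a^M u0 - s1^M = a^M x1`). `f`, `μ ≤ N^2` (`D d0 d1 ≤ N`). `grow` with `B` and `κ`: for transcendental `u` and `Lam u w f = 0` the last part of `cover` (`L = ℂ`) gives `z1, z2, z3` and `w = z1 + μ z2 + μ^2 z3`, `cover_bd`. So `natDegree (f.coeff j) ≤ κ N`, `|coeff| ≤ (4 B)^(κ N)`.
`f' = toB.symm f`: `irr_Q` (`1 ≤ natDegree f`); `totalDegree f' ≤ n'` (`toB_coeff`: `i + j ≤ κ N + N`); `INFR` by `infr_cover`; `vl f' u0 w0 = Lam u0 w0 f = 0` (`lam_vl`). -/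

namespace Pool.Agent.H97.NW

open Finset Polynomial Pool.Agent.H72.ES Pool.Agent.H34.AC H4AR

theorem plane (n np : ℕ) : ∃ n' κ' : ℕ, 3 ≤ n' ∧ 1 ≤ κ' ∧ ∀ (r : ℕ) (_ : 1 ≤ r) (β ω : ℚ) (_ : β ≠ 0)
    [Fact (Irreducible (X ^ r - C ω : ℚ[X]))] (d0 d1 : ℕ) (F0 F1 : ℕ → ℕ → ℤ)
    (_ : InfX r β d0 F0) (_ : InfX r (ω * β) d1 F1) (p : MvPolynomial (Fin 2) ℤ)
    (_ : ∀ (K : Type) [Field K] [CharZero K] (X Y : LaurentSeries K), vl p X Y = 0 →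
      (X ∈ (HahnSeries.ofPowerSeries ℤ K).range ↔ Y ∈ (HahnSeries.ofPowerSeries ℤ K).range))
    (D M : ℕ) (Fp : ℕ → ℕ → ℤ) (a : ℤ) (_ : a ≠ 0)
    (_ : ∀ (S : Type) [CommRing S] (x y : S),
      ev D (cst S Fp) (y + x ^ M) ((a : S) * x) = (a : S) ^ (D - 1) * vl p x y)
    (B : ℕ), d0 ≤ n → d1 ≤ n → D ≤ np → M ≤ np → 2 ≤ B →
    F0 0 d0 = 1 → F1 0 d1 = 1 → Fp 0 D = 1 → (∀ i j, |F0 i j| ≤ (B : ℤ)) →
    (∀ i j, |F1 i j| ≤ (B : ℤ)) → (∀ i j, |Fp i j| ≤ (B : ℤ)) → |a| ≤ (B : ℤ) →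
    ∀ x0 y0 x1 y1 : ℤ, ev d0 F0 x0 y0 = 0 → ev d1 F1 x1 y1 = 0 → vl p x0 x1 = 0 →
    ∃ (f : MvPolynomial (Fin 2) ℤ) (w0 : ℤ), Irreducible (MvPolynomial.map (Int.castRingHom ℚ) f) ∧
      f.totalDegree ≤ n' ∧ INFR (AdjoinRoot (X ^ r - C ω : ℚ[X])) f ∧
      (∀ m, |f.coeff m| ≤ ((B ^ κ' : ℕ) : ℤ)) ∧ vl f (x1 + x0 ^ M) w0 = 0 := by
  obtain ⟨κ, hκ, hbd⟩ := cover_bd n np
  set N := np * n * n with hN
  refine ⟨max 3 ((κ + 1) * N), 2 * κ * N + κ * N + 1, le_max_left _ _, by omega, ?_⟩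
  intro r hr β ω hβ _ d0 d1 F0 F1 h0 h1 p hnm D M Fp a ha hrel B hd0 hd1 hD hM hB hF0 hF1 hFp
    bF0 bF1 bFp ba x0 y0 x1 y1 z0 z1 zp
  have hcst : ∀ F : ℕ → ℕ → ℤ, cst ℤ F = F := fun F => by
    funext i j
    exact Int.cast_id
  have e1 : Lam (x1 + x0 ^ M) (a * x0) (toP D Fp) = 0 := by
    have h2 := hrel ℤ x0 x1
    rw [zp, mul_zero] at h2
    rw [Lam_toP]
    exact h2
  have e2 : (sc d0 F0 a X).eval₂ (Lam (x1 + x0 ^ M) (a * x0)) (a * y0) = 0 := by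
    have h2 := sc_int (d := d0) (F := F0) a (X : ℤ[X][X]) (x1 + x0 ^ M) (a * x0) x0 y0 (by simp [Lam])
    rw [hcst, z0, mul_zero] at h2
    exact h2
  have e3 : (sc d1 F1 (a ^ M) (C (C (a ^ M) * X) - X ^ M)).eval₂ (Lam (x1 + x0 ^ M) (a * x0))
      (a ^ M * y1) = 0 := by
    have h2 := sc_int (d := d1) (F := F1) (a ^ M) (C (C (a ^ M) * X) - X ^ M : ℤ[X][X])
      (x1 + x0 ^ M) (a * x0) x1 y1 (by
        rw [ino_Lam_CC, Int.cast_id]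
        ring)
    rw [hcst, z1, mul_zero] at h2
    exact h2
  obtain ⟨m1, dg1⟩ := toP_monic (d := D) (F := Fp) hFp
  obtain ⟨m2, dg2⟩ := sc_monic (d := d0) (F := F0) hF0 a X
  obtain ⟨m3, dg3⟩ := sc_monic (d := d1) (F := F1) hF1 (a ^ M) (C (C (a ^ M) * X) - X ^ M)
  obtain ⟨μ, f, hμ, hfm, hfi, hfd, hfd1, hfz, hlast⟩ := cover (toP D Fp) (sc d0 F0 a X)
    (sc d1 F1 (a ^ M) (C (C (a ^ M) * X) - X ^ M)) m1 m2 m3 (x1 + x0 ^ M) (a * x0) (a * y0)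
    (a ^ M * y1) e1 e2 e3
  rw [dg1, dg2, dg3] at hμ hfd
  have hDN : D * d0 * d1 ≤ N := Nat.mul_le_mul (Nat.mul_le_mul hD hd0) hd1
  have hμ' : μ ≤ (np * n * n) ^ 2 := hμ.trans (Nat.pow_le_pow_left hDN 2)
  have hfN : f.natDegree ≤ N := hfd.trans hDN
  have hB1 : (1 : ℝ) ≤ B := by exact_mod_cast (by omega : 1 ≤ B)
  have hgrow := grow f hfm B hB1 κ hκ (by
    intro u w hu huw
    obtain ⟨Z1, Z2, Z3, q1, q2, q3, hw⟩ := hlast ℂ u w hu huw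
    rw [hw]
    exact hbd d0 d1 D M μ F0 F1 Fp a B hd0 hd1 hD hM hμ' hB hF0 hF1 hFp bF0 bF1 bFp ba u Z1 Z2 Z3
      q1 q2 q3)
  have hcoeff : ∀ e : Fin 2 →₀ ℕ, (toB.symm f).coeff e = (f.coeff (e 1)).coeff (e 0) := by
    intro e
    have h2 := toB_coeff (toB.symm f) (e 0) (e 1)
    rw [AlgEquiv.apply_symm_apply] at h2
    rw [h2]
    congr 1
    ext v
    fin_cases v
    · simp
    · simp
  refine ⟨toB.symm f, a * x0 + μ * (a * y0) + μ ^ 2 * (a ^ M * y1), irr_Q f hfi hfd1, ?_, ?_, ?_, ?_⟩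
  · refine le_trans ?_ (le_max_right _ _)
    refine Finset.sup_le fun e he => ?_
    rw [MvPolynomial.mem_support_iff, hcoeff] at he
    have h2 : e 1 ≤ f.natDegree := by
      refine le_natDegree_of_ne_zero fun h3 => he ?_
      rw [h3, coeff_zero]
    have h3 : e 0 ≤ (f.coeff (e 1)).natDegree := le_natDegree_of_ne_zero he
    have h4 := (hgrow (e 1)).1
    have h5 : κ * f.natDegree ≤ κ * N := Nat.mul_le_mul_left κ hfN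
    have h6 : (e.sum fun _ k => k) = e 0 + e 1 := by
      rw [Finsupp.sum_fintype _ _ (fun _ => rfl), Fin.sum_univ_two]
    rw [h6]
    calc e 0 + e 1 ≤ κ * N + N := by omega
      _ = (κ + 1) * N := by ring
  · refine infr_cover r hr β ω hβ h0 h1 p hnm ha hrel f hfm ?_
    intro L _ _ U W hU hUW
    obtain ⟨Z1, Z2, Z3, q1, q2, q3, _⟩ := hlast L U W hU hUW
    exact ⟨Z1, Z2, Z3, q1, q2, q3⟩
  · intro m
    rw [hcoeff]
    have h2 := (hgrow (m 1)).2 (m 0)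
    have h3 : (4 * (B : ℝ)) ^ (κ * f.natDegree) ≤ (B : ℝ) ^ (2 * κ * N + κ * N + 1) := by
      have hB2 : (2 : ℝ) ≤ B := by exact_mod_cast hB
      have h4 : 4 * (B : ℝ) ≤ (B : ℝ) ^ 3 := by nlinarith [sq_nonneg ((B : ℝ) - 2)]
      calc (4 * (B : ℝ)) ^ (κ * f.natDegree) ≤ (4 * (B : ℝ)) ^ (κ * N) :=
            pow_le_pow_right₀ (by linarith) (Nat.mul_le_mul_left κ hfN)
        _ ≤ ((B : ℝ) ^ 3) ^ (κ * N) := pow_le_pow_left₀ (by linarith) h4 _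
        _ = (B : ℝ) ^ (3 * (κ * N)) := by rw [← pow_mul]
        _ ≤ (B : ℝ) ^ (2 * κ * N + κ * N + 1) := pow_le_pow_right₀ hB1 (by
            have : 2 * κ * N = 2 * (κ * N) := by ring
            omega)
    have h5 := h2.trans h3
    have h6 : ((|(f.coeff (m 1)).coeff (m 0)| : ℤ) : ℝ) ≤
        (((B ^ (2 * κ * N + κ * N + 1) : ℕ) : ℤ) : ℝ) := by
      push_cast
      exact h5
    exact_mod_cast h6
  · rw [← lam_vl, AlgEquiv.apply_symm_apply]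
    exact hfz

end Pool.Agent.H97.NW
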