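import Pool.Agent.H97.NW.RPD
import Pool.Agent.H97.NW.PTF
import Pool.Agent.H52.AC.FIB

/-! # [H97 NW PPF] Compatible 4-tuples of branches

`fib_card`: if `ρ^r ≠ β` the set is empty (`root`). Otherwise let `ρ'` be another root of `X^r - β` in `ℂ` (there are `r` of them: `β ≠ 0` as `X^r - C β` is irreducible and `2 ≤ r`). There is `σ : AA →+* ℂ` with `σ ρ = ρ'` (`X^r - C β` is the minimal polynomial of `ρ`; `fib_lift`-like lemmas of `Pool/Agent/H52/AC/FIB.lean`, `H8/AS/Fib.lean`, or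
`IsAlgClosed`/`AlgHom` extension: `IntermediateField.exists_algHom_of_splits..`). The permutation `π` of `perm_gal pd σ` maps the fibre over `ρ` injectively to the fibre over `ρ'` (`gal`), so all `r` fibres have the same number of elements (as in `fib_leS`); they are disjoint subsets of `Fin d`.
`pp4_stb`: `gal` and `rot` for each `v`; the relation `th th = th th` is preserved by `σ` (write the four numbers as elements of `AA`; they are algebraic by `root`).
`pp4_card`: the tuple `p` is determined by `(p 0, p 1, p 2)` and `p 3` in the fibre of `th` over `th1 th2 / th0` (`th0 ≠ 0` as `th0^r = β 0 ≠ 0`): `card ≤ ∑_(p0,p1,p2) card fibre`, times `r`: `≤ d0 d1 d2 d3` (`Fin.consEquiv`, `Fin.snoc`, or `Finset.card_le_mul_card_image`/`card_eq_sum_card_fiberwise` for the map `p ↦ (p 0, p 1, p 2)`). -/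

namespace Pool.Agent.H97.NW

open Finset Polynomial Pool.Agent.H72.ES Pool.Agent.H87.SA2 Pool.Agent.H8.AW Pool.Agent.H52.AC

open Classical in
/-- the compatible tuples -/
noncomputable def PP4 {r n : ℕ} (P : Fin 4 → Ptd n) (β : Fin 4 → ℚ)
    (h : ∀ v, ThS r (β v) (P v).C.pd) : Finset (∀ v, Fin (P v).d) :=
  univ.filter fun p => (∀ v, p v ∈ (h v).S) ∧
    (h 1).th (p 1) * (h 2).th (p 2) = (h 0).th (p 0) * (h 3).th (p 3)

private lemma ppf_lift {k : Type} [Field k] [NumberField k] (φ ψ : k →+* ℂ) :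
    ∃ (φ0 : k →+* AA) (σ : AA →+* ℂ), (∀ z, ((φ0 z : AA) : ℂ) = φ z) ∧ ∀ z, σ (φ0 z) = ψ z := by
  let φ0 : k →+* AA := φ.codRestrict AA.toSubring (fun z => kap_mem φ z)
  let _i : Algebra k AA := φ0.toAlgebra
  let _i : Algebra k ℂ := ψ.toAlgebra
  have : IsScalarTower ℚ k AA := IsScalarTower.of_algebraMap_eq' (Subsingleton.elim _ _)
  have : Algebra.IsAlgebraic ℚ AA := algebraicClosure.isAlgebraic ℚ ℂ
  have : Algebra.IsAlgebraic k AA := Algebra.IsAlgebraic.tower_top (K := ℚ) k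
  let σ : AA →ₐ[k] ℂ := IsAlgClosed.lift
  refine ⟨φ0, σ.toRingHom, fun z => rfl, fun z => ?_⟩
  exact σ.commutes z

private lemma ppf_conj {r : ℕ} {β : ℚ} (hβi : Irreducible (X ^ r - C β : ℚ[X])) {ρ ρ' : ℂ}
    (h : ρ ^ r = (β : ℂ)) (h' : ρ' ^ r = (β : ℂ)) :
    ∃ (a : AA) (σ : AA →+* ℂ), (a : ℂ) = ρ ∧ σ a = ρ' := by
  have : Fact (Irreducible (X ^ r - C β : ℚ[X])) := ⟨hβi⟩
  have : Module.Finite ℚ (AdjoinRoot (X ^ r - C β : ℚ[X])) :=
    (AdjoinRoot.powerBasis hβi.ne_zero).finite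
  have : CharZero (AdjoinRoot (X ^ r - C β : ℚ[X])) :=
    charZero_of_injective_algebraMap (algebraMap ℚ (AdjoinRoot (X ^ r - C β : ℚ[X]))).injective
  have : NumberField (AdjoinRoot (X ^ r - C β : ℚ[X])) := NumberField.mk
  have e : ∀ z : ℂ, z ^ r = (β : ℂ) → eval₂ (algebraMap ℚ ℂ) z (X ^ r - C β : ℚ[X]) = 0 := by
    intro z hz
    rw [eval₂_sub, eval₂_pow, eval₂_X, eval₂_C, hz]
    simp
  obtain ⟨φ0, σ, h0, h1⟩ := ppf_lift (AdjoinRoot.lift (algebraMap ℚ ℂ) ρ (e ρ h))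
    (AdjoinRoot.lift (algebraMap ℚ ℂ) ρ' (e ρ' h'))
  refine ⟨φ0 (AdjoinRoot.root _), σ, ?_, ?_⟩
  · rw [h0, AdjoinRoot.lift_root]
  · rw [h1, AdjoinRoot.lift_root]

private lemma ppf_ne {r : ℕ} (hr : 2 ≤ r) {β : ℚ} (hβi : Irreducible (X ^ r - C β : ℚ[X])) :
    β ≠ 0 := by
  rintro rfl
  rw [C_0, sub_zero] at hβi
  exact not_irreducible_pow (by omega) hβi

open Classical in
theorem fib_card {r : ℕ} (hr : 2 ≤ r) {β : ℚ} (hβi : Irreducible (X ^ r - C β : ℚ[X]))
    {f : ℤ[X][X]} {d : ℕ} {pd : PData f d} (h : ThS r β pd) (ρ : ℂ) :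
    r * (h.S.filter fun i => h.th i = ρ).card ≤ d := by
  have hβ : β ≠ 0 := ppf_ne hr hβi
  have hβ' : (β : ℂ) ≠ 0 := by exact_mod_cast hβ
  have hd : h.S.card ≤ d := by
    have := card_le_univ h.S
    rwa [Fintype.card_fin] at this
  by_cases hρ : ρ ^ r = (β : ℂ)
  · have hprim := Complex.isPrimitiveRoot_exp r (by omega)
    set Rt : Finset ℂ := (nthRoots r (β : ℂ)).toFinset with hRt
    have hmem : ∀ z, z ∈ Rt ↔ z ^ r = (β : ℂ) := by
      intro z
      rw [hRt, Multiset.mem_toFinset, mem_nthRoots (by omega)]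
    have hcard : Rt.card = r := by
      rw [hRt, Multiset.toFinset_card_of_nodup (hprim.nthRoots_nodup hβ'),
        hprim.card_nthRoots, if_pos ⟨ρ, hρ⟩]
    have h1 : h.S.card = ∑ z ∈ Rt, (h.S.filter fun i => h.th i = z).card :=
      card_eq_sum_card_fiberwise fun i _ => (hmem _).2 (h.root i)
    have h2 : ∀ z ∈ Rt, (h.S.filter fun i => h.th i = ρ).card ≤
        (h.S.filter fun i => h.th i = z).card := by
      intro z hz
      obtain ⟨a, σ, ha, hσ⟩ := ppf_conj hβi hρ ((hmem z).1 hz)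
      obtain ⟨π, hπ⟩ := perm_gal pd σ
      refine card_le_card_of_injOn π ?_ (fun _ _ _ _ hij => π.injective hij)
      intro i hi
      have hi' := mem_filter.1 hi
      obtain ⟨h3, h4⟩ := h.gal σ i hi'.1 (π i) (hπ i)
      refine mem_filter.2 ⟨h3, ?_⟩
      rw [← h4 a (by rw [ha, hi'.2]), hσ]
    calc r * (h.S.filter fun i => h.th i = ρ).card
        = ∑ _z ∈ Rt, (h.S.filter fun i => h.th i = ρ).card := by
          rw [sum_const, hcard, smul_eq_mul]
      _ ≤ ∑ z ∈ Rt, (h.S.filter fun i => h.th i = z).card := sum_le_sum h2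
      _ = h.S.card := h1.symm
      _ ≤ d := hd
  · have h0 : (h.S.filter fun i => h.th i = ρ) = ∅ := by
      apply filter_eq_empty_iff.2
      intro i _ hi
      exact hρ (by rw [← hi]; exact h.root i)
    rw [h0, card_empty, mul_zero]
    exact Nat.zero_le _

theorem pp4_stb {r n : ℕ} (hr : 1 ≤ r) (P : Fin 4 → Ptd n) (β : Fin 4 → ℚ)
    (h : ∀ v, ThS r (β v) (P v).C.pd) : Stb P (PP4 P β h) := by
  classical
  have halg : ∀ (v : Fin 4) (i : Fin (P v).d), (h v).th i ∈ AA := by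
    intro v i
    rw [mem_algebraicClosure_iff]
    refine ⟨X ^ r - C (β v), ?_, ?_⟩
    · exact X_pow_sub_C_ne_zero (by omega) _
    · rw [map_sub, map_pow, aeval_X, aeval_C, (h v).root i]
      simp
  refine ⟨fun σ p hp p' hpp => ?_, fun ζ hζ p hp p' hpp => ?_⟩
  · unfold PP4 at hp ⊢
    rw [mem_filter] at hp ⊢
    obtain ⟨_, h1, h2⟩ := hp
    have h3 := fun v => (h v).gal σ (p v) (h1 v) (p' v) (fun k a ha => hpp v k a ha)
    refine ⟨mem_univ _, fun v => (h3 v).1, ?_⟩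
    obtain ⟨a, ha⟩ : ∃ a : Fin 4 → AA, ∀ v, (a v : ℂ) = (h v).th (p v) :=
      ⟨fun v => ⟨(h v).th (p v), halg v (p v)⟩, fun v => rfl⟩
    have h4 : a 1 * a 2 = a 0 * a 3 := by
      apply Subtype.ext
      show (a 1 : ℂ) * (a 2 : ℂ) = (a 0 : ℂ) * (a 3 : ℂ)
      rw [ha, ha, ha, ha, h2]
    rw [← (h3 1).2 (a 1) (ha 1), ← (h3 2).2 (a 2) (ha 2), ← (h3 0).2 (a 0) (ha 0),
      ← (h3 3).2 (a 3) (ha 3), ← map_mul, ← map_mul, h4]
  · unfold PP4 at hp ⊢
    rw [mem_filter] at hp ⊢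
    obtain ⟨_, h1, h2⟩ := hp
    have h3 := fun v => (h v).rot (ζ v) (p v) (h1 v) (p' v) (hζ v) (hpp v)
    refine ⟨mem_univ _, fun v => (h3 v).1, ?_⟩
    rw [(h3 1).2, (h3 2).2, (h3 0).2, (h3 3).2, h2]

theorem pp4_card {r n : ℕ} (hr : 2 ≤ r) (P : Fin 4 → Ptd n) (β : Fin 4 → ℚ)
    (h : ∀ v, ThS r (β v) (P v).C.pd) (hβ : β 0 ≠ 0)
    (hi : Irreducible (X ^ r - C (β 3) : ℚ[X])) : r * (PP4 P β h).card ≤ ∏ v, (P v).d := by
  classical
  let f : (∀ v : Fin 4, Fin (P v).d) → Fin (P 0).d × Fin (P 1).d × Fin (P 2).d :=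
    fun p => (p 0, p 1, p 2)
  have h1 : (PP4 P β h).card = ∑ b : Fin (P 0).d × Fin (P 1).d × Fin (P 2).d,
      ((PP4 P β h).filter fun p => f p = b).card :=
    card_eq_sum_card_fiberwise fun _ _ => mem_univ _
  have h2 : ∀ b : Fin (P 0).d × Fin (P 1).d × Fin (P 2).d,
      r * ((PP4 P β h).filter fun p => f p = b).card ≤ (P 3).d := by
    intro b
    have h3 : ((PP4 P β h).filter fun p => f p = b).card ≤
        ((h 3).S.filter fun i => (h 3).th i =
          (h 1).th b.2.1 * (h 2).th b.2.2 / (h 0).th b.1).card := by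
      refine card_le_card_of_injOn (fun p => p 3) ?_ ?_
      · intro p hp
        obtain ⟨hp1, hp2⟩ := mem_filter.1 hp
        unfold PP4 at hp1
        obtain ⟨-, hp3, hp4⟩ := mem_filter.1 hp1
        refine mem_filter.2 ⟨hp3 3, ?_⟩
        have hth0 : (h 0).th (p 0) ≠ 0 := by
          intro h0
          have h5 := (h 0).root (p 0)
          rw [h0, zero_pow (by omega)] at h5
          exact hβ (by exact_mod_cast h5.symm)
        rw [← hp2]
        show (h 3).th (p 3) = (h 1).th (p 1) * (h 2).th (p 2) / (h 0).th (p 0)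
        rw [hp4, mul_div_cancel_left₀ _ hth0]
      · intro p hp p' hp' hpp
        have h5 := (mem_filter.1 hp).2
        have h6 := (mem_filter.1 hp').2
        have h7 : f p = f p' := by rw [h5, h6]
        have e0 : p 0 = p' 0 := congrArg Prod.fst h7
        have e1 : p 1 = p' 1 := congrArg (fun q => q.2.1) h7
        have e2 : p 2 = p' 2 := congrArg (fun q => q.2.2) h7
        have e3 : p 3 = p' 3 := hpp
        funext v
        fin_cases v
        · exact e0
        · exact e1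
        · exact e2
        · exact e3
    exact (Nat.mul_le_mul_left r h3).trans (fib_card hr hi (h 3) _)
  rw [h1, mul_sum]
  refine (sum_le_sum fun b _ => h2 b).trans ?_
  rw [sum_const, card_univ, Fintype.card_prod, Fintype.card_prod, Fintype.card_fin,
    Fintype.card_fin, Fintype.card_fin, smul_eq_mul, Fin.prod_univ_four]
  apply le_of_eq
  ring

end Pool.Agent.H97.NW
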