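import Pool.Agent.H97.NW.RPD
import Pool.Agent.H8.AS.Pt

/-! # [H97 NW THS] The roots attached to the branches

`infn_iff`: for a field `K` of characteristic zero, a ring homomorphism `AdjoinRoot (X^r - C β) → K` exists if and only if `K` contains an `r`-th root of `β` (`AdjoinRoot.lift` with `algebraMap ℚ K`; conversely the image of `AdjoinRoot.root`).
`exists_ThS`: `k = AdjoinRoot (X^r - C β)` is a number field (`1 ≤ r`); `exists_kapR k hinf pd`: `S, kap`; `th i = kap i (root)`. `root`: `kap i (root^r) = kap i β = β`. `gal`: apply to `z = root`. `rot`: `kap j = kap i`.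
`th_real`: as `CrvS.real` (`Pool/Agent/H8/AS/Pt.lean`), with `C` converted to `CrvA ℚ` (`d4 := h4`, `kapQ`) for `CrvA.sep`: complex conjugation followed by the rotation `ζ = conj T / T` fixes the branch `i`, so `i ∈ S` (`real_mem`), and `conj (th i) = th j = th l = th i` (`gal` with
`σ = conj ∘ algebraMap`, `th i` is algebraic; `rot`), i.e. the imaginary part is zero. -/

namespace Pool.Agent.H97.NW

open Finset Polynomial Pool.Agent.H72.ES Pool.Agent.H87.SA2 Pool.Agent.H8.AW Pool.Agent.H52.AC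
  Pool.Agent.H34.AC

private theorem THS_root_pow (r : ℕ) (β : ℚ) [Fact (Irreducible (X ^ r - C β : ℚ[X]))] :
    (AdjoinRoot.root (X ^ r - C β : ℚ[X])) ^ r = AdjoinRoot.of (X ^ r - C β : ℚ[X]) β := by
  have h := AdjoinRoot.eval₂_root (X ^ r - C β : ℚ[X])
  rw [eval₂_sub, eval₂_X_pow, eval₂_C, sub_eq_zero] at h
  exact h

private theorem THS_map_root (r : ℕ) (β : ℚ) [Fact (Irreducible (X ^ r - C β : ℚ[X]))]
    {K : Type} [Field K] (g : AdjoinRoot (X ^ r - C β : ℚ[X]) →+* K) [CharZero K] :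
    g (AdjoinRoot.root (X ^ r - C β : ℚ[X])) ^ r = (β : K) := by
  rw [← map_pow, THS_root_pow]
  exact eq_ratCast (g.comp (AdjoinRoot.of (X ^ r - C β : ℚ[X]))) β

theorem infn_iff (r : ℕ) (β : ℚ) [Fact (Irreducible (X ^ r - C β : ℚ[X]))]
    (F : MvPolynomial (Fin 2) ℤ) :
    INFN r β F ↔ INFR (AdjoinRoot (X ^ r - C β : ℚ[X])) F := by
  have key : ∀ (K : Type) [Field K] [NumberField K],
      (∃ θ : K, θ ^ r = (β : K)) ↔ Nonempty (AdjoinRoot (X ^ r - C β : ℚ[X]) →+* K) := by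
    intro K _ _
    constructor
    · rintro ⟨θ, hθ⟩
      refine ⟨AdjoinRoot.lift (algebraMap ℚ K) θ ?_⟩
      rw [eval₂_sub, eval₂_X_pow, eval₂_C, hθ, eq_ratCast (algebraMap ℚ K) β, sub_self]
    · rintro ⟨g⟩
      exact ⟨_, THS_map_root r β g⟩
  constructor
  · intro h K _ _ hK X Y hXY
    rcases h K hK X Y hXY with h1 | h1
    · exact Or.inl h1
    · exact Or.inr ((key K).1 h1)
  · intro h K _ _ hK X Y hXY
    rcases h K hK X Y hXY with h1 | h1
    · exact Or.inl h1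
    · exact Or.inr ((key K).2 h1)

theorem exists_ThS (r : ℕ) (hr : 1 ≤ r) (β : ℚ) [Fact (Irreducible (X ^ r - C β : ℚ[X]))]
    {f : ℤ[X][X]} {d : ℕ} (pd : PData f d)
    (hinf : INF1R (AdjoinRoot (X ^ r - C β : ℚ[X])) f) : Nonempty (ThS r β pd) := by
  obtain ⟨S, kap, h1, h2, h3⟩ := exists_kapR (AdjoinRoot (X ^ r - C β : ℚ[X])) hinf pd
  refine ⟨⟨S, fun i => kap i (AdjoinRoot.root (X ^ r - C β : ℚ[X])), ?_, h1, ?_, ?_⟩⟩
  · intro i
    exact THS_map_root r β (kap i)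
  · intro σ i hi j h
    obtain ⟨h4, h5⟩ := h2 σ i hi j h
    exact ⟨h4, fun a ha => h5 _ a ha⟩
  · intro ζ i hi j hζ h
    obtain ⟨h4, h5⟩ := h3 ζ i hi j hζ h
    exact ⟨h4, by rw [h5]⟩

/-- conversion to a curve with `ℚ` at infinity -/
private noncomputable def THS_toQ {n d b : ℕ} {F : ℕ → ℕ → ℤ} (C : CrvB n d b F) (h4 : 4 ≤ d) :
    CrvA ℚ n d b F where
  d4 := h4
  dn := C.dn
  b2 := C.b2
  lead := C.lead
  le := C.le
  irr := C.irr
  pd := C.pd
  e_le := C.e_le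
  q_le := C.q_le
  R_le := C.R_le
  kp := Pool.Agent.H8.AS.kapQ C.pd
  bez := C.bez

theorem th_real {r n d b : ℕ} (hr : 1 ≤ r) {β : ℚ} {F : ℕ → ℕ → ℤ} (C : CrvB n d b F)
    (h4 : 4 ≤ d) (h : ThS r β C.pd) {x y : ℤ} (hx : (b : ℝ) + 1 ≤ |(x : ℝ)|) {T : ℂ}
    (hT : C.pd.R * ‖T‖ < 1) (hTx : ((C.pd.q : ℂ) * T) ^ C.pd.e * (x : ℂ) = 1) {i : Fin d}
    (hi : evz T (C.pd.x i) = (y : ℂ) / (x : ℂ)) : i ∈ h.S ∧ (h.th i).im = 0 := by
  have hi' : evT T (C.pd.x i) = (y : ℂ) / (x : ℂ) := hi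
  have hxC : (x : ℂ) ≠ 0 := by
    rintro h
    rw [h, mul_zero] at hTx
    exact zero_ne_one hTx
  have ht : ((C.pd.q : ℂ) * T) ^ C.pd.e = 1 / (x : ℂ) := by
    rw [eq_div_iff hxC]
    exact hTx
  have he : C.pd.e ≠ 0 := by have := C.pd.e_pos; omega
  have hT0 : T ≠ 0 := by
    rintro rfl
    rw [mul_zero, zero_pow he] at ht
    exact one_div_ne_zero hxC ht.symm
  have hq0 : (C.pd.q : ℂ) ≠ 0 := by
    have := C.pd.q_pos
    exact_mod_cast (by omega : C.pd.q ≠ 0)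
  obtain ⟨j, hj⟩ := perm_of C.pd (PowerSeries.map (starRingEnd ℂ)) (tq_conj' _ _) i
  set ζ : ℂ := starRingEnd ℂ T / T with hζ
  have hζT : ζ * T = starRingEnd ℂ T := by rw [hζ]; field_simp
  have hζe : ζ ^ C.pd.e = 1 := by
    have h1 : starRingEnd ℂ (((C.pd.q : ℂ) * T) ^ C.pd.e) = ((C.pd.q : ℂ) * T) ^ C.pd.e := by
      rw [ht]
      simp
    rw [map_pow, map_mul, Complex.conj_natCast, mul_pow, mul_pow] at h1
    have h2 := mul_left_cancel₀ (pow_ne_zero _ hq0) h1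
    rw [hζ, div_pow, h2]
    exact div_self (pow_ne_zero _ hT0)
  obtain ⟨l, hl⟩ := perm_of C.pd (PowerSeries.rescale ζ) (tq_rescale hζe) j
  have hev : evT T (C.pd.x l) = (y : ℂ) / (x : ℂ) := by
    rw [← hl, evT_rescale, hζT, ← hj, evT_conj, hi']
    simp
  have hli : l = i := (THS_toQ C h4).sep hx hT hTx (hev.trans hi'.symm)
  have hiS : i ∈ h.S := by
    refine h.real_mem i ζ hζe ?_
    have h1 : PowerSeries.map (starRingEnd ℂ) (C.pd.x i) = C.pd.x j := hj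
    rw [h1, hl, hli]
  refine ⟨hiS, ?_⟩
  obtain ⟨hjS, hk2'⟩ := h.gal ((starRingEnd ℂ).comp (algebraMap AA ℂ)) i hiS j (by
    intro m a ha
    rw [← hj]
    change starRingEnd ℂ (a : ℂ) = PowerSeries.coeff m ((C.pd.x i).map (starRingEnd ℂ))
    rw [PowerSeries.coeff_map, ha])
  have hk1 : h.th l = h.th j := (h.rot ζ j hjS l hζe hl).2
  have halg : h.th i ∈ AA := by
    rw [mem_algebraicClosure_iff]
    have h2 : IsIntegral ℚ (h.th i ^ r) := by
      rw [h.root i]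
      have h3 : (β : ℂ) = algebraMap ℚ ℂ β := (eq_ratCast (algebraMap ℚ ℂ) β).symm
      rw [h3]
      exact isIntegral_algebraMap
    exact (IsIntegral.of_pow hr h2).isAlgebraic
  have hk2 : starRingEnd ℂ (h.th i) = h.th j := hk2' ⟨_, halg⟩ rfl
  rw [← hk1, hli] at hk2
  exact Complex.conj_eq_iff_im.1 hk2

end Pool.Agent.H97.NW
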