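import Pool.Agent.H97.NW.RSL
import Pool.Agent.H97.NW.HAS
import Pool.Agent.H97.NW.HSB
import Pool.Agent.H97.NW.FCT
import Pool.Agent.H97.NW.PGZ

/-! # [H97 NW ZLM] The zero estimate in two variables

Write `l = log |x|`, `l' = log |y|`, `D = W.natDegree ≤ M Y / l'`. Choose `A ≥ 8 R M (1+R)/σ`, `A > 2 (1+R)`, `C` from `fct A`, `C1 = C (1 + A) + 4 log (A+1)`,
`δ = min (σ/(16 R A)) (σ/(4 (c0+1) R))`, `L0 ≥ 1`, `> 2 C1`, `≥ 8 R M (C1 + A)/σ + ..`, `≥ 2 c0 (C + 2 C M/σ)` (strict where needed).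
(1) `P0` from `exists_P0 A`, `p` from `exists_irr`, `p ∣ P0`: `natDegree ≤ A`, `XD A p` (`xd_of_dvd`). `fct` with `W = P0`, `m = 1`: `log L2 p ≤ (l + l')/A + C1`. `0 ≤ log L2 p` (`p ≠ 0`).
(2) `1 ≤ p.natDegree`: otherwise `p = C p0`, `p0 ∈ ℤ[X]` irreducible with `p0.eval x = 0` (`Lam x y (C p0) = p0.eval x`), `(X - C x) ∣ p0`, associated, `L2 p = L1 p0 ≥ |x|`, so
`l ≤ (1+R) l/A + C1 ≤ l/2 + C1`, `l ≤ 2 C1 < L0`, contradiction.
(3) `W = p^m * V`, `¬ p ∣ V` (`exists_mult`). Case `m l' < σ Y/2`: `W1 = hasseDeriv m W`, `k = ⌈σ Y/(2 max l l')⌉₊`. For `i + j < k`: `(i + j) max l l' < σ Y/2`, so `l i + l' (j + m) < σ Y` and the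
coefficient of `tr x y W` vanishes: `Van x y k W1` by `hasse_tr`. `ρ = resultant W1 p ≠ 0` (`res_ne`, `hasse_ndvd`), `|x|^k ≤ L1 ρ ≤ L2 p ^ natDegree W1 * L2 W1 ^ natDegree p`
(`van_resultant`, `pow_le_L1`, `L1_resultant_le`), `natDegree W1 ≤ D`, `L2 W1 ≤ 2^D L2 W`, `1 ≤ L2 p`, `1 ≤ L2 W1`. So
`k l ≤ D log L2 p + A (D log 2 + δ Y)` and `k l ≥ σ Y/(2 R)`, `D ≤ M Y/l'`, `l ≤ R l'`: `σ/(2R) ≤ M (1+R)/A + M C1/L0 + A M/L0 + A δ`, contradiction.
(4) Case `m l' ≥ σ Y/2` (so `m ≥ 1`): `fct`: `log L2 p ≤ C + (D C + δ Y)/m ≤ C + 2 C M/σ + 2 δ l'/σ`, so `c0 log L2 p ≤ L0/2 + l'/(2R) ≤ min l l'`. -/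

namespace Pool.Agent.H97.NW

open Finset Polynomial Pool.Agent.H72.ES

private theorem zlm_one_le (p : ℤ[X][X]) (hp : p ≠ 0) : 1 ≤ L2 p := by
  obtain ⟨j, hj⟩ : ∃ j, p.coeff j ≠ 0 := by
    by_contra hcon
    push Not at hcon
    exact hp (Polynomial.ext fun j => by rw [hcon j, coeff_zero])
  obtain ⟨i, hi⟩ : ∃ i, (p.coeff j).coeff i ≠ 0 := by
    by_contra hcon
    push Not at hcon
    exact hj (Polynomial.ext fun i => by rw [hcon i, coeff_zero])
  have h1 := coeff_le_L1 (p.coeff j) i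
  have h2 : L1 (p.coeff j) ≤ L2 p := coeff_le_LN subMul_L1 p j
  have h3 : (1 : ℝ) ≤ |(((p.coeff j).coeff i : ℤ) : ℝ)| := by
    exact_mod_cast Int.one_le_abs hi
  linarith

/-- the final inequality of the first case -/
private theorem zlm_ineq (σ R M A C1 L0 l l' Y δ D k P W : ℝ) (hσ : 0 < σ) (hR : 1 ≤ R)
    (hM : 1 ≤ M) (hA0 : 0 < A) (hA : 8 * R * M * (1 + R) ≤ σ * A) (hC1 : 0 ≤ C1)
    (hL0 : 0 < L0) (hL : 8 * R * M * (C1 + A) ≤ σ * L0) (hδ : 16 * R * A * δ ≤ σ)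
    (hY : 0 < Y) (hl : L0 ≤ l) (hl' : L0 ≤ l') (h1 : l ≤ R * l') (h2 : l' ≤ R * l)
    (hD0 : 0 ≤ D) (hD : D * l' ≤ M * Y) (hk : σ * Y / (2 * max l l') ≤ k)
    (hP0 : 0 ≤ P) (hP : P ≤ (l + l') / A + C1) (hW : W ≤ δ * Y)
    (hmain : k * l ≤ D * P + A * (D * Real.log 2 + W)) : False := by
  have hl0 : 0 < l := by linarith
  have hl'0 : 0 < l' := by linarith
  have hR0 : 0 < R := by linarith
  have hmx : max l l' ≤ R * l := max_le (by nlinarith) h2
  have hmx0 : 0 < max l l' := lt_max_of_lt_left hl0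
  have e1 : σ * Y / (2 * R) ≤ k * l := by
    have a1 : σ * Y / (2 * R) ≤ σ * Y / (2 * max l l') * l := by
      rw [div_mul_eq_mul_div, div_le_div_iff₀ (by positivity) (by positivity)]
      have := mul_le_mul_of_nonneg_left hmx (by positivity : 0 ≤ 2 * (σ * Y))
      nlinarith
    exact a1.trans (mul_le_mul_of_nonneg_right hk hl0.le)
  have e2 : D ≤ M * Y / L0 := by
    rw [le_div_iff₀ hL0]
    exact (mul_le_mul_of_nonneg_left hl' hD0).trans hD
  have e3 : D * P ≤ M * Y * (1 + R) / A + C1 * (M * Y / L0) := by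
    have a1 : P ≤ (1 + R) * l' / A + C1 := by
      refine hP.trans ?_
      have : (l + l') / A ≤ (1 + R) * l' / A := by
        apply div_le_div_of_nonneg_right _ hA0.le
        linarith
      linarith
    calc D * P ≤ D * ((1 + R) * l' / A + C1) := mul_le_mul_of_nonneg_left a1 hD0
      _ = (D * l') * ((1 + R) / A) + C1 * D := by ring
      _ ≤ (M * Y) * ((1 + R) / A) + C1 * (M * Y / L0) :=
          add_le_add (mul_le_mul_of_nonneg_right hD (by positivity)) (mul_le_mul_of_nonneg_left e2 hC1)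
      _ = _ := by ring
  have hlog2 : Real.log 2 ≤ 1 := by
    have := Real.log_two_lt_d9
    linarith
  have hlog20 : 0 < Real.log 2 := Real.log_pos (by norm_num)
  have e4 : A * (D * Real.log 2 + W) ≤ A * (M * Y / L0) + A * δ * Y := by
    have a1 : D * Real.log 2 ≤ M * Y / L0 :=
      (mul_le_of_le_one_right hD0 hlog2).trans e2
    calc A * (D * Real.log 2 + W) ≤ A * (M * Y / L0 + δ * Y) :=
          mul_le_mul_of_nonneg_left (add_le_add a1 hW) hA0.le
      _ = _ := by ring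
  -- the three parts
  have f1 : M * Y * (1 + R) / A ≤ σ * Y / (8 * R) := by
    rw [div_le_div_iff₀ hA0 (by positivity)]
    have := mul_le_mul_of_nonneg_right hA hY.le
    nlinarith
  have f2 : C1 * (M * Y / L0) + A * (M * Y / L0) ≤ σ * Y / (8 * R) := by
    have a1 : C1 * (M * Y / L0) + A * (M * Y / L0) = M * (C1 + A) * Y / L0 := by ring
    rw [a1, div_le_div_iff₀ hL0 (by positivity)]
    have := mul_le_mul_of_nonneg_right hL hY.le
    nlinarith
  have f3 : A * δ * Y ≤ σ * Y / (16 * R) := by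
    rw [le_div_iff₀ (by positivity)]
    have := mul_le_mul_of_nonneg_right hδ hY.le
    nlinarith
  have f4 : σ * Y / (8 * R) = 2 * (σ * Y / (16 * R)) := by field_simp; norm_num
  have f5 : σ * Y / (2 * R) = 8 * (σ * Y / (16 * R)) := by field_simp; norm_num
  have f6 : 0 < σ * Y / (16 * R) := by positivity
  rw [f4] at f1 f2
  rw [f5] at e1
  linarith

theorem zlem (σ R M : ℝ) (hσ : 0 < σ) (hR : 1 ≤ R) (hM : 1 ≤ M) : ∃ A : ℕ, ∀ c0 : ℕ, ∃ δ L0 : ℝ,
    0 < δ ∧ 1 ≤ L0 ∧ ∀ (W : ℤ[X][X]) (x y : ℤ) (Y : ℝ), W ≠ 0 → 0 < Y →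
      L0 ≤ Real.log |(x : ℝ)| → L0 ≤ Real.log |(y : ℝ)| →
      Real.log |(x : ℝ)| ≤ R * Real.log |(y : ℝ)| → Real.log |(y : ℝ)| ≤ R * Real.log |(x : ℝ)| →
      (W.natDegree : ℝ) * Real.log |(y : ℝ)| ≤ M * Y → Real.log (L2 W) ≤ δ * Y →
      (∀ i j : ℕ, Real.log |(x : ℝ)| * i + Real.log |(y : ℝ)| * j < σ * Y →
        ((tr x y W).coeff j).coeff i = 0) →
      ∃ p : ℤ[X][X], Irreducible p ∧ p.natDegree ≤ A ∧ XD A p ∧ Lam x y p = 0 ∧
        c0 * Real.log (L2 p) ≤ Real.log |(x : ℝ)| ∧ c0 * Real.log (L2 p) ≤ Real.log |(y : ℝ)| := by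
  have hR0 : 0 < R := by linarith
  have hM0 : 0 < M := by linarith
  set A : ℕ := ⌈8 * R * M * (1 + R) / σ⌉₊ + ⌈2 * (1 + R)⌉₊ + 1 with hAdef
  have hA1 : 1 ≤ A := by omega
  have hA0 : (0 : ℝ) < A := by exact_mod_cast hA1
  have hA2 : 8 * R * M * (1 + R) ≤ σ * A := by
    have h1 : 8 * R * M * (1 + R) / σ ≤ A :=
      (Nat.le_ceil _).trans (by exact_mod_cast (by omega : ⌈8 * R * M * (1 + R) / σ⌉₊ ≤ A))
    rw [div_le_iff₀ hσ] at h1
    linarith
  have hA3 : 2 * (1 + R) ≤ A :=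
    (Nat.le_ceil _).trans (by exact_mod_cast (by omega : ⌈2 * (1 + R)⌉₊ ≤ A))
  obtain ⟨C, hC, hfct⟩ := fct A
  have hlogA : 0 ≤ Real.log ((A : ℝ) + 1) := Real.log_nonneg (by linarith)
  set C1 : ℝ := C * (1 + A) + 4 * Real.log (A + 1) with hC1
  have hC10 : 0 ≤ C1 := by positivity
  refine ⟨A, ?_⟩
  intro c0
  have hc0 : (0 : ℝ) ≤ c0 := Nat.cast_nonneg _
  set δ : ℝ := min (σ / (16 * R * A)) (σ / (4 * (c0 + 1) * R)) with hδ
  have hδ0 : 0 < δ := lt_min (by positivity) (by positivity)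
  have hδ1 : 16 * R * A * δ ≤ σ := by
    have h1 : δ ≤ σ / (16 * R * A) := min_le_left _ _
    rw [le_div_iff₀ (by positivity)] at h1
    linarith
  have hδ2 : 4 * (c0 + 1) * R * δ ≤ σ := by
    have h1 : δ ≤ σ / (4 * (c0 + 1) * R) := min_le_right _ _
    rw [le_div_iff₀ (by positivity)] at h1
    linarith
  set L0 : ℝ := max (2 * C1 + 1) (max (8 * R * M * (C1 + A) / σ) (2 * c0 * (C + 2 * C * M / σ)))
    with hL0
  have hL1 : 2 * C1 + 1 ≤ L0 := le_max_left _ _
  have hL2 : 8 * R * M * (C1 + A) ≤ σ * L0 := by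
    have h1 : 8 * R * M * (C1 + A) / σ ≤ L0 := (le_max_left _ _).trans (le_max_right _ _)
    rw [div_le_iff₀ hσ] at h1
    linarith
  have hL3 : 2 * c0 * (C + 2 * C * M / σ) ≤ L0 := (le_max_right _ _).trans (le_max_right _ _)
  have hL00 : 1 ≤ L0 := by linarith
  refine ⟨δ, L0, hδ0, hL00, ?_⟩
  intro W x y Y hW0 hY hlx hly hxy hyx hdeg hWlog hvan
  set l : ℝ := Real.log |(x : ℝ)| with hl
  set l' : ℝ := Real.log |(y : ℝ)| with hl'
  have hl0 : 0 < l := by linarith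
  have hl'0 : 0 < l' := by linarith
  have habs : ∀ z : ℤ, 1 ≤ Real.log |(z : ℝ)| → 2 ≤ |z| := by
    intro z hz
    have h0 : (0 : ℝ) < |(z : ℝ)| := by
      by_contra hcon
      push Not at hcon
      have h1 : |(z : ℝ)| = 0 := le_antisymm hcon (abs_nonneg _)
      rw [h1, Real.log_zero] at hz
      linarith
    have h1 := (Real.le_log_iff_exp_le h0).mp hz
    have h2 := Real.add_one_le_exp (1 : ℝ)
    have h3 : (2 : ℝ) ≤ |(z : ℝ)| := by linarith
    exact_mod_cast h3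
  have hx2 : 2 ≤ |x| := habs x (by linarith)
  have hy2 : 2 ≤ |y| := habs y (by linarith)
  have hx0 : x ≠ 0 := by
    rintro rfl
    simp at hx2
  have hxa : (0 : ℝ) < |(x : ℝ)| := by
    rw [abs_pos]
    exact_mod_cast hx0
  -- the irreducible polynomial
  obtain ⟨P0, hP00, hP0d, hP0X, hP0z, hP0l⟩ := exists_P0 A hA1 x y hx2 hy2
  obtain ⟨p, hpi, hpd, hpz⟩ := exists_irr x y P0 hP00 hP0z
  have hp0 : p ≠ 0 := hpi.ne_zero
  have hpA : p.natDegree ≤ A := (natDegree_le_of_dvd hpd hP00).trans hP0d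
  have hpX : XD A p := xd_of_dvd hP00 hpd hP0X
  have hLp1 : 1 ≤ L2 p := zlm_one_le p hp0
  have hLp0 : 0 ≤ Real.log (L2 p) := Real.log_nonneg hLp1
  have hLp : Real.log (L2 p) ≤ (l + l') / A + C1 := by
    have h1 := hfct p P0 1 hpi hpA hpX hP00 (by rwa [pow_one])
    have h2 : (P0.natDegree : ℝ) ≤ A := by exact_mod_cast hP0d
    have h3 := mul_le_mul_of_nonneg_right h2 (by linarith : (0 : ℝ) ≤ C)
    rw [Nat.cast_one, one_mul, one_mul] at h1
    have h4 : Real.log ((A : ℝ) + 1) = Real.log (A + 1) := rfl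
    rw [hC1]
    linarith
  -- positive degree
  have hpd1 : 1 ≤ p.natDegree := by
    by_contra hcon
    have h0 : p.natDegree = 0 := by omega
    obtain ⟨p0, hp0'⟩ : ∃ p0 : ℤ[X], p = Polynomial.C p0 := ⟨p.coeff 0, eq_C_of_natDegree_eq_zero h0⟩
    have hne : p0 ≠ 0 := by
      rintro rfl
      exact hp0 (by rw [hp0', map_zero])
    have hroot : p0.eval x = 0 := by
      have h1 := hpz
      rw [hp0'] at h1
      have h2 : Lam x y (Polynomial.C p0) = p0.eval x := by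
        simp [Lam, eval₂_at_apply, Polynomial.eval₂_eq_eval_map]
      rw [h2] at h1
      exact h1
    have hdvd : (X - Polynomial.C x) ^ 1 ∣ p0 := by
      rw [pow_one]
      exact dvd_iff_isRoot.mpr hroot
    have h1 := pow_le_L1 hx0 hne hdvd
    rw [pow_one] at h1
    have h2 : L2 p = L1 p0 := by
      rw [hp0', L2_eq_LN, LN_C subMul_L1]
    rw [← h2] at h1
    have h3 : l ≤ Real.log (L2 p) := Real.log_le_log hxa h1
    have h4 : (l + l') / A ≤ l / 2 := by
      rw [div_le_div_iff₀ hA0 two_pos]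
      nlinarith
    linarith
  -- multiplicity
  obtain ⟨m, V, hWV, hVn⟩ := exists_mult p W hpi hW0
  have hD0 : (0 : ℝ) ≤ (W.natDegree : ℝ) := Nat.cast_nonneg _
  by_cases hcase : (m : ℝ) * l' < σ * Y / 2
  · exfalso
    set W1 : ℤ[X][X] := hasseDeriv m W with hW1
    set k : ℕ := ⌈σ * Y / (2 * max l l')⌉₊ with hk
    have hmx0 : 0 < max l l' := lt_max_of_lt_left hl0
    have hVan : Van x y k W1 := by
      intro i j hij
      rw [hW1, hasse_tr]
      have h1 : ((i + j : ℕ) : ℝ) < σ * Y / (2 * max l l') := Nat.lt_ceil.mp hij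
      rw [lt_div_iff₀ (by positivity)] at h1
      push_cast at h1
      have h2 : l * i ≤ max l l' * i := mul_le_mul_of_nonneg_right (le_max_left _ _) (Nat.cast_nonneg _)
      have h3 : l' * j ≤ max l l' * j := mul_le_mul_of_nonneg_right (le_max_right _ _) (Nat.cast_nonneg _)
      have h4 := hvan i (j + m) (by push_cast; nlinarith)
      rw [h4, mul_zero]
    have hndvd : ¬ p ∣ W1 := by
      rw [hW1, hWV]
      exact hasse_ndvd p V hpi hpd1 m hVn
    have hW10 : W1 ≠ 0 := by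
      intro h
      exact hndvd (h ▸ dvd_zero p)
    have hρ : resultant W1 p ≠ 0 := res_ne W1 p hpi hpd1 hndvd
    have hdv := van_resultant x y W1 p hpd1 hpz k hVan
    have hL1 := pow_le_L1 hx0 hρ hdv
    have hres := L1_resultant_le W1 p
    have hLW1 : 1 ≤ L2 W1 := zlm_one_le W1 hW10
    have hLW0 : 1 ≤ L2 W := zlm_one_le W hW0
    have hdW1 : W1.natDegree ≤ W.natDegree := (natDegree_hasseDeriv_le W m).trans (Nat.sub_le _ _)
    have hLWle : L2 W1 ≤ 2 ^ W.natDegree * L2 W := L2_hasse_le m W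
    have hmain : (k : ℝ) * l ≤ (W.natDegree : ℝ) * Real.log (L2 p) +
        A * ((W.natDegree : ℝ) * Real.log 2 + Real.log (L2 W)) := by
      have h1 : |(x : ℝ)| ^ k ≤ L2 p ^ W.natDegree * (2 ^ W.natDegree * L2 W) ^ A := by
        refine hL1.trans (hres.trans ?_)
        apply mul_le_mul (pow_le_pow_right₀ hLp1 hdW1) _ (by positivity) (by positivity)
        calc L2 W1 ^ p.natDegree ≤ L2 W1 ^ A := pow_le_pow_right₀ hLW1 hpA
          _ ≤ (2 ^ W.natDegree * L2 W) ^ A := pow_le_pow_left₀ (by linarith) hLWle A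
      have h2 := Real.log_le_log (by positivity) h1
      rw [Real.log_pow, Real.log_mul (by positivity) (by positivity), Real.log_pow, Real.log_pow,
        Real.log_mul (by positivity) (by positivity), Real.log_pow] at h2
      exact h2
    exact zlm_ineq σ R M A C1 L0 l l' Y δ W.natDegree k (Real.log (L2 p)) (Real.log (L2 W)) hσ hR hM
      hA0 hA2 hC10 (by linarith) hL2 hδ1 hY hlx hly hxy hyx hD0 hdeg (Nat.le_ceil _) hLp0 hLp hWlog
      hmain
  · push Not at hcase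
    have hm0 : (0 : ℝ) < m := by
      by_contra hcon
      push Not at hcon
      have h1 : (m : ℝ) * l' ≤ 0 := mul_nonpos_of_nonpos_of_nonneg hcon hl'0.le
      have h2 : 0 < σ * Y / 2 := by positivity
      linarith
    have h1 := hfct p W m hpi hpA hpX hW0 ⟨V, hWV⟩
    -- divide by `m`
    have h2 : Real.log (L2 p) ≤ C + 2 * C * M / σ + 2 * δ * l' / σ := by
      have h3 : (W.natDegree : ℝ) * C ≤ m * (2 * C * M / σ) := by
        rw [mul_div_assoc', le_div_iff₀ hσ]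
        -- D C σ ≤ m 2 C M  from D l' ≤ M Y and σ Y / 2 ≤ m l'
        have a1 : (W.natDegree : ℝ) * σ * l' ≤ m * (2 * M) * l' := by
          have b1 := mul_le_mul_of_nonneg_left hdeg hσ.le
          have b2 := mul_le_mul_of_nonneg_left hcase (by positivity : (0 : ℝ) ≤ 2 * M)
          nlinarith
        have a2 := le_of_mul_le_mul_right a1 hl'0
        have a3 := mul_le_mul_of_nonneg_right a2 (by linarith : (0 : ℝ) ≤ C)
        linarith
      have h4 : δ * Y ≤ m * (2 * δ * l' / σ) := by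
        rw [mul_div_assoc', le_div_iff₀ hσ]
        have b2 := mul_le_mul_of_nonneg_left hcase (by positivity : (0 : ℝ) ≤ 2 * δ)
        linarith
      have h5 : m * Real.log (L2 p) ≤ m * (C + 2 * C * M / σ + 2 * δ * l' / σ) := by
        have : m * (C + 2 * C * M / σ + 2 * δ * l' / σ) =
          m * C + m * (2 * C * M / σ) + m * (2 * δ * l' / σ) := by ring
        rw [this]
        linarith
      exact le_of_mul_le_mul_left h5 hm0
    have h3 : c0 * Real.log (L2 p) ≤ L0 / 2 + l' / (2 * R) := by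
      have h4 : (c0 : ℝ) * Real.log (L2 p) ≤ c0 * (C + 2 * C * M / σ + 2 * δ * l' / σ) :=
        mul_le_mul_of_nonneg_left h2 hc0
      have h5 : (c0 : ℝ) * (2 * δ * l' / σ) ≤ l' / (2 * R) := by
        rw [mul_div_assoc', div_le_div_iff₀ hσ (by positivity)]
        have a1 : 4 * c0 * R * δ ≤ σ := by
          have : 0 ≤ 4 * R * δ := by positivity
          nlinarith
        have := mul_le_mul_of_nonneg_right a1 hl'0.le
        nlinarith
      have h6 : (c0 : ℝ) * (C + 2 * C * M / σ + 2 * δ * l' / σ) =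
        c0 * (C + 2 * C * M / σ) + c0 * (2 * δ * l' / σ) := by ring
      rw [h6] at h4
      linarith
    refine ⟨p, hpi, hpA, hpX, hpz, h3.trans ?_, h3.trans ?_⟩
    · have h4 : l' / (2 * R) ≤ l / 2 := by
        rw [div_le_div_iff₀ (by positivity) two_pos]
        nlinarith
      linarith
    · have h4 : l' / (2 * R) ≤ l' / 2 := by
        apply div_le_div_of_nonneg_left hl'0.le two_pos
        linarith
      linarith

end Pool.Agent.H97.NW
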